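import Mathlib

/-!
# Thin sets of relations and random sets

`T` is a set of objects with heights `H t ≥ 1` and a convergent sum of the `H t ^ (-p)`. If `A` is a
random set, two different elements `m`, `n` of which occur together with probability at most
`C * (|m| |n|) ^ (-γ)`, the probability that `A` contains two given elements of size about `H t` of
the object `t` is `O (H t ^ (-2 γ))`; so this happens for only finitely many `t` when `p ≤ 2 γ`.
-/

set_option autoImplicit false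

namespace Pool.Agent.R909.RS

open Filter Topology MeasureTheory

/-- `n` belongs to the random set `A` with probability at most `C * |n| ^ (-γ)` -/
def Sparse {M Ω : Type} [MeasurableSpace Ω] (P : Measure Ω) (nm : M → ℝ) (A : Ω → Set M)
    (γ C : ℝ) : Prop :=
  ∀ n : M, 0 < nm n → P {ω | n ∈ A ω} ≤ ENNReal.ofReal (C * nm n ^ (-γ))

/-- two different elements `m`, `n` belong to the random set `A` with probability at most
`C * (|m| |n|) ^ (-γ)` -/
def PairSparse {M Ω : Type} [MeasurableSpace Ω] (P : Measure Ω) (nm : M → ℝ) (A : Ω → Set M)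
    (γ C : ℝ) : Prop :=
  ∀ m n : M, 0 < nm m → 0 < nm n → m ≠ n →
    P {ω | m ∈ A ω ∧ n ∈ A ω} ≤ ENNReal.ofReal (C * (nm m * nm n) ^ (-γ))

variable {T Ω : Type} [MeasurableSpace Ω] {P : Measure Ω} {H : T → ℝ}

/-- The lemma of Borel and Cantelli with a tail bound. -/
theorem main (h1 : ∀ t, 1 ≤ H t) {E : T → Set Ω} {C q p η : ℝ}
    (hE : ∀ t, P (E t) ≤ ENNReal.ofReal (C * H t ^ (-q))) (hη : 0 ≤ η) (hp : p + η ≤ q)
    (hH : Summable fun t => H t ^ (-p)) :
    (∀ᵐ ω ∂P, {t | ω ∈ E t}.Finite) ∧ ∃ B : ℝ, ∀ y : ℝ, 1 ≤ y →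
      P {ω | ∃ t, y ≤ H t ∧ ω ∈ E t} ≤ ENNReal.ofReal (B * y ^ (-η)) := by
  classical
  have hnn : ∀ t, 0 ≤ H t := fun t => by linarith [h1 t]
  have hcount : Countable T := by
    have h2 := hH.countable_support
    have h3 : Function.support (fun t => H t ^ (-p)) = Set.univ := by
      ext t
      simp only [Function.mem_support, Set.mem_univ, iff_true]
      exact (Real.rpow_pos_of_pos (by linarith [h1 t]) _).ne'
    rw [h3] at h2
    exact Set.countable_univ_iff.1 h2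
  -- the bound for the event of `t` when `y ≤ H t`
  have hb : ∀ y : ℝ, 1 ≤ y → ∀ t, y ≤ H t →
      P (E t) ≤ ENNReal.ofReal (|C| * y ^ (-η) * H t ^ (-p)) := by
    intro y hy t ht
    refine (hE t).trans (ENNReal.ofReal_le_ofReal ?_)
    have ht0 : 0 < H t := by linarith [h1 t]
    have h2 : H t ^ (-q) ≤ y ^ (-η) * H t ^ (-p) := by
      calc H t ^ (-q) ≤ H t ^ (-η + -p) := Real.rpow_le_rpow_of_exponent_le (h1 t) (by linarith)
        _ = H t ^ (-η) * H t ^ (-p) := Real.rpow_add ht0 _ _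
        _ ≤ y ^ (-η) * H t ^ (-p) := mul_le_mul_of_nonneg_right
            (Real.rpow_le_rpow_of_nonpos (by linarith) ht (by linarith))
            (Real.rpow_nonneg ht0.le _)
    calc C * H t ^ (-q) ≤ |C| * H t ^ (-q) :=
          mul_le_mul_of_nonneg_right (le_abs_self C) (Real.rpow_nonneg ht0.le _)
      _ ≤ |C| * (y ^ (-η) * H t ^ (-p)) := mul_le_mul_of_nonneg_left h2 (abs_nonneg C)
      _ = _ := by ring
  constructor
  · refine ae_finite_setOfPred_mem ?_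
    have h2 : ∑' t, P (E t) ≤ ENNReal.ofReal (∑' t, |C| * 1 ^ (-η) * H t ^ (-p)) := by
      rw [ENNReal.ofReal_tsum_of_nonneg (fun t => by
        have := Real.rpow_nonneg (hnn t) (-p)
        positivity) (hH.mul_left _)]
      exact ENNReal.tsum_le_tsum fun t => hb 1 le_rfl t (h1 t)
    exact ne_top_of_le_ne_top ENNReal.ofReal_ne_top h2
  · refine ⟨|C| * ∑' t, H t ^ (-p), fun y hy => ?_⟩
    have hsub : {ω | ∃ t, y ≤ H t ∧ ω ∈ E t} ⊆ ⋃ t, (if y ≤ H t then E t else ∅) := by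
      rintro ω ⟨t, h3, h4⟩
      refine Set.mem_iUnion.2 ⟨t, ?_⟩
      rw [if_pos h3]
      exact h4
    refine (measure_mono hsub).trans ((measure_iUnion_le _).trans ?_)
    have hy0 : 0 ≤ y ^ (-η) := Real.rpow_nonneg (by linarith) _
    have h2 : ∑' t, P (if y ≤ H t then E t else ∅) ≤
        ENNReal.ofReal (∑' t, |C| * y ^ (-η) * H t ^ (-p)) := by
      rw [ENNReal.ofReal_tsum_of_nonneg (fun t => by
        have := Real.rpow_nonneg (hnn t) (-p)
        positivity) (hH.mul_left _)]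
      refine ENNReal.tsum_le_tsum fun t => ?_
      by_cases h3 : y ≤ H t
      · rw [if_pos h3]
        exact hb y hy t h3
      · rw [if_neg h3, measure_empty]
        exact bot_le
    refine h2.trans (ENNReal.ofReal_le_ofReal (le_of_eq ?_))
    rw [tsum_mul_left]
    ring

/-- The same for a part of the objects. -/
theorem main_subtype {Q : T → Prop} (h1 : ∀ t, Q t → 1 ≤ H t) {E : T → Set Ω} {C q p η : ℝ}
    (hE : ∀ t, Q t → P (E t) ≤ ENNReal.ofReal (C * H t ^ (-q))) (hη : 0 ≤ η) (hp : p + η ≤ q)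
    (hH : Summable fun t : {t // Q t} => H t.1 ^ (-p)) :
    (∀ᵐ ω ∂P, {t | Q t ∧ ω ∈ E t}.Finite) ∧ ∃ B : ℝ, ∀ y : ℝ, 1 ≤ y →
      P {ω | ∃ t, Q t ∧ y ≤ H t ∧ ω ∈ E t} ≤ ENNReal.ofReal (B * y ^ (-η)) := by
  obtain ⟨h3, B, hB⟩ := main (T := {t // Q t}) (H := fun t => H t.1) (E := fun t => E t.1)
    (fun t => h1 t.1 t.2) (fun t => hE t.1 t.2) hη hp hH
  refine ⟨?_, B, fun y hy => ?_⟩
  · filter_upwards [h3] with ω hω
    refine (hω.image Subtype.val).subset ?_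
    rintro t ⟨h4, h5⟩
    exact ⟨⟨t, h4⟩, h5, rfl⟩
  · refine le_trans (measure_mono ?_) (hB y hy)
    rintro ω ⟨t, h4, h5, h6⟩
    exact ⟨⟨t, h4⟩, h5, h6⟩

/-- **One large member in a random set.** -/
theorem single {M : Type} {nm : M → ℝ} {A : Ω → Set M} {γ C : ℝ} (hA : Sparse P nm A γ C)
    {Q : T → Prop} (h1 : ∀ t, Q t → 1 ≤ H t) {u : T → M} {K : ℝ} (hK : 0 < K)
    (hu : ∀ t, Q t → H t ≤ K * nm (u t)) (hγ : 0 ≤ γ) {p η : ℝ} (hη : 0 ≤ η) (hp : p + η ≤ γ)
    (hH : Summable fun t : {t // Q t} => H t.1 ^ (-p)) :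
    (∀ᵐ ω ∂P, {t | Q t ∧ u t ∈ A ω}.Finite) ∧ ∃ B : ℝ, ∀ y : ℝ, 1 ≤ y →
      P {ω | ∃ t, Q t ∧ y ≤ H t ∧ u t ∈ A ω} ≤ ENNReal.ofReal (B * y ^ (-η)) := by
  refine main_subtype (E := fun t => {ω | u t ∈ A ω}) (C := |C| * K ^ γ) (q := γ) h1
    (fun t ht => ?_) hη hp hH
  have h2 := h1 t ht
  have h3 := hu t ht
  have h4 : 0 < nm (u t) := by
    by_contra h5
    push Not at h5
    nlinarith
  refine (hA _ h4).trans (ENNReal.ofReal_le_ofReal ?_)
  have h5 : nm (u t) ^ (-γ) ≤ (H t / K) ^ (-γ) := by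
    refine Real.rpow_le_rpow_of_nonpos (div_pos (by linarith) hK) ?_ (by linarith)
    rw [div_le_iff₀ hK]
    linarith
  have h6 : (H t / K) ^ (-γ) = K ^ γ * H t ^ (-γ) := by
    rw [Real.div_rpow (by linarith) hK.le, Real.rpow_neg hK.le, div_inv_eq_mul, mul_comm]
  calc C * nm (u t) ^ (-γ) ≤ |C| * nm (u t) ^ (-γ) :=
        mul_le_mul_of_nonneg_right (le_abs_self C) (Real.rpow_nonneg h4.le _)
    _ ≤ |C| * (K ^ γ * H t ^ (-γ)) := by
        rw [← h6]
        exact mul_le_mul_of_nonneg_left h5 (abs_nonneg C)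
    _ = _ := by ring

/-- **Two large members in a random set.** -/
theorem pair {M : Type} {nm : M → ℝ} {A : Ω → Set M} {γ C : ℝ} (hA : PairSparse P nm A γ C)
    {Q : T → Prop} (h1 : ∀ t, Q t → 1 ≤ H t) {u v : T → M} {K : ℝ} (hK : 0 < K)
    (hu : ∀ t, Q t → H t ≤ K * nm (u t)) (hv : ∀ t, Q t → H t ≤ K * nm (v t))
    (huv : ∀ t, Q t → u t ≠ v t) (hγ : 0 ≤ γ) {p η : ℝ} (hη : 0 ≤ η) (hp : p + η ≤ 2 * γ)
    (hH : Summable fun t : {t // Q t} => H t.1 ^ (-p)) :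
    (∀ᵐ ω ∂P, {t | Q t ∧ (u t ∈ A ω ∧ v t ∈ A ω)}.Finite) ∧ ∃ B : ℝ, ∀ y : ℝ, 1 ≤ y →
      P {ω | ∃ t, Q t ∧ y ≤ H t ∧ (u t ∈ A ω ∧ v t ∈ A ω)} ≤ ENNReal.ofReal (B * y ^ (-η)) := by
  refine main_subtype (E := fun t => {ω | u t ∈ A ω ∧ v t ∈ A ω}) (C := |C| * K ^ (2 * γ))
    (q := 2 * γ) h1 (fun t ht => ?_) hη hp hH
  have h2 := h1 t ht
  have h3 := hu t ht
  have h3' := hv t ht
  have h4 : 0 < nm (u t) := by
    by_contra h5
    push Not at h5
    nlinarith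
  have h4' : 0 < nm (v t) := by
    by_contra h5
    push Not at h5
    nlinarith
  refine (hA _ _ h4 h4' (huv t ht)).trans (ENNReal.ofReal_le_ofReal ?_)
  have h7 : 0 < H t / K := div_pos (by linarith) hK
  have h5 : (nm (u t) * nm (v t)) ^ (-γ) ≤ ((H t / K) * (H t / K)) ^ (-γ) := by
    refine Real.rpow_le_rpow_of_nonpos (mul_pos h7 h7) ?_ (by linarith)
    refine mul_le_mul ?_ ?_ h7.le h4.le
    · rw [div_le_iff₀ hK]
      linarith
    · rw [div_le_iff₀ hK]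
      linarith
  have h6 : ((H t / K) * (H t / K)) ^ (-γ) = K ^ (2 * γ) * H t ^ (-(2 * γ)) := by
    have h8 : (H t / K) * (H t / K) = (H t / K) ^ (2 : ℝ) := by
      rw [Real.rpow_two, pow_two]
    rw [h8, ← Real.rpow_mul h7.le, show (2 : ℝ) * -γ = -(2 * γ) by ring,
      Real.div_rpow (by linarith) hK.le, Real.rpow_neg hK.le, div_inv_eq_mul, mul_comm]
  calc C * (nm (u t) * nm (v t)) ^ (-γ) ≤ |C| * (nm (u t) * nm (v t)) ^ (-γ) :=
        mul_le_mul_of_nonneg_right (le_abs_self C) (Real.rpow_nonneg (by positivity) _)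
    _ ≤ |C| * (K ^ (2 * γ) * H t ^ (-(2 * γ))) := by
        rw [← h6]
        exact mul_le_mul_of_nonneg_left h5 (abs_nonneg C)
    _ = _ := by ring

end Pool.Agent.R909.RS
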