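import Mathlib

/-!
# Constants for infinitely many families at once
-/

set_option autoImplicit false

namespace Pool.Agent.R909.AllDeg

/-- For families `D n` of objects with convergent sums of the `H t ^ (-a n)` there are `g n ≥ 1` such
that the sum of the `(g n * H t ^ (a n / θ)) ^ (-θ)` over ALL the families converges. -/
theorem exists_g {T : Type} (R : ℕ → Prop) (dg : T → ℕ) (H : T → ℝ) (D : ℕ → T → Prop)
    (a : ℕ → ℝ) (hH : ∀ n t, D n t → 0 < H t)
    (hsum : ∀ n, R n → Summable fun i : {t : T // D n t} => H i.1 ^ (-(a n)))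
    {θ : ℝ} (hθ : 0 < θ) :
    ∃ g : ℕ → ℝ, (∀ n, 1 ≤ g n) ∧ Summable fun i : {t : T // R (dg t) ∧ D (dg t) t} =>
      (g (dg i.1) * H i.1 ^ (a (dg i.1) / θ)) ^ (-θ) := by
  classical
  set S : ℕ → ℝ := fun n => ∑' i : {t : T // D n t}, H i.1 ^ (-(a n)) with hS
  have hS0 : ∀ n, 0 ≤ S n := fun n => tsum_nonneg fun i => Real.rpow_nonneg (hH n _ i.2).le _
  refine ⟨fun n => (2 ^ n * (1 + S n)) ^ (1 / θ), fun n => ?_, ?_⟩
  · refine Real.one_le_rpow ?_ (by positivity)
    have h1 : (1 : ℝ) ≤ 2 ^ n := one_le_pow₀ one_le_two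
    nlinarith [hS0 n]
  · set F : {t : T // R (dg t) ∧ D (dg t) t} → (Σ n : {n : ℕ // R n}, {t : T // D n.1 t}) :=
      fun i => ⟨⟨dg i.1, i.2.1⟩, ⟨i.1, i.2.2⟩⟩ with hF
    have hFinj : Function.Injective F := by
      rintro ⟨p, hp⟩ ⟨q, hq⟩ h
      have h1 : (F ⟨p, hp⟩).2.1 = (F ⟨q, hq⟩).2.1 := by rw [h]
      exact Subtype.ext h1
    set G : (Σ n : {n : ℕ // R n}, {t : T // D n.1 t}) → ℝ := fun z =>
      (2 ^ z.1.1 * (1 + S z.1.1))⁻¹ * H z.2.1 ^ (-(a z.1.1)) with hG
    have hval : ∀ i, (((2 : ℝ) ^ (dg i.1) * (1 + S (dg i.1))) ^ (1 / θ) *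
        H i.1 ^ (a (dg i.1) / θ)) ^ (-θ) = G (F i) := by
      intro i
      have h0 := hH _ _ i.2.2
      have h1 : (0 : ℝ) < 2 ^ (dg i.1) * (1 + S (dg i.1)) := by
        have := hS0 (dg i.1)
        positivity
      have e1 : (((2 : ℝ) ^ (dg i.1) * (1 + S (dg i.1))) ^ (1 / θ)) ^ (-θ) =
          (2 ^ (dg i.1) * (1 + S (dg i.1)))⁻¹ := by
        rw [← Real.rpow_mul h1.le, show 1 / θ * -θ = -1 by field_simp, Real.rpow_neg_one]
      have e2 : (H i.1 ^ (a (dg i.1) / θ)) ^ (-θ) = H i.1 ^ (-(a (dg i.1))) := by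
        rw [← Real.rpow_mul h0.le]
        congr 1
        field_simp
      rw [Real.mul_rpow (Real.rpow_nonneg h1.le _) (Real.rpow_nonneg h0.le _), e1, e2]
    have hG0 : ∀ z, 0 ≤ G z := by
      intro z
      have := hS0 z.1.1
      have h2 : 0 ≤ H z.2.1 ^ (-(a z.1.1)) := Real.rpow_nonneg (hH _ _ z.2.2).le _
      have h3 : (0 : ℝ) ≤ (2 ^ z.1.1 * (1 + S z.1.1))⁻¹ := by positivity
      exact mul_nonneg h3 h2
    have hbig : Summable G := by
      refine (summable_sigma_of_nonneg hG0).2 ⟨?_, ?_⟩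
      · rintro ⟨n, hn⟩
        have h5 := (hsum n hn).mul_left ((2 ^ n * (1 + S n))⁻¹)
        exact h5
      · have hle : ∀ n : {n : ℕ // R n}, ∑' i : {t : T // D n.1 t}, G ⟨n, i⟩ ≤
            (1 / 2) ^ n.1 := by
          rintro ⟨n, hn⟩
          have h4 : ∑' i : {t : T // D n t}, G ⟨⟨n, hn⟩, i⟩ = (2 ^ n * (1 + S n))⁻¹ * S n := by
            show ∑' i : {t : T // D n t}, (2 ^ n * (1 + S n))⁻¹ * H i.1 ^ (-(a n)) = _
            rw [tsum_mul_left]
          have h1 := hS0 n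
          refine (le_of_eq h4).trans ?_
          rw [mul_inv, mul_assoc, one_div, inv_pow]
          refine mul_le_of_le_one_right (by positivity) ?_
          rw [inv_mul_le_iff₀ (by positivity)]
          linarith
        refine Summable.of_nonneg_of_le (fun n => tsum_nonneg fun i => hG0 _) hle ?_
        exact (summable_geometric_of_lt_one (by norm_num) (by norm_num)).comp_injective
          Subtype.val_injective
    refine (hbig.comp_injective hFinj).congr fun i => ?_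
    exact (hval i).symm

end Pool.Agent.R909.AllDeg
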