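import Pool.Agent.R909.SecDefs
import Pool.Agent.TH720.LB.Stm
import Pool.Agent.W534.UDefs
import Pool.Agent.H447R3.AoDefs

/-!
# Decompositions of the cohomology by algebraic correspondences: definitions
-/

open CategoryTheory AlgebraicGeometry

universe u v

namespace Pool.Agent.R909

section Alg

variable {K : Type*} [Field K] {V : Type*} [AddCommGroup V] [Module K V] {q : ℕ}
  {U : Fin q → Type*} [∀ s, AddCommGroup (U s)] [∀ s, Module K (U s)]

/-- The maps `α s : U s → V` and `β s : V → U s` are the components of an isomorphism of the direct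
sum of the `U s` with `V` and of its inverse. -/
def AreInverse (α : ∀ s, U s →ₗ[K] V) (β : ∀ s, V →ₗ[K] U s) : Prop :=
  (∀ s t, s ≠ t → β t ∘ₗ α s = 0) ∧ (∀ s, β s ∘ₗ α s = LinearMap.id) ∧
    ∑ s, α s ∘ₗ β s = LinearMap.id

end Alg

open Pool.Agent.H914 Pool.Agent.W534 Pool.Agent.W537 VarClass Obj WeilCohomology

variable {k : Type u} [Field k] {𝒱 : VarClass k} {ops : CycleOps 𝒱}

/-- The class `c` on `Y × Z` is a `K`-linear combination of algebraic cycles of codimension
`dim Y + d`, so that it induces maps from `H^j(Y)` to `H^(j + 2 d)(Z)`. -/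
def HasDegree (W : WeilCohomology.{u, v} ops) {Y Z : 𝒱.Obj} (d : ℤ) (c : W.H (Y.prod Z)) : Prop :=
  c ∈ spanCycles W (Y.prod Z) (Y.dim + d)

/-- The classes `a s` on `Y s × V` and `b s` on `V × Y s` are `K`-linear combinations of algebraic
cycles of degree `l s` and `- l s`, respectively. -/
def AreAlgebraic (W : WeilCohomology.{u, v} ops) (V : 𝒱.Obj) {q : ℕ} (Y : Fin q → 𝒱.Obj)
    (l : Fin q → ℕ) (a : ∀ s, W.H ((Y s).prod V)) (b : ∀ s, W.H (V.prod (Y s))) : Prop :=
  (∀ s, HasDegree W (l s) (a s)) ∧ ∀ s, HasDegree W (-(l s)) (b s)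

/-- The cohomology of `V` is the direct sum of the cohomology groups of the `Y s`, twisted by
`l s` (so that `H^j(Y s)` is mapped to `H^(j + 2 l s)(V)`), by `K`-linear combinations of algebraic
correspondences in both directions. -/
def IsDecomposed (W : WeilCohomology.{u, v} ops) (V : 𝒱.Obj) {q : ℕ} (Y : Fin q → 𝒱.Obj)
    (l : Fin q → ℕ) : Prop :=
  ∃ (a : ∀ s, W.H ((Y s).prod V)) (b : ∀ s, W.H (V.prod (Y s))), AreAlgebraic W V Y l a b ∧
    AreInverse (fun s => W.corr (a s)) (fun s => W.corr (b s))

/-- `D` is a divisor on `X` which satisfies hard Lefschetz. -/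
def IsPolarization (W : WeilCohomology.{u, v} ops) (X : 𝒱.Obj) (D : X.Cycles) : Prop :=
  X.IsCyc 1 D ∧ HardLefschetz W X D

/-- The conjecture A for `X × X` and the divisor `D × X + X × D`: for all `j` every algebraic class
of codimension `2 n - j` on `X × X`, where `n = dim X` and `j ≤ n`, is the product of
`(D × X + X × D) ^ (2 n - 2 j)` with an algebraic class of codimension `j`. -/
def AOnSquare (W : WeilCohomology.{u, v} ops) (X : 𝒱.Obj) (D : X.Cycles) : Prop :=
  LefschetzA W (X.prod X) (boxSum ops D)

/-- For the cohomology theory `W`, the variety `V` looks like the blow-up of `M` along the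
subvariety `X` of codimension `e = dim P + 2`, where `P` is the projective space of dimension
`e - 2`: the cohomology of `V` is the direct sum of `H(M)` and of the cohomology of `X × P`, twisted
by one (that is of `H(X)` twisted by `1, …, e - 1`), by algebraic correspondences. -/
structure IsBlowUp (W : WeilCohomology.{u, v} ops) (V M X P : 𝒱.Obj) : Prop where
  dim_base : M.dim = V.dim
  dim_centre : X.dim + P.dim + 2 = V.dim
  dec : IsDecomposed W V ![M, X.prod P] ![0, 1]

/-- The variety `V × V × Q`. -/
noncomputable def squareTimes (V Q : 𝒱.Obj) : 𝒱.Obj := (V.prod V).prod Q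

/-- The divisor `E × V × Q + V × E × Q + V × V × p` on `V × V × Q`. -/
noncomputable def squareDiv (ops : CycleOps 𝒱) {V Q : 𝒱.Obj} (E : V.Cycles) (p : Q.Cycles) :
    (squareTimes V Q).Cycles :=
  Pool.Agent.TH720.LB.sumDiv ops (boxSum ops E) p

/-- The conjecture A for `R = V × V × Q` and the divisor `F`, in the codimension `N = dim V`: every
algebraic class of codimension `dim R - N` is the product of `F ^ (dim R - 2 N)` with an algebraic
class of codimension `N` (for a curve `Q` these are codimension `N + 1` and the first power). -/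
def AInTheMiddle (W : WeilCohomology.{u, v} ops) (V Q : 𝒱.Obj) (F : (squareTimes V Q).Cycles) :
    Prop :=
  Pool.Agent.H447.LefschetzAIn W (squareTimes V Q) F V.dim

/-- The conjecture A holds for `R = V × V × Q` in codimension `dim V` for some divisor which
satisfies hard Lefschetz. -/
def SomeAInTheMiddle (W : WeilCohomology.{u, v} ops) (V Q : 𝒱.Obj) : Prop :=
  ∃ F : (squareTimes V Q).Cycles, IsPolarization W (squareTimes V Q) F ∧ AInTheMiddle W V Q F

/-- The `K`-spans of the algebraic classes of codimension `N` and `N + 1` on `V × V × Q` have the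
same dimension, where `N = dim V`. -/
def EqualRanksInTheMiddle (W : WeilCohomology.{u, v} ops) (V Q : 𝒱.Obj) : Prop :=
  cycleRank W (squareTimes V Q) V.dim = cycleRank W (squareTimes V Q) (V.dim + 1)

end Pool.Agent.R909
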