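import Pool.Agent.R909.SecE
import Pool.Agent.R909.DecDefs
import Pool.Agent.R911.Sq.Dim
import Pool.Agent.TH720.LB.Prod

/-!
# Ranks of the spaces of algebraic correspondences
-/

open CategoryTheory AlgebraicGeometry Finset

universe u v

namespace Pool.Agent.R909

open Pool.Agent.H914 Pool.Agent.H447 Pool.Agent.W534 Pool.Agent.W537 VarClass Obj WeilCohomology

section Lin

variable {K V V' : Type*} [Field K] [AddCommGroup V] [Module K V] [AddCommGroup V'] [Module K V']

lemma finrank_le_of_inj [Module.Finite K V] [Module.Finite K V'] {A : Submodule K V}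
    {B : Submodule K V'} {T : V →ₗ[K] V'} (hT : ∀ x ∈ A, T x ∈ B)
    (hinj : ∀ x ∈ A, T x = 0 → x = 0) : Module.finrank K A ≤ Module.finrank K B := by
  have hle : A.map T ≤ B := by
    rintro _ ⟨x, hx, rfl⟩
    exact hT x hx
  have hf : Module.finrank K (A.map T) = Module.finrank K A := by
    have hker : LinearMap.ker (T.domRestrict A) = ⊥ := by
      rw [LinearMap.ker_eq_bot']
      rintro ⟨x, hx⟩ h0
      exact Subtype.ext (hinj x hx h0)
    have h1 := LinearMap.finrank_range_of_inj (LinearMap.ker_eq_bot.1 hker)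
    rw [LinearMap.range_domRestrict] at h1
    exact h1
  rw [← hf]
  exact Submodule.finrank_mono hle

end Lin

variable {k : Type u} [Field k] {𝒱 : VarClass k} {ops : CycleOps 𝒱}
  {W : WeilCohomology.{u, v} ops} {X Y Z V : 𝒱.Obj} {D : X.Cycles} {E : Y.Cycles}

/-- The dimension of the space of the `K`-linear combinations of algebraic correspondences of
degree `d`. -/
noncomputable def opRank (W : WeilCohomology.{u, v} ops) (X Y : 𝒱.Obj) (d : ℤ) : ℕ :=
  Module.finrank W.K (KOp W X Y d)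

/-- The weights of the correspondences. -/
lemma weight_gen {d : ℤ} {φ : W.H X →ₗ[W.K] W.H Y} (hφ : φ ∈ KOp W X Y d) :
    mixOp (-(wt (W.isInternal X) X.dim)) (wt (W.isInternal Y) Y.dim) 1 φ =
      ((2 * d + X.dim - Y.dim : ℤ) : W.K) • φ := by
  apply gr_ext (W.isInternal X)
  intro j a ha
  have h1 := KOp.isHom hφ j a (by rw [grZ_natCast]; exact ha)
  simp only [mixOp_apply, LinearMap.add_apply, LinearMap.comp_apply, one_smul,
    LinearMap.neg_apply, LinearMap.smul_apply, map_neg]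
  rw [wt, scal_apply _ _ ha, map_smul]
  by_cases hj : 0 ≤ (j : ℤ) + 2 * d
  · obtain ⟨r, hr⟩ := Int.eq_ofNat_of_zero_le hj
    rw [hr, grZ_natCast] at h1
    rw [wt, scal_apply _ _ h1, ← neg_smul, ← add_smul]
    congr 1
    have h2 : (r : W.K) = (j : W.K) + 2 * (d : W.K) := by
      have := congrArg (fun x : ℤ => (x : W.K)) hr
      push_cast at this
      exact this.symm
    rw [node, node]
    push_cast
    rw [h2]
    ring
  · rw [grZ_of_neg (by omega)] at h1
    rw [(Submodule.mem_bot _).1 h1]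
    simp

lemma mixOp_mem_gen {A : Module.End W.K (W.H X)} {B : Module.End W.K (W.H Y)} {a : ℤ}
    (hA : A ∈ KOp W X X a) (hB : B ∈ KOp W Y Y a) (ε : W.K) {d : ℤ}
    {φ : W.H X →ₗ[W.K] W.H Y} (hφ : φ ∈ KOp W X Y d) :
    mixOp A B ε φ ∈ KOp W X Y (d + a) := by
  rw [mixOp_apply]
  apply Submodule.add_mem
  · exact KOp.cast (KOp.comp hφ hA) (by ring)
  · exact Submodule.smul_mem _ _ (KOp.cast (KOp.comp hB hφ) (by ring))

lemma mixOp_pow_mem_gen {A : Module.End W.K (W.H X)} {B : Module.End W.K (W.H Y)} {a : ℤ}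
    (hA : A ∈ KOp W X X a) (hB : B ∈ KOp W Y Y a) (ε : W.K) {d : ℤ}
    {φ : W.H X →ₗ[W.K] W.H Y} (hφ : φ ∈ KOp W X Y d) (r : ℕ) :
    (mixOp A B ε ^ r) φ ∈ KOp W X Y (d + r * a) := by
  induction r with
  | zero => simpa using hφ
  | succ r ih =>
    rw [pow_succ', Module.End.mul_apply]
    exact KOp.cast (mixOp_mem_gen hA hB ε ih) (by push_cast; ring)

/-- **Monotonicity of the ranks.** -/
lemma opRank_le (hD : X.IsCyc 1 D) (hE : Y.IsCyc 1 E) (hX : HardLefschetz W X D)
    (hY : HardLefschetz W Y E) {d : ℤ} {w : ℕ} (hw : 2 * d + X.dim - Y.dim = -w) :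
    opRank W X Y d ≤ opRank W X Y (d + w) := by
  obtain ⟨f, t, hf, -⟩ := exists_sl2 (W.isInternal X) (isHom_mulLeft W hD) W_hbd hX
  obtain ⟨f', t', hf', -⟩ := exists_sl2 (W.isInternal Y) (isHom_mulLeft W hE) W_hbd hY
  apply finrank_le_of_inj (T := mixOp (LinearMap.mulLeft W.K (W.cl X D))
    (LinearMap.mulLeft W.K (W.cl Y E)) 1 ^ w)
  · intro φ hφ
    exact KOp.cast (mixOp_pow_mem_gen (kop_L hD) (kop_L hE) 1 hφ w) (by ring)
  · intro φ hφ h0
    refine Pool.Agent.H447.e_pow_inj (sl2_mix t t') ?_ h0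
    rw [weight_gen hφ, hw]
    congr 1
    push_cast
    ring

/-- **Equality of the ranks** if the lowering operators are algebraic. -/
lemma opRank_eq (hD : X.IsCyc 1 D) (hE : Y.IsCyc 1 E)
    {f : Module.End W.K (W.H X)} {f' : Module.End W.K (W.H Y)}
    (t : Sl2 (wt (W.isInternal X) X.dim) (LinearMap.mulLeft W.K (W.cl X D)) f)
    (t' : Sl2 (wt (W.isInternal Y) Y.dim) (LinearMap.mulLeft W.K (W.cl Y E)) f')
    (hf : f ∈ KOp W X X (-1)) (hf' : f' ∈ KOp W Y Y (-1)) {c : ℤ}
    (hc : 2 * c + X.dim = Y.dim) (m : ℕ) :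
    opRank W X Y (c - m) = opRank W X Y (c + m) := by
  apply finrank_eq_of_surj (T := mixOp (LinearMap.mulLeft W.K (W.cl X D))
    (LinearMap.mulLeft W.K (W.cl Y E)) 1 ^ (2 * m))
  · intro φ hφ
    exact KOp.cast (mixOp_pow_mem_gen (kop_L hD) (kop_L hE) 1 hφ (2 * m)) (by push_cast; ring)
  · intro φ hφ h0
    refine Pool.Agent.H447.e_pow_inj (sl2_mix t t') ?_ h0
    rw [weight_gen hφ, show 2 * (c - m) + (X.dim : ℤ) - Y.dim = -((2 * m : ℕ) : ℤ) by
      push_cast; rw [← hc]; ring]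
    congr 1
    push_cast
    ring
  · intro φ hφ
    obtain ⟨ψ, hψ, hψφ⟩ := Pool.Agent.H447.exists_preimage (sl2_mix t t')
      (P := fun d φ => φ ∈ KOp W X Y (c + d)) (fun _ => Submodule.zero_mem _)
      (fun h1 h2 => Submodule.add_mem _ h1 h2) (fun q _ _ h1 => Submodule.smul_mem _ _ h1)
      (fun {d φ} h1 => KOp.cast (mixOp_mem_gen (kop_L hD) (kop_L hE) 1 h1) (by ring))
      (fun {d φ} h1 => KOp.cast (mixOp_mem_gen hf hf' 1 h1) (by ring))
      (fun {d φ} h1 => by
        rw [weight_gen h1]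
        congr 2
        rw [← hc]
        ring) m hφ
    exact ⟨ψ, hψ, hψφ⟩

/-- The conjecture in terms of the lowering operator. -/
lemma lefschetzB_iff_lower (hD : X.IsCyc 1 D) (hHL : HardLefschetz W X D)
    {f : Module.End W.K (W.H X)}
    (t : Sl2 (wt (W.isInternal X) X.dim) (LinearMap.mulLeft W.K (W.cl X D)) f)
    (hfv : ∀ i ≤ X.dim, ∀ a ∈ W.gr X i,
      (LinearMap.mulLeft W.K (W.cl X D) ^ (X.dim - i + 1)) a = 0 → ∀ j ≤ X.dim - i,
      f ((LinearMap.mulLeft W.K (W.cl X D) ^ j) a) =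
        ((j : W.K) * (((X.dim - i : ℕ) : W.K) - j + 1)) •
          (LinearMap.mulLeft W.K (W.cl X D) ^ (j - 1)) a) :
    LefschetzB W X D ↔ f ∈ KOp W X X (-1) := by
  constructor
  · intro hB
    obtain ⟨Φ, hΦ, hLam⟩ := lefschetzB_iff_rop.1 hB
    have hfR := lower_of_lam rop_opAlg (W.isInternal X) W_hbd (rop_mulLeft hD) hHL hΦ hLam hfv
    exact mem_KS_iff.1 (Submodule.subset_span hfR)
  · intro hfR
    rw [← mem_KS_iff] at hfR
    apply lefschetzB_of_inj hD hHL
    intro c _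
    refine ⟨f ^ c, ?_, ?_⟩
    · rw [← mem_KS_iff]
      exact rop_opAlg.kspan.cast (rop_opAlg.kspan.pow hfR c) (by ring)
    · intro a ha h0
      apply f_pow_inj t _ h0
      rw [wt, scal_apply _ _ ha]
      congr 1
      rw [node]
      push_cast; ring

/-- The conjecture in terms of two ranks. -/
lemma lefschetzB_iff_rank (hD : X.IsCyc 1 D) (hHL : HardLefschetz W X D) :
    LefschetzB W X D ↔ opRank W X X (-1) = opRank W X X 1 := by
  obtain ⟨f, t, hf, hfv⟩ := exists_sl2 (W.isInternal X) (isHom_mulLeft W hD) W_hbd hHL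
  have e : ∀ d : ℤ, opRank W X X d = Module.finrank W.K (KS (ROp W X) d) := by
    intro d
    have : KS (ROp W X) d = KOp W X X d := by
      ext φ
      exact mem_KS_iff
    rw [opRank, this]
  rw [lefschetzB_iff_lower hD hHL t hfv]
  constructor
  · intro hfR
    rw [e, e]
    exact Pool.Agent.R911.Sq.finrank_eq_of_lower rop_opAlg (W.isInternal X) (rop_mulLeft hD) t
      (mem_KS_iff.2 hfR)
  · intro he
    rw [e, e] at he
    exact mem_KS_iff.1 (Pool.Agent.R911.Sq.lower_mem_of_finrank rop_opAlg (W.isInternal X) W_hbd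
      (rop_mulLeft hD) hHL t hf he.ge)

/-- All ranks in opposite degrees agree if the conjecture holds for both varieties. -/
lemma opRank_eq_of_B (hD : X.IsCyc 1 D) (hE : Y.IsCyc 1 E) (hX : HardLefschetz W X D)
    (hY : HardLefschetz W Y E) (hBX : LefschetzB W X D) (hBY : LefschetzB W Y E) {c : ℤ}
    (hc : 2 * c + X.dim = Y.dim) (m : ℕ) :
    opRank W X Y (c - m) = opRank W X Y (c + m) := by
  obtain ⟨f, t, hf, hfv⟩ := exists_sl2 (W.isInternal X) (isHom_mulLeft W hD) W_hbd hX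
  obtain ⟨f', t', hf', hfv'⟩ := exists_sl2 (W.isInternal Y) (isHom_mulLeft W hE) W_hbd hY
  exact opRank_eq hD hE t t' ((lefschetzB_iff_lower hD hX t hfv).1 hBX)
    ((lefschetzB_iff_lower hE hY t' hfv').1 hBY) hc m

end Pool.Agent.R909
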