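import Pool.Agent.R909.DecA

/-!
# Decompositions and ranks
-/

open CategoryTheory AlgebraicGeometry Finset

universe u v

namespace Pool.Agent.R909

open Pool.Agent.H914 Pool.Agent.H447 Pool.Agent.W534 Pool.Agent.W537 VarClass Obj WeilCohomology

lemma finrank_of_equiv_pi {K : Type*} [Field K] {V : Type*} [AddCommGroup V] [Module K V] {q : ℕ}
    {U : Fin q → Type*} [∀ s, AddCommGroup (U s)] [∀ s, Module K (U s)]
    [∀ s, Module.Finite K (U s)] {A : Submodule K V} {B : ∀ s, Submodule K (U s)}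
    (e : A ≃ₗ[K] (∀ s, B s)) : Module.finrank K A = ∑ s, Module.finrank K (B s) := by
  rw [e.finrank_eq, Module.finrank_pi_fintype]

variable {k : Type u} [Field k] {𝒱 : VarClass k} {ops : CycleOps 𝒱}
  {W : WeilCohomology.{u, v} ops} {X V : 𝒱.Obj} {q : ℕ} {Y : Fin q → 𝒱.Obj} {l : Fin q → ℕ}

/-- The maps of a decomposition. -/
lemma IsDecomposed.maps (h : IsDecomposed W V Y l) :
    ∃ (α : ∀ s, W.H (Y s) →ₗ[W.K] W.H V) (β : ∀ s, W.H V →ₗ[W.K] W.H (Y s)),
      (∀ s, α s ∈ KOp W (Y s) V (l s)) ∧ (∀ s, β s ∈ KOp W V (Y s) (-(l s))) ∧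
        AreInverse α β := by
  obtain ⟨a, b, ⟨ha, hb⟩, hab⟩ := h
  refine ⟨fun s => W.corr (a s), fun s => W.corr (b s), ?_, ?_, hab⟩
  · intro s
    exact mem_KOp_iff.2 ⟨a s, ha s, rfl⟩
  · intro s
    exact mem_KOp_iff.2 ⟨b s, hb s, rfl⟩

/-- The correspondences from `X` to a decomposed variety. -/
noncomputable def rightEquiv (X : 𝒱.Obj) {α : ∀ s, W.H (Y s) →ₗ[W.K] W.H V}
    {β : ∀ s, W.H V →ₗ[W.K] W.H (Y s)} (hα : ∀ s, α s ∈ KOp W (Y s) V (l s))
    (hβ : ∀ s, β s ∈ KOp W V (Y s) (-(l s))) (h : AreInverse α β) (d : ℤ) :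
    KOp W X V d ≃ₗ[W.K] (∀ s, KOp W X (Y s) (d - l s)) where
  toFun φ s := ⟨β s ∘ₗ φ, KOp.cast (KOp.comp (hβ s) φ.2) (by ring)⟩
  map_add' φ ψ := by
    funext s
    exact Subtype.ext (LinearMap.comp_add _ _ _)
  map_smul' c φ := by
    funext s
    exact Subtype.ext (LinearMap.comp_smul _ _ _)
  invFun ψ := ⟨∑ s, α s ∘ₗ (ψ s : W.H X →ₗ[W.K] W.H (Y s)), Submodule.sum_mem _ (fun s _ =>
    KOp.cast (KOp.comp (hα s) (ψ s).2) (by ring))⟩
  left_inv φ := by
    apply Subtype.ext
    have h1 : ∑ s, α s ∘ₗ (β s ∘ₗ (φ : W.H X →ₗ[W.K] W.H V)) =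
        (∑ s, α s ∘ₗ β s) ∘ₗ (φ : W.H X →ₗ[W.K] W.H V) := by
      apply LinearMap.ext
      intro x
      simp only [LinearMap.sum_apply, LinearMap.comp_apply]
    exact h1.trans (by rw [h.2.2, LinearMap.id_comp])
  right_inv ψ := by
    funext t
    apply Subtype.ext
    have h1 : β t ∘ₗ (∑ s, α s ∘ₗ (ψ s : W.H X →ₗ[W.K] W.H (Y s))) =
        (ψ t : W.H X →ₗ[W.K] W.H (Y t)) := by
      apply LinearMap.ext
      intro x
      rw [LinearMap.comp_apply, LinearMap.sum_apply, map_sum, Finset.sum_eq_single t]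
      · exact congrArg (fun F => F ((ψ t : W.H X →ₗ[W.K] W.H (Y t)) x)) (h.2.1 t)
      · intro s _ hst
        exact congrArg (fun F => F ((ψ s : W.H X →ₗ[W.K] W.H (Y s)) x)) (h.1 s t hst)
      · intro h'; exact absurd (Finset.mem_univ t) h'
    exact h1

/-- The correspondences from a decomposed variety to `X`. -/
noncomputable def leftEquiv (X : 𝒱.Obj) {α : ∀ s, W.H (Y s) →ₗ[W.K] W.H V}
    {β : ∀ s, W.H V →ₗ[W.K] W.H (Y s)} (hα : ∀ s, α s ∈ KOp W (Y s) V (l s))
    (hβ : ∀ s, β s ∈ KOp W V (Y s) (-(l s))) (h : AreInverse α β) (d : ℤ) :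
    KOp W V X d ≃ₗ[W.K] (∀ s, KOp W (Y s) X (d + l s)) where
  toFun φ s := ⟨(φ : W.H V →ₗ[W.K] W.H X) ∘ₗ α s, KOp.cast (KOp.comp φ.2 (hα s)) (by ring)⟩
  map_add' φ ψ := by
    funext s
    exact Subtype.ext (LinearMap.add_comp _ _ _)
  map_smul' c φ := by
    funext s
    exact Subtype.ext (LinearMap.smul_comp _ _ _)
  invFun ψ := ⟨∑ s, (ψ s : W.H (Y s) →ₗ[W.K] W.H X) ∘ₗ β s, Submodule.sum_mem _ (fun s _ =>
    KOp.cast (KOp.comp (ψ s).2 (hβ s)) (by ring))⟩
  left_inv φ := by
    apply Subtype.ext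
    have h1 : ∑ s, ((φ : W.H V →ₗ[W.K] W.H X) ∘ₗ α s) ∘ₗ β s =
        (φ : W.H V →ₗ[W.K] W.H X) ∘ₗ (∑ s, α s ∘ₗ β s) := by
      apply LinearMap.ext
      intro x
      simp only [LinearMap.sum_apply, LinearMap.comp_apply, map_sum]
    exact h1.trans (by rw [h.2.2, LinearMap.comp_id])
  right_inv ψ := by
    funext t
    apply Subtype.ext
    have h1 : (∑ s, (ψ s : W.H (Y s) →ₗ[W.K] W.H X) ∘ₗ β s) ∘ₗ α t =
        (ψ t : W.H (Y t) →ₗ[W.K] W.H X) := by
      apply LinearMap.ext
      intro x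
      rw [LinearMap.comp_apply, LinearMap.sum_apply, Finset.sum_eq_single t]
      · exact congrArg (fun F => (ψ t : W.H (Y t) →ₗ[W.K] W.H X) (F x)) (h.2.1 t)
      · intro s _ hst
        have h2 := congrArg (fun F => (ψ s : W.H (Y s) →ₗ[W.K] W.H X) (F x))
          (h.1 t s (Ne.symm hst))
        simp only [LinearMap.zero_apply, map_zero] at h2
        exact h2
      · intro h'; exact absurd (Finset.mem_univ t) h'
    exact h1

lemma opRank_right (h : IsDecomposed W V Y l) (X : 𝒱.Obj) (d : ℤ) :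
    opRank W X V d = ∑ s, opRank W X (Y s) (d - l s) := by
  obtain ⟨α, β, hα, hβ, hαβ⟩ := h.maps
  exact finrank_of_equiv_pi (rightEquiv X hα hβ hαβ d)

lemma opRank_left (h : IsDecomposed W V Y l) (X : 𝒱.Obj) (d : ℤ) :
    opRank W V X d = ∑ s, opRank W (Y s) X (d + l s) := by
  obtain ⟨α, β, hα, hβ, hαβ⟩ := h.maps
  exact finrank_of_equiv_pi (leftEquiv X hα hβ hαβ d)

/-- The ranks for a decomposed variety. -/
lemma opRank_decomposed (h : IsDecomposed W V Y l) (d : ℤ) :
    opRank W V V d = ∑ s, ∑ t, opRank W (Y s) (Y t) (d + l s - l t) := by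
  rw [opRank_left h V d]
  apply Finset.sum_congr rfl
  intro s _
  rw [opRank_right h (Y s)]

/-- **Centred decompositions**: the conjecture holds for `V` if and only if it holds for all
summands. -/
theorem lefschetzB_decomposed {D : V.Cycles} {E : ∀ s, (Y s).Cycles} (h : IsDecomposed W V Y l)
    (hdim : ∀ s, (Y s).dim + 2 * l s = V.dim) (hD : V.IsCyc 1 D) (hE : ∀ s, (Y s).IsCyc 1 (E s))
    (hV : HardLefschetz W V D) (hY : ∀ s, HardLefschetz W (Y s) (E s)) :
    LefschetzB W V D ↔ ∀ s, LefschetzB W (Y s) (E s) := by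
  have hle : ∀ s t, opRank W (Y s) (Y t) (-1 + l s - l t) ≤
      opRank W (Y s) (Y t) (1 + l s - l t) := by
    intro s t
    have h1 := opRank_le (hE s) (hE t) (hY s) (hY t) (d := -1 + l s - l t) (w := 2) (by
      have h2 := hdim s
      have h3 := hdim t
      omega)
    rwa [show (-1 + l s - l t : ℤ) + (2 : ℕ) = 1 + l s - l t by push_cast; ring] at h1
  rw [lefschetzB_iff_rank hD hV, opRank_decomposed h, opRank_decomposed h]
  constructor
  · intro he s
    rw [lefschetzB_iff_rank (hE s) (hY s)]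
    have h1 := (Finset.sum_eq_sum_iff_of_le (fun s _ => Finset.sum_le_sum (fun t _ =>
      hle s t))).1 he s (Finset.mem_univ s)
    have h2 := (Finset.sum_eq_sum_iff_of_le (fun t _ => hle s t)).1 h1 s (Finset.mem_univ s)
    rwa [show (-1 + l s - l s : ℤ) = -1 by ring, show (1 + l s - l s : ℤ) = 1 by ring] at h2
  · intro hB
    apply Finset.sum_congr rfl
    intro s _
    apply Finset.sum_congr rfl
    intro t _
    have h1 := opRank_eq_of_B (hE s) (hE t) (hY s) (hY t) (hB s) (hB t) (c := l s - l t) (by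
      have h2 := hdim s
      have h3 := hdim t
      omega) 1
    rwa [show (l s - l t - (1 : ℕ) : ℤ) = -1 + l s - l t by push_cast; ring,
      show (l s - l t + (1 : ℕ) : ℤ) = 1 + l s - l t by push_cast; ring] at h1

/-- **A variety and its sum of twists.** If `V` is the sum of `q ≥ 1` copies of `X` with the twists
`0, …, q - 1`, then the conjecture holds for `V` if and only if it holds for `X`. -/
theorem lefschetzB_twists {D : V.Cycles} {E : X.Cycles} (hq : 0 < q)
    (h : IsDecomposed W V (fun _ : Fin q => X) (fun i => (i : ℕ)))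
    (hD : V.IsCyc 1 D) (hE : X.IsCyc 1 E)
    (hV : HardLefschetz W V D) (hX : HardLefschetz W X E) :
    LefschetzB W V D ↔ LefschetzB W X E := by
  have hle : ∀ m : ℕ, (opRank W X X (-m) : ℤ) ≤ opRank W X X m := by
    intro m
    have h1 := opRank_le hE hE hX hX (d := -m) (w := 2 * m) (by push_cast; ring)
    rw [show (-m : ℤ) + (2 * m : ℕ) = m by push_cast; ring] at h1
    exact_mod_cast h1
  set R : ℤ → ℤ := fun d => opRank W X X d with hR
  have hsum : ∀ d : ℤ, (opRank W V V d : ℤ) =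
      ∑ j ∈ range q, ∑ i ∈ range q, R (d + i - j) := by
    intro d
    rw [opRank_decomposed h, Finset.sum_comm]
    push_cast
    rw [← Fin.sum_univ_eq_sum_range (fun j => ∑ i ∈ range q, R (d + i - j)) q]
    apply Finset.sum_congr rfl
    intro j _
    rw [← Fin.sum_univ_eq_sum_range (fun i => R (d + i - j)) q]
  have htel : ∀ j : ℕ, ∑ i ∈ range q, (R (1 + i - j) - R (-1 + i - j)) =
      R (q - j) + R (q - 1 - j) - R (-j) - R (-1 - j) := by
    intro j
    have h1 : ∀ n : ℕ, ∑ i ∈ range n, (R (1 + i - j) - R (-1 + i - j)) =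
        R (n - j) + R (n - 1 - j) - R (-j) - R (-1 - j) := by
      intro n
      induction n with
      | zero => simp
      | succ n ih =>
        rw [Finset.sum_range_succ, ih]
        push_cast
        rw [show (n : ℤ) + 1 - j = 1 + n - j by ring, show (n : ℤ) + 1 - 1 - j = n - j by ring,
          show (-1 : ℤ) + n - j = n - 1 - j by ring]
        ring
    exact h1 q
  have hdiff : (opRank W V V 1 : ℤ) - opRank W V V (-1) =
      ∑ j ∈ range q, (R j - R (-j)) + ∑ j ∈ range q, (R (j + 1 : ℕ) - R (-(j + 1 : ℕ))) := by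
    rw [hsum, hsum, ← Finset.sum_sub_distrib]
    have h1 : ∀ j ∈ range q, ∑ i ∈ range q, R (1 + i - j) - ∑ i ∈ range q, R (-1 + i - j) =
        R (q - j) + R (q - 1 - j) - R (-j) - R (-1 - j) := by
      intro j _
      rw [← Finset.sum_sub_distrib, htel j]
    rw [Finset.sum_congr rfl h1]
    have h2 : ∑ j ∈ range q, R (q - 1 - j) = ∑ j ∈ range q, R j := by
      rw [← Finset.sum_range_reflect]
      apply Finset.sum_congr rfl
      intro j hj
      rw [Finset.mem_range] at hj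
      congr 1
      omega
    have h3 : ∑ j ∈ range q, R (q - j) = ∑ j ∈ range q, R (j + 1 : ℕ) := by
      rw [← Finset.sum_range_reflect]
      apply Finset.sum_congr rfl
      intro j hj
      rw [Finset.mem_range] at hj
      congr 1
      push_cast
      omega
    have h4 : ∑ j ∈ range q, R (-1 - j) = ∑ j ∈ range q, R (-(j + 1 : ℕ)) := by
      apply Finset.sum_congr rfl
      intro j _
      congr 1
      push_cast
      ring
    simp only [Finset.sum_sub_distrib, Finset.sum_add_distrib, h2, h3, h4]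
    ring
  rw [lefschetzB_iff_rank hD hV, lefschetzB_iff_rank hE hX]
  constructor
  · intro he
    have h1 : (opRank W V V 1 : ℤ) - opRank W V V (-1) = 0 := by rw [he]; ring
    rw [hdiff] at h1
    have h2 : ∀ j ∈ range q, 0 ≤ R j - R (-j) := fun j _ => sub_nonneg.2 (hle j)
    have h3 : ∀ j ∈ range q, 0 ≤ R (j + 1 : ℕ) - R (-(j + 1 : ℕ)) :=
      fun j _ => sub_nonneg.2 (hle (j + 1))
    have h4 := Finset.sum_nonneg h2
    have h5 := Finset.sum_nonneg h3
    have h6 : ∑ j ∈ range q, (R (j + 1 : ℕ) - R (-(j + 1 : ℕ))) = 0 := by omega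
    have h7 := (Finset.sum_eq_zero_iff_of_nonneg h3).1 h6 0 (Finset.mem_range.2 hq)
    have h8 : R 1 - R (-1) = 0 := by simpa using h7
    have h9 : (opRank W X X 1 : ℤ) = opRank W X X (-1) := by
      rw [sub_eq_zero] at h8
      exact h8
    exact_mod_cast h9.symm
  · intro he
    have hB := (lefschetzB_iff_rank hE hX).2 he
    have hall : ∀ m : ℕ, R m - R (-m) = 0 := by
      intro m
      have h1 := opRank_eq_of_B hE hE hX hX hB hB (c := 0) (by ring) m
      rw [zero_sub, zero_add] at h1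
      rw [sub_eq_zero]
      exact congrArg (fun x : ℕ => (x : ℤ)) h1.symm
    have h1 : (opRank W V V 1 : ℤ) - opRank W V V (-1) = 0 := by
      rw [hdiff, Finset.sum_eq_zero (fun j _ => hall j), Finset.sum_eq_zero
        (fun j _ => hall (j + 1)), add_zero]
    have h2 : (opRank W V V 1 : ℤ) = opRank W V V (-1) := sub_eq_zero.1 h1
    exact_mod_cast h2.symm

end Pool.Agent.R909
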