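import Pool.Agent.R909.DecB

/-!
# Products with projective spaces, and blow-ups
-/

open CategoryTheory AlgebraicGeometry Finset

universe u v

namespace Pool.Agent.R909

open Pool.Agent.H914 Pool.Agent.H447 Pool.Agent.W534 Pool.Agent.W537 Pool.Agent.TH720.LB
  VarClass Obj WeilCohomology

variable {k : Type u} [Field k] {𝒱 : VarClass k} {ops : CycleOps 𝒱}
  {W : WeilCohomology.{u, v} ops} {X Y Z V P : 𝒱.Obj}

lemma IsDecomposed.of_maps {q : ℕ} {Y : Fin q → 𝒱.Obj} {l : Fin q → ℕ}
    {α : ∀ s, W.H (Y s) →ₗ[W.K] W.H V} {β : ∀ s, W.H V →ₗ[W.K] W.H (Y s)}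
    (hα : ∀ s, α s ∈ KOp W (Y s) V (l s)) (hβ : ∀ s, β s ∈ KOp W V (Y s) (-(l s)))
    (h : AreInverse α β) : IsDecomposed W V Y l := by
  have h1 : ∀ s, ∃ γ ∈ spanCycles W ((Y s).prod V) ((Y s).dim + l s), W.corr γ = α s :=
    fun s => mem_KOp_iff.1 (hα s)
  have h2 : ∀ s, ∃ γ ∈ spanCycles W (V.prod (Y s)) (V.dim + -(l s : ℤ)), W.corr γ = β s :=
    fun s => mem_KOp_iff.1 (hβ s)
  choose a ha haα using h1
  choose b hb hbβ using h2
  refine ⟨a, b, ⟨ha, hb⟩, ?_⟩
  have e1 : (fun s => W.corr (a s)) = α := funext haα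
  have e2 : (fun s => W.corr (b s)) = β := funext hbβ
  rw [e1, e2]
  exact h

/-- The product with a projective space. -/
lemma decomposed_prod {h : P.Cycles} (hP : IsProjLike W P h) (X : 𝒱.Obj) :
    IsDecomposed W (X.prod P) (fun _ : Fin (P.dim + 1) => X) (fun i => (i : ℕ)) := by
  refine IsDecomposed.of_maps (α := fun i => inc W X h i) (β := fun i => coe W X h i) ?_ ?_
    ⟨?_, ?_, ?_⟩
  · intro i
    exact (qop_inc hP i).kop
  · intro i
    exact (qop_coe hP (by omega)).kop
  · intro s t hst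
    apply LinearMap.ext
    intro x
    rw [LinearMap.comp_apply, coe_inc hP (by omega), if_neg (fun h => hst (Fin.ext h.symm)),
      LinearMap.zero_apply]
  · intro s
    apply LinearMap.ext
    intro x
    rw [LinearMap.comp_apply, coe_inc hP (by omega), if_pos rfl, LinearMap.id_apply]
  · apply LinearMap.ext
    intro y
    rw [LinearMap.sum_apply, LinearMap.id_apply]
    conv_rhs => rw [← decomp hP y]
    rw [← Fin.sum_univ_eq_sum_range (fun a => inc W X h a (coe W X h a y)) (P.dim + 1)]
    rfl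

/-- The conjecture for a product with a projective space. -/
theorem lefschetzB_prod_iff {h : P.Cycles} (hP : IsProjLike W P h) {D : X.Cycles}
    {G : (X.prod P).Cycles} (hD : X.IsCyc 1 D) (hG : (X.prod P).IsCyc 1 G)
    (hX : HardLefschetz W X D) (hXP : HardLefschetz W (X.prod P) G) :
    LefschetzB W (X.prod P) G ↔ LefschetzB W X D :=
  lefschetzB_twists (Nat.succ_pos _) (decomposed_prod hP X) hG hD hXP hX

/-! ### Spans of classes -/

lemma span_pull' (f : X ⟶ Y) {j : ℤ} {x : W.H Y} (hx : x ∈ spanCycles W Y j) :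
    W.map f x ∈ spanCycles W X j := by
  induction hx using Submodule.span_induction with
  | mem x hx =>
    obtain ⟨p, hp, z, hz, rfl⟩ := hx
    rw [← W.cl_pull]
    exact Submodule.subset_span ⟨p, hp, _, ops.pull_mem f hz, rfl⟩
  | zero => rw [map_zero]; exact Submodule.zero_mem _
  | add x y _ _ hx hy => rw [map_add]; exact Submodule.add_mem _ hx hy
  | smul c x _ hx => rw [map_smul]; exact Submodule.smul_mem _ _ hx

lemma span_mul_cyc {p : ℕ} {z : X.Cycles} (hz : X.IsCyc p z) {j : ℤ} {x : W.H X}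
    (hx : x ∈ spanCycles W X j) : W.cl X z * x ∈ spanCycles W X (j + p) := by
  induction hx using Submodule.span_induction with
  | mem x hx =>
    obtain ⟨r, hr, w, hw, rfl⟩ := hx
    rw [← W.cl_mul]
    exact Submodule.subset_span ⟨p + r, by push_cast; rw [hr]; ring, _, ops.mul_mem hz hw, rfl⟩
  | zero => rw [mul_zero]; exact Submodule.zero_mem _
  | add x y _ _ hx hy => rw [mul_add]; exact Submodule.add_mem _ hx hy
  | smul c x _ hx => rw [mul_smul_comm]; exact Submodule.smul_mem _ _ hx

lemma span_pow_mul {z : X.Cycles} (hz : X.IsCyc 1 z) (r : ℕ) {j : ℤ} {x : W.H X}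
    (hx : x ∈ spanCycles W X j) : W.cl X z ^ r * x ∈ spanCycles W X (j + r) := by
  induction r with
  | zero => simpa using hx
  | succ r ih =>
    rw [pow_succ', mul_assoc]
    have := span_mul_cyc hz ih
    rwa [show j + (r : ℤ) + ((1 : ℕ) : ℤ) = j + ((r + 1 : ℕ) : ℤ) by push_cast; ring] at this

lemma span_push' (f : X ⟶ Y) {j : ℤ} {x : W.H X} (hx : x ∈ spanCycles W X j) :
    W.push f x ∈ spanCycles W Y (j + Y.dim - X.dim) := by
  induction hx using Submodule.span_induction with
  | mem x hx =>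
    obtain ⟨p, hp, z, hz, rfl⟩ := hx
    by_cases hneg : j + Y.dim - X.dim < 0
    · have h1 := W.push_mem f (W.cl_mem hz)
      rw [grZ_of_neg (by push_cast; omega)] at h1
      rw [(Submodule.mem_bot _).1 h1]
      exact Submodule.zero_mem _
    · rw [← W.cl_push]
      refine Submodule.subset_span ⟨(j + Y.dim - X.dim).toNat, by omega, _,
        ops.push_mem f hz (by omega), rfl⟩
  | zero => rw [map_zero]; exact Submodule.zero_mem _
  | add x y _ _ hx hy => rw [map_add]; exact Submodule.add_mem _ hx hy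
  | smul c x _ hx => rw [map_smul]; exact Submodule.smul_mem _ _ hx

lemma span_inc {h : P.Cycles} (hP : IsProjLike W P h) (a : ℕ) {j : ℤ} {x : W.H X}
    (hx : x ∈ spanCycles W X j) : inc W X h a x ∈ spanCycles W (X.prod P) (j + a) := by
  rw [inc_apply, map_pow, ← W.cl_pull]
  exact span_pow_mul (ops.pull_mem _ hP.div) a (span_pull' _ hx)

lemma span_coe {h : P.Cycles} (hP : IsProjLike W P h) {a : ℕ} (ha : a ≤ P.dim) {j : ℤ}
    {y : W.H (X.prod P)} (hy : y ∈ spanCycles W (X.prod P) j) :
    coe W X h a y ∈ spanCycles W X (j - a) := by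
  rw [coe_apply, map_pow, ← W.cl_pull]
  have h1 := span_push' (fst X P) (span_pow_mul (ops.pull_mem (snd X P) hP.div) (P.dim - a) hy)
  rwa [dim_prod, show j + ((P.dim - a : ℕ) : ℤ) + (X.dim : ℤ) - ((X.dim + P.dim : ℕ) : ℤ) =
    j - a by push_cast [Nat.cast_sub ha]; ring] at h1

/-- The algebraic classes on the product with a projective space. -/
noncomputable def spanEquiv {h : P.Cycles} (hP : IsProjLike W P h) (X : 𝒱.Obj) (j : ℤ) :
    spanCycles W (X.prod P) j ≃ₗ[W.K] (∀ a : Fin (P.dim + 1), spanCycles W X (j - (a : ℕ))) where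
  toFun y a := ⟨coe W X h a y, span_coe hP (by omega) y.2⟩
  map_add' y y' := by
    funext a
    exact Subtype.ext (map_add _ _ _)
  map_smul' c y := by
    funext a
    exact Subtype.ext (map_smul _ _ _)
  invFun x := ⟨∑ a : Fin (P.dim + 1), inc W X h a (x a : W.H X), Submodule.sum_mem _ (fun a _ => by
    have := span_inc hP (a : ℕ) (x a).2
    rwa [sub_add_cancel] at this)⟩
  left_inv y := by
    apply Subtype.ext
    have h1 := decomp hP (y : W.H (X.prod P))
    rw [← Fin.sum_univ_eq_sum_range (fun a => inc W X h a (coe W X h a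
      (y : W.H (X.prod P)))) (P.dim + 1)] at h1
    exact h1
  right_inv x := by
    funext b
    apply Subtype.ext
    have h1 : coe W X h b (∑ a : Fin (P.dim + 1), inc W X h a (x a : W.H X)) = x b := by
      rw [map_sum, Finset.sum_eq_single b]
      · rw [coe_inc hP (by omega), if_pos rfl]
      · intro a _ hab
        rw [coe_inc hP (by omega), if_neg (fun h => hab (Fin.ext h.symm))]
      · intro h'; exact absurd (Finset.mem_univ b) h'
    exact h1

lemma cycleRank_prod {h : P.Cycles} (hP : IsProjLike W P h) (X : 𝒱.Obj) (j : ℤ) :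
    cycleRank W (X.prod P) j = ∑ a : Fin (P.dim + 1), cycleRank W X (j - (a : ℕ)) :=
  finrank_of_equiv_pi (spanEquiv hP X j)

lemma opRank_eq_cycleRank (X Y : 𝒱.Obj) (d : ℤ) :
    opRank W X Y d = cycleRank W (X.prod Y) (X.dim + d) := finrank_KOp d

end Pool.Agent.R909
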