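import Pool.Agent.R909.DecC

/-!
# The conjecture A on one variety of odd dimension
-/

open CategoryTheory AlgebraicGeometry Finset

universe u v

namespace Pool.Agent.R909

open Pool.Agent.H914 Pool.Agent.H447 Pool.Agent.W534 Pool.Agent.W537 Pool.Agent.TH720.LB
  VarClass Obj WeilCohomology

variable {k : Type u} [Field k] {𝒱 : VarClass k} {ops : CycleOps 𝒱}
  {W : WeilCohomology.{u, v} ops} {X Y Z V P : 𝒱.Obj}

lemma exists_inc {h : P.Cycles} (hP : IsProjLike W P h) (a : ℕ) {p : ℕ} {z : Y.Cycles}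
    (hz : Y.IsCyc p z) : ∃ z', (Y.prod P).IsCyc (p + a) z' ∧
      W.cl _ z' = inc W Y h a (W.cl Y z) := by
  refine ⟨divPow ops (ops.pull (snd Y P) h) a (ops.pull (fst Y P) z), ?_, ?_⟩
  · have := divPow_mem (ops := ops) (ops.pull_mem (snd Y P) hP.div) a (ops.pull_mem (fst Y P) hz)
    exact this
  · rw [cl_divPow, LinearMap.pow_mulLeft, LinearMap.mulLeft_apply, W.cl_pull, W.cl_pull,
      inc_apply, map_pow]

lemma exists_coe {h : P.Cycles} (hP : IsProjLike W P h) {a : ℕ} (ha : a ≤ P.dim) {p r : ℕ}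
    (hpr : p = r + a) {z : (Y.prod P).Cycles} (hz : (Y.prod P).IsCyc p z) :
    ∃ z', Y.IsCyc r z' ∧ W.cl _ z' = coe W Y h a (W.cl _ z) := by
  refine ⟨ops.push (fst Y P) (divPow ops (ops.pull (snd Y P) h) (P.dim - a) z), ?_, ?_⟩
  · have := divPow_mem (ops := ops) (ops.pull_mem (snd Y P) hP.div) (P.dim - a) hz
    apply ops.push_mem _ this
    rw [dim_prod]
    omega
  · rw [W.cl_push, cl_divPow, LinearMap.pow_mulLeft, LinearMap.mulLeft_apply, W.cl_pull,
      coe_apply, map_pow]

/-- The conjecture A in the middle on the product with a projective line. -/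
theorem lefschetzA_line {h : P.Cycles} (hP : IsProjLike W P h) (hP1 : P.dim = 1) {N : ℕ}
    (hN : 1 ≤ N) (hY : Y.dim = 2 * N) {D : Y.Cycles} (hD : Y.IsCyc 1 D) :
    LefschetzAIn W (Y.prod P) (sumDiv ops D h) N ↔ LefschetzAIn W Y D (N - 1) := by
  have hdim : (Y.prod P).dim = 2 * N + 1 := by rw [dim_prod, hY, hP1]
  have hpow : ∀ z, W.cl _ (divPow ops (sumDiv ops D h) ((Y.prod P).dim - 2 * N) z) =
      W.cl _ (sumDiv ops D h) * W.cl _ z := by
    intro z
    rw [cl_divPow, LinearMap.pow_mulLeft, LinearMap.mulLeft_apply, hdim,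
      show 2 * N + 1 - 2 * N = 1 by omega, pow_one]
  have hpow' : ∀ z, W.cl _ (divPow ops D (Y.dim - 2 * (N - 1)) z) =
      W.cl _ D * (W.cl _ D * W.cl _ z) := by
    intro z
    rw [cl_divPow, LinearMap.pow_mulLeft, LinearMap.mulLeft_apply, hY,
      show 2 * N - 2 * (N - 1) = 2 by omega, pow_two, mul_assoc]
  have hprod : ∀ w : W.H (Y.prod P), W.cl _ (sumDiv ops D h) * w =
      inc W Y h 0 (W.cl Y D * coe W Y h 0 w) +
        inc W Y h 1 (coe W Y h 0 w + W.cl Y D * coe W Y h 1 w) := by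
    intro w
    have h1 := decomp hP w
    rw [hP1, Finset.sum_range_succ, Finset.sum_range_one] at h1
    conv_lhs => rw [← h1]
    rw [mul_add, mul_inc hD, mul_inc hD, inc_zero hP (show P.dim < 1 + 1 by omega),
      LinearMap.zero_apply, add_zero, map_add]
    abel
  have hcoe : ∀ w w' : W.H (Y.prod P), coe W Y h 0 w = coe W Y h 0 w' →
      coe W Y h 1 w = coe W Y h 1 w' → w = w' := by
    intro w w' h1 h2
    rw [← decomp hP w, ← decomp hP w', hP1, Finset.sum_range_succ, Finset.sum_range_one,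
      Finset.sum_range_succ, Finset.sum_range_one, h1, h2]
  have hc0 : ∀ x y, coe W Y h 0 (inc W Y h 0 x + inc W Y h 1 y) = x := by
    intro x y
    rw [map_add, coe_inc hP (by omega), coe_inc hP (by omega), if_pos rfl, if_neg (by omega),
      add_zero]
  have hc1 : ∀ x y, coe W Y h 1 (inc W Y h 0 x + inc W Y h 1 y) = y := by
    intro x y
    rw [map_add, coe_inc hP (by omega), coe_inc hP (by omega), if_pos rfl, if_neg (by omega),
      zero_add]
  constructor
  · intro hA z hz
    rw [hY, show 2 * N - (N - 1) = N + 1 by omega] at hz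
    obtain ⟨y, hy, hyz⟩ := exists_inc hP 0 hz
    obtain ⟨w, hw, hwy⟩ := hA y (by
      rw [hdim, show 2 * N + 1 - N = N + 1 by omega]
      exact hy)
    rw [hpow, hprod, hyz] at hwy
    have e0 := congrArg (coe W Y h 0) hwy
    have e1 := congrArg (coe W Y h 1) hwy
    rw [hc0, coe_inc hP (by omega), if_pos rfl] at e0
    rw [hc1, coe_inc hP (by omega), if_neg (by omega)] at e1
    obtain ⟨w1, hw1, hw1'⟩ := exists_coe hP (a := 1) (by omega) (r := N - 1) (by omega) hw
    refine ⟨-w1, ?_, ?_⟩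
    · have := hw1.smul (-1)
      rwa [neg_one_smul] at this
    · rw [hpow', map_neg, hw1', mul_neg, mul_neg, ← e0, ← mul_neg]
      congr 1
      rw [← sub_eq_zero, sub_eq_add_neg, ← neg_add, add_comm, e1, neg_zero]
  · intro hA z hz
    rw [hdim, show 2 * N + 1 - N = N + 1 by omega] at hz
    obtain ⟨y0, hy0, hy0'⟩ := exists_coe hP (a := 0) (by omega) (r := N + 1) (by omega) hz
    obtain ⟨y1, hy1, hy1'⟩ := exists_coe hP (a := 1) (by omega) (r := N) (by omega) hz
    -- the class `D y1 - y0`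
    have hc : Y.IsCyc (N + 1) (ops.mul D y1 - y0) := by
      have h1 := ops.mul_mem hD hy1
      have h2 := hy0.smul (-1)
      rw [neg_one_smul] at h2
      rw [sub_eq_add_neg]
      rw [add_comm] at h1
      exact h1.add h2
    obtain ⟨x1, hx1, hx1'⟩ := hA (ops.mul D y1 - y0) (by
      rwa [hY, show 2 * N - (N - 1) = N + 1 by omega])
    rw [hpow', map_sub, W.cl_mul] at hx1'
    -- `x0 = y1 - D x1`
    obtain ⟨a0, ha0, ha0'⟩ := exists_inc (h := h) hP 0 (z := y1 - ops.mul D x1) (p := N) (by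
      have h1 := ops.mul_mem hD hx1
      rw [show 1 + (N - 1) = N by omega] at h1
      have h2 := h1.smul (-1)
      rw [neg_one_smul] at h2
      rw [sub_eq_add_neg]
      exact hy1.add h2)
    obtain ⟨a1, ha1, ha1'⟩ := exists_inc (h := h) hP 1 hx1
    refine ⟨a0 + a1, ?_, ?_⟩
    · rw [show N - 1 + 1 = N by omega] at ha1
      exact ha0.add ha1
    · rw [hpow, hprod, map_add, ha0', ha1', hc0, hc1, map_sub, W.cl_mul]
      apply hcoe
      · rw [hc0, ← hy0', mul_sub, hx1', sub_sub_cancel]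
      · rw [hc1, ← hy1', sub_add_cancel]

/-- The ranks on the product of `Y` with a projective line. -/
lemma cycleRank_line {h : P.Cycles} (hP : IsProjLike W P h) (hP1 : P.dim = 1) (Y : 𝒱.Obj)
    (j : ℤ) : cycleRank W (Y.prod P) j = cycleRank W Y j + cycleRank W Y (j - 1) := by
  rw [cycleRank_prod hP, Fin.sum_univ_eq_sum_range (fun a => cycleRank W Y (j - (a : ℕ))), hP1,
    Finset.sum_range_succ, Finset.sum_range_one]
  simp

/-- **Blow-ups and the conjecture A in the middle of a variety of odd dimension.** -/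
theorem blowUp_tfae {h : P.Cycles} (hP : IsProjLike W P h) {Q : 𝒱.Obj} {p : Q.Cycles}
    (hQ : IsProjLike W Q p) (hQ1 : Q.dim = 1) {M : 𝒱.Obj} {D : X.Cycles} {E : V.Cycles}
    {F : M.Cycles} {G : (X.prod P).Cycles} (hD : X.IsCyc 1 D) (hE : V.IsCyc 1 E)
    (hF : M.IsCyc 1 F) (hG : (X.prod P).IsCyc 1 G) (hX : HardLefschetz W X D)
    (hV : HardLefschetz W V E) (hM : HardLefschetz W M F) (hXP : HardLefschetz W (X.prod P) G)
    (hR : HardLefschetz W ((V.prod V).prod Q) (sumDiv ops (boxSum ops E) p))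
    (hBM : LefschetzB W M F) (hMV : M.dim = V.dim) (hXV : X.dim + P.dim + 2 = V.dim)
    (hdec : IsDecomposed W V ![M, X.prod P] ![0, 1]) :
    List.TFAE [
      LefschetzB W X D,
      LefschetzB W V E,
      LefschetzAIn W ((V.prod V).prod Q) (sumDiv ops (boxSum ops E) p) V.dim,
      ∃ F', ((V.prod V).prod Q).IsCyc 1 F' ∧ HardLefschetz W ((V.prod V).prod Q) F' ∧
        LefschetzAIn W ((V.prod V).prod Q) F' V.dim,
      cycleRank W ((V.prod V).prod Q) V.dim = cycleRank W ((V.prod V).prod Q) (V.dim + 1)] := by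
  have hdimVV : (V.prod V).dim = 2 * V.dim := by rw [dim_prod]; ring
  have hdimR : ((V.prod V).prod Q).dim = 2 * V.dim + 1 := by rw [dim_prod, hdimVV, hQ1]
  tfae_have 1 ↔ 2 := by
    have hdim : ∀ s : Fin 2, ((![M, X.prod P] : Fin 2 → 𝒱.Obj) s).dim +
        2 * (![0, 1] : Fin 2 → ℕ) s = V.dim := by
      intro s
      fin_cases s
      · exact hMV
      · change (X.prod P).dim + 2 * 1 = V.dim
        rw [dim_prod]
        omega
    have key := lefschetzB_decomposed (D := E)
      (E := Fin.cons F (Fin.cons G finZeroElim)) hdec hdim hE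
      (fun s => by fin_cases s; exacts [hF, hG]) hV (fun s => by fin_cases s; exacts [hM, hXP])
    rw [key, ← lefschetzB_prod_iff hP hD hG hX hXP]
    constructor
    · intro hB s
      fin_cases s
      exacts [hBM, hB]
    · intro hB
      exact hB 1
  tfae_have 2 ↔ 3 := by
    rw [lefschetzA_line hQ hQ1 (by omega) hdimVV (boxSum_mem hE)]
    exact (a_tfae hE hV).out 0 2
  tfae_have 3 → 4 := fun hA => ⟨_, isCyc_sumDiv (boxSum_mem hE) hQ.div, hR, hA⟩
  tfae_have 4 → 5 := by
    rintro ⟨F', hF', hHL, hA⟩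
    exact rank_of_A' hF' hHL (q := V.dim) (c := 1) (by rw [hdimR]) hA
  tfae_have 5 → 2 := by
    intro he
    rw [cycleRank_line hQ hQ1, cycleRank_line hQ hQ1] at he
    rw [lefschetzB_iff_rank hE hV, opRank_eq_cycleRank, opRank_eq_cycleRank]
    rw [show (V.dim : ℤ) + 1 - 1 = V.dim by ring] at he
    have : (V.dim : ℤ) + -1 = V.dim - 1 := by ring
    rw [this]
    omega
  tfae_finish

end Pool.Agent.R909
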