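import Pool.Agent.R909.DecD

/-!
# The statements on decompositions
-/

open CategoryTheory AlgebraicGeometry Finset

universe u v

namespace Pool.Agent.R909

open Pool.Agent.H914 Pool.Agent.H447 Pool.Agent.W534 Pool.Agent.W537 Pool.Agent.TH720.LB
  VarClass Obj WeilCohomology

variable {k : Type u} [Field k] {𝒱 : VarClass k} {ops : CycleOps 𝒱}
  {W : WeilCohomology.{u, v} ops} {X V P M Q : 𝒱.Obj}

/-- The conjecture for a blow-up of a variety for which it holds, and the conjecture A on one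
variety of odd dimension. -/
theorem rational_tfae {h : P.Cycles} (hP : ProjLike W P h) {p : Q.Cycles}
    (hQ : ProjLike W Q p) (hQ1 : Q.dim = 1) (hV : IsBlowUp W V M X P) {D : X.Cycles} {E : V.Cycles}
    {F : M.Cycles} {G : (X.prod P).Cycles} (hD : IsPolarization W X D)
    (hE : IsPolarization W V E) (hF : IsPolarization W M F)
    (hG : IsPolarization W (X.prod P) G)
    (hR : IsPolarization W (squareTimes V Q) (squareDiv ops E p)) (hBM : LefschetzB W M F) :
    List.TFAE [
      LefschetzB W X D,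
      LefschetzB W V E,
      AInTheMiddle W V Q (squareDiv ops E p),
      SomeAInTheMiddle W V Q,
      EqualRanksInTheMiddle W V Q] := by
  have key := blowUp_tfae hP.to hQ.to hQ1 hD.1 hE.1 hF.1 hG.1 hD.2 hE.2 hF.2 hG.2 hR.2 hBM
    hV.dim_base hV.dim_centre hV.dec
  have h1 : SomeAInTheMiddle W V Q ↔ ∃ F' : ((V.prod V).prod Q).Cycles,
      ((V.prod V).prod Q).IsCyc 1 F' ∧ HardLefschetz W ((V.prod V).prod Q) F' ∧
        LefschetzAIn W ((V.prod V).prod Q) F' V.dim := by
    constructor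
    · rintro ⟨F', hF', hA⟩
      exact ⟨F', hF'.1, hF'.2, hA⟩
    · rintro ⟨F', hF', hHL, hA⟩
      exact ⟨F', ⟨hF', hHL⟩, hA⟩
  rw [h1]
  exact key

/-- **The conjecture for varieties whose cohomology is decomposed.** -/
theorem decomposed_iff {q : ℕ} {X P : Fin q → 𝒱.Obj} {l : Fin q → ℕ} {h : ∀ s, (P s).Cycles}
    (hP : ∀ s, ProjLike W (P s) (h s))
    (hdec : IsDecomposed W V (fun s => (X s).prod (P s)) l)
    (hdim : ∀ s, (X s).dim + (P s).dim + 2 * l s = V.dim) {E : V.Cycles}
    {D : ∀ s, (X s).Cycles} {G : ∀ s, ((X s).prod (P s)).Cycles}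
    (hE : IsPolarization W V E) (hD : ∀ s, IsPolarization W (X s) (D s))
    (hG : ∀ s, IsPolarization W ((X s).prod (P s)) (G s)) :
    LefschetzB W V E ↔ ∀ s, LefschetzB W (X s) (D s) := by
  rw [lefschetzB_decomposed hdec (fun s => by rw [dim_prod]; exact hdim s) hE.1
    (fun s => (hG s).1) hE.2 (fun s => (hG s).2)]
  exact forall_congr' fun s =>
    lefschetzB_prod_iff (hP s).to (hD s).1 (hG s).1 (hD s).2 (hG s).2

/-- **The conjectures A and B for varieties whose cohomology is decomposed.** -/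
theorem decomposed_tfae {q : ℕ} {X P : Fin q → 𝒱.Obj} {l : Fin q → ℕ} {h : ∀ s, (P s).Cycles}
    (hP : ∀ s, ProjLike W (P s) (h s))
    (hdec : IsDecomposed W V (fun s => (X s).prod (P s)) l)
    (hdim : ∀ s, (X s).dim + (P s).dim + 2 * l s = V.dim) {E : V.Cycles}
    {D : ∀ s, (X s).Cycles} {G : ∀ s, ((X s).prod (P s)).Cycles}
    (hE : IsPolarization W V E) (hD : ∀ s, IsPolarization W (X s) (D s))
    (hG : ∀ s, IsPolarization W ((X s).prod (P s)) (G s)) :
    List.TFAE [
      AOnSquare W V E,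
      ∀ s, AOnSquare W (X s) (D s),
      LefschetzB W V E,
      ∀ s, LefschetzB W (X s) (D s)] := by
  tfae_have 1 ↔ 3 := (a_tfae hE.1 hE.2).out 1 0
  tfae_have 2 ↔ 4 := forall_congr' fun s => (a_tfae (hD s).1 (hD s).2).out 1 0
  tfae_have 3 ↔ 4 := decomposed_iff hP hdec hdim hE hD hG
  tfae_finish

end Pool.Agent.R909
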