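import Pool.Agent.R909.HilB
import Pool.Agent.TH132.A.Low

/-!
# The conjectures A and B for the Hilbert scheme of two points
-/

open CategoryTheory AlgebraicGeometry Finset

universe u v

namespace Pool.Agent.R909

open Pool.Agent.H914 Pool.Agent.H447 Pool.Agent.W534 Pool.Agent.W537 Pool.Agent.TH720.LB
  VarClass Obj WeilCohomology

variable {k : Type u} [Field k] {𝒱 : VarClass k} {ops : CycleOps 𝒱}
  {W : WeilCohomology.{u, v} ops} {X Y Z V P : 𝒱.Obj} {D : X.Cycles}

/-! ### B implies A -/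

lemma push_alg (f : X ⟶ Y) {j : ℕ} {x : W.H X} (hx : x ∈ algClasses W X j) :
    W552.AS W Y (W.push f x) := by
  obtain ⟨z, hz, rfl⟩ := hx
  by_cases hneg : (j : ℤ) + Y.dim - X.dim < 0
  · have h1 := W.push_mem f (W.cl_mem hz)
    rw [grZ_of_neg (by push_cast; omega)] at h1
    rw [(Submodule.mem_bot _).1 h1]
    exact W552.AS.zero
  · rw [← W.cl_push]
    exact W552.AS.of ⟨_, ops.push_mem f hz (q := ((j : ℤ) + Y.dim - X.dim).toNat) (by omega), rfl⟩

lemma rop_stable {d : ℤ} {φ : Module.End W.K (W.H X)} (hφ : ROp W X d φ) :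
    TH132.A.Stable W X φ := by
  obtain ⟨F, ⟨q, hq, z, hz, hF⟩ | ⟨_, hF⟩, rfl⟩ := hφ
  · intro x hx
    rw [hF]
    refine W552.AS.ind (p := fun x => W552.AS W X (W.corr (W.cl _ z) x)) ?_ ?_ hx
    · rintro i _ ⟨w, hw, rfl⟩
      rw [corr_apply, ← W.cl_pull, ← W.cl_mul]
      exact push_alg _ ⟨_, ops.mul_mem hz (ops.pull_mem _ hw), rfl⟩
    · intro x y hx hy
      rw [map_add]
      exact hx.add hy
  · intro x _
    rw [hF, LinearMap.zero_apply]
    exact W552.AS.zero

/-- The conjecture B implies the conjecture A. -/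
theorem lefschetzA_of_B (hD : X.IsCyc 1 D) (hHL : HardLefschetz W X D) (hB : LefschetzB W X D) :
    LefschetzA W X D := by
  obtain ⟨f, t, hf, hfv⟩ := exists_sl2 (W.isInternal X) (isHom_mulLeft W hD) W_hbd hHL
  obtain ⟨Φ, hΦ, hLam⟩ := lefschetzB_iff_rop.1 hB
  exact TH132.A.lefschetzA_of_stable hD t (rop_stable
    (lower_of_lam rop_opAlg (W.isInternal X) W_hbd (rop_mulLeft hD) hHL hΦ hLam hfv))

/-- The conjecture does not depend on the divisor. -/
lemma lefschetzB_indep {E : X.Cycles} (hD : X.IsCyc 1 D) (hHL : HardLefschetz W X D)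
    (hE : X.IsCyc 1 E) (hHL' : HardLefschetz W X E) (hB : LefschetzB W X D) :
    LefschetzB W X E :=
  (lefschetzB_iff_rank hE hHL').2 ((lefschetzB_iff_rank hD hHL).1 hB)

/-! ### The lowering operator of the square -/

lemma swap_boxSum (D : X.Cycles) : W.map (swap X X) (W.cl _ (boxSum ops D)) =
    W.cl _ (boxSum ops D) := by
  rw [boxSum, map_add, W.cl_pull, W.cl_pull, map_add (W.map (swap X X)), ← W.map_comp,
    ← W.map_comp, swap_fst, swap_snd, add_comm]

lemma exists_low_square (hD : X.IsCyc 1 D) (hHL : HardLefschetz W X D) (hB : LefschetzB W X D)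
    (c : ℕ) : ∃ ν ∈ KOp W (X.prod X) (X.prod X) (-c),
      (∀ a ∈ W.gr (X.prod X) ((X.prod X).dim + c), ν a = 0 → a = 0) ∧
      ∀ a, W.map (swap X X) (ν a) = ν (W.map (swap X X) a) := by
  obtain ⟨f, t, hf, hfv⟩ := exists_sl2 (W.isInternal X) (isHom_mulLeft W hD) W_hbd hHL
  have hfR := (lefschetzB_iff_lower hD hHL t hfv).1 hB
  have tt := sl2_prod t t
  rw [← wt_prod, ← mulLeft_prod hD] at tt
  have hk : extSum W f f ∈ KOp W (X.prod X) (X.prod X) (-1) := by
    rw [extSum, extL_apply, extR_apply]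
    apply Submodule.add_mem
    · exact KOp.cast (KOp.ext hfR (KOp.id X)) (by ring)
    · exact KOp.cast (KOp.ext (KOp.id X) hfR) (by ring)
  have hcomm : swapMap W X * extSum W f f = extSum W f f * swapMap W X := by
    apply W498.Dom.comm_f tt
    · apply gr_ext (W.isInternal (X.prod X))
      intro i a ha
      rw [Module.End.mul_apply, Module.End.mul_apply, W498.Dom.wt_apply _ _ ha, map_smul,
        swapMap_apply, W498.Dom.wt_apply _ _ (W.map_mem _ ha)]
    · apply LinearMap.ext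
      intro a
      rw [Module.End.mul_apply, Module.End.mul_apply, LinearMap.mulLeft_apply,
        LinearMap.mulLeft_apply, swapMap_apply, swapMap_apply, map_mul (W.map (swap X X))]
      congr 1
      exact swap_boxSum D
  refine ⟨extSum W f f ^ c, KOp.cast (W498.Dom.kop_pow hk c) (by ring), fun a ha h0 => ?_,
    fun a => ?_⟩
  · apply f_pow_inj tt (c := c) _ h0
    rw [W498.Dom.wt_apply _ _ ha]
    congr 1
    push_cast; ring
  · have h1 : Commute (swapMap W X) (extSum W f f ^ c) := Commute.pow_right hcomm c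
    have h2 := congrArg (fun T => T a) h1.eq
    exact h2

/-- The conjecture for the Hilbert square. -/
theorem lefschetzB_hilbert (hY : IsHilbertSquare W Y X P) {h : P.Cycles} (hP : IsProjLike W P h)
    {G : (X.prod P).Cycles} {E : Y.Cycles} (hD : X.IsCyc 1 D) (hHL : HardLefschetz W X D)
    (hG : (X.prod P).IsCyc 1 G) (hXP : HardLefschetz W (X.prod P) G) (hE : Y.IsCyc 1 E)
    (hYE : HardLefschetz W Y E) (hB : LefschetzB W X D) : LefschetzB W Y E := by
  obtain ⟨α, β, γ, δ, hα, hβ, hγ, hδ, hs⟩ := hY.maps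
  have hdXX : (X.prod X).dim = Y.dim := by rw [dim_prod, hY.dim_eq]; ring
  have hdXP : (X.prod P).dim + 2 = Y.dim := by
    have := hY.dim_fibre
    rw [dim_prod, hY.dim_eq]
    omega
  have hBP : LefschetzB W (X.prod P) G := (lefschetzB_prod_iff hP hD hG hHL hXP).2 hB
  apply lefschetzB_of_inj hE hYE
  intro c hc
  obtain ⟨ν, hν, hinj, hcomm⟩ := exists_low_square hD hHL hB c
  obtain ⟨μ, hμ, hinj'⟩ : ∃ μ ∈ KOp W (X.prod P) (X.prod P) (-c),
      ∀ a ∈ W.gr (X.prod P) ((X.prod P).dim + c), μ a = 0 → a = 0 := by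
    by_cases h1 : c ≤ (X.prod P).dim
    · exact inj_of_lefschetzB hG hXP hBP c h1
    · refine ⟨0, Submodule.zero_mem _, fun a ha _ => ?_⟩
      rw [W.gr_eq_bot _ _ (by omega)] at ha
      exact (Submodule.mem_bot _).1 ha
  refine ⟨α ∘ₗ ν ∘ₗ β + γ ∘ₗ μ ∘ₗ δ, Submodule.add_mem _ ?_ ?_, fun a ha h0 => ?_⟩
  · exact KOp.cast (KOp.comp hα (KOp.comp hν hβ)) (by ring)
  · exact KOp.cast (KOp.comp hγ (KOp.comp hμ hδ)) (by ring)
  · rw [LinearMap.add_apply, LinearMap.comp_apply, LinearMap.comp_apply, LinearMap.comp_apply,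
      LinearMap.comp_apply] at h0
    have h1 : ν (β a) = 0 := by
      have := congrArg β h0
      rw [map_add, map_zero, hs.zero, add_zero, hs.inv] at this
      · exact this
      · rw [hcomm, hs.isInv]
    have h2 : μ (δ a) = 0 := by
      have := congrArg δ h0
      rw [map_add, map_zero, hs.zero', zero_add, hs.one] at this
      exact this
    have h3 : β a = 0 := by
      apply hinj _ _ h1
      have := KOp.isHom hβ _ a (by rw [grZ_natCast]; exact ha)
      rw [mul_zero, add_zero, grZ_natCast] at this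
      rwa [hdXX]
    have h4 : δ a = 0 := by
      apply hinj' _ _ h2
      have := KOp.isHom hδ _ a (by rw [grZ_natCast]; exact ha)
      rwa [show ((Y.dim + c : ℕ) : ℤ) + 2 * -1 = (((X.prod P).dim + c : ℕ) : ℤ) by
        push_cast; omega, grZ_natCast] at this
    rw [← hs.eq a, h3, h4, map_zero, map_zero, add_zero]

/-- **The conjectures A and B for the Hilbert scheme of two points.** -/
theorem hilbert_tfae' (hY : IsHilbertSquare W Y X P) {h : P.Cycles} (hP : IsProjLike W P h)
    {G : (X.prod P).Cycles} {E : Y.Cycles} (hD : X.IsCyc 1 D) (hHL : HardLefschetz W X D)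
    (hG : (X.prod P).IsCyc 1 G) (hXP : HardLefschetz W (X.prod P) G) (hE : Y.IsCyc 1 E)
    (hYE : HardLefschetz W Y E) :
    List.TFAE [
      LefschetzB W X D,
      LefschetzB W Y E,
      ∀ F, IsPolarization W Y F → LefschetzA W Y F,
      LefschetzAIn W Y E (X.dim - 1),
      ∃ F, IsPolarization W Y F ∧ LefschetzAIn W Y F (X.dim - 1),
      cycleRank W Y (X.dim - 1) = cycleRank W Y (X.dim + 1),
      symRank W X (X.dim - 1) = symRank W X (X.dim + 1)] := by
  have hn : 2 ≤ X.dim := by have := hY.dim_fibre; omega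
  tfae_have 1 → 2 := lefschetzB_hilbert hY hP hD hHL hG hXP hE hYE
  tfae_have 2 → 3 := fun hB F hF => lefschetzA_of_B hF.1 hF.2 (lefschetzB_indep hE hYE hF.1 hF.2 hB)
  tfae_have 3 → 4 := by
    intro hA z hz
    exact hA E ⟨hE, hYE⟩ (X.dim - 1) (by rw [hY.dim_eq]; omega) z hz
  tfae_have 4 → 5 := fun hA => ⟨E, ⟨hE, hYE⟩, hA⟩
  tfae_have 5 → 6 := by
    rintro ⟨F, hF, hA⟩
    have := rank_of_A' hF.1 hF.2 (q := X.dim - 1) (c := 2) (by rw [hY.dim_eq]; omega) hA
    rwa [show ((X.dim - 1 : ℕ) : ℤ) = X.dim - 1 by push_cast [Nat.cast_sub (show 1 ≤ X.dim by omega)]; ring,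
      show ((X.dim - 1 + 2 : ℕ) : ℤ) = X.dim + 1 by
        push_cast [Nat.cast_sub (show 1 ≤ X.dim by omega)]; ring] at this
  tfae_have 6 → 7 := by
    intro he
    rw [hY.rank, hY.rank] at he
    have h1 := symRank_le hD hHL (W := W)
    have h2 := cycleRank_le hG hXP (q := X.dim - 2) (c := 2) (by
      have := hY.dim_fibre
      rw [dim_prod]
      omega)
    rw [show ((X.dim - 2 : ℕ) : ℤ) = X.dim - 1 - 1 by
      push_cast [Nat.cast_sub hn]; ring, show (X.dim : ℤ) - 1 - 1 + (2 : ℕ) = X.dim + 1 - 1 by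
      push_cast; ring] at h2
    omega
  tfae_have 7 → 1 := (lefschetzB_iff_symRank hD hHL).2
  tfae_finish

end Pool.Agent.R909
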