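import Pool.Agent.R909.DsqDefs
import Pool.Agent.R909.HilC
import Pool.Agent.H447R3.DegB

/-!
# Numerically trivial combinations of classes
-/

open CategoryTheory AlgebraicGeometry Finset

universe u v

namespace Pool.Agent.R909

open Pool.Agent.H914 Pool.Agent.H447 Pool.Agent.W534 Pool.Agent.W537 VarClass Obj WeilCohomology

variable {k : Type u} [Field k] {𝒱 : VarClass k} {ops : CycleOps 𝒱}
  {W : WeilCohomology.{u, v} ops} {X Y Z V P : 𝒱.Obj} {D : X.Cycles}

/-- A `K`-linear combination of classes of cycles of codimension `q` which is orthogonal to all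
cycles. -/
def NumK (W : WeilCohomology.{u, v} ops) (Y : 𝒱.Obj) (q : ℤ) (γ : W.H Y) : Prop :=
  γ ∈ spanCycles W Y q ∧ ∀ (p : ℕ) w, q + p = Y.dim → Y.IsCyc p w → W.tr Y (γ * W.cl Y w) = 0

lemma NumK.add {q : ℤ} {γ γ' : W.H Y} (h : NumK W Y q γ) (h' : NumK W Y q γ') :
    NumK W Y q (γ + γ') :=
  ⟨Submodule.add_mem _ h.1 h'.1, fun p w hp hw => by
    rw [add_mul, map_add, h.2 p w hp hw, h'.2 p w hp hw, add_zero]⟩

lemma NumK.smul {q : ℤ} {γ : W.H Y} (h : NumK W Y q γ) (c : W.K) : NumK W Y q (c • γ) :=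
  ⟨Submodule.smul_mem _ _ h.1, fun p w hp hw => by
    rw [smul_mul_assoc, map_smul, h.2 p w hp hw, smul_zero]⟩

/-- Orthogonality to the combinations of cycles. -/
lemma NumK.span {q : ℤ} {γ δ : W.H Y} (h : NumK W Y q γ) {p : ℤ} (hp : q + p = Y.dim)
    (hδ : δ ∈ spanCycles W Y p) : W.tr Y (γ * δ) = 0 := by
  induction hδ using Submodule.span_induction with
  | mem x hx =>
    obtain ⟨r, hr, w, hw, rfl⟩ := hx
    exact h.2 r w (by rw [hr]; exact hp) hw
  | zero => rw [mul_zero, map_zero]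
  | add x y _ _ hx hy => rw [mul_add, map_add, hx, hy, add_zero]
  | smul c x _ hx => rw [mul_smul_comm, map_smul, hx, smul_zero]

/-- Correspondences preserve numerical triviality. -/
lemma NumK.kop {q d : ℤ} {γ : W.H Y} (h : NumK W Y q γ) {φ : W.H Y →ₗ[W.K] W.H Z}
    (hφ : φ ∈ KOp W Y Z d) : NumK W Z (q + d) (φ γ) := by
  refine ⟨kop_span hφ h.1, fun p w hp hw => ?_⟩
  obtain ⟨ψ, hψ, hadj⟩ := KOp.exists_adjoint hφ
  rw [hadj]
  apply h.span (p := p + (d + Y.dim - Z.dim)) (by omega)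
  exact kop_span hψ (Submodule.subset_span ⟨p, rfl, w, hw, rfl⟩)

/-- The exchange of the factors. -/
lemma NumK.swapped {q : ℤ} {γ : W.H (X.prod X)} (h : NumK W (X.prod X) q γ) :
    NumK W (X.prod X) q (W.map (swap X X) γ) := by
  refine ⟨span_pull' _ h.1, fun p w hp hw => ?_⟩
  have h1 := h.2 p _ hp (ops.pull_mem (swap X X) hw)
  rw [← tr_swap (X := X) (Y := X), map_mul (W.map (swap X X)), W.cl_pull, map_swap_swap] at h1
  exact h1

/-- Products with divisors on the square. -/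
lemma NumK.mul {q : ℤ} {γ : W.H Y} (h : NumK W Y q γ) {p : ℕ} {E : Y.Cycles} (hE : Y.IsCyc p E) :
    NumK W Y (q + p) (W.cl Y E * γ) := by
  refine ⟨span_mul_cyc hE h.1, fun r w hr hw => ?_⟩
  have h1 := h.2 (p + r) _ (by push_cast; omega) (ops.mul_mem hE hw)
  rw [W.cl_mul] at h1
  rw [W.even_comm (W.cl_mem hE), mul_assoc]
  exact h1

lemma numK_of {q : ℕ} {z : Y.Cycles} (h : IsNumTrivial ops Y q z) :
    NumK W Y q (W.cl Y z) := by
  refine ⟨Submodule.subset_span ⟨q, rfl, z, h.1, rfl⟩, fun p w hp hw => ?_⟩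
  have h1 : q + p = Y.dim := by exact_mod_cast hp
  rw [tr_mul_cl h.1 hw h1, h.2 w (by rwa [← h1, Nat.add_sub_cancel_left]), Rat.cast_zero]

/-- Classes of too large or negative codimension. -/
lemma span_eq_zero {q : ℤ} (hq : q < 0 ∨ (Y.dim : ℤ) < q) {γ : W.H Y}
    (hγ : γ ∈ spanCycles W Y q) : γ = 0 := by
  induction hγ using Submodule.span_induction with
  | mem x hx =>
    obtain ⟨r, hr, w, hw, rfl⟩ := hx
    rcases hq with hq | hq
    · omega
    · have := W.cl_mem hw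
      rw [W.gr_eq_bot Y _ (by omega)] at this
      exact (Submodule.mem_bot _).1 this
  | zero => rfl
  | add x y _ _ hx hy => rw [hx, hy, add_zero]
  | smul c x _ hx => rw [hx, smul_zero]

/-- The conjecture D for combinations. -/
lemma numK_eq_zero (h : HomEqNum W Y) {q : ℤ} {γ : W.H Y} (hγ : NumK W Y q γ) : γ = 0 := by
  by_cases hq : q < 0 ∨ (Y.dim : ℤ) < q
  · exact span_eq_zero hq hγ.1
  · push Not at hq
    lift q to ℕ using hq.1
    have hq2 : q ≤ Y.dim := by exact_mod_cast hq.2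
    refine HomEqNumIn.span (q := q) (p := Y.dim - q) (by omega) (h q hq2) hγ.1 ?_
    intro w hw
    rw [W.even_comm (W.cl_mem hw)]
    exact hγ.2 _ w (by omega) hw

lemma homEqNum_iff : HomEqNum W Y ↔ ∀ (q : ℤ) (γ : W.H Y), NumK W Y q γ → γ = 0 := by
  constructor
  · intro h q γ hγ
    exact numK_eq_zero h hγ
  · intro h q hq z hz hnum
    exact h q _ (numK_of ⟨hz, hnum⟩)

/-- The symmetrisation of a cycle. -/
lemma symm_cycle (W : WeilCohomology.{u, v} ops) {q : ℕ} (hq : q ≤ (X.prod X).dim)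
    {z : (X.prod X).Cycles} (h : IsNumTrivial ops (X.prod X) q z) :
    IsNumTrivial ops (X.prod X) q ((2⁻¹ : ℚ) • (z + ops.pull (swap X X) z)) := by
  have hc : (X.prod X).IsCyc q ((2⁻¹ : ℚ) • (z + ops.pull (swap X X) z)) :=
    (h.1.add (ops.pull_mem _ h.1)).smul _
  refine ⟨hc, fun w hw => ?_⟩
  have h1 := tr_mul_cl (W := W) hc hw (by omega)
  have h2 : NumK W (X.prod X) q (W.cl _ ((2⁻¹ : ℚ) • (z + ops.pull (swap X X) z))) := by
    rw [cl_smul, map_add, W.cl_pull]
    exact ((numK_of h).add (numK_of h).swapped).smul _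
  rw [h2.2 _ w (by omega) hw] at h1
  exact_mod_cast h1.symm

lemma symIn_iff {q : ℕ} : SymHomEqNumIn W X q ↔ ∀ z, IsNumTrivial ops (X.prod X) q z →
    swapMap W X (W.cl (X.prod X) z) = W.cl (X.prod X) z → W.cl (X.prod X) z = 0 := by
  constructor
  · intro h z hz hs
    have h1 : W.cl (X.prod X) z = W.cl (X.prod X) 0 := h z hz (by
      change W.cl _ (ops.pull (swap X X) z) = W.cl _ z
      rw [W.cl_pull]
      exact hs)
    rwa [map_zero] at h1
  · intro h z hz hs
    change W.cl _ z = W.cl _ 0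
    rw [map_zero]
    refine h z hz ?_
    change W.cl _ (ops.pull (swap X X) z) = W.cl _ z at hs
    rw [W.cl_pull] at hs
    exact hs

/-- The conjecture D for invariant combinations. -/
lemma symK_eq_zero {q : ℕ} (hq : q ≤ (X.prod X).dim) (h : SymHomEqNumIn W X q)
    {γ : W.H (X.prod X)} (hγ : NumK W (X.prod X) q γ) (hs : W.map (swap X X) γ = γ) :
    γ = 0 := by
  have hrep : ∃ (m : ℕ) (c : Fin m → W.K) (z : Fin m → (X.prod X).Cycles),
      (∀ i, (X.prod X).IsCyc q (z i)) ∧ γ = ∑ i, c i • W.cl _ (z i) := by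
    have h0 := hγ.1
    rw [spanCycles, Submodule.mem_span_set'] at h0
    obtain ⟨m, c, g, hg⟩ := h0
    choose p' hp' z hz hz' using fun i => (g i).2
    refine ⟨m, c, z, fun i => ?_, ?_⟩
    · have : p' i = q := by exact_mod_cast hp' i
      rw [← this]; exact hz i
    · rw [← hg]
      exact Finset.sum_congr rfl (fun i _ => by rw [hz' i])
  obtain ⟨m, c, z₀, hz₀, hγ₀⟩ := hrep
  set z : Fin m → (X.prod X).Cycles :=
    fun i => (2⁻¹ : ℚ) • (z₀ i + ops.pull (swap X X) (z₀ i)) with hzdef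
  have hz : ∀ i, (X.prod X).IsCyc q (z i) := fun i =>
    ((hz₀ i).add (ops.pull_mem _ (hz₀ i))).smul _
  have hclz : ∀ i, W.cl _ (z i) =
      ((2⁻¹ : ℚ) : W.K) • (W.cl _ (z₀ i) + W.map (swap X X) (W.cl _ (z₀ i))) := by
    intro i
    rw [hzdef]
    show W.cl _ ((2⁻¹ : ℚ) • (z₀ i + ops.pull (swap X X) (z₀ i))) = _
    rw [cl_smul, map_add, W.cl_pull]
  have hinv : ∀ i, W.map (swap X X) (W.cl _ (z i)) = W.cl _ (z i) := by
    intro i
    rw [hclz, map_smul, map_add, map_swap_swap, add_comm]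
  have hγz : γ = ∑ i, c i • W.cl _ (z i) := by
    have h1 : γ = ((2⁻¹ : ℚ) : W.K) • (γ + W.map (swap X X) γ) := by
      rw [hs, ← two_smul W.K, smul_smul]
      push_cast
      rw [inv_mul_cancel₀ two_ne_zero, one_smul]
    rw [h1]
    conv_lhs => rw [hγ₀]
    rw [map_sum, ← Finset.sum_add_distrib, Finset.smul_sum]
    apply Finset.sum_congr rfl
    intro i _
    rw [hclz, map_smul, ← smul_add, smul_comm]
  clear_value z
  rw [hγz]
  refine sum_smul_eq_zero (K := W.K) (V := W.H (X.prod X)) c (fun i => W.cl _ (z i)) ?_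
  intro ret
  set u : (X.prod X).Cycles := ∑ i, ret (c i) • z i with hu
  have hucyc : (X.prod X).IsCyc q u := by
    rw [hu]
    refine Finset.sum_induction _ (fun u => (X.prod X).IsCyc q u) (fun a b => SmVar.IsCyc.add)
      (SmVar.IsCyc.zero _ _) (fun i _ => (hz i).smul _)
  have hcl : W.cl _ u = ∑ i, ((ret (c i) : ℚ) : W.K) • W.cl _ (z i) := by
    rw [hu, map_sum]
    exact Finset.sum_congr rfl (fun i _ => cl_smul W _ _)
  rw [← hcl]
  refine symIn_iff.1 h u ⟨hucyc, fun w hw => ?_⟩ ?_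
  · have h1 := tr_mul_cl (W := W) hucyc hw (by omega)
    have h2 : W.tr _ (W.cl _ u * W.cl _ w) =
        ((ret (W.tr _ (W.cl _ w * ∑ i, c i • W.cl _ (z i))) : ℚ) : W.K) := by
      rw [W.even_comm (W.cl_mem hucyc), hcl, Finset.mul_sum, Finset.mul_sum, map_sum, map_sum,
        map_sum]
      push_cast
      apply Finset.sum_congr rfl
      intro i _
      rw [mul_smul_comm, mul_smul_comm, map_smul, map_smul, tr_mul_cl hw (hz i) (by omega),
        smul_eq_mul, smul_eq_mul, ret_mul]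
      push_cast; rfl
    rw [h1, ← hγz, W.even_comm (W.cl_mem hw), hγ.2 _ w (by omega) hw, map_zero,
      Rat.cast_zero] at h2
    exact_mod_cast h2
  · rw [swapMap_apply, hcl, map_sum]
    apply Finset.sum_congr rfl
    intro i _
    rw [map_smul, hinv]

lemma symK_eq_zero' (h : SymHomEqNum W X) {q : ℤ} {γ : W.H (X.prod X)}
    (hγ : NumK W (X.prod X) q γ) (hs : W.map (swap X X) γ = γ) : γ = 0 := by
  by_cases hq : q < 0 ∨ ((X.prod X).dim : ℤ) < q
  · exact span_eq_zero hq hγ.1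
  · push Not at hq
    lift q to ℕ using hq.1
    have hq2 : q ≤ (X.prod X).dim := by exact_mod_cast hq.2
    exact symK_eq_zero hq2 (h q hq2) hγ hs

end Pool.Agent.R909
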