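import Pool.Agent.R909.DsqA

/-!
# Operators of numerically trivial classes
-/

open CategoryTheory AlgebraicGeometry Finset

universe u v

namespace Pool.Agent.R909

open Pool.Agent.H914 Pool.Agent.H447 Pool.Agent.W534 Pool.Agent.W537 VarClass Obj WeilCohomology

variable {k : Type u} [Field k] {𝒱 : VarClass k} {ops : CycleOps 𝒱}
  {W : WeilCohomology.{u, v} ops} {X Y Z V P : 𝒱.Obj} {D : X.Cycles}

/-- The operators of the numerically trivial combinations of degree `d`. -/
def NumOp (W : WeilCohomology.{u, v} ops) (X : 𝒱.Obj) (d : ℤ) (u : Module.End W.K (W.H X)) :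
    Prop := ∃ γ, NumK W (X.prod X) (X.dim + d) γ ∧ W.corr γ = u

lemma NumOp.cast {d e : ℤ} {u : Module.End W.K (W.H X)} (h : NumOp W X d u) (hde : d = e) :
    NumOp W X e u := hde ▸ h

lemma NumOp.mem {d : ℤ} {u : Module.End W.K (W.H X)} (h : NumOp W X d u) : u ∈ KOp W X X d := by
  obtain ⟨γ, hγ, rfl⟩ := h
  exact mem_KOp_iff.2 ⟨γ, hγ.1, rfl⟩

/-- The trace formula. -/
lemma trace_formula {d : ℤ} {γ δ : W.H (X.prod X)} (hγ : γ ∈ spanCycles W (X.prod X) (X.dim + d)) :
    W.tr (X.prod X) (γ * δ) = LinearMap.trace W.K (W.H X)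
      (par (W.isInternal X) * W.corr γ * W.corr (W.map (swap X X) δ)) := by
  by_cases hq : (X.dim : ℤ) + d < 0
  · rw [span_eq_zero (Or.inl hq) hγ, zero_mul, map_zero, corr_zero, mul_zero, zero_mul, map_zero]
  · push Not at hq
    lift (X.dim : ℤ) + d to ℕ using hq with q
    exact tr_mul_eq_trace (H447.span_gr hγ) δ

lemma numOp_iff {d : ℤ} {u : Module.End W.K (W.H X)} :
    NumOp W X d u ↔ u ∈ KOp W X X d ∧ ∀ v ∈ KOp W X X (-d),
      LinearMap.trace W.K (W.H X) (par (W.isInternal X) * (u * v)) = 0 := by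
  constructor
  · intro h
    refine ⟨h.mem, ?_⟩
    obtain ⟨γ, hγ, rfl⟩ := h
    intro v hv
    obtain ⟨δ, hδ, rfl⟩ := mem_KOp_iff.1 hv
    have h1 := hγ.span (p := X.dim + -d) (δ := W.map (swap X X) δ) (by
      rw [dim_prod]; push_cast; ring) (span_pull' _ hδ)
    rw [trace_formula hγ.1, map_swap_swap, mul_assoc] at h1
    exact h1
  · rintro ⟨hu, h⟩
    obtain ⟨γ, hγ, rfl⟩ := mem_KOp_iff.1 hu
    refine ⟨γ, ⟨hγ, fun p w hp hw => ?_⟩, rfl⟩
    rw [trace_formula hγ, mul_assoc]
    refine h _ (mem_KOp_iff.2 ⟨_, ?_, rfl⟩)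
    refine span_pull' _ (Submodule.subset_span ⟨p, ?_, w, hw, rfl⟩)
    rw [dim_prod] at hp
    push_cast at hp
    linarith

/-- Correspondences are homogeneous operators. -/
lemma kop_isHom {d : ℤ} {a : Module.End W.K (W.H X)} (ha : a ∈ KOp W X X d) :
    IsHom (W.gr X) (2 * d) a := fun i x hx => KOp.isHom ha i x hx

lemma NumOp.mul_left {d e : ℤ} {u a : Module.End W.K (W.H X)} (h : NumOp W X d u)
    (ha : a ∈ KOp W X X e) : NumOp W X (d + e) (a * u) := by
  rw [numOp_iff] at h ⊢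
  refine ⟨KOp.comp ha h.1, fun v hv => ?_⟩
  have h1 := (kop_isHom ha).par_comm (W.isInternal X)
  rw [← mul_assoc, ← mul_assoc, h1, mul_assoc, mul_assoc, LinearMap.trace_mul_comm, mul_assoc,
    mul_assoc]
  exact h.2 _ (KOp.cast (KOp.comp hv ha) (by ring))

lemma NumOp.mul_right {d e : ℤ} {u a : Module.End W.K (W.H X)} (h : NumOp W X d u)
    (ha : a ∈ KOp W X X e) : NumOp W X (d + e) (u * a) := by
  rw [numOp_iff] at h ⊢
  refine ⟨KOp.cast (KOp.comp h.1 ha) (by ring), fun v hv => ?_⟩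
  rw [mul_assoc]
  exact h.2 _ (KOp.cast (KOp.comp ha hv) (by ring))

/-- Numerically trivial combinations change their sign under the exchange of the factors. -/
lemma swap_eq_neg (h : SymHomEqNum W X) {q : ℤ} {γ : W.H (X.prod X)}
    (hγ : NumK W (X.prod X) q γ) : W.map (swap X X) γ = -γ := by
  have h1 := symK_eq_zero' h (hγ.add hγ.swapped) (by
    rw [map_add, map_swap_swap, add_comm])
  exact eq_neg_of_add_eq_zero_right h1

lemma NumOp.adjoint (h : SymHomEqNum W X) {d : ℤ} {u : Module.End W.K (W.H X)}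
    (hu : NumOp W X d u) (a b : W.H X) : W.tr X (u a * b) = -W.tr X (a * u b) := by
  obtain ⟨γ, hγ, rfl⟩ := hu
  by_cases hq : (X.dim : ℤ) + d < 0
  · rw [span_eq_zero (Or.inl hq) hγ.1, corr_zero, LinearMap.zero_apply, LinearMap.zero_apply,
      zero_mul, mul_zero, map_zero, neg_zero]
  · push Not at hq
    have h2 : γ ∈ W.gr (X.prod X) (2 * ((X.dim : ℤ) + d).toNat) := by
      apply H447.span_gr
      rw [Int.toNat_of_nonneg hq]
      exact hγ.1
    rw [tr_corr_swap h2, swap_eq_neg h hγ, ← neg_one_smul W.K γ, corr_smul, LinearMap.smul_apply,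
      mul_smul_comm, map_smul, neg_one_smul]

/-- Correspondences and their adjoints. -/
lemma NumOp.mul_eq (h : SymHomEqNum W X) {d e : ℤ} {u a a' : Module.End W.K (W.H X)}
    (hu : NumOp W X d u) (ha : a ∈ KOp W X X e)
    (haa : ∀ x y, W.tr X (a x * y) = W.tr X (x * a' y)) : a * u = u * a' := by
  apply LinearMap.ext
  intro b
  rw [← sub_eq_zero]
  apply nondeg_right
  intro x
  rw [mul_sub, map_sub, sub_eq_zero]
  have h1 := (hu.mul_left ha).adjoint h x b
  have h2 : W.tr X ((a * u) x * b) = -W.tr X (x * (u * a') b) := by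
    rw [Module.End.mul_apply, haa, hu.adjoint h, Module.End.mul_apply]
  rw [h1] at h2
  exact neg_injective h2

/-- Numerically trivial operators anticommute. -/
lemma NumOp.anticomm (h : SymHomEqNum W X) {d e : ℤ} {u v : Module.End W.K (W.H X)}
    (hu : NumOp W X d u) (hv : NumOp W X e v) : v * u = -(u * v) := by
  rw [hu.mul_eq h hv.mem (a' := -v) (fun x y => by
    rw [hv.adjoint h, LinearMap.neg_apply, mul_neg, map_neg])]
  exact mul_neg u v

/-- The product of three numerically trivial operators vanishes. -/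
lemma NumOp.cube (h : SymHomEqNum W X) {d e l : ℤ} {u v w : Module.End W.K (W.H X)}
    (hu : NumOp W X d u) (hv : NumOp W X e v) (hw : NumOp W X l w) : u * v * w = 0 := by
  have h1 : u * v * w = -(w * (u * v)) := by
    rw [(hu.mul_right hv.mem).anticomm h hw, neg_neg]
  have h2 : w * (u * v) = -(u * w * v) := by
    rw [← mul_assoc, hu.anticomm h hw]
    exact neg_mul (u * w) v
  have h3 : u * w * v = -(u * v * w) := by
    rw [mul_assoc, hv.anticomm h hw, mul_assoc]
    exact mul_neg u (v * w)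
  rw [h2, h3, neg_neg] at h1
  have h4 : (2 : W.K) • (u * v * w) = 0 := by
    rw [two_smul]
    nth_rewrite 1 [h1]
    exact neg_add_cancel _
  exact (smul_eq_zero.1 h4).resolve_left two_ne_zero

/-- Commutators of correspondences kill the numerically trivial operators. -/
lemma NumOp.commutator (h : SymHomEqNum W X) {d e l : ℤ} {u a b : Module.End W.K (W.H X)}
    (hu : NumOp W X d u) (ha : a ∈ KOp W X X e) (hb : b ∈ KOp W X X l) :
    (a * b - b * a) * u = 0 := by
  obtain ⟨a', -, haa⟩ := KOp.exists_adjoint ha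
  have h1 := (hu.mul_left hb).mul_eq h ha (a' := a') haa
  rw [sub_mul, sub_eq_zero, mul_assoc, h1, mul_assoc, ← hu.mul_eq h ha haa, mul_assoc]

lemma exists_adjoint_pair {e : ℤ} {a : Module.End W.K (W.H X)} (ha : a ∈ KOp W X X e) :
    ∃ a' ∈ KOp W X X e, (∀ x y, W.tr X (a x * y) = W.tr X (x * a' y)) ∧
      ∀ x y, W.tr X (a' x * y) = W.tr X (x * a y) := by
  obtain ⟨γ, hγ, rfl⟩ := mem_KOp_iff.1 ha
  by_cases hq : (X.dim : ℤ) + e < 0
  · refine ⟨0, Submodule.zero_mem _, fun x y => ?_, fun x y => ?_⟩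
    all_goals simp [span_eq_zero (Or.inl hq) hγ, corr_zero]
  · push Not at hq
    have h2 : γ ∈ W.gr (X.prod X) (2 * ((X.dim : ℤ) + e).toNat) := by
      apply H447.span_gr
      rw [Int.toNat_of_nonneg hq]
      exact hγ
    refine ⟨W.corr (W.map (swap X X) γ), mem_KOp_iff.2 ⟨_, span_pull' _ hγ, rfl⟩,
      fun x y => tr_corr_swap h2 x y, fun x y => ?_⟩
    rw [tr_corr_swap (W.map_mem _ h2), map_swap_swap]

lemma NumOp.commutator' (h : SymHomEqNum W X) {d e l : ℤ} {u a b : Module.End W.K (W.H X)}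
    (hu : NumOp W X d u) (ha : a ∈ KOp W X X e) (hb : b ∈ KOp W X X l) :
    u * (a * b - b * a) = 0 := by
  obtain ⟨a', ha', -, haa'⟩ := exists_adjoint_pair ha
  have h1 := (hu.mul_right hb).mul_eq h ha' (a' := a) haa'
  rw [mul_sub, sub_eq_zero, ← mul_assoc, ← mul_assoc, ← h1, ← mul_assoc, hu.mul_eq h ha' haa']

end Pool.Agent.R909
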