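import Pool.Agent.R909.DsqB

/-!
# The conjecture D for invariant classes
-/

open CategoryTheory AlgebraicGeometry Finset

universe u v

namespace Pool.Agent.R909

open Pool.Agent.H914 Pool.Agent.H447 Pool.Agent.W534 Pool.Agent.W537 Pool.Agent.TH720.LB
  VarClass Obj WeilCohomology

variable {k : Type u} [Field k] {𝒱 : VarClass k} {ops : CycleOps 𝒱}
  {W : WeilCohomology.{u, v} ops} {X Y Z V P : 𝒱.Obj} {D : X.Cycles}

lemma tr_swap_mul (y x : W.H (X.prod X)) : W.tr (X.prod X) (W.map (swap X X) y * x) =
    W.tr (X.prod X) (y * W.map (swap X X) x) := by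
  rw [← tr_swap (X := X) (Y := X) (W.map (swap X X) y * x), map_mul (W.map (swap X X)),
    map_swap_swap]

/-- The conjecture D for invariant cycles in codimension `dim X + 1` implies the conjecture B. -/
theorem lefschetzB_of_sym (hD : X.IsCyc 1 D) (hHL : HardLefschetz W X D)
    (h : SymHomEqNumIn W X (X.dim + 1)) : LefschetzB W X D := by
  rw [lefschetzB_iff_symRank hD hHL]
  refine le_antisymm (symRank_le hD hHL) ?_
  set T : symCycles W X (X.dim + 1) →ₗ[W.K] Module.Dual W.K (symCycles W X (X.dim - 1)) :=
    (bil W (X.prod X)).domRestrict₁₂ (symCycles W X (X.dim + 1)) (symCycles W X (X.dim - 1))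
    with hT
  have hTa : ∀ y x, T y x = W.tr _ ((y : W.H (X.prod X)) * (x : W.H (X.prod X))) :=
    fun _ _ => rfl
  have hinj : Function.Injective T := by
    rw [← LinearMap.ker_eq_bot, LinearMap.ker_eq_bot']
    rintro ⟨y, hy⟩ h0
    rw [mem_symCycles] at hy
    apply Subtype.ext
    change y = 0
    by_cases hn : X.dim + 1 ≤ (X.prod X).dim
    · refine symK_eq_zero (q := X.dim + 1) hn h ⟨by exact_mod_cast hy.1, fun p w hp hw => ?_⟩ hy.2
      have h1 : W.cl _ w + W.map (swap X X) (W.cl _ w) ∈ symCycles W X (X.dim - 1) := by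
        rw [mem_symCycles, map_add, map_swap_swap, add_comm (W.map _ _)]
        have h2 : W.cl _ w ∈ spanCycles W (X.prod X) (X.dim - 1) :=
          Submodule.subset_span ⟨p, by rw [dim_prod] at hp; push_cast at hp; linarith, w, hw, rfl⟩
        exact ⟨Submodule.add_mem _ h2 (span_pull' _ h2), rfl⟩
      have h3 := congrArg (fun F => F ⟨_, h1⟩) h0
      simp only [hTa, LinearMap.zero_apply] at h3
      rw [mul_add, map_add, ← tr_swap_mul, hy.2, ← two_mul] at h3
      exact (mul_eq_zero.1 h3).resolve_left two_ne_zero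
    · refine span_eq_zero (Or.inr ?_) hy.1
      push Not at hn
      exact_mod_cast hn
  have h1 := LinearMap.finrank_le_finrank_of_injective hinj
  rwa [Subspace.dual_finrank_eq] at h1

/-- Numerically trivial operators live on the primitive part of the middle cohomology. -/
lemma NumOp.middle (hD : X.IsCyc 1 D) (hHL : HardLefschetz W X D) (h : SymHomEqNum W X)
    {d : ℤ} {u : Module.End W.K (W.H X)} (hu : NumOp W X d u) :
    (∀ i, i ≠ X.dim → ∀ a ∈ W.gr X i, u a = 0) ∧ (∀ a, u (W.cl X D * a) = 0) ∧
      (∀ a, u a ∈ W.gr X X.dim ∧ W.cl X D * u a = 0) ∧ (d ≠ 0 → u = 0) := by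
  have hB : LefschetzB W X D := by
    apply lefschetzB_of_sym hD hHL
    by_cases hn : X.dim + 1 ≤ (X.prod X).dim
    · exact h _ hn
    · rw [symIn_iff]
      intro z hz _
      refine span_eq_zero (q := ((X.dim + 1 : ℕ) : ℤ)) (Or.inr ?_)
        (Submodule.subset_span ⟨X.dim + 1, rfl, z, hz.1, rfl⟩)
      push Not at hn
      exact_mod_cast hn
  obtain ⟨f, t, hf, hfv⟩ := exists_sl2 (W.isInternal X) (isHom_mulLeft W hD) W_hbd hHL
  have hfR := (lefschetzB_iff_lower hD hHL t hfv).1 hB
  have hL := kop_L (W := W) hD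
  have e1 : wt (W.isInternal X) X.dim * u = 0 := by
    have := hu.commutator h hL hfR
    rwa [t.ef] at this
  have e2 : u * wt (W.isInternal X) X.dim = 0 := by
    have := hu.commutator' h hL hfR
    rwa [t.ef] at this
  have hwt : ∀ i, ∀ a ∈ W.gr X i, wt (W.isInternal X) X.dim a =
      ((i : W.K) - X.dim) • a := by
    intro i a ha
    rw [wt, scal_apply _ _ ha]
    congr 1
    rw [node]
    push_cast; ring
  have h1 : ∀ i, i ≠ X.dim → ∀ a ∈ W.gr X i, u a = 0 := by
    intro i hi a ha
    have h2 := congrArg (fun F => F a) e2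
    rw [Module.End.mul_apply, hwt i a ha, map_smul, LinearMap.zero_apply] at h2
    refine (smul_eq_zero.1 h2).resolve_left (sub_ne_zero.2 ?_)
    exact_mod_cast hi
  have hLu : LinearMap.mulLeft W.K (W.cl X D) * u = u * LinearMap.mulLeft W.K (W.cl X D) :=
    hu.mul_eq h hL (fun x y => by
      rw [LinearMap.mulLeft_apply, LinearMap.mulLeft_apply, W.even_comm (W.cl_mem hD), mul_assoc])
  have h2 : ∀ a, u (W.cl X D * a) = 0 := by
    intro a
    refine gr_induction (W.isInternal X) (p := fun a => u (W.cl X D * a) = 0) ?_ ?_ a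
    · intro i a ha
      have h3 : W.cl X D * a ∈ W.gr X (2 * 1 + i) := W.mul_mem (W.cl_mem hD) ha
      by_cases hi : 2 * 1 + i = X.dim
      · have h4 := congrArg (fun F => F a) hLu
        rw [Module.End.mul_apply, Module.End.mul_apply, LinearMap.mulLeft_apply,
          LinearMap.mulLeft_apply, h1 i (by omega) a ha, mul_zero] at h4
        exact h4.symm
      · exact h1 _ hi _ h3
    · intro a b ha hb
      rw [mul_add, map_add, ha, hb, add_zero]
  have hhom := kop_isHom hu.mem
  have key : ∀ i, ∀ a ∈ W.gr X i, u a ∈ W.gr X X.dim ∧ (d ≠ 0 → u a = 0) := by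
    intro i a ha
    by_cases hi : i = X.dim
    · subst hi
      have h3 := hhom X.dim a (by rw [grZ_natCast]; exact ha)
      by_cases hd : d = 0
      · subst hd
        rw [mul_zero, add_zero, grZ_natCast] at h3
        exact ⟨h3, fun h => absurd rfl h⟩
      · have h4 : u a = 0 := by
          by_cases hneg : (X.dim : ℤ) + 2 * d < 0
          · rw [grZ_of_neg hneg] at h3
            exact (Submodule.mem_bot _).1 h3
          · push Not at hneg
            have h5 : u a ∈ W.gr X ((X.dim : ℤ) + 2 * d).toNat := by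
              rw [← grZ_natCast (gr := W.gr X), Int.toNat_of_nonneg hneg]
              exact h3
            have h6 := congrArg (fun F => F a) e1
            rw [Module.End.mul_apply, hwt _ _ h5, LinearMap.zero_apply] at h6
            refine (smul_eq_zero.1 h6).resolve_left (sub_ne_zero.2 ?_)
            intro h7
            have h8 : ((X.dim : ℤ) + 2 * d).toNat = X.dim := by exact_mod_cast h7
            omega
        rw [h4]
        exact ⟨Submodule.zero_mem _, fun _ => rfl⟩
    · rw [h1 i hi a ha]
      exact ⟨Submodule.zero_mem _, fun _ => rfl⟩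
  refine ⟨h1, h2, fun a => ⟨?_, ?_⟩, fun hd => ?_⟩
  · refine gr_induction (W.isInternal X) (p := fun a => u a ∈ W.gr X X.dim) ?_ ?_ a
    · intro i a ha
      exact (key i a ha).1
    · intro a b ha hb
      rw [map_add]
      exact Submodule.add_mem _ ha hb
  · have h4 := congrArg (fun F => F a) hLu
    rw [Module.End.mul_apply, Module.End.mul_apply, LinearMap.mulLeft_apply,
      LinearMap.mulLeft_apply, h2] at h4
    exact h4
  · apply gr_ext (W.isInternal X)
    intro i a ha
    rw [(key i a ha).2 hd, LinearMap.zero_apply]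

/-- The conjecture D for invariant cycles in the middle codimension and the conjecture B imply the
conjecture D for invariant cycles. -/
theorem sym_of_middle (hD : X.IsCyc 1 D) (hHL : HardLefschetz W X D) (hB : LefschetzB W X D)
    (h : SymHomEqNumIn W X X.dim) : SymHomEqNum W X := by
  obtain ⟨f, t, hf, hfv⟩ := exists_sl2 (W.isInternal X) (isHom_mulLeft W hD) W_hbd hHL
  have hfR := (lefschetzB_iff_lower hD hHL t hfv).1 hB
  have tt := sl2_prod t t
  rw [← wt_prod, ← mulLeft_prod hD] at tt
  change Sl2 _ (LinearMap.mulLeft W.K (W.cl _ (boxSum ops D))) _ at tt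
  have hk : extSum W f f ∈ KOp W (X.prod X) (X.prod X) (-1) := by
    rw [extSum, extL_apply, extR_apply]
    apply Submodule.add_mem
    · exact KOp.cast (KOp.ext hfR (KOp.id X)) (by ring)
    · exact KOp.cast (KOp.ext (KOp.id X) hfR) (by ring)
  have hk' : LinearMap.mulLeft W.K (W.cl _ (boxSum ops D)) ∈ KOp W (X.prod X) (X.prod X) 1 :=
    kop_L (boxSum_mem hD)
  have hcomm' : swapMap W X * LinearMap.mulLeft W.K (W.cl _ (boxSum ops D)) =
      LinearMap.mulLeft W.K (W.cl _ (boxSum ops D)) * swapMap W X := by
    apply LinearMap.ext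
    intro a
    rw [Module.End.mul_apply, Module.End.mul_apply, LinearMap.mulLeft_apply,
      LinearMap.mulLeft_apply, swapMap_apply, swapMap_apply, map_mul (W.map (swap X X))]
    congr 1
    exact swap_boxSum D
  have hcomm : swapMap W X * extSum W f f = extSum W f f * swapMap W X := by
    apply W498.Dom.comm_f tt
    · apply gr_ext (W.isInternal (X.prod X))
      intro i a ha
      rw [Module.End.mul_apply, Module.End.mul_apply, W498.Dom.wt_apply _ _ ha, map_smul,
        swapMap_apply, W498.Dom.wt_apply _ _ (W.map_mem _ ha)]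
    · exact hcomm'
  intro q hq
  rw [symIn_iff]
  intro z hz hs
  have hγ := numK_of (W := W) hz
  have hγg := W.cl_mem hz.1
  set γ := W.cl (X.prod X) z with hγd
  clear_value γ
  rcases le_total q X.dim with hle | hle
  · obtain ⟨m, hm⟩ := Nat.exists_eq_add_of_le hle
    have h1 : (LinearMap.mulLeft W.K (W.cl _ (boxSum ops D)) ^ m) γ = 0 := by
      apply symK_eq_zero (q := X.dim) (by rw [dim_prod]; omega) h
      · have := hγ.kop (W498.Dom.kop_pow hk' m)
        rwa [show (q : ℤ) + m * 1 = X.dim by rw [hm]; push_cast; ring] at this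
      · have h1 : Commute (swapMap W X) (LinearMap.mulLeft W.K (W.cl _ (boxSum ops D)) ^ m) :=
          Commute.pow_right hcomm' m
        have h2 := congrArg (fun T => T γ) h1.eq
        simp only [Module.End.mul_apply] at h2
        rw [hs] at h2
        exact h2
    apply H447.e_pow_inj tt (c := 2 * m)
    · rw [W498.Dom.wt_apply _ _ hγg]
      congr 1
      rw [dim_prod, hm]
      push_cast; ring
    · rw [two_mul, pow_add, Module.End.mul_apply, h1, map_zero]
  · obtain ⟨m, rfl⟩ := Nat.exists_eq_add_of_le hle
    have h1 : (extSum W f f ^ m) γ = 0 := by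
      apply symK_eq_zero (q := X.dim) (by rw [dim_prod]; omega) h
      · have := hγ.kop (W498.Dom.kop_pow hk m)
        rwa [show ((X.dim + m : ℕ) : ℤ) + m * -1 = X.dim by push_cast; ring] at this
      · have h1 : Commute (swapMap W X) (extSum W f f ^ m) := Commute.pow_right hcomm m
        have h2 := congrArg (fun T => T γ) h1.eq
        simp only [Module.End.mul_apply] at h2
        rw [hs] at h2
        exact h2
    apply f_pow_inj tt (c := 2 * m)
    · rw [W498.Dom.wt_apply _ _ hγg]
      congr 1
      rw [dim_prod]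
      push_cast; ring
    · rw [two_mul, pow_add, Module.End.mul_apply, h1, map_zero]

end Pool.Agent.R909
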