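import Pool.Agent.R909.DsqC

/-!
# The conjecture D for Hilbert squares
-/

open CategoryTheory AlgebraicGeometry Finset

universe u v

namespace Pool.Agent.R909

open Pool.Agent.H914 Pool.Agent.H447 Pool.Agent.W534 Pool.Agent.W537 Pool.Agent.TH720.LB
  VarClass Obj WeilCohomology

variable {k : Type u} [Field k] {𝒱 : VarClass k} {ops : CycleOps 𝒱}
  {W : WeilCohomology.{u, v} ops} {X Y Z V P B : 𝒱.Obj} {D : X.Cycles}

lemma span_comm {p : ℤ} {δ : W.H Y} (hδ : δ ∈ spanCycles W Y p) (x : W.H Y) : δ * x = x * δ := by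
  induction hδ using Submodule.span_induction with
  | mem y hy =>
    obtain ⟨r, hr, w, hw, rfl⟩ := hy
    exact W.even_comm (W.cl_mem hw) x
  | zero => rw [zero_mul, mul_zero]
  | add a b _ _ ha hb => rw [add_mul, mul_add, ha, hb]
  | smul c a _ ha => rw [smul_mul_assoc, mul_smul_comm, ha]

lemma NumK.pull {q : ℤ} {γ : W.H Y} (h : NumK W Y q γ) (f : Z ⟶ Y) :
    NumK W Z q (W.map f γ) := by
  refine ⟨span_pull' _ h.1, fun p w hp hw => ?_⟩
  have h1 : W.push f (W.cl Z w) ∈ spanCycles W Y (p + Y.dim - Z.dim) :=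
    span_push' f (Submodule.subset_span ⟨p, rfl, w, hw, rfl⟩)
  rw [← W.even_comm (W.cl_mem hw), ← W.tr_push, span_comm h1]
  exact h.span (by omega) h1

lemma NumK.push {q : ℤ} {γ : W.H Z} (h : NumK W Z q γ) (f : Z ⟶ Y) :
    NumK W Y (q + Y.dim - Z.dim) (W.push f γ) := by
  refine ⟨span_push' f h.1, fun p w hp hw => ?_⟩
  rw [W.tr_push, ← W.cl_pull]
  exact h.2 p _ (by omega) (ops.pull_mem f hw)

/-- The conjecture D for `X`. -/
lemma homEqNum_of_sym (h : SymHomEqNum W X) : HomEqNum W X := by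
  rw [homEqNum_iff]
  intro q γ hγ
  have h1 := symK_eq_zero' h ((hγ.pull (fst X X)).add (hγ.pull (snd X X))) (by
    rw [map_add, ← W.map_comp, ← W.map_comp, swap_fst, swap_snd, add_comm])
  have h2 := congrArg (W.map (Obj.diag X)) h1
  have e1 : Obj.diag X ≫ fst X X = 𝟙 X := Obj.lift_fst _ _
  have e2 : Obj.diag X ≫ snd X X = 𝟙 X := Obj.lift_snd _ _
  rw [map_add, ← W.map_comp, ← W.map_comp, e1, e2, W.map_id, map_zero, ← two_smul W.K] at h2
  exact (smul_eq_zero.1 h2).resolve_left two_ne_zero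

/-- The conjecture D and decompositions. -/
lemma homEqNum_decomposed {q : ℕ} {Y : Fin q → 𝒱.Obj} {l : Fin q → ℕ}
    (h : IsDecomposed W V Y l) : HomEqNum W V ↔ ∀ s, HomEqNum W (Y s) := by
  obtain ⟨α, β, hα, hβ, hαβ⟩ := h.maps
  constructor
  · intro hV s
    rw [homEqNum_iff]
    intro j γ hγ
    have h1 := numK_eq_zero hV (hγ.kop (hα s))
    have h2 := congrArg (fun F => F γ) (hαβ.2.1 s)
    rw [LinearMap.comp_apply, h1, map_zero] at h2
    exact h2.symm
  · intro hY
    rw [homEqNum_iff]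
    intro j γ hγ
    have h1 := congrArg (fun F => F γ) hαβ.2.2
    rw [LinearMap.sum_apply, LinearMap.id_apply] at h1
    rw [← h1]
    apply Finset.sum_eq_zero
    intro s _
    rw [LinearMap.comp_apply, numK_eq_zero (hY s) (hγ.kop (hβ s)), map_zero]

lemma homEqNumIn_span {q : ℕ} (hq : q ≤ Y.dim) (h : HomEqNumIn W Y q) {γ : W.H Y}
    (hγ : NumK W Y q γ) : γ = 0 := by
  refine HomEqNumIn.span (q := q) (p := Y.dim - q) (by omega) h hγ.1 ?_
  intro w hw
  rw [W.even_comm (W.cl_mem hw)]
  exact hγ.2 _ w (by omega) hw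

/-- The conjecture D for the Hilbert square in one codimension. -/
lemma sym_of_hilbertIn (hY : IsHilbertSquare W Y X P) {q : ℕ} (hq : q ≤ Y.dim)
    (h : HomEqNumIn W Y q) : SymHomEqNumIn W X q := by
  obtain ⟨α, β, γ, δ, hα, hβ, hγ, hδ, hs⟩ := hY.maps
  rw [symIn_iff]
  intro z hz hs'
  have h1 := (numK_of (W := W) hz).kop hα
  rw [add_zero] at h1
  rw [← hs.inv hs', homEqNumIn_span hq h h1, map_zero]

/-- The conjecture D for the product with a variety all of whose cohomology is algebraic. -/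
theorem homEqNum_prod (hP : AllAlgebraic W P) (hD : HomEqNum W X) : HomEqNum W (X.prod P) := by
  rw [homEqNum_iff]
  intro q γ hγ
  apply W.nondeg
  intro c
  refine W.kunneth_induction (p := fun c => W.tr _ (γ * c) = 0) ?_ ?_ c
  · intro a b ha hb
    rw [mul_add, map_add, ha, hb, add_zero]
  intro i j a _ b _
  refine Submodule.span_induction (p := fun b _ => W.tr _ (γ * (W.map (fst X P) a *
    W.map (snd X P) b)) = 0) ?_ ?_ ?_ ?_ (hP b)
  · rintro _ ⟨p, w, hw, rfl⟩
    have h1 := numK_eq_zero hD ((hγ.mul (ops.pull_mem (snd X P) hw)).push (fst X P))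
    have h2 := W.tr_push (fst X P) (W.cl _ (ops.pull (snd X P) w) * γ) a
    rw [h1, zero_mul, map_zero] at h2
    rw [h2, W.cl_pull, ← W.even_comm (W.map_mem _ (W.cl_mem hw)), ← mul_assoc,
      ← W.even_comm (W.map_mem _ (W.cl_mem hw))]
  · simp
  · intro x y _ _ hx hy
    rw [map_add, mul_add, mul_add, map_add, hx, hy, add_zero]
  · intro r x _ hx
    rw [map_smul, mul_smul_comm, mul_smul_comm, map_smul, hx, smul_zero]

/-- The conjecture D for the Hilbert square. -/
theorem homEqNum_hilbert (hY : IsHilbertSquare W Y X P) (hP : AllAlgebraic W P) :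
    HomEqNum W Y ↔ SymHomEqNum W X := by
  have hdim : (X.prod X).dim = Y.dim := by rw [dim_prod, hY.dim_eq]; ring
  constructor
  · intro h q hq
    exact sym_of_hilbertIn hY (by omega) (h q (by omega))
  · intro h
    have hXP : HomEqNum W (X.prod P) := homEqNum_prod hP (homEqNum_of_sym h)
    obtain ⟨α, β, γ, δ, hα, hβ, hγ, hδ, hs⟩ := hY.maps
    rw [homEqNum_iff]
    intro q y hy
    have h1 : β y = 0 := by
      apply symK_eq_zero' h (q := q)
      · have := hy.kop hβ
        rwa [add_zero] at this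
      · exact hs.isInv y
    rw [← hs.eq y, h1, numK_eq_zero hXP (hy.kop hδ), map_zero, map_zero, add_zero]

/-- The external product of a numerically trivial operator and a correspondence. -/
lemma NumOp.ext {d : ℤ} {u : Module.End W.K (W.H X)} (hu : NumOp W X d u) {p : ℕ}
    {w : (B.prod B).Cycles} (hw : (B.prod B).IsCyc p w) :
    NumOp W (X.prod B) (d + p - B.dim) (extOp W u (W.corr (W.cl _ w))) := by
  obtain ⟨γ, hγ, rfl⟩ := hu
  refine ⟨W.cl _ (ops.pull (q2 X B) w) * W.map (q1 X B) γ, ?_, ?_⟩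
  · have := (hγ.pull (q1 X B)).mul (ops.pull_mem (q2 X B) hw)
    rwa [show (X.dim : ℤ) + d + p = (X.prod B).dim + (d + p - B.dim) by
      rw [dim_prod]; push_cast; ring] at this
  · apply ext_kunneth_lin
    intro a b
    rw [extOp_tmul, W.cl_pull, W.even_comm (W.map_mem _ (W.cl_mem hw)),
      corr_ext _ (W.cl_mem hw)]

lemma extOp_eq_zero {u : Module.End W.K (W.H X)} {ψ : Module.End W.K (W.H B)}
    (h : extOp W u ψ = 0) (hψ : ψ ≠ 0) : u = 0 := by
  obtain ⟨b, hb⟩ : ∃ b, ψ b ≠ 0 := by
    by_contra hcon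
    push Not at hcon
    exact hψ (LinearMap.ext hcon)
  obtain ⟨c, hc⟩ : ∃ c, W.tr B (ψ b * c) ≠ 0 := by
    by_contra hcon
    push Not at hcon
    exact hb (W.nondeg _ hcon)
  apply LinearMap.ext
  intro a
  rw [LinearMap.zero_apply]
  apply nondeg_right
  intro x
  have h1 := congrArg (fun F => F (W.map (fst X B) a * W.map (snd X B) b)) h
  rw [extOp_tmul, LinearMap.zero_apply] at h1
  have h2 := W.tr_prod (X := X) (Y := B) (x * u a) (ψ b * c)
  rw [map_mul (W.map (fst X B)), map_mul (W.map (snd X B)), mul_assoc, ← mul_assoc _ _ (W.map _ c),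
    h1, zero_mul, mul_zero, map_zero] at h2
  exact (mul_eq_zero.1 h2.symm).resolve_right hc

/-- The conjecture D for invariant classes on the square of a product. -/
theorem homEqNum_square_of_sym (hB : 0 < B.dim) {b : B.Cycles} (hb : B.IsCyc B.dim b)
    (hb0 : W.tr B (W.cl B b) ≠ 0) {G : (X.prod B).Cycles}
    (hG : (X.prod B).IsCyc 1 G) (hHL : HardLefschetz W (X.prod B) G)
    (h : SymHomEqNum W (X.prod B)) : HomEqNum W (X.prod X) := by
  have htr : W.tr _ (W.cl _ (ops.mul (ops.pull (fst B B) b) (ops.pull (snd B B) b))) ≠ 0 := by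
    rw [W.cl_mul, W.cl_pull, W.cl_pull, W.tr_prod]
    exact mul_self_ne_zero.2 hb0
  rw [homEqNum_iff]
  intro q γ hγ
  apply corr_inj
  have hu : NumOp W X (q - X.dim) (W.corr γ) := ⟨γ, by rwa [add_sub_cancel], rfl⟩
  by_cases hq : q - X.dim - B.dim = 0
  · refine extOp_eq_zero (((hu.ext (B := B) (p := B.dim + B.dim)
      (w := ops.mul (ops.pull (fst B B) b) (ops.pull (snd B B) b))
      (ops.mul_mem (ops.pull_mem _ hb) (ops.pull_mem _ hb))).middle hG hHL h).2.2.2 ?_) ?_
    · push_cast
      omega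
    · intro h0
      rw [corr_inj h0, map_zero] at htr
      exact htr rfl
  · refine extOp_eq_zero (((hu.ext (B := B) (p := 0) (w := (B.prod B).V.fundCycle)
      (SmVar.fundCycle_mem _)).middle hG hHL h).2.2.2 ?_) ?_
    · rwa [Nat.cast_zero, add_zero]
    · intro h0
      have h1 := corr_inj h0
      rw [W.cl_fund] at h1
      rw [← mul_one (W.cl _ _), h1, mul_zero, map_zero] at htr
      exact htr rfl

/-- The conjecture D for the square of a product with a variety all of whose cohomology is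
algebraic. -/
theorem homEqNum_square_prod (hP : AllAlgebraic W P)
    (hD : HomEqNum W (X.prod X)) : HomEqNum W ((X.prod P).prod (X.prod P)) := by
  rw [homEqNum_iff]
  intro q γ hγ
  apply W.nondeg
  -- the cycles on `P × P`
  have h0 : ∀ (r s : ℕ) (z z' : P.Cycles), P.IsCyc r z → P.IsCyc s z' →
      ∀ c : W.H (X.prod X), W.tr _ (γ * (W.map (q1 X P) c *
      W.map (q2 X P) (W.map (fst P P) (W.cl P z) * W.map (snd P P) (W.cl P z')))) = 0 := by
    intro r s z z' hz hz' c
    have e1 : W.map (fst P P) (W.cl P z) * W.map (snd P P) (W.cl P z') =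
        W.cl _ (ops.mul (ops.pull (fst P P) z) (ops.pull (snd P P) z')) := by
      rw [W.cl_mul, W.cl_pull, W.cl_pull]
    have hw := ops.mul_mem (ops.pull_mem (fst P P) hz) (ops.pull_mem (snd P P) hz')
    rw [e1]
    set w := ops.mul (ops.pull (fst P P) z) (ops.pull (snd P P) z') with hwd
    have h1 := numK_eq_zero hD ((hγ.mul (ops.pull_mem (q2 X P) hw)).push (q1 X P))
    have h2 := W.tr_push (q1 X P) (W.cl _ (ops.pull (q2 X P) w) * γ) c
    rw [h1, zero_mul, map_zero] at h2
    rw [h2, W.cl_pull, ← W.even_comm (W.map_mem _ (W.cl_mem hw)), ← mul_assoc,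
      ← W.even_comm (W.map_mem _ (W.cl_mem hw))]
  -- all classes on `P × P`
  have h1 : ∀ (x y : W.H P) (c : W.H (X.prod X)), W.tr _ (γ * (W.map (q1 X P) c *
      W.map (q2 X P) (W.map (fst P P) x * W.map (snd P P) y))) = 0 := by
    intro x y c
    refine Submodule.span_induction (p := fun x _ => W.tr _ (γ * (W.map (q1 X P) c *
      W.map (q2 X P) (W.map (fst P P) x * W.map (snd P P) y))) = 0) ?_ ?_ ?_ ?_ (hP x)
    · rintro _ ⟨r, z, hz, rfl⟩
      refine Submodule.span_induction (p := fun y _ => W.tr _ (γ * (W.map (q1 X P) c *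
        W.map (q2 X P) (W.map (fst P P) (W.cl P z) * W.map (snd P P) y))) = 0)
        ?_ ?_ ?_ ?_ (hP y)
      · rintro _ ⟨s, z', hz', rfl⟩
        exact h0 r s z z' hz hz' c
      · simp
      · intro a b _ _ ha hb
        rw [map_add, mul_add, map_add, mul_add, mul_add, map_add, ha, hb, add_zero]
      · intro r a _ ha
        rw [map_smul, mul_smul_comm, map_smul, mul_smul_comm, mul_smul_comm, map_smul, ha,
          smul_zero]
    · simp
    · intro a b _ _ ha hb
      rw [map_add, add_mul, map_add, mul_add, mul_add, map_add, ha, hb, add_zero]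
    · intro r a _ ha
      rw [map_smul, smul_mul_assoc, map_smul, mul_smul_comm, mul_smul_comm, map_smul, ha,
        smul_zero]
  intro c
  refine W.kunneth_induction (p := fun c => W.tr _ (γ * c) = 0) ?_ ?_ c
  · intro a b ha hb
    rw [mul_add, map_add, ha, hb, add_zero]
  intro i j a _ a' _
  refine W.kunneth_induction (p := fun a => W.tr _ (γ * (W.map (fst _ _) a *
    W.map (snd _ _) a')) = 0) ?_ ?_ a
  · intro a b ha hb
    rw [map_add, add_mul, mul_add, map_add, ha, hb, add_zero]
  intro i j x hx y hy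
  refine W.kunneth_induction (p := fun a' => W.tr _ (γ * (W.map (fst _ _)
    (W.map (fst X P) x * W.map (snd X P) y) * W.map (snd _ _) a')) = 0) ?_ ?_ a'
  · intro a b ha hb
    rw [map_add, mul_add, mul_add, map_add, ha, hb, add_zero]
  intro i' j' x' hx' y' hy'
  have e1 : W.map (fst (X.prod P) (X.prod P)) (W.map (fst X P) x * W.map (snd X P) y) *
      W.map (snd (X.prod P) (X.prod P)) (W.map (fst X P) x' * W.map (snd X P) y') =
      (-1 : W.K) ^ (j * i') • (W.map (q1 X P) (W.map (fst X X) x * W.map (snd X X) x') *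
        W.map (q2 X P) (W.map (fst P P) y * W.map (snd P P) y')) := by
    rw [q1_tmul, q2_tmul, map_mul (W.map (fst (X.prod P) (X.prod P))),
      map_mul (W.map (snd (X.prod P) (X.prod P))), mul_assoc, ← mul_assoc (W.map _ (W.map _ y)),
      W.comm (W.map_mem _ (W.map_mem _ hy)) (W.map_mem _ (W.map_mem _ hx')), smul_mul_assoc,
      mul_smul_comm, mul_assoc, mul_assoc]
  rw [e1, mul_smul_comm, map_smul, h1, smul_zero]

end Pool.Agent.R909
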