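import Pool.Agent.R909.HilDefs
import Pool.Agent.H447R3.DegDefs

/-!
# Homological and numerical equivalence for invariant cycles on the square: definitions
-/

open CategoryTheory AlgebraicGeometry

universe u v

namespace Pool.Agent.R909

section Alg

variable {K V : Type*} [Field K] [AddCommGroup V] [Module K V]

/-- The endomorphism `u` vanishes on `G i` for `i ≠ n` and has values in `G n`, and
`L ∘ u = u ∘ L = 0`. -/
def LivesOn (G : ℕ → Submodule K V) (n : ℕ) (L u : Module.End K V) : Prop :=
  ((∀ i, i ≠ n → ∀ x ∈ G i, u x = 0) ∧ ∀ x, u x ∈ G n) ∧ ∀ x, L (u x) = 0 ∧ u (L x) = 0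

/-- `a ∘ u = u ∘ b`. -/
def Intertwines (u a b : Module.End K V) : Prop := ∀ x, a (u x) = u (b x)

/-- The commutators of the elements of `A` kill `u` from the left and from the right. -/
def KilledByCommutators (A : Set (Module.End K V)) (u : Module.End K V) : Prop :=
  ∀ a ∈ A, ∀ b ∈ A, (a * b - b * a) * u = 0 ∧ u * (a * b - b * a) = 0

/-- Any two elements of `N` anticommute, and the product of any three of them vanishes. -/
def CubeZero (N : Set (Module.End K V)) : Prop :=
  ∀ u ∈ N, ∀ v ∈ N, u * v = -(v * u) ∧ ∀ w ∈ N, u * v * w = 0

/-- No nonzero vector in `G` which is killed by `L` is killed by all commutators of the elements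
of `A`. -/
def NoCommutingVector (G : Submodule K V) (L : Module.End K V) (A : Set (Module.End K V)) : Prop :=
  ∀ x ∈ G, L x = 0 → (∀ a ∈ A, ∀ b ∈ A, a (b x) = b (a x)) → x = 0

end Alg

open Pool.Agent.H914 Pool.Agent.H447 VarClass Obj WeilCohomology

variable {k : Type u} [Field k] {𝒱 : VarClass k} {ops : CycleOps 𝒱}

/-- The cycle `z` of codimension `q` on `Y` is numerically trivial: its intersection numbers with
all cycles of codimension `dim Y - q` vanish. -/
def IsNumTrivial (ops : CycleOps 𝒱) (Y : 𝒱.Obj) (q : ℕ) (z : Y.Cycles) : Prop :=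
  Y.IsCyc q z ∧ ∀ w, Y.IsCyc (Y.dim - q) w → Y.V.degCycle (ops.mul z w) = 0

/-- The classes of the cycles `z` and `w` agree. -/
def SameClass (W : WeilCohomology.{u, v} ops) {Y : 𝒱.Obj} (z w : Y.Cycles) : Prop :=
  W.cl Y z = W.cl Y w

/-- The class of the cycle `z` on `X × X` is invariant under the exchange of the two factors. -/
def IsInvariantCycle (W : WeilCohomology.{u, v} ops) (X : 𝒱.Obj) (z : (X.prod X).Cycles) : Prop :=
  SameClass W (ops.pull (swap X X) z) z

/-- The class of the cycle `z` on `X × X` changes its sign under the exchange of the two factors. -/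
def IsAntiCycle (W : WeilCohomology.{u, v} ops) (X : 𝒱.Obj) (z : (X.prod X).Cycles) : Prop :=
  SameClass W (ops.pull (swap X X) z) (-z)

/-- Homological and numerical equivalence coincide for the cycles of codimension `q` on `X × X` whose
classes are invariant under the exchange of the two factors. -/
def SymHomEqNumIn (W : WeilCohomology.{u, v} ops) (X : 𝒱.Obj) (q : ℕ) : Prop :=
  ∀ z, IsNumTrivial ops (X.prod X) q z → IsInvariantCycle W X z → SameClass W z 0

/-- Homological and numerical equivalence coincide for the cycles of all codimensions on `X × X`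
whose classes are invariant under the exchange of the two factors. -/
def SymHomEqNum (W : WeilCohomology.{u, v} ops) (X : 𝒱.Obj) : Prop :=
  ∀ q ≤ (X.prod X).dim, SymHomEqNumIn W X q

/-- The operator of the cycle `z` on `H(X)`. -/
noncomputable def act (W : WeilCohomology.{u, v} ops) (X : 𝒱.Obj) (z : (X.prod X).Cycles) :
    Module.End W.K (W.H X) := W.corr (W.cl (X.prod X) z)

/-- The operators of algebraic cycles (of any codimension) on `X × X`. -/
def algOps (W : WeilCohomology.{u, v} ops) (X : 𝒱.Obj) : Set (Module.End W.K (W.H X)) :=
  {T | ∃ p z, (X.prod X).IsCyc p z ∧ act W X z = T}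

/-- The operators of numerically trivial cycles (of any codimension) on `X × X`. -/
def numOps (W : WeilCohomology.{u, v} ops) (X : 𝒱.Obj) : Set (Module.End W.K (W.H X)) :=
  {T | ∃ p z, IsNumTrivial ops (X.prod X) p z ∧ act W X z = T}

/-- The product with the class of `D`. -/
noncomputable def lef (W : WeilCohomology.{u, v} ops) (X : 𝒱.Obj) (D : X.Cycles) :
    Module.End W.K (W.H X) := LinearMap.mulLeft W.K (W.cl X D)

/-- `t ∘ z = z ∘ ᵗt` for the action on `H(X)` of all cycles `t` on `X × X`, where `ᵗt` is the transpose
of `t`. -/
def TransposeRule (W : WeilCohomology.{u, v} ops) (X : 𝒱.Obj) (z : (X.prod X).Cycles) : Prop :=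
  ∀ p t, (X.prod X).IsCyc p t →
    Intertwines (act W X z) (act W X t) (act W X (ops.pull (swap X X) t))

/-- The cycle `z` acts on the primitive part of the middle cohomology only. -/
def LivesOnPrimitive (W : WeilCohomology.{u, v} ops) (X : 𝒱.Obj) (D : X.Cycles)
    (z : (X.prod X).Cycles) : Prop := LivesOn (W.gr X) X.dim (lef W X D) (act W X z)

/-- The commutators of the operators of algebraic cycles kill the operator of `z` from the left
and from the right. -/
def CommutatorsKill (W : WeilCohomology.{u, v} ops) (X : 𝒱.Obj) (z : (X.prod X).Cycles) : Prop :=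
  KilledByCommutators (algOps W X) (act W X z)

/-- The cycle `z` of codimension `q` on `X × X` is homologically trivial unless `q = dim X`, its class
changes the sign under the exchange of the two factors, its operator is an operator on the primitive
part of `H^n(X)`, `n = dim X`, `t ∘ z = z ∘ ᵗt` for all cycles `t` on `X × X`, where `ᵗt` is the
transpose of `t`, and the commutators of the operators of algebraic cycles kill `z` from the left
and from the right. -/
def IsCentral (W : WeilCohomology.{u, v} ops) (X : 𝒱.Obj) (D : X.Cycles) (q : ℕ)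
    (z : (X.prod X).Cycles) : Prop :=
  ((q ≠ X.dim → SameClass W z 0) ∧ IsAntiCycle W X z) ∧ LivesOnPrimitive W X D z ∧
    TransposeRule W X z ∧ CommutatorsKill W X z

/-- The cohomology of `P` is spanned by the classes of algebraic cycles. -/
def AllAlgebraic (W : WeilCohomology.{u, v} ops) (P : 𝒱.Obj) : Prop :=
  ∀ a : W.H P, a ∈ Submodule.span W.K {x | ∃ p z, P.IsCyc p z ∧ W.cl P z = x}

/-- The variety `Y` looks like the Hilbert scheme of two points of `X`, where `dim X ≥ 2`. -/
def IsHilb (W : WeilCohomology.{u, v} ops) (Y X : 𝒱.Obj) : Prop :=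
  ∃ P, AllAlgebraic W P ∧ IsHilbertSquare W Y X P

/-- For the variety `Y` which looks like the Hilbert scheme of two points of `X`, `n = dim X`, the
following are equivalent: homological and numerical equivalence coincide for all cycles on `Y`; they
coincide for the cycles of codimension `n` and `n + 1` on `Y`; they coincide for the cycles on
`X × X` which are invariant under the exchange of the factors; this holds in the codimensions `n` and
`n + 1`; this holds in the codimension `n` and the Lefschetz standard conjecture is true for `X`. -/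
def HilbertSquareD (W : WeilCohomology.{u, v} ops) (Y X : 𝒱.Obj) (D : X.Cycles) : Prop :=
  List.TFAE [HomEqNum W Y, HomEqNumIn W Y X.dim ∧ HomEqNumIn W Y (X.dim + 1),
    SymHomEqNum W X, SymHomEqNumIn W X X.dim ∧ SymHomEqNumIn W X (X.dim + 1),
    SymHomEqNumIn W X X.dim ∧ LefschetzB W X D]

/-- If homological and numerical equivalence coincide on `Y`, then all numerically trivial cycles on
`X × X` satisfy `IsCentral`, and their operators satisfy `CubeZero`; they are homologically trivial if
`NoCommutingVector` holds for `H^n(X)`, `n = dim X`, and the operators of algebraic cycles. -/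
def NumTrivialOnSquare (W : WeilCohomology.{u, v} ops) (Y X : 𝒱.Obj) (D : X.Cycles) : Prop :=
  HomEqNum W Y → (∀ q z, IsNumTrivial ops (X.prod X) q z → IsCentral W X D q z) ∧
    CubeZero (numOps W X) ∧
    (NoCommutingVector (W.gr X X.dim) (lef W X D) (algOps W X) → HomEqNum W (X.prod X))

/-- The variety `B` has positive dimension and a zero-cycle `b` of nonzero degree, and `X × B` has a
divisor which satisfies the hard Lefschetz theorem. -/
def IsFactor (W : WeilCohomology.{u, v} ops) (X B : 𝒱.Obj) : Prop :=
  0 < B.dim ∧ (∃ b, B.IsCyc B.dim b ∧ B.V.degCycle b ≠ 0) ∧ ∃ G, IsPolarization W (X.prod B) G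

end Pool.Agent.R909
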