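import Pool.Agent.R909.HilDefs
import Pool.Agent.R909.DecE
import Pool.Agent.W498.Dom.Class

/-!
# Invariant classes on the square
-/

open CategoryTheory AlgebraicGeometry Finset

universe u v

namespace Pool.Agent.R909

open Pool.Agent.H914 Pool.Agent.H447 Pool.Agent.W534 Pool.Agent.W537 VarClass Obj WeilCohomology

section Lin

variable {K V V' : Type*} [Field K] [AddCommGroup V] [Module K V] [AddCommGroup V'] [Module K V']

lemma surj_of_finrank [Module.Finite K V] [Module.Finite K V'] {A : Submodule K V}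
    {B : Submodule K V'} {T : V →ₗ[K] V'} (hT : ∀ x ∈ A, T x ∈ B)
    (hinj : ∀ x ∈ A, T x = 0 → x = 0) (hr : Module.finrank K B ≤ Module.finrank K A) :
    ∀ y ∈ B, ∃ x ∈ A, T x = y := by
  have hle : A.map T ≤ B := by
    rintro _ ⟨x, hx, rfl⟩
    exact hT x hx
  have hf : Module.finrank K (A.map T) = Module.finrank K A := by
    have hker : LinearMap.ker (T.domRestrict A) = ⊥ := by
      rw [LinearMap.ker_eq_bot']
      rintro ⟨x, hx⟩ h0
      exact Subtype.ext (hinj x hx h0)
    have h1 := LinearMap.finrank_range_of_inj (LinearMap.ker_eq_bot.1 hker)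
    rw [LinearMap.range_domRestrict] at h1
    exact h1
  have heq := Submodule.eq_of_le_of_finrank_le hle (by rw [hf]; exact hr)
  intro y hy
  rw [← heq] at hy
  obtain ⟨x, hx, rfl⟩ := hy
  exact ⟨x, hx, rfl⟩

end Lin

variable {k : Type u} [Field k] {𝒱 : VarClass k} {ops : CycleOps 𝒱}
  {W : WeilCohomology.{u, v} ops} {X Y Z V P : 𝒱.Obj} {D : X.Cycles}

lemma swapMap_apply (c : W.H (X.prod X)) : swapMap W X c = W.map (swap X X) c := rfl

lemma mem_symCycles {j : ℤ} {c : W.H (X.prod X)} :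
    c ∈ symCycles W X j ↔ c ∈ spanCycles W (X.prod X) j ∧ W.map (swap X X) c = c := Iff.rfl

lemma swap_boxDiff (D : X.Cycles) : W.map (swap X X) (W.cl _ (boxDiff ops D)) =
    -W.cl _ (boxDiff ops D) := by
  rw [boxDiff, map_sub, W.cl_pull, W.cl_pull, map_sub (W.map (swap X X)), ← W.map_comp,
    ← W.map_comp, swap_fst, swap_snd, neg_sub]

/-- The product with the square of `D × X - X × D`. -/
noncomputable def boxTwo (W : WeilCohomology.{u, v} ops) (D : X.Cycles) :
    Module.End W.K (W.H (X.prod X)) := LinearMap.mulLeft W.K (W.cl _ (boxDiff ops D)) ^ 2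

lemma boxTwo_apply (D : X.Cycles) (c : W.H (X.prod X)) :
    boxTwo W D c = W.cl _ (boxDiff ops D) * (W.cl _ (boxDiff ops D) * c) := by
  rw [boxTwo, pow_two, Module.End.mul_apply, LinearMap.mulLeft_apply, LinearMap.mulLeft_apply]

lemma swap_boxTwo (D : X.Cycles) (c : W.H (X.prod X)) :
    W.map (swap X X) (boxTwo W D c) = boxTwo W D (W.map (swap X X) c) := by
  rw [boxTwo_apply, boxTwo_apply, map_mul (W.map (swap X X)), map_mul (W.map (swap X X)),
    swap_boxDiff, neg_mul, neg_mul, mul_neg, neg_neg]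

lemma boxDiff_mem (hD : X.IsCyc 1 D) : (X.prod X).IsCyc 1 (boxDiff ops D) := by
  have h1 := ops.pull_mem (fst X X) hD
  have h2 := (ops.pull_mem (snd X X) hD).smul (-1)
  rw [neg_one_smul] at h2
  rw [boxDiff, sub_eq_add_neg]
  exact h1.add h2

lemma boxTwo_span (hD : X.IsCyc 1 D) {j : ℤ} {c : W.H (X.prod X)}
    (hc : c ∈ spanCycles W (X.prod X) j) : boxTwo W D c ∈ spanCycles W (X.prod X) (j + 2) := by
  rw [boxTwo_apply]
  have := span_mul_cyc (boxDiff_mem (ops := ops) hD) (span_mul_cyc (boxDiff_mem (ops := ops) hD) hc)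
  rwa [show j + ((1 : ℕ) : ℤ) + ((1 : ℕ) : ℤ) = j + 2 by push_cast; ring] at this

lemma corr_boxTwo (hD : X.IsCyc 1 D) (c : W.H (X.prod X)) {L : Module.End W.K (W.H X)}
    (hL : LinearMap.mulLeft W.K (W.cl X D) = L) :
    W.corr (boxTwo W D c) =
      (W.corr c * L - L * W.corr c) * L - L * (W.corr c * L - L * W.corr c) := by
  subst hL
  rw [boxTwo_apply, corr_boxDiff hD, corr_boxDiff hD]

lemma kop_of_span {j d : ℤ} (hj : j = X.dim + d) {c : W.H (X.prod Y)}
    (hc : c ∈ spanCycles W (X.prod Y) j) : W.corr c ∈ KOp W X Y d :=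
  mem_KOp_iff.2 ⟨c, by rw [← hj]; exact hc, rfl⟩

lemma ring_id {R : Type*} [Ring R] (x L : R) :
    L * (L * x - x * L) - (L * x - x * L) * L = (x * L - L * x) * L - L * (x * L - L * x) := by
  noncomm_ring

/-- The product with the square of `D × X - X × D` is injective on the classes of codimension
`dim X - 1`. -/
lemma boxTwo_inj (hD : X.IsCyc 1 D) (hHL : HardLefschetz W X D) {c : W.H (X.prod X)}
    (hc : c ∈ spanCycles W (X.prod X) (X.dim - 1)) (h0 : boxTwo W D c = 0) : c = 0 := by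
  have h1 : W.corr c ∈ KOp W X X (-1) := kop_of_span (by ring) hc
  have h2 : IsHom (W.gr X) (-2) (W.corr c) := fun i a ha => by
    have := KOp.isHom h1 i a ha
    rwa [show i + 2 * (-1) = i + -2 by ring] at this
  apply corr_inj
  apply eq_zero_of_ad_ad (W.isInternal X) (isHom_mulLeft W hD) W_hbd hHL h2
  have h3 := corr_boxTwo (W := W) hD c rfl
  rw [h0, corr_zero] at h3
  rw [← sub_eq_zero]
  exact (ring_id _ _).trans h3.symm

/-- The square of `D × X - X × D` on the invariant classes. -/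
lemma boxTwo_sym (hD : X.IsCyc 1 D) {c : W.H (X.prod X)} (hc : c ∈ symCycles W X (X.dim - 1)) :
    boxTwo W D c ∈ symCycles W X (X.dim + 1) := by
  rw [mem_symCycles] at hc ⊢
  refine ⟨?_, by rw [swap_boxTwo, hc.2]⟩
  have := boxTwo_span hD hc.1
  rwa [show (X.dim : ℤ) - 1 + 2 = X.dim + 1 by ring] at this

lemma symRank_le (hD : X.IsCyc 1 D) (hHL : HardLefschetz W X D) :
    symRank W X (X.dim - 1) ≤ symRank W X (X.dim + 1) :=
  finrank_le_of_inj (T := boxTwo W D) (fun _ hx => boxTwo_sym hD hx)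
    (fun _ hx h0 => boxTwo_inj hD hHL (mem_symCycles.1 hx).1 h0)

/-- The adjoint of a correspondence is given by the class with the factors exchanged. -/
lemma corr_swap_eq {p : ℕ} {c : W.H (X.prod X)} (hc : c ∈ W.gr _ (2 * p))
    {ψ : Module.End W.K (W.H X)} (h : ∀ a b, W.tr X (W.corr c a * b) = W.tr X (a * ψ b)) :
    W.corr (W.map (swap X X) c) = ψ := by
  apply LinearMap.ext
  intro b
  rw [← sub_eq_zero]
  apply nondeg_right
  intro a
  rw [mul_sub, map_sub, ← tr_corr_swap hc, h, sub_self]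

lemma diag_sym (hD : X.IsCyc 1 D) :
    W.cl (X.prod X) (ops.push (diag X) D) ∈ symCycles W X (X.dim + 1) := by
  rw [mem_symCycles]
  have h1 : (X.prod X).IsCyc (X.dim + 1) (ops.push (diag X) D) :=
    ops.push_mem _ hD (by rw [dim_prod]; ring)
  refine ⟨Submodule.subset_span ⟨X.dim + 1, by push_cast; ring, _, h1, rfl⟩, ?_⟩
  have h2 : W.corr (W.cl _ (ops.push (diag X) D)) = LinearMap.mulLeft W.K (W.cl X D) := by
    apply LinearMap.ext
    intro a
    rw [W.cl_push, corr_diag, LinearMap.mulLeft_apply]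
  rw [← sub_eq_zero]
  apply corr_inj
  rw [corr_sub', corr_swap_eq (W.cl_mem h1) (ψ := LinearMap.mulLeft W.K (W.cl X D)), h2, sub_self]
  intro a b
  rw [h2, LinearMap.mulLeft_apply, LinearMap.mulLeft_apply, W.even_comm (W.cl_mem hD), mul_assoc]

/-- **The conjecture and the invariant classes.** -/
theorem lefschetzB_iff_symRank (hD : X.IsCyc 1 D) (hHL : HardLefschetz W X D) :
    LefschetzB W X D ↔ symRank W X (X.dim - 1) = symRank W X (X.dim + 1) := by
  have hrk : ∀ d : ℤ, opRank W X X d = cycleRank W (X.prod X) (X.dim + d) :=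
    fun d => opRank_eq_cycleRank X X d
  constructor
  · intro hB
    have h1 := (lefschetzB_iff_rank hD hHL).1 hB
    rw [hrk, hrk] at h1
    -- the map is onto
    have h2 : ∀ y ∈ spanCycles W (X.prod X) (X.dim + 1), ∃ x ∈ spanCycles W (X.prod X) (X.dim - 1),
        boxTwo W D x = y := by
      refine surj_of_finrank (fun x hx => ?_) (fun _ hx h0 => boxTwo_inj hD hHL hx h0) ?_
      · have := boxTwo_span hD hx
        rwa [show (X.dim : ℤ) - 1 + 2 = X.dim + 1 by ring] at this
      · exact h1.ge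
    refine finrank_eq_of_surj (T := boxTwo W D) (fun _ hx => boxTwo_sym hD hx)
      (fun _ hx h0 => boxTwo_inj hD hHL (mem_symCycles.1 hx).1 h0) ?_
    intro y hy
    rw [mem_symCycles] at hy
    obtain ⟨x, hx, rfl⟩ := h2 y hy.1
    refine ⟨x, mem_symCycles.2 ⟨hx, ?_⟩, rfl⟩
    have h3 : boxTwo W D (W.map (swap X X) x - x) = 0 := by
      rw [map_sub, ← swap_boxTwo, hy.2, sub_self]
    exact sub_eq_zero.1 (boxTwo_inj hD hHL (Submodule.sub_mem _ (span_pull' _ hx) hx) h3)
  · intro he
    obtain ⟨f, t, hf, hfv⟩ := exists_sl2 (W.isInternal X) (isHom_mulLeft W hD) W_hbd hHL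
    rw [lefschetzB_iff_lower hD hHL t hfv]
    obtain ⟨x, hx, hxD⟩ := surj_of_finrank (T := boxTwo W D) (A := symCycles W X (X.dim - 1))
      (B := symCycles W X (X.dim + 1)) (fun _ hx => boxTwo_sym hD hx)
      (fun _ hx h0 => boxTwo_inj hD hHL (mem_symCycles.1 hx).1 h0) he.ge _ (diag_sym hD)
    have h1 : W.corr x ∈ KOp W X X (-1) := kop_of_span (by ring) (mem_symCycles.1 hx).1
    have h2 : IsHom (W.gr X) (-2) (W.corr x) := fun i a ha => by
      have := KOp.isHom h1 i a ha
      rwa [show i + 2 * (-1) = i + -2 by ring] at this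
    have h3 := corr_boxTwo (W := W) hD x rfl
    rw [hxD] at h3
    have h4 : W.corr (W.cl _ (ops.push (diag X) D)) = LinearMap.mulLeft W.K (W.cl X D) := by
      apply LinearMap.ext
      intro a
      rw [W.cl_push, corr_diag, LinearMap.mulLeft_apply]
    rw [h4] at h3
    rw [of_ad_two (W.isInternal X) (isHom_mulLeft W hD) W_hbd hHL t hf h2 h3.symm]
    exact Submodule.smul_mem _ _ h1

end Pool.Agent.R909
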