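import Pool.Agent.R909.HilA

/-!
# The cohomology of the Hilbert scheme of two points
-/

open CategoryTheory AlgebraicGeometry Finset

universe u v

namespace Pool.Agent.R909

open Pool.Agent.H914 Pool.Agent.H447 Pool.Agent.W534 Pool.Agent.W537 Pool.Agent.TH720.LB
  VarClass Obj WeilCohomology

variable {k : Type u} [Field k] {𝒱 : VarClass k} {ops : CycleOps 𝒱}
  {W : WeilCohomology.{u, v} ops} {X Y Z V P : 𝒱.Obj} {D : X.Cycles}

lemma span_mul' {i j : ℤ} {x y : W.H X} (hx : x ∈ spanCycles W X i) (hy : y ∈ spanCycles W X j) :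
    x * y ∈ spanCycles W X (j + i) := by
  induction hx using Submodule.span_induction with
  | mem x hx =>
    obtain ⟨p, hp, z, hz, rfl⟩ := hx
    rw [← hp]
    exact span_mul_cyc hz hy
  | zero => rw [zero_mul]; exact Submodule.zero_mem _
  | add x y _ _ hx hy => rw [add_mul]; exact Submodule.add_mem _ hx hy
  | smul c x _ hx => rw [smul_mul_assoc]; exact Submodule.smul_mem _ _ hx

/-- Correspondences map algebraic classes to algebraic classes. -/
lemma kop_span {d : ℤ} {φ : W.H X →ₗ[W.K] W.H Y} (hφ : φ ∈ KOp W X Y d) {j : ℤ} {x : W.H X}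
    (hx : x ∈ spanCycles W X j) : φ x ∈ spanCycles W Y (j + d) := by
  obtain ⟨γ, hγ, rfl⟩ := mem_KOp_iff.1 hφ
  rw [corr_apply]
  have h1 := span_push' (snd X Y) (span_mul' hγ (span_pull' (fst X Y) hx))
  rwa [dim_prod, show j + (X.dim + d) + (Y.dim : ℤ) - ((X.dim + Y.dim : ℕ) : ℤ) = j + d by
    push_cast; ring] at h1

section Split

variable {α : W.H (X.prod X) →ₗ[W.K] W.H Y} {β : W.H Y →ₗ[W.K] W.H (X.prod X)}
  {γ : W.H V →ₗ[W.K] W.H Y} {δ : W.H Y →ₗ[W.K] W.H V}

lemma SplitsInvariants.eq (h : SplitsInvariants (swapMap W X) α β γ δ) (y : W.H Y) :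
    α (β y) + γ (δ y) = y := by
  have := congrArg (fun T => T y) h.2.2.2.2
  exact this

lemma SplitsInvariants.inv (h : SplitsInvariants (swapMap W X) α β γ δ) {u : W.H (X.prod X)}
    (hu : W.map (swap X X) u = u) : β (α u) = u := by
  have h1 := congrArg (fun T => T u) h.1
  change β (α u) = (2⁻¹ : W.K) • (u + W.map (swap X X) u) at h1
  rw [h1, hu, ← two_smul W.K, smul_smul, inv_mul_cancel₀ two_ne_zero, one_smul]

lemma SplitsInvariants.isInv (h : SplitsInvariants (swapMap W X) α β γ δ) (y : W.H Y) :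
    W.map (swap X X) (β y) = β y := by
  have h0 : β (γ (δ y)) = 0 := congrArg (fun T => T (δ y)) h.2.2.1
  have h1 : β (α (β y)) = β y := by
    conv_rhs => rw [← h.eq y]
    rw [map_add, h0, add_zero]
  have h2 := congrArg (fun T => T (β y)) h.1
  change β (α (β y)) = (2⁻¹ : W.K) • (β y + W.map (swap X X) (β y)) at h2
  rw [h1] at h2
  have h3 : (2 : W.K) • β y = β y + W.map (swap X X) (β y) := by
    conv_lhs => rw [h2]
    rw [smul_smul, mul_inv_cancel₀ two_ne_zero, one_smul]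
  rw [two_smul] at h3
  exact (add_left_cancel h3).symm

lemma SplitsInvariants.one (h : SplitsInvariants (swapMap W X) α β γ δ) (v : W.H V) :
    δ (γ v) = v := congrArg (fun T => T v) h.2.1

lemma SplitsInvariants.zero (h : SplitsInvariants (swapMap W X) α β γ δ) (v : W.H V) :
    β (γ v) = 0 := congrArg (fun T => T v) h.2.2.1

lemma SplitsInvariants.zero' (h : SplitsInvariants (swapMap W X) α β γ δ) (u : W.H (X.prod X)) :
    δ (α u) = 0 := congrArg (fun T => T u) h.2.2.2.1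

/-- The algebraic classes on `Y`. -/
noncomputable def hilEquiv (h : SplitsInvariants (swapMap W X) α β γ δ)
    (hα : α ∈ KOp W (X.prod X) Y 0) (hβ : β ∈ KOp W Y (X.prod X) 0) (hγ : γ ∈ KOp W V Y 1)
    (hδ : δ ∈ KOp W Y V (-1)) (j : ℤ) :
    spanCycles W Y j ≃ₗ[W.K] symCycles W X j × spanCycles W V (j - 1) where
  toFun y := (⟨β y, mem_symCycles.2 ⟨by have := kop_span hβ y.2; rwa [add_zero] at this,
    h.isInv _⟩⟩, ⟨δ y, kop_span hδ y.2⟩)
  map_add' y y' := Prod.ext (Subtype.ext (map_add _ _ _)) (Subtype.ext (map_add _ _ _))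
  map_smul' c y := Prod.ext (Subtype.ext (map_smul _ _ _)) (Subtype.ext (map_smul _ _ _))
  invFun x := ⟨α x.1 + γ x.2, Submodule.add_mem _
    (by have := kop_span hα (mem_symCycles.1 x.1.2).1; rwa [add_zero] at this)
    (by have := kop_span hγ x.2.2; rwa [sub_add_cancel] at this)⟩
  left_inv y := Subtype.ext (h.eq _)
  right_inv x := by
    refine Prod.ext (Subtype.ext ?_) (Subtype.ext ?_)
    · change β (α x.1 + γ x.2) = x.1
      rw [map_add, h.inv (mem_symCycles.1 x.1.2).2, h.zero, add_zero]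
    · change δ (α x.1 + γ x.2) = x.2
      rw [map_add, h.zero', h.one, zero_add]

end Split

lemma finrank_of_equiv_prod {K : Type*} [Field K] {V U U' : Type*} [AddCommGroup V] [Module K V]
    [AddCommGroup U] [Module K U] [AddCommGroup U'] [Module K U'] [Module.Finite K U]
    [Module.Finite K U'] {A : Submodule K V} {B : Submodule K U} {C : Submodule K U'}
    (e : A ≃ₗ[K] B × C) : Module.finrank K A = Module.finrank K B + Module.finrank K C := by
  rw [e.finrank_eq, Module.finrank_prod]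

/-- The maps of a Hilbert square. -/
lemma IsHilbertSquare.maps (hY : IsHilbertSquare W Y X P) :
    ∃ (α : W.H (X.prod X) →ₗ[W.K] W.H Y) (β : W.H Y →ₗ[W.K] W.H (X.prod X))
      (γ : W.H (X.prod P) →ₗ[W.K] W.H Y) (δ : W.H Y →ₗ[W.K] W.H (X.prod P)),
      α ∈ KOp W (X.prod X) Y 0 ∧ β ∈ KOp W Y (X.prod X) 0 ∧ γ ∈ KOp W (X.prod P) Y 1 ∧
        δ ∈ KOp W Y (X.prod P) (-1) ∧ SplitsInvariants (swapMap W X) α β γ δ := by
  obtain ⟨a, b, c, d, ⟨⟨ha, hb⟩, hc, hd⟩, h⟩ := hY.dec
  exact ⟨_, _, _, _, mem_KOp_iff.2 ⟨a, ha, rfl⟩, mem_KOp_iff.2 ⟨b, hb, rfl⟩,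
    mem_KOp_iff.2 ⟨c, hc, rfl⟩, mem_KOp_iff.2 ⟨d, hd, rfl⟩, h⟩

/-- The ranks on a Hilbert square. -/
lemma IsHilbertSquare.rank (hY : IsHilbertSquare W Y X P) (j : ℤ) :
    cycleRank W Y j = symRank W X j + cycleRank W (X.prod P) (j - 1) := by
  obtain ⟨α, β, γ, δ, hα, hβ, hγ, hδ, h⟩ := hY.maps
  exact finrank_of_equiv_prod (hilEquiv h hα hβ hγ hδ j)

/-- Monotonicity of the ranks of algebraic classes. -/
lemma cycleRank_le {E : V.Cycles} (hE : V.IsCyc 1 E) (hHL : HardLefschetz W V E) {q c : ℕ}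
    (hq : 2 * q + c = V.dim) : cycleRank W V q ≤ cycleRank W V (q + c) := by
  refine finrank_le_of_inj (T := LinearMap.mulLeft W.K (W.cl V E) ^ c) ?_ ?_
  · intro x hx
    rw [LinearMap.pow_mulLeft, LinearMap.mulLeft_apply]
    exact span_pow_mul hE c hx
  · intro x hx h0
    refine (hHL (2 * q) (by omega)).1 x (span_gr hx) ?_
    rw [show V.dim - 2 * q = c by omega]
    exact h0

end Pool.Agent.R909
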