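import Pool.Agent.R909.DecDefs

/-!
# The Hilbert scheme of two points: definitions
-/

open CategoryTheory AlgebraicGeometry

universe u v

namespace Pool.Agent.R909

section Alg

variable {K : Type*} [Field K] {U V U' : Type*} [AddCommGroup U] [Module K U] [AddCommGroup V]
  [Module K V] [AddCommGroup U'] [Module K U']

/-- The maps `α`, `γ` and `β`, `δ` are the components of an isomorphism of the direct sum of the
space of the invariants of the involution `s` of `U` and of `U'` with `V`, and of its inverse:
`β ∘ α` is the projector `(1 + s) / 2`, `δ ∘ γ = 1`, `β ∘ γ = 0`, `δ ∘ α = 0` and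
`α ∘ β + γ ∘ δ = 1`. -/
def SplitsInvariants (s : Module.End K U) (α : U →ₗ[K] V) (β : V →ₗ[K] U) (γ : U' →ₗ[K] V)
    (δ : V →ₗ[K] U') : Prop :=
  β ∘ₗ α = (2⁻¹ : K) • (LinearMap.id + s) ∧ δ ∘ₗ γ = LinearMap.id ∧ β ∘ₗ γ = 0 ∧ δ ∘ₗ α = 0 ∧
    α ∘ₗ β + γ ∘ₗ δ = LinearMap.id

end Alg

open Pool.Agent.H914 Pool.Agent.W534 Pool.Agent.W537 VarClass Obj WeilCohomology

variable {k : Type u} [Field k] {𝒱 : VarClass k} {ops : CycleOps 𝒱}

/-- The involution of `H(X × X)` which is induced by the exchange of the two factors. -/
noncomputable def swapMap (W : WeilCohomology.{u, v} ops) (X : 𝒱.Obj) :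
    Module.End W.K (W.H (X.prod X)) := (W.map (swap X X)).toLinearMap

/-- The `K`-linear combinations of the classes of algebraic cycles of codimension `j` on `X × X`
which are invariant under the exchange of the two factors. -/
noncomputable def symCycles (W : WeilCohomology.{u, v} ops) (X : 𝒱.Obj) (j : ℤ) :
    Submodule W.K (W.H (X.prod X)) :=
  spanCycles W (X.prod X) j ⊓ LinearMap.eqLocus (swapMap W X) LinearMap.id

/-- The dimension of the space of the invariant combinations of classes of algebraic cycles. -/
noncomputable def symRank (W : WeilCohomology.{u, v} ops) (X : 𝒱.Obj) (j : ℤ) : ℕ :=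
  Module.finrank W.K (symCycles W X j)

/-- The classes `a`, `b`, `c`, `d` are `K`-linear combinations of algebraic cycles of degree
`0`, `0`, `1` and `- 1` on `X × X × Y`, `Y × X × X`, `X × P × Y` and `Y × X × P`. -/
def HilbertDegrees (W : WeilCohomology.{u, v} ops) (Y X P : 𝒱.Obj)
    (a : W.H ((X.prod X).prod Y)) (b : W.H (Y.prod (X.prod X))) (c : W.H ((X.prod P).prod Y))
    (d : W.H (Y.prod (X.prod P))) : Prop :=
  (HasDegree W 0 a ∧ HasDegree W 0 b) ∧ HasDegree W 1 c ∧ HasDegree W (-1) d

/-- For the cohomology theory `W`, the variety `Y` looks like the Hilbert scheme of two points of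
`X` (the quotient of the blow-up of `X × X` along the diagonal by the exchange of the two factors):
the cohomology of `Y` is the direct sum of the part of `H(X × X)` which is invariant under the
exchange of the factors and of the cohomology of `X × P`, twisted by one, `P` being the projective
space of dimension `dim X - 2` (that is of `H(X)` twisted by `1, …, dim X - 1`), by algebraic
correspondences. -/
structure IsHilbertSquare (W : WeilCohomology.{u, v} ops) (Y X P : 𝒱.Obj) : Prop where
  dim_eq : Y.dim = 2 * X.dim
  dim_fibre : P.dim + 2 = X.dim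
  dec : ∃ (a : W.H ((X.prod X).prod Y)) (b : W.H (Y.prod (X.prod X)))
    (c : W.H ((X.prod P).prod Y)) (d : W.H (Y.prod (X.prod P))), HilbertDegrees W Y X P a b c d ∧
      SplitsInvariants (swapMap W X) (W.corr a) (W.corr b) (W.corr c) (W.corr d)

end Pool.Agent.R909
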