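import Pool.Agent.W539.Ker.Inertia
import Pool.Agent.R910.Num.Tensor

/-!
# Indices of rational symmetric bilinear forms
-/

open Finset

namespace Pool.Agent.R909.Idx

open Pool.Agent.W539.Ker

variable {M M' M'' : Type*} [AddCommGroup M] [Module ℚ M] [AddCommGroup M'] [Module ℚ M']
  [AddCommGroup M''] [Module ℚ M'']

/-- The positive index of inertia. -/
noncomputable def pIdx (B : M →ₗ[ℚ] M →ₗ[ℚ] ℚ) : ℕ := posIdx (fun x y => B x y)

/-- The negative index of inertia. -/
noncomputable def nIdx (B : M →ₗ[ℚ] M →ₗ[ℚ] ℚ) : ℕ := posIdx (fun x y => -B x y)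

variable {B : M →ₗ[ℚ] M →ₗ[ℚ] ℚ}

lemma nIdx_eq : nIdx B = pIdx (-B) := rfl

lemma pIdx_eq_neg : pIdx B = nIdx (-B) := by
  rw [nIdx_eq, neg_neg]

lemma symm_neg (hB : ∀ x y, B x y = B y x) : ∀ x y, (-B) x y = (-B) y x := by
  intro x y
  rw [LinearMap.neg_apply, LinearMap.neg_apply, LinearMap.neg_apply, LinearMap.neg_apply, hB]

/-- Existence of maximal orthogonal families. -/
lemma exists_om [Module.Finite ℚ M] (hB : ∀ x y, B x y = B y x) :
    ∃ m, ∃ x : Fin m → M, OM B x := by
  apply exists_OM hB (N := Module.finrank ℚ M)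
  intro m x hne horth
  have h1 : LinearIndependent ℚ x := by
    rw [Fintype.linearIndependent_iff]
    intro c hc i
    have h2 : B (∑ j, c j • x j) (x i) = c i * B (x i) (x i) := by
      rw [map_sum B, LinearMap.sum_apply, Finset.sum_eq_single i]
      · rw [map_smul, LinearMap.smul_apply, smul_eq_mul]
      · intro j _ hj
        rw [map_smul, LinearMap.smul_apply, horth j i hj, smul_zero]
      · intro h0; exact absurd (Finset.mem_univ _) h0
    rw [hc, map_zero, LinearMap.zero_apply] at h2
    exact (mul_eq_zero.1 h2.symm).resolve_right (hne i)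
  have h2 := h1.fintype_card_le_finrank
  rwa [Fintype.card_fin] at h2

lemma nIdx_eq_card (hB : ∀ x y, B x y = B y x) {ι : Type*} [Fintype ι] {x : ι → M}
    (h : OM B x) : nIdx B = (univ.filter (fun i => B (x i) (x i) < 0)).card := by
  classical
  rw [nIdx_eq, pIdx, h.neg.posIdx_eq (symm_neg hB)]
  congr 1
  ext i
  rw [Finset.mem_filter, Finset.mem_filter, LinearMap.neg_apply, LinearMap.neg_apply, neg_pos]

/-- The number of the vectors of a maximal orthogonal family. -/
lemma card_om (hB : ∀ x y, B x y = B y x) {ι : Type*} [Fintype ι] {x : ι → M}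
    (h : OM B x) : pIdx B + nIdx B = Fintype.card ι := by
  classical
  rw [nIdx_eq_card hB h, pIdx, h.posIdx_eq hB, ← Finset.card_union_of_disjoint, ← Finset.card_univ]
  · congr 1
    ext i
    simp only [Finset.mem_union, Finset.mem_filter, Finset.mem_univ, true_and, iff_true]
    rcases lt_trichotomy (B (x i) (x i)) 0 with h1 | h1 | h1
    · exact Or.inr h1
    · exact absurd h1 (h.ne i)
    · exact Or.inl h1
  · rw [Finset.disjoint_left]
    intro i h1 h2
    rw [Finset.mem_filter] at h1 h2
    exact lt_asymm h1.2 h2.2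

/-- The orthogonal complement of a maximal orthogonal family. -/
lemma om_perp (hB : ∀ x y, B x y = B y x) {ι : Type*} [Fintype ι] {x : ι → M} (h : OM B x)
    {u : M} (hu : ∀ i, B u (x i) = 0) (w : M) : B u w = 0 := by
  classical
  set p := ∑ i, (B w (x i) / B (x i) (x i)) • x i with hp
  have hpx : ∀ i, B p (x i) = B w (x i) := by
    intro i
    rw [hp, map_sum B, LinearMap.sum_apply, Finset.sum_eq_single i]
    · rw [map_smul, LinearMap.smul_apply, smul_eq_mul, div_mul_cancel₀ _ (h.ne i)]
    · intro j _ hj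
      rw [map_smul, LinearMap.smul_apply, h.orth j i hj, smul_zero]
    · intro h0; exact absurd (Finset.mem_univ _) h0
  have hup : B u p = 0 := by
    rw [hp, map_sum]
    apply Finset.sum_eq_zero
    intro i _
    rw [map_smul, hu, smul_zero]
  have hw : ∀ i, B (w - p) (x i) = 0 := fun i => by
    rw [map_sub, LinearMap.sub_apply, hpx, sub_self]
  have h1 := h.max u hu
  have h2 := h.max (w - p) hw
  have h3 := h.max (u + (w - p)) (fun i => by
    rw [map_add, LinearMap.add_apply, hu, hw, add_zero])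
  have h4 : B (u + (w - p)) (u + (w - p)) = B u u + B (w - p) (w - p) + 2 * B u (w - p) := by
    rw [map_add B, LinearMap.add_apply, map_add, map_add, hB (w - p) u]
    ring
  have h5 : B u (w - p) = B u w := by rw [map_sub, hup, sub_zero]
  rw [h3, h1, h2, h5] at h4
  linarith

/-- The rank of a nondegenerate form. -/
lemma idx_add_eq_finrank [Module.Finite ℚ M] (hB : ∀ x y, B x y = B y x)
    (hnd : ∀ x, (∀ y, B x y = 0) → x = 0) : pIdx B + nIdx B = Module.finrank ℚ M := by
  classical
  obtain ⟨m, x, h⟩ := exists_om hB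
  rw [card_om hB h]
  have hli : LinearIndependent ℚ x := by
    rw [Fintype.linearIndependent_iff]
    intro c hc i
    have h2 : B (∑ j, c j • x j) (x i) = c i * B (x i) (x i) := by
      rw [map_sum B, LinearMap.sum_apply, Finset.sum_eq_single i]
      · rw [map_smul, LinearMap.smul_apply, smul_eq_mul]
      · intro j _ hj
        rw [map_smul, LinearMap.smul_apply, h.orth j i hj, smul_zero]
      · intro h0; exact absurd (Finset.mem_univ _) h0
    rw [hc, map_zero, LinearMap.zero_apply] at h2
    exact (mul_eq_zero.1 h2.symm).resolve_right (h.ne i)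
  have hsp : ⊤ ≤ Submodule.span ℚ (Set.range x) := by
    intro u _
    set p := ∑ i, (B u (x i) / B (x i) (x i)) • x i with hp
    have hpx : ∀ i, B p (x i) = B u (x i) := by
      intro i
      rw [hp, map_sum B, LinearMap.sum_apply, Finset.sum_eq_single i]
      · rw [map_smul, LinearMap.smul_apply, smul_eq_mul, div_mul_cancel₀ _ (h.ne i)]
      · intro j _ hj
        rw [map_smul, LinearMap.smul_apply, h.orth j i hj, smul_zero]
      · intro h0; exact absurd (Finset.mem_univ _) h0
    have h1 : u - p = 0 := hnd _ (om_perp hB h (fun i => by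
      rw [map_sub, LinearMap.sub_apply, hpx, sub_self]))
    rw [sub_eq_zero.1 h1, hp]
    exact Submodule.sum_mem _ fun i _ => Submodule.smul_mem _ _
      (Submodule.subset_span ⟨i, rfl⟩)
  rw [Module.finrank_eq_card_basis (Module.Basis.mk hli hsp)]

/-- **Additivity of the index.** -/
theorem pIdx_add [Module.Finite ℚ M'] [Module.Finite ℚ M''] (hB : ∀ x y, B x y = B y x)
    {B' : M' →ₗ[ℚ] M' →ₗ[ℚ] ℚ} {B'' : M'' →ₗ[ℚ] M'' →ₗ[ℚ] ℚ} {S : M' →ₗ[ℚ] M}
    {T : M'' →ₗ[ℚ] M} (hS : ∀ x y, B (S x) (S y) = B' x y)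
    (hT : ∀ x y, B (T x) (T y) = B'' x y) (hST : ∀ x y, B (S x) (T y) = 0)
    (hsurj : ∀ u, ∃ x y, u = S x + T y) : pIdx B = pIdx B' + pIdx B'' := by
  classical
  have hB' : ∀ x y, B' x y = B' y x := fun x y => by rw [← hS, ← hS, hB]
  have hB'' : ∀ x y, B'' x y = B'' y x := fun x y => by rw [← hT, ← hT, hB]
  obtain ⟨m, x, hx⟩ := exists_om hB'
  obtain ⟨m', y, hy⟩ := exists_om hB''
  have hz : OM B (Sum.elim (fun i => S (x i)) (fun i => T (y i))) := by
    refine ⟨?_, ?_, ?_⟩
    · rintro (i | i)
      · simpa [hS] using hx.ne i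
      · simpa [hT] using hy.ne i
    · rintro (i | i) (j | j) hij
      · have : i ≠ j := fun h => hij (by rw [h])
        simpa [hS] using hx.orth i j this
      · simpa using hST (x i) (y j)
      · have := hST (x j) (y i)
        rw [hB] at this
        simpa using this
      · have : i ≠ j := fun h => hij (by rw [h])
        simpa [hT] using hy.orth i j this
    · intro u hu
      obtain ⟨a, b, rfl⟩ := hsurj u
      have h1 : ∀ i, B' a (x i) = 0 := by
        intro i
        have h2 := hu (Sum.inl i)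
        simp only [Sum.elim_inl] at h2
        rw [map_add, LinearMap.add_apply, hS, hB (T b), hST, add_zero] at h2
        exact h2
      have h3 : ∀ i, B'' b (y i) = 0 := by
        intro i
        have h2 := hu (Sum.inr i)
        simp only [Sum.elim_inr] at h2
        rw [map_add, LinearMap.add_apply, hT, hST, zero_add] at h2
        exact h2
      rw [map_add B, LinearMap.add_apply, map_add, map_add, hS, hT, hST, hB (T b), hST,
        hx.max a h1, hy.max b h3]
      simp
  rw [pIdx, hz.posIdx_eq hB, pIdx, hx.posIdx_eq hB', pIdx, hy.posIdx_eq hB'', Finset.card_filter,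
    Finset.card_filter, Finset.card_filter, Fintype.sum_sum_type]
  simp [hS, hT]

theorem nIdx_add [Module.Finite ℚ M'] [Module.Finite ℚ M''] (hB : ∀ x y, B x y = B y x)
    {B' : M' →ₗ[ℚ] M' →ₗ[ℚ] ℚ} {B'' : M'' →ₗ[ℚ] M'' →ₗ[ℚ] ℚ} {S : M' →ₗ[ℚ] M}
    {T : M'' →ₗ[ℚ] M} (hS : ∀ x y, B (S x) (S y) = B' x y)
    (hT : ∀ x y, B (T x) (T y) = B'' x y) (hST : ∀ x y, B (S x) (T y) = 0)
    (hsurj : ∀ u, ∃ x y, u = S x + T y) : nIdx B = nIdx B' + nIdx B'' := by
  rw [nIdx_eq, nIdx_eq, nIdx_eq]
  refine pIdx_add (S := S) (T := T) (symm_neg hB) ?_ ?_ ?_ hsurj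
  · intro x y
    rw [LinearMap.neg_apply, LinearMap.neg_apply, LinearMap.neg_apply, LinearMap.neg_apply, hS]
  · intro x y
    rw [LinearMap.neg_apply, LinearMap.neg_apply, LinearMap.neg_apply, LinearMap.neg_apply, hT]
  · intro x y
    rw [LinearMap.neg_apply, LinearMap.neg_apply, hST, neg_zero]

lemma le_pIdx [Module.Finite ℚ M] (hB : ∀ x y, B x y = B y x) {x : M} (hx : 0 < B x x) :
    1 ≤ pIdx B := by
  obtain ⟨m, y, hy⟩ := exists_om hB
  apply le_csSup (hy.bddAbove hB)
  refine ⟨fun _ => x, fun _ => hx, fun i j hij => absurd (Subsingleton.elim i j) hij⟩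

lemma pIdx_eq_zero_iff [Module.Finite ℚ M] (hB : ∀ x y, B x y = B y x) :
    pIdx B = 0 ↔ ∀ x, B x x ≤ 0 := by
  constructor
  · intro h x
    by_contra hx
    have := le_pIdx hB (not_le.1 hx)
    omega
  · intro h
    apply Nat.le_zero.1
    apply csSup_le
    · exact ⟨0, Fin.elim0, fun i => i.elim0, fun i => i.elim0⟩
    · rintro r ⟨z, hz, -⟩
      by_contra hr
      exact absurd (hz ⟨0, by omega⟩) (not_lt.2 (h _))

lemma nIdx_eq_zero_iff [Module.Finite ℚ M] (hB : ∀ x y, B x y = B y x) :
    nIdx B = 0 ↔ ∀ x, 0 ≤ B x x := by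
  rw [nIdx_eq, pIdx_eq_zero_iff (symm_neg hB)]
  apply forall_congr'
  intro x
  rw [LinearMap.neg_apply, LinearMap.neg_apply, neg_nonpos]

/-- A semidefinite form. -/
lemma eq_zero_of_nonneg (hB : ∀ x y, B x y = B y x) (h : ∀ x, 0 ≤ B x x) {x : M}
    (hx : B x x = 0) (y : M) : B x y = 0 := by
  by_contra hne
  have h1 := h (y + (-(B y y + 1) / (2 * B x y)) • x)
  rw [map_add B, LinearMap.add_apply, map_add, map_add, map_smul, map_smul,
    LinearMap.smul_apply, map_smul, LinearMap.smul_apply, hx, hB y x] at h1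
  simp only [smul_eq_mul, mul_zero, add_zero] at h1
  have h2 : -(B y y + 1) / (2 * B x y) * B x y = -(B y y + 1) / 2 := by
    field_simp
  rw [h2] at h1
  linarith

/-- A form of sign `s`. -/
lemma definite_iff [Module.Finite ℚ M] (hB : ∀ x y, B x y = B y x)
    (hnd : ∀ x, (∀ y, B x y = 0) → x = 0) (j : ℕ) :
    (∀ x, x ≠ 0 → 0 < (-1 : ℚ) ^ j * B x x) ↔
      ((pIdx B : ℤ) - nIdx B = (-1) ^ j * ((pIdx B : ℤ) + nIdx B)) := by
  rcases Nat.even_or_odd j with hj | hj
  · rw [hj.neg_one_pow, hj.neg_one_pow, one_mul]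
    simp only [one_mul]
    constructor
    · intro h
      have h1 : nIdx B = 0 := (nIdx_eq_zero_iff hB).2 fun x => by
        by_cases hx : x = 0
        · rw [hx, map_zero]
        · exact (h x hx).le
      rw [h1]
      push_cast
      ring
    · intro h x hx
      have h1 : nIdx B = 0 := by
        have : (nIdx B : ℤ) = 0 := by linarith
        exact_mod_cast this
      have h2 := (nIdx_eq_zero_iff hB).1 h1
      refine lt_of_le_of_ne (h2 x) (fun h0 => hx (hnd x ?_))
      exact eq_zero_of_nonneg hB h2 h0.symm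
  · rw [hj.neg_one_pow, hj.neg_one_pow]
    simp only [neg_mul, one_mul, Left.neg_pos_iff]
    constructor
    · intro h
      have h1 : pIdx B = 0 := (pIdx_eq_zero_iff hB).2 fun x => by
        by_cases hx : x = 0
        · rw [hx, map_zero]
        · exact (h x hx).le
      rw [h1]
      push_cast
      ring
    · intro h x hx
      have h1 : pIdx B = 0 := by
        have : (pIdx B : ℤ) = 0 := by linarith
        exact_mod_cast this
      have h2 := (pIdx_eq_zero_iff hB).1 h1
      have hn : ∀ x, 0 ≤ (-B) x x := fun x => by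
        rw [LinearMap.neg_apply, LinearMap.neg_apply]
        exact neg_nonneg.2 (h2 x)
      refine lt_of_le_of_ne (h2 x) (fun h0 => hx (hnd x ?_))
      intro y
      have h3 := eq_zero_of_nonneg (B := -B) (symm_neg hB) hn (x := x) (by
        rw [LinearMap.neg_apply, LinearMap.neg_apply, h0, neg_zero]) y
      rw [LinearMap.neg_apply, LinearMap.neg_apply, neg_eq_zero] at h3
      exact h3

end Pool.Agent.R909.Idx
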