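import Pool.Agent.R909.IdxA
import Pool.Agent.R910.Num.Rat

/-!
# The Hodge index formula in graded rings with the Hodge-Riemann relations
-/

open Finset

universe u v

namespace Pool.Agent.R909.Idx

open Pool.Agent.W539.Ker Pool.Agent.R910.Num

section ring

variable {V : Type v} [CommRing V] [Algebra ℚ V]

/-- The form `deg (x y v)` on a subspace. -/
noncomputable def frm (deg : V →ₗ[ℚ] ℚ) (v : V) (N : Submodule ℚ V) : N →ₗ[ℚ] N →ₗ[ℚ] ℚ :=
  ((LinearMap.mul ℚ V).compr₂ (deg ∘ₗ LinearMap.mulRight ℚ v)).domRestrict₁₂ N N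

lemma frm_apply (deg : V →ₗ[ℚ] ℚ) (v : V) (N : Submodule ℚ V) (x y : N) :
    frm deg v N x y = deg (x * y * v) := rfl

lemma frm_symm (deg : V →ₗ[ℚ] ℚ) (v : V) (N : Submodule ℚ V) (x y : N) :
    frm deg v N x y = frm deg v N y x := by
  rw [frm_apply, frm_apply, mul_comm (x : V)]

/-- The primitive part: the orthogonal complement of `a N'` in `N`, for the form `deg (x y v)`. -/
def prim (deg : V →ₗ[ℚ] ℚ) (a v : V) (N N' : Submodule ℚ V) : Submodule ℚ V where
  carrier := {x | x ∈ N ∧ ∀ w ∈ N', deg (x * w * (a * v)) = 0}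
  add_mem' {x y} hx hy := ⟨N.add_mem hx.1 hy.1, fun w hw => by
    rw [add_mul, add_mul, map_add, hx.2 w hw, hy.2 w hw, add_zero]⟩
  zero_mem' := ⟨N.zero_mem, fun w _ => by rw [zero_mul, zero_mul, map_zero]⟩
  smul_mem' c x hx := ⟨N.smul_mem c hx.1, fun w hw => by
    rw [smul_mul_assoc, smul_mul_assoc, map_smul, hx.2 w hw, smul_zero]⟩

variable {deg : V →ₗ[ℚ] ℚ} {a v : V} {N N' : Submodule ℚ V}

/-- One step. -/
lemma step [Module.Finite ℚ N] [Module.Finite ℚ N'] (hmul : ∀ x ∈ N', a * x ∈ N)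
    (hdec : ∀ u ∈ N, ∃ x ∈ N', u - a * x ∈ prim deg a v N N') :
    pIdx (frm deg v N) = pIdx (frm deg (a * a * v) N') +
      pIdx (frm deg v (prim deg a v N N')) ∧
    nIdx (frm deg v N) = nIdx (frm deg (a * a * v) N') +
      nIdx (frm deg v (prim deg a v N N')) := by
  have hle : prim deg a v N N' ≤ N := fun x hx => hx.1
  have hfin : Module.Finite ℚ (prim deg a v N N') :=
    Module.Finite.of_injective (Submodule.inclusion hle) (Submodule.inclusion_injective hle)
  set S : N' →ₗ[ℚ] N := (LinearMap.mulLeft ℚ a).restrict hmul with hS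
  set T : prim deg a v N N' →ₗ[ℚ] N := Submodule.inclusion hle with hT
  have h1 : ∀ x y, frm deg v N (S x) (S y) = frm deg (a * a * v) N' x y := by
    intro x y
    rw [frm_apply, frm_apply]
    show deg ((a * (x : V)) * (a * (y : V)) * v) = _
    congr 1
    ring
  have h2 : ∀ x y, frm deg v N (T x) (T y) = frm deg v (prim deg a v N N') x y := fun x y => rfl
  have h3 : ∀ x y, frm deg v N (S x) (T y) = 0 := by
    intro x y
    rw [frm_apply]
    show deg ((a * (x : V)) * (y : V) * v) = 0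
    rw [← y.2.2 x x.2]
    congr 1
    ring
  have h4 : ∀ u, ∃ x y, u = S x + T y := by
    rintro ⟨u, hu⟩
    obtain ⟨x, hx, hp⟩ := hdec u hu
    refine ⟨⟨x, hx⟩, ⟨u - a * x, hp⟩, Subtype.ext ?_⟩
    show u = a * x + (u - a * x)
    ring
  exact ⟨pIdx_add (frm_symm deg v N) h1 h2 h3 h4, nIdx_add (frm_symm deg v N) h1 h2 h3 h4⟩

end ring

variable {i : ℕ} {Obj : Type u} {dim : Obj → ℕ} {V : Obj → Type v}
    [∀ X, CommRing (V X)] [∀ X, Algebra ℚ (V X)] {gr : ∀ X, ℕ → Submodule ℚ (V X)}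
    {deg : ∀ X, V X →ₗ[ℚ] ℚ} {amp : ∀ X, Set (V X)}

/-- The dimension of the space of classes of codimension `j`. -/
noncomputable def rk (gr : ∀ X, ℕ → Submodule ℚ (V X)) (X : Obj) (j : ℕ) : ℕ :=
  Module.finrank ℚ (gr X j)

/-- The alternating sum of the dimensions of the primitive parts. -/
noncomputable def altSum (gr : ∀ X, ℕ → Submodule ℚ (V X)) (X : Obj) : ℕ → ℤ
  | 0 => rk gr X 0
  | j + 1 => altSum gr X j + (-1) ^ (j + 1) * ((rk gr X (j + 1) : ℤ) - rk gr X j)

section core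

variable (S : HRCore ℚ dim V gr deg amp i)

include S

lemma pow_memQ {X : Obj} {a : V X} (ha : a ∈ amp X) {j : ℕ} {x : V X} (hx : x ∈ gr X j)
    (k : ℕ) : a ^ k * x ∈ gr X (j + k) := by
  have := S.mem_list (List.replicate k a) (fun D hD => by
    rw [List.eq_of_mem_replicate hD]; exact ha) hx
  rwa [List.prod_replicate, List.length_replicate] at this

lemma inj_pow {X : Obj} {a : V X} (ha : a ∈ amp X) {j : ℕ} (hj : j ≤ i) (hj2 : 2 * j ≤ dim X)
    {x : V X} (hx : x ∈ gr X j) (h0 : a ^ (dim X - 2 * j) * x = 0) : x = 0 := by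
  apply S.inj X hj hj2 (List.replicate (dim X - 2 * j) a) (fun D hD => by
    rw [List.eq_of_mem_replicate hD]; exact ha) List.length_replicate hx
  rwa [List.prod_replicate]

lemma surj_pow {X : Obj} {a : V X} (ha : a ∈ amp X) {j : ℕ} (hj : j ≤ i) (hj2 : 2 * j ≤ dim X)
    {y : V X} (hy : y ∈ gr X (dim X - j)) : ∃ x ∈ gr X j, a ^ (dim X - 2 * j) * x = y := by
  obtain ⟨x, hx, h⟩ := S.surj X hj hj2 (List.replicate (dim X - 2 * j) a) (fun D hD => by
    rw [List.eq_of_mem_replicate hD]; exact ha) List.length_replicate hy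
  rw [List.prod_replicate] at h
  exact ⟨x, hx, h⟩

/-- The decomposition in codimension `j + 1`. -/
lemma dec {X : Obj} {a : V X} (ha : a ∈ amp X) {j : ℕ} (hj : j ≤ i)
    (hj2 : 2 * (j + 1) ≤ dim X) {u : V X} (hu : u ∈ gr X (j + 1)) :
    ∃ x ∈ gr X j, u - a * x ∈
      prim (deg X) a (a ^ (dim X - 2 * (j + 1))) (gr X (j + 1)) (gr X j) := by
  have h1 : a ^ (dim X - 2 * (j + 1) + 1) * u ∈ gr X (dim X - j) := by
    have := pow_memQ S ha hu (dim X - 2 * (j + 1) + 1)
    rwa [show j + 1 + (dim X - 2 * (j + 1) + 1) = dim X - j by omega] at this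
  obtain ⟨x, hx, hxu⟩ := surj_pow S ha hj (by omega) h1
  refine ⟨x, hx, Submodule.sub_mem _ hu ?_, fun w hw => ?_⟩
  · exact S.mul_mem X a (S.amp_mem X a ha) j x hx
  · have h2 : (u - a * x) * w * (a * a ^ (dim X - 2 * (j + 1))) =
        w * (a ^ (dim X - 2 * (j + 1) + 1) * u - a ^ (dim X - 2 * j) * x) := by
      rw [show dim X - 2 * j = dim X - 2 * (j + 1) + 2 by omega]
      ring
    rw [h2, hxu, sub_self, mul_zero, map_zero]

/-- The forms are nondegenerate. -/
lemma frm_nondeg {X : Obj} {a : V X} (ha : a ∈ amp X) {j : ℕ} (hj : j ≤ i)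
    (hj2 : 2 * j ≤ dim X) (x : gr X j)
    (h : ∀ y, frm (deg X) (a ^ (dim X - 2 * j)) (gr X j) x y = 0) : x = 0 := by
  apply Subtype.ext
  apply inj_pow S ha hj hj2 x.2
  apply S.nondeg X j hj hj2
  · have := pow_memQ S ha x.2 (dim X - 2 * j)
    rwa [show j + (dim X - 2 * j) = dim X - j by omega] at this
  · intro y hy
    rw [← h ⟨y, hy⟩, frm_apply]
    congr 1
    show y * (a ^ (dim X - 2 * j) * (x : V X)) = (x : V X) * y * a ^ (dim X - 2 * j)
    ring

/-- The primitive form is nondegenerate, if the form is. -/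
lemma prim_nondeg {X : Obj} {a : V X} (ha : a ∈ amp X) {j : ℕ} (hj : j ≤ i)
    (hj2 : 2 * (j + 1) ≤ dim X)
    (hnd : ∀ x : gr X (j + 1), (∀ y, frm (deg X) (a ^ (dim X - 2 * (j + 1)))
      (gr X (j + 1)) x y = 0) → x = 0)
    (x : prim (deg X) a (a ^ (dim X - 2 * (j + 1))) (gr X (j + 1)) (gr X j))
    (h : ∀ y, frm (deg X) (a ^ (dim X - 2 * (j + 1))) _ x y = 0) : x = 0 := by
  have h1 : (⟨x, x.2.1⟩ : gr X (j + 1)) = 0 := by
    apply hnd
    rintro ⟨u, hu⟩
    obtain ⟨w, hw, hp⟩ := dec S ha hj hj2 hu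
    have h2 := h ⟨_, hp⟩
    have h3 := x.2.2 w hw
    rw [frm_apply] at h2 ⊢
    have h4 : (x : V X) * u * a ^ (dim X - 2 * (j + 1)) =
        (x : V X) * (u - a * w) * a ^ (dim X - 2 * (j + 1)) +
          (x : V X) * w * (a * a ^ (dim X - 2 * (j + 1))) := by ring
    show deg X ((x : V X) * u * a ^ (dim X - 2 * (j + 1))) = 0
    rw [h4, map_add, h3, add_zero]
    exact h2
  exact Subtype.ext (congrArg (fun y : gr X (j + 1) => (y : V X)) h1)

lemma idx_step {X : Obj} {a : V X} (ha : a ∈ amp X) {j : ℕ} (hj : j ≤ i)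
    (hj2 : 2 * (j + 1) ≤ dim X) (hfin : Module.Finite ℚ (gr X (j + 1))) :
    pIdx (frm (deg X) (a ^ (dim X - 2 * (j + 1))) (gr X (j + 1))) =
      pIdx (frm (deg X) (a ^ (dim X - 2 * j)) (gr X j)) +
      pIdx (frm (deg X) (a ^ (dim X - 2 * (j + 1)))
        (prim (deg X) a (a ^ (dim X - 2 * (j + 1))) (gr X (j + 1)) (gr X j))) ∧
    nIdx (frm (deg X) (a ^ (dim X - 2 * (j + 1))) (gr X (j + 1))) =
      nIdx (frm (deg X) (a ^ (dim X - 2 * j)) (gr X j)) +
      nIdx (frm (deg X) (a ^ (dim X - 2 * (j + 1)))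
        (prim (deg X) a (a ^ (dim X - 2 * (j + 1))) (gr X (j + 1)) (gr X j))) := by
  have hfin' := S.finite X j hj (by omega)
  have h := step (deg := deg X) (a := a) (v := a ^ (dim X - 2 * (j + 1))) (N := gr X (j + 1))
    (N' := gr X j) (fun x hx => S.mul_mem X a (S.amp_mem X a ha) j x hx)
    (fun u hu => dec S ha hj hj2 hu)
  rw [show a * a * a ^ (dim X - 2 * (j + 1)) = a ^ (dim X - 2 * j) by
    rw [show dim X - 2 * j = dim X - 2 * (j + 1) + 2 by omega]; ring] at h
  exact h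

/-- **The signatures of the forms in the lower codimensions.** -/
theorem sign_low {X : Obj} {a : V X} (ha : a ∈ amp X) (j : ℕ) (hj : j ≤ i)
    (hj2 : 2 * j ≤ dim X) :
    (pIdx (frm (deg X) (a ^ (dim X - 2 * j)) (gr X j)) : ℤ) -
      nIdx (frm (deg X) (a ^ (dim X - 2 * j)) (gr X j)) = altSum gr X j := by
  induction j with
  | zero =>
    have hfin := S.finite X 0 hj hj2
    have h1 : (pIdx (frm (deg X) (a ^ (dim X - 2 * 0)) (gr X 0)) : ℤ) +
        nIdx (frm (deg X) (a ^ (dim X - 2 * 0)) (gr X 0)) = rk gr X 0 := by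
      exact_mod_cast idx_add_eq_finrank (frm_symm _ _ _)
        (frm_nondeg S ha hj hj2)
    have h2 := (definite_iff (B := frm (deg X) (a ^ (dim X - 2 * 0)) (gr X 0))
      (frm_symm _ _ _) (frm_nondeg S ha hj hj2) 0).1 (by
        rintro ⟨x, hx⟩ hx0
        rw [S.one X] at hx
        obtain ⟨c, rfl⟩ := Submodule.mem_span_singleton.1 hx
        have hc : c ≠ 0 := by
          rintro rfl
          exact hx0 (Subtype.ext (zero_smul _ _))
        rw [pow_zero, one_mul, frm_apply]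
        show 0 < deg X ((c • (1 : V X)) * (c • (1 : V X)) * a ^ (dim X - 2 * 0))
        rw [smul_mul_smul_comm, one_mul, smul_mul_assoc, one_mul, map_smul, smul_eq_mul,
          mul_zero, Nat.sub_zero]
        exact mul_pos (mul_self_pos.2 hc) (S.pos X a ha))
    rw [h2, h1, pow_zero, one_mul]
    rfl
  | succ j ih =>
    have hfin := S.finite X (j + 1) hj hj2
    obtain ⟨h1, h2⟩ := idx_step S ha (j := j) (by omega) hj2 hfin
    have h3 := ih (by omega) (by omega)
    have hnd := frm_nondeg S ha hj hj2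
    have hle : prim (deg X) a (a ^ (dim X - 2 * (j + 1))) (gr X (j + 1)) (gr X j) ≤
      gr X (j + 1) := fun x hx => hx.1
    have hfinP : Module.Finite ℚ
        (prim (deg X) a (a ^ (dim X - 2 * (j + 1))) (gr X (j + 1)) (gr X j)) :=
      Module.Finite.of_injective (Submodule.inclusion hle) (Submodule.inclusion_injective hle)
    have h4 := (definite_iff (B := frm (deg X) (a ^ (dim X - 2 * (j + 1)))
      (prim (deg X) a (a ^ (dim X - 2 * (j + 1))) (gr X (j + 1)) (gr X j))) (frm_symm _ _ _)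
      (prim_nondeg S ha (by omega) hj2 hnd) (j + 1)).1 (by
        rintro ⟨x, hx⟩ hx0
        have h5 := S.rat X hj hj2 ha (List.replicate (dim X - 2 * (j + 1)) a) (fun D hD => by
          rw [List.eq_of_mem_replicate hD]; exact ha) List.length_replicate hx.1
          (fun h0 => hx0 (Subtype.ext h0)) (by
            rw [List.prod_replicate]
            exact hx.2)
        rw [List.prod_replicate] at h5
        exact h5)
    have hfin' := S.finite X j (by omega) (by omega)
    have h6 : (pIdx (frm (deg X) (a ^ (dim X - 2 * (j + 1))) (gr X (j + 1))) : ℤ) +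
        nIdx (frm (deg X) (a ^ (dim X - 2 * (j + 1))) (gr X (j + 1))) = rk gr X (j + 1) := by
      exact_mod_cast idx_add_eq_finrank (frm_symm _ _ _) hnd
    have h7 : (pIdx (frm (deg X) (a ^ (dim X - 2 * j)) (gr X j)) : ℤ) +
        nIdx (frm (deg X) (a ^ (dim X - 2 * j)) (gr X j)) = rk gr X j := by
      exact_mod_cast idx_add_eq_finrank (frm_symm _ _ _)
        (frm_nondeg S ha (by omega) (by omega))
    rw [altSum, ← h3, ← h6, ← h7, h1, h2]
    push_cast
    have h8 : (pIdx (frm (deg X) (a ^ (dim X - 2 * (j + 1)))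
        (prim (deg X) a (a ^ (dim X - 2 * (j + 1))) (gr X (j + 1)) (gr X j))) : ℤ) =
        nIdx (frm (deg X) (a ^ (dim X - 2 * (j + 1)))
        (prim (deg X) a (a ^ (dim X - 2 * (j + 1))) (gr X (j + 1)) (gr X j))) +
        (-1) ^ (j + 1) * ((pIdx (frm (deg X) (a ^ (dim X - 2 * (j + 1)))
        (prim (deg X) a (a ^ (dim X - 2 * (j + 1))) (gr X (j + 1)) (gr X j))) : ℤ) +
          nIdx (frm (deg X) (a ^ (dim X - 2 * (j + 1)))
        (prim (deg X) a (a ^ (dim X - 2 * (j + 1))) (gr X (j + 1)) (gr X j)))) := by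
      linarith
    linear_combination h8

/-- **The Hodge-Riemann relation in the middle codimension from the signature.** -/
theorem hr_mid {X : Obj} {a : V X} (ha : a ∈ amp X) {j : ℕ} (hj : j ≤ i)
    (hj2 : dim X = 2 * (j + 1)) (hfin : Module.Finite ℚ (gr X (j + 1)))
    (hnd : ∀ x ∈ gr X (j + 1), (∀ y ∈ gr X (j + 1), deg X (x * y) = 0) → x = 0)
    (hsig : (pIdx (frm (deg X) 1 (gr X (j + 1))) : ℤ) - nIdx (frm (deg X) 1 (gr X (j + 1))) =
      altSum gr X (j + 1)) {x : V X} (hx : x ∈ gr X (j + 1)) (hx0 : x ≠ 0)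
    (hp : ∀ w ∈ gr X j, deg X (x * w * a) = 0) : 0 < (-1 : ℚ) ^ (j + 1) * deg X (x * x) := by
  have he : a ^ (dim X - 2 * (j + 1)) = 1 := by
    rw [hj2, Nat.sub_self, pow_zero]
  have hnd' : ∀ x : gr X (j + 1), (∀ y, frm (deg X) 1 (gr X (j + 1)) x y = 0) → x = 0 := by
    intro x h
    apply Subtype.ext
    apply hnd x x.2
    intro y hy
    rw [← h ⟨y, hy⟩, frm_apply, mul_one]
  obtain ⟨h1, h2⟩ := idx_step S ha (j := j) hj (by omega) hfin
  have h9 := prim_nondeg S ha hj (by omega) (by rw [he]; exact hnd')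
  rw [he] at h1 h2 h9
  have h3 := sign_low S ha j hj (by omega)
  have hle : prim (deg X) a 1 (gr X (j + 1)) (gr X j) ≤
    gr X (j + 1) := fun x hx => hx.1
  have hfinP : Module.Finite ℚ (prim (deg X) a 1 (gr X (j + 1)) (gr X j)) :=
    Module.Finite.of_injective (Submodule.inclusion hle) (Submodule.inclusion_injective hle)
  have hfin' := S.finite X j (by omega) (by omega)
  have h6 : (pIdx (frm (deg X) 1 (gr X (j + 1))) : ℤ) +
      nIdx (frm (deg X) 1 (gr X (j + 1))) = rk gr X (j + 1) := by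
    exact_mod_cast idx_add_eq_finrank (frm_symm _ _ _) hnd'
  have h7 : (pIdx (frm (deg X) (a ^ (dim X - 2 * j)) (gr X j)) : ℤ) +
      nIdx (frm (deg X) (a ^ (dim X - 2 * j)) (gr X j)) = rk gr X j := by
    exact_mod_cast idx_add_eq_finrank (frm_symm _ _ _)
      (frm_nondeg S ha (by omega) (by omega))
  have key := (definite_iff (B := frm (deg X) 1 (prim (deg X) a 1 (gr X (j + 1)) (gr X j)))
    (frm_symm _ _ _) h9 (j + 1)).2 (by
      rw [altSum, ← h3, ← h6, ← h7, h1, h2] at hsig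
      push_cast at hsig
      linear_combination hsig)
  have h10 := key ⟨x, hx, fun w hw => by rw [mul_one]; exact hp w hw⟩
    (fun h0 => hx0 (congrArg Subtype.val h0))
  rw [frm_apply] at h10
  simpa using h10

end core

end Pool.Agent.R909.Idx
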