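import Pool.Agent.R910.Num.Defs
import Pool.Agent.W534.PoleDefs

/-!
# The Hodge index formula for algebraic cycles: definitions
-/

open CategoryTheory AlgebraicGeometry

universe u v

namespace Pool.Agent.R909

open Pool.Agent.H914 Pool.Agent.W534 VarClass Obj

variable {k : Type u} [Field k] {𝒱 : VarClass k}

/-- There are `r` cycles `z` of codimension `j` on `X` (of dimension `2 j`) for which `s` times the
intersection number `z · z` is positive, and whose mutual intersection numbers are zero. -/
def HasOrthogonalCycles (ops : CycleOps 𝒱) (X : 𝒱.Obj) (j : ℕ) (s : ℚ) (r : ℕ) : Prop :=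
  ∃ z : Fin r → X.Cycles, (∀ a, X.IsCyc j (z a)) ∧
    (∀ a, 0 < s * X.V.degCycle (ops.mul (z a) (z a))) ∧
    ∀ a b, a ≠ b → X.V.degCycle (ops.mul (z a) (z b)) = 0

/-- The signature of the intersection form on the cycles of codimension `j` on `X`, for a variety
`X` of dimension `2 j`: the largest number of pairwise orthogonal cycles with positive squares
minus the largest number of pairwise orthogonal cycles with negative squares. -/
noncomputable def signature (ops : CycleOps 𝒱) (X : 𝒱.Obj) (j : ℕ) : ℤ :=
  (sSup {r | HasOrthogonalCycles ops X j 1 r} : ℕ) -
    (sSup {r | HasOrthogonalCycles ops X j (-1) r} : ℕ)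

/-- The alternating sum of the dimensions of the spaces of cycles modulo numerical equivalence. -/
noncomputable def cycleEuler (ops : CycleOps 𝒱) (X : 𝒱.Obj) : ℤ :=
  ∑ l ∈ Finset.range (X.dim + 1), (-1) ^ l * (numRank ops X l : ℤ)

/-- The Hodge index formula for a variety of dimension `2 j`: the signature of the intersection
form on the cycles of codimension `j` is the alternating sum of the dimensions of the spaces of
cycles modulo numerical equivalence. -/
def HodgeIndexFormula (ops : CycleOps 𝒱) (X : 𝒱.Obj) (j : ℕ) : Prop :=
  signature ops X j = cycleEuler ops X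

end Pool.Agent.R909
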