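import Pool.Agent.R909.IdxB
import Pool.Agent.R909.IdxDefs
import Pool.Agent.R910.Num.Geo

/-!
# The Hodge index formula and the numerical conjectures
-/

open CategoryTheory AlgebraicGeometry TensorProduct Finset

set_option linter.unusedSectionVars false

universe u v

namespace Pool.Agent.R909

open Pool.Agent.H914 Pool.Agent.H447 Pool.Agent.R910.Dom Pool.Agent.R910.Mix
  Pool.Agent.R910.Num Pool.Agent.W534 Pool.Agent.W539.Ker Pool.Agent.R909.Idx VarClass Obj
  WeilCohomology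

variable {k : Type u} [Field k] {𝒱 : VarClass k} {ops : CycleOps 𝒱}
  {W : WeilCohomology.{u, v} ops} {X : 𝒱.Obj}

attribute [local instance] ratAlg

/-- The intersection numbers in the ring. -/
lemma degN_cyc {j l : ℕ} {z w : X.Cycles} (hz : X.IsCyc j z) (hw : X.IsCyc l w)
    (h : j + l = X.dim) : degN W X (mkN W X (mkA (W := W) ⟨z, hz, rfl⟩) *
      mkN W X (mkA (W := W) ⟨w, hw, rfl⟩)) = X.V.degCycle (ops.mul z w) := by
  rw [← map_mul, degN_mk, degQ_mk_mul hz hw h]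

/-- The sets of numbers of orthogonal cycles. -/
lemma hasOrth_iff {j : ℕ} (hj : X.dim = 2 * j) (s : ℚ) (r : ℕ) :
    HasOrthogonalCycles ops X j s r ↔
      ∃ z : Fin r → grN W X j, (∀ a, 0 < s * frm (degN W X) 1 (grN W X j) (z a) (z a)) ∧
        ∀ a b, a ≠ b → frm (degN W X) 1 (grN W X j) (z a) (z b) = 0 := by
  constructor
  · rintro ⟨z, hz, h1, h2⟩
    refine ⟨fun a => ⟨mkN W X (mkA (W := W) ⟨z a, hz a, rfl⟩), mem_grN.2 ⟨_, hz a, rfl⟩⟩, ?_, ?_⟩
    · intro a
      rw [frm_apply, mul_one, degN_cyc (hz a) (hz a) (by omega)]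
      exact h1 a
    · intro a b hab
      rw [frm_apply, mul_one, degN_cyc (hz a) (hz b) (by omega)]
      exact h2 a b hab
  · rintro ⟨z, h1, h2⟩
    choose c hc hcz using fun a => mem_grN.1 (z a).2
    refine ⟨c, hc, ?_, ?_⟩
    · intro a
      have := h1 a
      rw [frm_apply, mul_one, ← hcz, degN_cyc (hc a) (hc a) (by omega)] at this
      exact this
    · intro a b hab
      have := h2 a b hab
      rw [frm_apply, mul_one, ← hcz, ← hcz, degN_cyc (hc a) (hc b) (by omega)] at this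
      exact this

/-- The signature in terms of the ring. -/
lemma signature_eq (W : WeilCohomology.{u, v} ops) {j : ℕ} (hj : X.dim = 2 * j) :
    signature ops X j = (pIdx (frm (degN W X) 1 (grN W X j)) : ℤ) -
      nIdx (frm (degN W X) 1 (grN W X j)) := by
  have h1 : {r | HasOrthogonalCycles ops X j 1 r} =
      {r | PosFam (fun x y => frm (degN W X) 1 (grN W X j) x y) r} := by
    ext r
    simp only [Set.mem_ofPred_eq]
    rw [hasOrth_iff (W := W) hj]
    simp only [one_mul]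
    rfl
  have h2 : {r | HasOrthogonalCycles ops X j (-1) r} =
      {r | PosFam (fun x y => -frm (degN W X) 1 (grN W X j) x y) r} := by
    ext r
    simp only [Set.mem_ofPred_eq]
    rw [hasOrth_iff (W := W) hj]
    simp only [neg_mul, one_mul]
    constructor
    · rintro ⟨z, hz, h0⟩
      exact ⟨z, hz, fun a b hab => neg_eq_zero.2 (h0 a b hab)⟩
    · rintro ⟨z, hz, h0⟩
      exact ⟨z, hz, fun a b hab => neg_eq_zero.1 (h0 a b hab)⟩
  rw [signature, h1, h2]
  rfl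

/-- Nondegeneracy on both sides. -/
lemma nondegN' {j : ℕ} (hj : j ≤ X.dim) {y : NA W X} (hy : y ∈ grN W X j)
    (h : ∀ x ∈ grN W X (X.dim - j), degN W X (x * y) = 0) : y = 0 := by
  apply nondegN (j := X.dim - j) (by omega) _ h
  rwa [show X.dim - (X.dim - j) = j by omega]

/-- The ranks of the groups of cycles modulo numerical equivalence. -/
lemma numRank_ring (W : WeilCohomology.{u, v} ops) {j : ℕ} (hj : j ≤ X.dim) :
    numRank ops X j = Module.finrank ℚ (grN W X j) := by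
  set Ψ : grN W X j →ₗ[ℚ] ({w : X.Cycles // X.IsCyc (X.dim - j) w} → ℚ) :=
    LinearMap.pi fun w => (degN W X) ∘ₗ
      (LinearMap.mulRight ℚ (mkN W X (mkA (W := W) ⟨w.1, w.2, rfl⟩))) ∘ₗ
      (grN W X j).subtype with hΨ
  have happ : ∀ (z : X.Cycles) (hz : X.IsCyc j z),
      Ψ ⟨mkN W X (mkA (W := W) ⟨z, hz, rfl⟩), mem_grN.2 ⟨z, hz, rfl⟩⟩ =
        interNumbers ops X j ⟨z, hz⟩ := by
    intro z hz
    funext w
    exact degN_cyc hz w.2 (by omega)
  have hinj : Function.Injective Ψ := by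
    rw [← LinearMap.ker_eq_bot, LinearMap.ker_eq_bot']
    rintro ⟨x, hx⟩ h0
    apply Subtype.ext
    apply nondegN' hj hx
    intro y hy
    obtain ⟨w, hw, rfl⟩ := mem_grN.1 hy
    rw [mul_comm]
    exact congrFun h0 ⟨w, hw⟩
  have hrange : Submodule.span ℚ (Set.range (interNumbers ops X j)) = LinearMap.range Ψ := by
    apply le_antisymm
    · rw [Submodule.span_le]
      rintro _ ⟨⟨z, hz⟩, rfl⟩
      exact ⟨_, happ z hz⟩
    · rintro _ ⟨⟨x, hx⟩, rfl⟩
      obtain ⟨z, hz, rfl⟩ := mem_grN.1 hx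
      rw [happ z hz]
      exact Submodule.subset_span ⟨_, rfl⟩
  rw [numRank, hrange, LinearMap.finrank_range_of_inj hinj]

lemma rank_le_ring {V : Type v} [CommRing V] [Algebra ℚ V] (deg : V →ₗ[ℚ] ℚ)
    (N N' : Submodule ℚ V) [Module.Finite ℚ N']
    (h : ∀ y ∈ N, (∀ x ∈ N', deg (x * y) = 0) → y = 0) :
    Module.finrank ℚ N ≤ Module.finrank ℚ N' := by
  set pair : N →ₗ[ℚ] Module.Dual ℚ N' :=
    ((LinearMap.mul ℚ V).compr₂ deg).domRestrict₁₂ _ _ with hpair
  have hpinj : Function.Injective pair := by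
    rw [← LinearMap.ker_eq_bot, LinearMap.ker_eq_bot']
    rintro ⟨b, hb⟩ h0
    apply Subtype.ext
    apply h b hb
    intro w hw
    rw [mul_comm]
    exact congrArg (fun F => F ⟨w, hw⟩) h0
  have := LinearMap.finrank_le_finrank_of_injective hpinj
  rwa [Subspace.dual_finrank_eq] at this

lemma rank_le_dual (W : WeilCohomology.{u, v} ops) {j : ℕ} (hj : j ≤ X.dim) :
    Module.finrank ℚ (grN W X (X.dim - j)) ≤ Module.finrank ℚ (grN W X j) := by
  have hfin := finN (W := W) (X := X) j hj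
  exact rank_le_ring (degN W X) _ _ (fun y hy h => nondegN hj hy h)

/-- Duality. -/
lemma numRank_dual (W : WeilCohomology.{u, v} ops) {j : ℕ} (hj : j ≤ X.dim) :
    numRank ops X (X.dim - j) = numRank ops X j := by
  rw [numRank_ring W hj, numRank_ring W (by omega)]
  apply le_antisymm (rank_le_dual W hj)
  have := rank_le_dual (X := X) W (j := X.dim - j) (by omega)
  rwa [show X.dim - (X.dim - j) = j by omega] at this

/-- The two alternating sums. -/
lemma altSum_eq {ρ : ℕ → ℤ} {A : ℕ → ℤ} (h0 : A 0 = ρ 0)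
    (hs : ∀ j, A (j + 1) = A j + (-1) ^ (j + 1) * (ρ (j + 1) - ρ j)) (m : ℕ) :
    A m = (-1) ^ m * ρ m + 2 * ∑ l ∈ range m, (-1) ^ l * ρ l := by
  induction m with
  | zero => rw [h0]; simp
  | succ m ih =>
    rw [hs, ih, Finset.sum_range_succ]
    ring

lemma sum_dual {ρ : ℕ → ℤ} {m : ℕ} (h : ∀ l ≤ 2 * m, ρ (2 * m - l) = ρ l) :
    ∑ l ∈ range (2 * m + 1), (-1 : ℤ) ^ l * ρ l =
      (-1) ^ m * ρ m + 2 * ∑ l ∈ range m, (-1) ^ l * ρ l := by
  rw [show 2 * m + 1 = m + 1 + m by ring, Finset.sum_range_add, Finset.sum_range_succ]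
  have h1 : ∑ x ∈ range m, (-1 : ℤ) ^ (m + 1 + x) * ρ (m + 1 + x) =
      ∑ l ∈ range m, (-1) ^ l * ρ l := by
    rw [← Finset.sum_range_reflect]
    apply Finset.sum_congr rfl
    intro x hx
    rw [Finset.mem_range] at hx
    have h2 : m + 1 + (m - 1 - x) = 2 * m - x := by omega
    rw [h2, h x (by omega)]
    congr 1
    have h3 : (-1 : ℤ) ^ (2 * m - x) * (-1) ^ x = 1 := by
      rw [← pow_add, show 2 * m - x + x = 2 * m by omega, pow_mul]
      simp
    have h4 : (-1 : ℤ) ^ x * (-1) ^ x = 1 := by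
      rw [← pow_add, ← two_mul, pow_mul]
      simp
    calc (-1 : ℤ) ^ (2 * m - x) = (-1) ^ (2 * m - x) * ((-1) ^ x * (-1) ^ x) := by
          rw [h4, mul_one]
      _ = (-1) ^ x := by rw [← mul_assoc, h3, one_mul]
  rw [h1]
  ring

/-- The alternating sum of the ranks. -/
lemma cycleEuler_eq (W : WeilCohomology.{u, v} ops) {𝒮 : Set 𝒱.Obj} (X : 𝒮) {j : ℕ}
    (hj : X.1.dim = 2 * j) :
    cycleEuler ops X.1 = altSum (V := fun X : 𝒮 => NA W X.1) (fun X => grN W X.1) X j := by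
  rw [altSum_eq (ρ := fun l => (rk (V := fun X : 𝒮 => NA W X.1) (fun X => grN W X.1) X l : ℤ))
    (A := altSum (V := fun X : 𝒮 => NA W X.1) (fun X => grN W X.1) X) rfl (fun _ => rfl) j,
    cycleEuler, hj, ← sum_dual (m := j)
      (ρ := fun l => (rk (V := fun X : 𝒮 => NA W X.1) (fun X => grN W X.1) X l : ℤ))]
  · apply Finset.sum_congr rfl
    intro l hl
    rw [Finset.mem_range] at hl
    rw [numRank_ring W (show l ≤ X.1.dim by omega)]
    rfl
  · intro l hl
    have h1 := numRank_dual (X := X.1) W (j := l) (by omega)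
    rw [numRank_ring W (by omega), numRank_ring W (by omega), hj] at h1
    exact_mod_cast h1

variable {i : ℕ} {𝒮 : Set 𝒱.Obj} {Amp : ∀ X : 𝒱.Obj, Set X.Cycles}

lemma IsNumAmpleSystem.mono (hS : IsNumAmpleSystem ops 𝒮 Amp i) {i' : ℕ} (h : i' ≤ i) :
    IsNumAmpleSystem ops 𝒮 Amp i' where
  nonempty := hS.nonempty
  isCyc := hS.isCyc
  pos := hS.pos
  sec X hX hd D hD j hj := hS.sec X hX hd D hD j (hj.trans h)

/-- The Hodge index formula from the numerical conjectures. -/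
theorem index_of_core (W : WeilCohomology.{u, v} ops) (hS : IsNumAmpleSystem ops 𝒮 Amp i)
    (h : ∀ X ∈ 𝒮, ∀ j, 1 ≤ j → j ≤ i → 2 * j ≤ X.dim →
      (∃ D ∈ Amp X, NumHodgeTypeIn ops X D j) ∨
      (2 * j < X.dim ∧ HasLefschetzSection ops 𝒮 Amp X (j - 1))) {X : 𝒱.Obj} (hX : X ∈ 𝒮)
    {j : ℕ} (hj : j ≤ i) (hd : X.dim = 2 * j) : HodgeIndexFormula ops X j := by
  have S := core (W := W) hS h
  obtain ⟨D, hDm⟩ := hS.nonempty X hX
  have h1 := sign_low S (X := ⟨X, hX⟩) (a := mkN W X (mkA (j := 1) ⟨D, hS.isCyc X hX D hDm, rfl⟩))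
    ⟨D, hDm, _, rfl, rfl⟩ j hj (by show 2 * j ≤ X.dim; omega)
  rw [HodgeIndexFormula, signature_eq W hd, cycleEuler_eq W ⟨X, hX⟩ hd, ← h1]
  rw [show X.dim - 2 * j = 0 by omega, pow_zero]

/-- The numerical conjecture of Hodge type in the middle codimension from the Hodge index
formula. -/
theorem hodge_of_index (W : WeilCohomology.{u, v} ops) (hS : IsNumAmpleSystem ops 𝒮 Amp i)
    (h : ∀ X ∈ 𝒮, ∀ j, 1 ≤ j → j ≤ i → 2 * j ≤ X.dim →
      (∃ D ∈ Amp X, NumHodgeTypeIn ops X D j) ∨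
      (2 * j < X.dim ∧ HasLefschetzSection ops 𝒮 Amp X (j - 1))) {X : 𝒱.Obj} (hX : X ∈ 𝒮)
    (hd : X.dim = 2 * (i + 1)) (hI : HodgeIndexFormula ops X (i + 1)) {D : X.Cycles}
    (hDm : D ∈ Amp X) : NumHodgeTypeIn ops X D (i + 1) := by
  have S := core (W := W) hS h
  have hDc := hS.isCyc X hX D hDm
  set a : AQ W X := mkA (j := 1) ⟨D, hDc, rfl⟩ with ha
  intro z hz hzp hz0
  have h1 := hr_mid S (X := ⟨X, hX⟩) (a := mkN W X a) ⟨D, hDm, _, rfl, rfl⟩ (j := i) le_rfl hd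
    (finN (i + 1) (by show i + 1 ≤ X.dim; omega)) (by
      intro x hx h0
      apply nondegN' (W := W) (X := X) (j := i + 1) (by omega) hx
      intro y hy
      rw [mul_comm]
      apply h0 y
      rwa [show X.dim - (i + 1) = i + 1 by omega] at hy) (by
      rw [← cycleEuler_eq W ⟨X, hX⟩ hd, ← hI, signature_eq W hd])
    (x := mkN W X (mkA (W := W) ⟨z, hz, rfl⟩)) (mem_grN.2 ⟨z, hz, rfl⟩) (by
      rw [Ne, mkN_eq_zero, numI_iff hz]
      exact hz0) (by
      intro w hw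
      obtain ⟨y, hy, rfl⟩ := mem_grN.1 hw
      have hcyc : X.IsCyc (X.dim - (i + 1) + 1) (divPow ops D (X.dim - 2 * (i + 1) + 1) z) := by
        have := divPow_mem (ops := ops) hDc (X.dim - 2 * (i + 1) + 1) hz
        rwa [show i + 1 + (X.dim - 2 * (i + 1) + 1) = X.dim - (i + 1) + 1 by omega] at this
      have h2 := hzp i y (by omega) hy
      rw [← degQ_mk_mul (W := W) hcyc hy (by omega)] at h2
      have e1 : mkA (W := W) ⟨divPow ops D (X.dim - 2 * (i + 1) + 1) z, hcyc, rfl⟩ =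
          a ^ (X.dim - 2 * (i + 1) + 1) * mkA (j := i + 1) ⟨z, hz, rfl⟩ :=
        Subtype.ext (coe_pow_mul rfl _ z _ rfl).symm
      rw [e1, show X.dim - 2 * (i + 1) + 1 = 1 by omega, pow_one] at h2
      show degN W X (mkN W X _ * mkN W X _ * mkN W X a) = 0
      rw [← map_mul, ← map_mul, degN_mk, ← h2]
      congr 1
      ring)
  have h3 := degN_cyc (W := W) hz hz (by omega)
  rw [show X.dim - 2 * (i + 1) = 0 by omega]
  show 0 < (-1 : ℚ) ^ (i + 1) * X.V.degCycle (ops.mul z z)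
  rw [← h3]
  exact h1

/-- The induction. -/
theorem seed_of_index (W : WeilCohomology.{u, v} ops) (hS : IsNumAmpleSystem ops 𝒮 Amp i)
    (hL : ∀ X ∈ 𝒮, ∀ j, 1 ≤ j → j ≤ i → 2 * j < X.dim →
      HasLefschetzSection ops 𝒮 Amp X (j - 1))
    (hI : ∀ X ∈ 𝒮, ∀ j, 1 ≤ j → j ≤ i → X.dim = 2 * j → HodgeIndexFormula ops X j) :
    ∀ i' ≤ i, ∀ X ∈ 𝒮, ∀ j, 1 ≤ j → j ≤ i' → 2 * j ≤ X.dim →
      (∃ D ∈ Amp X, NumHodgeTypeIn ops X D j) ∨
      (2 * j < X.dim ∧ HasLefschetzSection ops 𝒮 Amp X (j - 1)) := by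
  intro i'
  induction i' with
  | zero =>
    intro _ X _ j h1 h2 _
    omega
  | succ i' ih =>
    intro hi X hX j h1 h2 h3
    by_cases hj : j ≤ i'
    · exact ih (by omega) X hX j h1 hj h3
    obtain rfl : j = i' + 1 := by omega
    rcases lt_or_eq_of_le h3 with h4 | h4
    · exact Or.inr ⟨h4, hL X hX _ h1 hi h4⟩
    · left
      obtain ⟨D, hDm⟩ := hS.nonempty X hX
      exact ⟨D, hDm, hodge_of_index W (IsNumAmpleSystem.mono hS (by omega)) (ih (by omega)) hX
        h4.symm (hI X hX _ h1 hi h4.symm) hDm⟩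

/-- **The Hodge index formula is equivalent to the numerical conjectures.** -/
theorem numerical_iff_index (W : WeilCohomology.{u, v} ops)
    (hS : IsNumAmpleSystem ops 𝒮 Amp i)
    (hL : ∀ X ∈ 𝒮, ∀ j, 1 ≤ j → j ≤ i → 2 * j < X.dim →
      HasLefschetzSection ops 𝒮 Amp X (j - 1)) :
    (∀ X ∈ 𝒮, ∀ j ≤ i, 2 * j ≤ X.dim →
      MixedNumLefschetz ops X (Amp X) j ∧ MixedNumHodgeRiemann ops X (Amp X) j) ↔
    ∀ X ∈ 𝒮, ∀ j, 1 ≤ j → j ≤ i → X.dim = 2 * j → HodgeIndexFormula ops X j := by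
  constructor
  · intro h X hX j h1 hj hd
    apply index_of_core W hS _ hX hj hd
    intro Y hY l _ hl hlY
    obtain ⟨D, hDm⟩ := hS.nonempty Y hY
    exact Or.inl ⟨D, hDm, MixedNumHodgeRiemann.hodge (h Y hY l hl hlY).2 hDm⟩
  · intro h
    exact numerical W hS (seed_of_index W hS hL h i le_rfl)

end Pool.Agent.R909
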