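import Pool.Agent.R909.RandSets
import Pool.Agent.R909.AllDeg
import Pool.Agent.R479.DA.Lim
import Pool.Agent.Results.MP_6e34ef_nt.FewViolators

/-!
# The uniform abc inequality in random sets of algebraic numbers

We consider ALL number fields `K` of degree `n` and all `x` in `K`, `x ≠ 0, 1`, with the triple
`(x, 1 - x, -1)` of height `H`. Let `A` be a random set of pairs `(K, x)`, each of which occurs with
probability at most `C H ^ (-γ)`. Almost surely all but finitely many of the pairs in `A` satisfy the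
uniform abc inequality, with a constant which depends neither on the field nor on `x`.
-/

set_option autoImplicit false

namespace Pool.Agent.Results.MP_6e34ef_nt.RandomSets

open NumberField IsDedekindDomain Filter Topology MeasureTheory
open Pool.Agent.Results.MP_6e34ef_nt.FewViolators (height conductor rootDisc Viol expo)

/-- a number field `K` inside the algebraic closure of `ℚ` and an element `x` of `K` -/
abbrev Pt : Type :=
  Σ K : {K : IntermediateField ℚ (AlgebraicClosure ℚ) // NumberField K}, K.1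

/-- `log H(x, 1 - x, -1)`, for an element `x` of a number field `K` -/
noncomputable def htK (K : Type) [Field K] [NumberField K] (x : K) : ℝ := height ![x, 1 - x, -1]

/-- `log δ_K + log N(x, 1 - x, -1)`, for an element `x` of a number field `K` -/
noncomputable def dnK (K : Type) [Field K] [NumberField K] (x : K) : ℝ :=
  rootDisc K + conductor ![x, 1 - x, -1]

/-- `log H(x, 1 - x, -1)` -/
noncomputable def ht (p : Pt) : ℝ :=
  haveI : NumberField p.1.1 := p.1.2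
  htK p.1.1 p.2

/-- `log δ_K + log N(x, 1 - x, -1)` -/
noncomputable def dn (p : Pt) : ℝ :=
  haveI : NumberField p.1.1 := p.1.2
  dnK p.1.1 p.2

/-- `K` has degree `n`, and `x ≠ 0, 1` -/
def Deg (n : ℕ) : Set Pt := {p | Module.finrank ℚ p.1.1 = n ∧ p.2 ≠ 0 ∧ p.2 ≠ 1}

theorem height_nonneg {K : Type} [Field K] [NumberField K] (x : K) :
    0 ≤ height ![x, 1 - x, -1] := by
  unfold height
  refine div_nonneg (add_nonneg (Finset.sum_nonneg fun w _ => mul_nonneg (Nat.cast_nonneg _) ?_)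
    (finsum_nonneg fun v => ?_)) (Nat.cast_nonneg _)
  · refine Real.log_nonneg ?_
    refine le_max_of_le_right (le_max_of_le_right ?_)
    have h : w (-1 : K) = 1 := by
      rw [show (-1 : K) = -(1 : K) from rfl]
      have h2 : w (-1 : K) = w 1 := w.1.map_neg 1
      rw [h2, map_one]
    simp [h]
  · refine Real.log_nonneg ?_
    refine le_max_of_le_right (le_max_of_le_right ?_)
    simp

theorem ht_nonneg (p : Pt) : 0 ≤ ht p := by
  have : NumberField p.1.1 := p.1.2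
  exact height_nonneg p.2

theorem dn_nonneg (p : Pt) : 0 ≤ dn p := by
  have : NumberField p.1.1 := p.1.2
  unfold dn dnK rootDisc FewViolators.conductor
  refine add_nonneg (div_nonneg (Real.log_nonneg ?_) (Nat.cast_nonneg _))
    (div_nonneg (finsum_nonneg fun v => finsum_nonneg fun _ => Real.log_natCast_nonneg _)
      (Nat.cast_nonneg _))
  rw [← Int.cast_abs]
  exact_mod_cast Int.one_le_abs (NumberField.discr_ne_zero p.1.1)

/-- the count of the violators -/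
theorem count {n : ℕ} {κ c s : ℝ}
    (H : ∀ δ : ℝ, 0 < δ → ∃ M : ℝ, ∀ B : ℝ, 1 ≤ B → (Viol n κ c B).Finite ∧
      ((Viol n κ c B).ncard : ℝ) ≤ M * B ^ (s + δ)) (ε : ℝ) (hε : 0 < ε) :
    ∃ C : ℝ, ∀ B : ℝ, 1 ≤ B →
      {i : {p : Pt // p ∈ Deg n ∧ κ * dn p + c < ht p} | Real.exp (ht i.1) ≤ B}.Finite ∧
      (({i : {p : Pt // p ∈ Deg n ∧ κ * dn p + c < ht p} |
        Real.exp (ht i.1) ≤ B}.ncard : ℕ) : ℝ) ≤ C * B ^ (s + ε) := by
  classical
  obtain ⟨M, hM⟩ := H ε hε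
  refine ⟨M, fun B hB => ?_⟩
  obtain ⟨hfin, hcard⟩ := hM B hB
  set f : {p : Pt // p ∈ Deg n ∧ κ * dn p + c < ht p} →
      IntermediateField ℚ (AlgebraicClosure ℚ) × AlgebraicClosure ℚ :=
    fun i => (i.1.1.1, (i.1.2 : AlgebraicClosure ℚ)) with hf
  have hinj : Function.Injective f := by
    rintro ⟨⟨⟨K, hK⟩, x⟩, h1⟩ ⟨⟨⟨K', hK'⟩, x'⟩, h2⟩ h
    rw [hf, Prod.mk.injEq] at h
    obtain ⟨h3, h4⟩ := h
    dsimp only at h3 h4
    subst h3
    have h5 : x = x' := Subtype.ext h4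
    subst h5
    rfl
  have himg : f '' {i | Real.exp (ht i.1) ≤ B} ⊆ Viol n κ c B := by
    rintro _ ⟨⟨⟨⟨K, hK⟩, x⟩, ⟨h1, h2, h3⟩, h4⟩, h5, rfl⟩
    refine ⟨hK, x, rfl, h1, h2, h3, ?_, ?_⟩
    · rw [Real.le_log_iff_exp_le (by linarith)]
      exact h5
    · have h6 : κ * (rootDisc K + conductor ![x, 1 - x, -1]) + c < height ![x, 1 - x, -1] := h4
      linarith
  refine ⟨Set.Finite.of_finite_image (hfin.subset himg) hinj.injOn, ?_⟩
  rw [← Set.ncard_image_of_injective _ hinj]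
  refine le_trans ?_ hcard
  exact_mod_cast Set.ncard_le_ncard himg hfin

theorem summable_bad {n : ℕ} {κ c s p : ℝ} (hs : 0 ≤ s)
    (H : ∀ δ : ℝ, 0 < δ → ∃ M : ℝ, ∀ B : ℝ, 1 ≤ B → (Viol n κ c B).Finite ∧
      ((Viol n κ c B).ncard : ℝ) ≤ M * B ^ (s + δ)) (hp : s < p) :
    Summable fun i : {p : Pt // p ∈ Deg n ∧ κ * dn p + c < ht p} =>
      Real.exp (ht i.1) ^ (-p) := by
  obtain ⟨C, hC⟩ := count H ((p - s) / 2) (by linarith)
  exact Pool.Agent.R479.DA.summable_heights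
    (fun i : {p : Pt // p ∈ Deg n ∧ κ * dn p + c < ht p} => Real.exp (ht i.1))
    (fun i => Real.one_le_exp (ht_nonneg i.1)) (s := s + (p - s) / 2) (p := p) (C := C)
    (by linarith) (by linarith) hC

/-- each `(K, x)` belongs to the random set `A` with probability at most `C * H ^ (-γ)` -/
def Sparse {Ω : Type} [MeasurableSpace Ω] (P : Measure Ω) (A : Ω → Set Pt) (γ C : ℝ) : Prop :=
  ∀ p : Pt, P {ω | p ∈ A ω} ≤ ENNReal.ofReal (C * Real.exp (ht p) ^ (-γ))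

section main

variable {Ω : Type} [MeasurableSpace Ω] {P : Measure Ω} {A : Ω → Set Pt} {γ C₀ : ℝ}

theorem part (hA : Sparse P A γ C₀) {n : ℕ} {κ c q η : ℝ} (hq : 0 ≤ q)
    (H : ∀ δ : ℝ, 0 < δ → ∃ M : ℝ, ∀ B : ℝ, 1 ≤ B → (Viol n κ c B).Finite ∧
      ((Viol n κ c B).ncard : ℝ) ≤ M * B ^ (q + δ)) (hη : 0 ≤ η) (h : q + η < γ) :
    (∀ᵐ ω ∂P, {p : Pt | (p ∈ Deg n ∧ κ * dn p + c < ht p) ∧ p ∈ A ω}.Finite) ∧
    ∃ B : ℝ, ∀ y : ℝ, 1 ≤ y →
      P {ω | ∃ p : Pt, (p ∈ Deg n ∧ κ * dn p + c < ht p) ∧ y ≤ Real.exp (ht p) ∧ p ∈ A ω} ≤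
        ENNReal.ofReal (B * y ^ (-η)) :=
  Pool.Agent.R909.RS.main_subtype (P := P) (T := Pt) (H := fun p => Real.exp (ht p))
    (Q := fun p => p ∈ Deg n ∧ κ * dn p + c < ht p) (E := fun p => {ω | p ∈ A ω})
    (C := C₀) (q := γ) (p := γ - η) (fun p _ => Real.one_le_exp (ht_nonneg p))
    (fun p _ => hA p) hη (by linarith) (summable_bad hq H (by linarith))

/-- all degrees, exponents and constants at once -/
theorem ae_all (hA : Sparse P A γ C₀) {e : ℕ → ℝ} (he : ∀ n, 0 ≤ e n)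
    (H : ∀ n : ℕ, 2 ≤ n → ∀ κ c δ : ℝ, 0 < κ → 0 < δ → ∃ M : ℝ, ∀ B : ℝ, 1 ≤ B →
      (Viol n κ c B).Finite ∧ ((Viol n κ c B).ncard : ℝ) ≤ M * B ^ ((n : ℝ) * e n / κ + δ)) :
    ∀ᵐ ω ∂P, ∀ (n : ℕ) (κ c : ℝ), 2 ≤ n → 0 < κ → n * e n < γ * κ →
      {p : Pt | (p ∈ Deg n ∧ κ * dn p + c < ht p) ∧ p ∈ A ω}.Finite := by
  have h2 : ∀ᵐ ω ∂P, ∀ (n : ℕ) (a : ℚ) (k : ℕ), 2 ≤ n → 0 < a → n * e n < γ * (a : ℝ) →
      {p : Pt | (p ∈ Deg n ∧ (a : ℝ) * dn p + -(k : ℝ) < ht p) ∧ p ∈ A ω}.Finite := by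
    rw [ae_all_iff]
    intro n
    rw [ae_all_iff]
    intro a
    rw [ae_all_iff]
    intro k
    by_cases h : 2 ≤ n ∧ 0 < a ∧ n * e n < γ * (a : ℝ)
    · obtain ⟨hn, ha, hab⟩ := h
      have ha' : (0 : ℝ) < a := by exact_mod_cast ha
      have h3 := (part hA (n := n) (κ := a) (c := -(k : ℝ)) (q := (n : ℝ) * e n / a) (η := 0)
        (div_nonneg (mul_nonneg (Nat.cast_nonneg _) (he n)) ha'.le)
        (fun δ hδ => H n hn a (-(k : ℝ)) δ ha' hδ) le_rfl (by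
          rw [add_zero, div_lt_iff₀ ha']
          exact hab)).1
      filter_upwards [h3] with ω hω
      exact fun _ _ _ => hω
    · refine Filter.Eventually.of_forall fun ω hn ha hab => ?_
      exact absurd ⟨hn, ha, hab⟩ h
  filter_upwards [h2] with ω hω
  intro n κ c hn hκ hlt
  have hne : 0 ≤ (n : ℝ) * e n := mul_nonneg (Nat.cast_nonneg _) (he n)
  have hγ : 0 < γ := by
    by_contra hcon
    push Not at hcon
    have : γ * κ ≤ 0 := mul_nonpos_of_nonpos_of_nonneg hcon hκ.le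
    linarith
  have ha : (n : ℝ) * e n / γ < κ := by
    rw [div_lt_iff₀ hγ]
    linarith
  obtain ⟨a, ha1, ha2⟩ := exists_rat_btwn (max_lt ha hκ)
  have ha0 : (0 : ℝ) < a := lt_of_le_of_lt (le_max_right _ _) ha1
  have ha3 : (n : ℝ) * e n / γ < a := lt_of_le_of_lt (le_max_left _ _) ha1
  obtain ⟨k, hk⟩ := exists_nat_ge (-c)
  refine (hω n a k hn (by exact_mod_cast ha0) ?_).subset ?_
  · rw [div_lt_iff₀ hγ] at ha3
    linarith
  · rintro p ⟨⟨h3, h4⟩, h5⟩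
    refine ⟨⟨h3, ?_⟩, h5⟩
    have h7 : (a : ℝ) * dn p ≤ κ * dn p := mul_le_mul_of_nonneg_right ha2.le (dn_nonneg p)
    linarith

/-- from finitely many violators to a constant -/
theorem exists_const {κ : ℝ} (hκ : 0 < κ) {S : Set Pt}
    (hfin : {p : Pt | κ * dn p + 0 < ht p ∧ p ∈ S}.Finite) :
    ∃ B : ℝ, ∀ p ∈ S, ht p ≤ κ * dn p + B := by
  obtain ⟨B, hB⟩ := (hfin.image ht).bddAbove
  refine ⟨max B 0, fun p hp => ?_⟩
  have hd := mul_nonneg hκ.le (dn_nonneg p)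
  by_cases h4 : κ * dn p + 0 < ht p
  · have h5 : ht p ≤ B := hB ⟨p, ⟨h4, hp⟩, rfl⟩
    have := le_max_left B 0
    linarith
  · have := le_max_right B 0
    linarith

end main

section degrees

/-- the degree of the field -/
noncomputable def deg (p : Pt) : ℕ := Module.finrank ℚ p.1.1

/-- the constants for all degrees -/
theorem exists_g {e : ℕ → ℝ} (he : ∀ n, 0 ≤ e n)
    (H : ∀ n : ℕ, 2 ≤ n → ∀ κ c δ : ℝ, 0 < κ → 0 < δ → ∃ M : ℝ, ∀ B : ℝ, 1 ≤ B →
      (Viol n κ c B).Finite ∧ ((Viol n κ c B).ncard : ℝ) ≤ M * B ^ ((n : ℝ) * e n / κ + δ))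
    {κ : ℝ} (hκ : 0 < κ) :
    ∃ g : ℕ → ℝ, (∀ n, 1 ≤ g n) ∧
      Summable fun i : {p : Pt // 2 ≤ deg p ∧ (p ∈ Deg (deg p) ∧ κ * dn p + 0 < ht p)} =>
        (g (deg i.1) * Real.exp (ht i.1) ^ ((deg i.1 * e (deg i.1) / κ + 1) / 1)) ^ (-(1 : ℝ)) :=
  Pool.Agent.R909.AllDeg.exists_g (fun n => 2 ≤ n) deg (fun p => Real.exp (ht p))
    (fun n p => p ∈ Deg n ∧ κ * dn p + 0 < ht p) (fun n => (n : ℝ) * e n / κ + 1)
    (fun _ _ _ => Real.exp_pos _)
    (fun n hn => summable_bad (div_nonneg (mul_nonneg (Nat.cast_nonneg _) (he n)) hκ.le)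
      (fun δ hδ => H n hn κ 0 δ hκ hδ) (by linarith)) one_pos

end degrees

/-- **Theorem.** There is a function `e ≥ 0` with `e n ≤ expo n` for `n ≥ 2` (so `e 2 ≤ 1`,
`e 3 ≤ 5 / 4`, `e n ≤ (n + 2) / 4` for primes) and `e n = O(log ^ 2 n)` such that, for every random set
`A` of pairs `(K, x)` each of which occurs with probability at most `C₀ H ^ (-γ)`:

(1) almost surely, for all `n ≥ 2`, all `κ > 0` with `n e(n) < γ κ` and all `c`, all but finitely many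
of the `(K, x)` in `A`, `K` ANY number field of degree `n`, `x ∈ K`, `x ≠ 0, 1`, satisfy
`log H ≤ κ (log δ_K + log N) + c`;

(2) if `n e(n) / κ + η < γ`, the probability that one of them with `H ≥ y` does not is at most
`B y ^ (-η)`;

(3) if `γ > 0`, almost surely, for all `n ≥ 2` there are `κ` and `B` with
`log H ≤ κ (log δ_K + log N) + B` for ALL of the `(K, x)` in `A`, `K` of degree `n`.

(4) For all `κ > 0` there is `g ≥ 1` such that for every random set `A` of pairs `(K, x)` each of which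
occurs with probability at most `C₀ / (g(n) H ^ (n e(n) / κ + 1))`, `n` the degree of `K`, almost
surely there is ONE constant `B` with `log H ≤ κ (log δ_K + log N) + B` for ALL `(K, x)` in `A` with
`x ≠ 0, 1` and `K` of ANY degree `n ≥ 2`. -/
theorem result :
    ∃ e : ℕ → ℝ, (∀ n, 0 ≤ e n) ∧ (∀ n : ℕ, 2 ≤ n → e n ≤ expo n) ∧
      (∀ c : ℝ, 1 / (8 * (Real.log 2) ^ 2) < c →
        ∀ᶠ n : ℕ in Filter.atTop, e n ≤ c * (Real.log n) ^ 2) ∧
      (∀ (Ω : Type) [MeasurableSpace Ω] (P : Measure Ω) (A : Ω → Set Pt) (γ C₀ : ℝ),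
        Sparse P A γ C₀ →
        (∀ᵐ ω ∂P, ∀ (n : ℕ) (κ c : ℝ), 2 ≤ n → 0 < κ → n * e n < γ * κ →
          {p : Pt | (p ∈ Deg n ∧ κ * dn p + c < ht p) ∧ p ∈ A ω}.Finite) ∧
        (∀ (n : ℕ) (κ c η : ℝ), 2 ≤ n → 0 < κ → 0 ≤ η → n * e n / κ + η < γ →
          ∃ B : ℝ, ∀ y : ℝ, 1 ≤ y →
            P {ω | ∃ p : Pt, (p ∈ Deg n ∧ κ * dn p + c < ht p) ∧ y ≤ Real.exp (ht p) ∧
              p ∈ A ω} ≤ ENNReal.ofReal (B * y ^ (-η))) ∧
        (0 < γ → ∀ᵐ ω ∂P, ∀ n : ℕ, 2 ≤ n → ∃ κ B : ℝ, ∀ p ∈ Deg n ∩ A ω,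
          ht p ≤ κ * dn p + B)) ∧
      (∀ κ : ℝ, 0 < κ → ∃ g : ℕ → ℝ, (∀ n, 1 ≤ g n) ∧
        ∀ (Ω : Type) [MeasurableSpace Ω] (P : Measure Ω) (A : Ω → Set Pt) (C₀ : ℝ),
          (∀ n : ℕ, 2 ≤ n → ∀ p ∈ Deg n, P {ω | p ∈ A ω} ≤
            ENNReal.ofReal (C₀ / (g n * Real.exp (ht p) ^ (n * e n / κ + 1)))) →
          ∀ᵐ ω ∂P, ∃ B : ℝ, ∀ n : ℕ, 2 ≤ n → ∀ p ∈ Deg n ∩ A ω, ht p ≤ κ * dn p + B) := by
  obtain ⟨e, he1, he2, he3⟩ := FewViolators.result.1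
  have hexpo : ∀ n : ℕ, 0 ≤ expo n := fun n => by
    unfold FewViolators.expo
    positivity
  have H : ∀ n : ℕ, 2 ≤ n → ∀ κ c δ : ℝ, 0 < κ → 0 < δ → ∃ M : ℝ, ∀ B : ℝ, 1 ≤ B →
      (Viol n κ c B).Finite ∧
        ((Viol n κ c B).ncard : ℝ) ≤ M * B ^ ((n : ℝ) * max (e n) 0 / κ + δ) := by
    intro n hn κ c δ hκ hδ
    obtain ⟨M, hM⟩ := he3 n hn κ c δ hκ hδ
    refine ⟨|M|, fun B hB => ⟨(hM B hB).1, (hM B hB).2.trans ?_⟩⟩
    have hB0 : 0 < B := by linarith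
    refine (mul_le_mul_of_nonneg_right (le_abs_self M) (Real.rpow_nonneg hB0.le _)).trans ?_
    refine mul_le_mul_of_nonneg_left ?_ (abs_nonneg M)
    refine Real.rpow_le_rpow_of_exponent_le hB ?_
    have h1 : (n : ℝ) * e n / κ ≤ (n : ℝ) * max (e n) 0 / κ :=
      div_le_div_of_nonneg_right (mul_le_mul_of_nonneg_left (le_max_left _ _)
        (Nat.cast_nonneg _)) hκ.le
    linarith
  have hm : ∀ n, 0 ≤ max (e n) 0 := fun n => le_max_right _ _
  refine ⟨fun n => max (e n) 0, hm, fun n hn => max_le (he2 n hn) (hexpo n), fun c hc => ?_,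
    ?_, ?_⟩
  · have hc0 : 0 < c := lt_trans (by
      have := Real.log_pos (by norm_num : (1 : ℝ) < 2)
      positivity) hc
    filter_upwards [he1 c hc] with n hn
    exact max_le hn (by positivity)
  · intro Ω _ P A γ C₀ hA
    refine ⟨ae_all hA hm H, fun n κ c η hn hκ hη h => ?_, fun hγ => ?_⟩
    · exact (part hA (div_nonneg (mul_nonneg (Nat.cast_nonneg _) (hm n)) hκ.le)
        (fun δ hδ => H n hn κ c δ hκ hδ) hη h).2
    · filter_upwards [ae_all hA hm H] with ω hω n hn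
      obtain ⟨κ, hκ⟩ := exists_gt (max 1 ((n : ℝ) * max (e n) 0 / γ))
      have hκ1 : 1 < κ := lt_of_le_of_lt (le_max_left _ _) hκ
      have hκ2 := lt_of_le_of_lt (le_max_right _ _) hκ
      rw [div_lt_iff₀ hγ] at hκ2
      have h1 := hω n κ 0 hn (by linarith) (by linarith)
      obtain ⟨B, hB⟩ := exists_const (κ := κ) (S := Deg n ∩ A ω) (by linarith)
        (h1.subset fun p hp => ⟨⟨hp.2.1, hp.1⟩, hp.2.2⟩)
      exact ⟨κ, B, hB⟩
  · intro κ hκ
    obtain ⟨g, hg1, hg2⟩ := exists_g hm H hκ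
    refine ⟨g, hg1, ?_⟩
    intro Ω _ P A C₀ hA
    have h1 := (Pool.Agent.R909.RS.main_subtype (P := P) (T := Pt)
      (H := fun p => g (deg p) * Real.exp (ht p) ^ ((deg p * max (e (deg p)) 0 / κ + 1) / 1))
      (Q := fun p => 2 ≤ deg p ∧ (p ∈ Deg (deg p) ∧ κ * dn p + 0 < ht p))
      (E := fun p => {ω | p ∈ A ω}) (C := C₀) (q := 1) (p := 1) (η := 0)
      (fun p _ => by
        have h2 : 0 ≤ (deg p * max (e (deg p)) 0 / κ + 1) / 1 := by
          rw [div_one]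
          exact add_nonneg (div_nonneg (mul_nonneg (Nat.cast_nonneg _) (hm _)) hκ.le) zero_le_one
        have h3 := Real.one_le_rpow (Real.one_le_exp (ht_nonneg p)) h2
        nlinarith [hg1 (deg p)])
      (fun p hp => by
        refine (hA (deg p) hp.1 p hp.2.1).trans (ENNReal.ofReal_le_ofReal (le_of_eq ?_))
        rw [div_one, div_eq_mul_inv, Real.rpow_neg_one]) le_rfl (by norm_num) hg2).1
    filter_upwards [h1] with ω hω
    obtain ⟨B, hB⟩ := exists_const hκ (S := {p : Pt | (2 ≤ deg p ∧ p ∈ Deg (deg p)) ∧ p ∈ A ω})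
      (hω.subset fun p hp => ⟨⟨hp.2.1.1, hp.2.1.2, hp.1⟩, hp.2.2⟩)
    refine ⟨B, fun n hn p hp => hB p ?_⟩
    have hdeg : deg p = n := hp.1.1
    refine ⟨⟨?_, ?_⟩, hp.2⟩
    · rw [hdeg]
      exact hn
    · rw [hdeg]
      exact hp.1

end Pool.Agent.Results.MP_6e34ef_nt.RandomSets
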