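import Pool.Agent.R909.RandSets
import Pool.Agent.R728.RC.Hall
import Pool.Agent.R479.DA.Lim

/-!
# Hall's inequality in random sets
-/

set_option autoImplicit false

namespace Pool.Agent.R909.RSHall

open Filter Topology MeasureTheory
open Pool.Agent.R728.RC.Hall (Violates one_le_abs_sub one_le_of_violates)

/-- the integers `x`, `y` belong to the random sets `A`, `A'` with probability at most
`C * |x| ^ (-γ) * |y| ^ (-γ')` -/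
def Sparse2 {Ω : Type} [MeasurableSpace Ω] (P : Measure Ω) (A A' : Ω → Set ℤ) (γ γ' C : ℝ) : Prop :=
  ∀ x y : ℤ, x ≠ 0 → y ≠ 0 →
    P {ω | x ∈ A ω ∧ y ∈ A' ω} ≤ ENNReal.ofReal (C * |(x : ℝ)| ^ (-γ) * |(y : ℝ)| ^ (-γ'))

/-- `|y|` is at least of the size `|x| ^ (3 / 2)` -/
lemma y_ge (C : ℝ) : ∃ K : ℝ, 0 < K ∧ ∀ (δ : ℝ), 0 ≤ δ → δ < 1 / 2 → ∀ e : ℤ × ℤ,
    Violates C δ e → e.2 ≠ 0 → |(e.1 : ℝ)| ^ (3 / 2 : ℝ) ≤ K * |(e.2 : ℝ)| := by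
  refine ⟨Real.sqrt (2 + 2 * |C| * (1 + 2 * |C|)), by positivity, fun δ hδ0 hδ e he hy => ?_⟩
  have ha := one_le_of_violates hδ he
  have hb : (1 : ℝ) ≤ |(e.2 : ℝ)| := by exact_mod_cast Int.one_le_abs hy
  set a := |(e.1 : ℝ)| with haa
  set b := |(e.2 : ℝ)| with hbb
  have ha0 : 0 < a := by linarith
  have h1 : a ^ 3 ≤ b ^ 2 + |C| * a ^ (1 / 2 : ℝ) := by
    have h2 : a ^ 3 = |(e.1 : ℝ) ^ 3| := by rw [haa, abs_pow]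
    have h3 : b ^ 2 = |(e.2 : ℝ) ^ 2| := by rw [hbb, abs_pow]
    have h4 : |(e.1 : ℝ) ^ 3| ≤ |(e.2 : ℝ) ^ 2| + |(e.2 : ℝ) ^ 2 - (e.1 : ℝ) ^ 3| := by
      have := abs_sub_abs_le_abs_sub ((e.1 : ℝ) ^ 3) ((e.2 : ℝ) ^ 2)
      rw [abs_sub_comm] at this
      linarith
    have h5 : C * a ^ (1 / 2 - δ) ≤ |C| * a ^ (1 / 2 : ℝ) :=
      mul_le_mul (le_abs_self C) (Real.rpow_le_rpow_of_exponent_le ha (by linarith))
        (Real.rpow_nonneg ha0.le _) (abs_nonneg C)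
    rw [h2, h3]
    exact h4.trans (add_le_add le_rfl (he.2.trans h5))
  have h6 : a ^ 3 ≤ (2 + 2 * |C| * (1 + 2 * |C|)) * b ^ 2 := by
    have hb2 : 1 ≤ b ^ 2 := one_le_pow₀ hb
    have hC := abs_nonneg C
    have hah : a ^ (1 / 2 : ℝ) ≤ a := by
      calc a ^ (1 / 2 : ℝ) ≤ a ^ (1 : ℝ) := Real.rpow_le_rpow_of_exponent_le ha (by norm_num)
        _ = a := Real.rpow_one a
    have h7 : a ^ 3 ≤ b ^ 2 + |C| * a := h1.trans (by nlinarith)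
    by_cases h8 : 2 * |C| ≤ a ^ 2
    · have h9 : 2 * (|C| * a) ≤ a ^ 3 := by nlinarith
      have h10 : a ^ 3 ≤ 2 * b ^ 2 := by linarith
      nlinarith [mul_nonneg hC (by linarith : (0 : ℝ) ≤ 1 + 2 * |C|)]
    · push Not at h8
      have h9 : a ≤ 1 + 2 * |C| := by nlinarith
      have h10 : a ^ 3 ≤ 2 * |C| * (1 + 2 * |C|) := by
        calc a ^ 3 = a ^ 2 * a := by ring
          _ ≤ (2 * |C|) * (1 + 2 * |C|) := mul_le_mul h8.le h9 ha0.le (by positivity)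
      nlinarith [mul_nonneg hC (by linarith : (0 : ℝ) ≤ 1 + 2 * |C|)]
  have h11 : (a ^ (3 / 2 : ℝ)) ^ 2 = a ^ 3 := by
    rw [← Real.rpow_natCast, ← Real.rpow_mul ha0.le, ← Real.rpow_natCast]
    norm_num
  have h12 : (a ^ (3 / 2 : ℝ)) ^ 2 ≤ (Real.sqrt (2 + 2 * |C| * (1 + 2 * |C|)) * b) ^ 2 := by
    rw [h11, mul_pow, Real.sq_sqrt (by positivity)]
    exact h6
  exact (pow_le_pow_iff_left₀ (Real.rpow_nonneg ha0.le _) (by positivity) (by norm_num)).1 h12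

/-- the sum over the violators -/
lemma summable_viol {C δ p : ℝ} (hδ0 : 0 ≤ δ) (hδ : δ < 1 / 2) (hp : 1 / 3 - δ / 6 < p) :
    Summable fun e : {e : ℤ × ℤ // Violates C δ e ∧ e.2 ≠ 0} => |(e.1.1 : ℝ)| ^ (-p) := by
  obtain ⟨K, hK⟩ := Pool.Agent.Results.MP_e734ed_nt.SparseExceptions.result C
    ((p - (1 / 3 - δ / 6)) / 2) (by linarith)
  refine Pool.Agent.R479.DA.summable_heights
    (fun e : {e : ℤ × ℤ // Violates C δ e ∧ e.2 ≠ 0} => |(e.1.1 : ℝ)|)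
    (fun e => one_le_of_violates hδ e.2.1)
    (s := 1 / 3 - δ / 6 + (p - (1 / 3 - δ / 6)) / 2) (p := p) (C := K) (by linarith) (by linarith)
    (fun B hB => ?_)
  obtain ⟨h1, h2⟩ := hK δ hδ0 hδ.le B hB
  have hmaps : Set.MapsTo Subtype.val
      {e : {e : ℤ × ℤ // Violates C δ e ∧ e.2 ≠ 0} | |(e.1.1 : ℝ)| ≤ B}
      {e : ℤ × ℤ | |(e.1 : ℝ)| ≤ B ∧ e.2 ^ 2 ≠ e.1 ^ 3 ∧
        |(e.2 : ℝ) ^ 2 - (e.1 : ℝ) ^ 3| ≤ C * |(e.1 : ℝ)| ^ (1 / 2 - δ)} :=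
    fun e he => ⟨he, e.2.1.1, e.2.1.2⟩
  have hinj : Set.InjOn Subtype.val
      {e : {e : ℤ × ℤ // Violates C δ e ∧ e.2 ≠ 0} | |(e.1.1 : ℝ)| ≤ B} :=
    Subtype.val_injective.injOn
  refine ⟨h1.of_injOn hmaps hinj, ?_⟩
  have h3 := Set.ncard_le_ncard_of_injOn _ hmaps hinj h1
  exact le_trans (by exact_mod_cast h3) h2

/-- the violators with `y = 0` -/
lemma finite_zero (C δ : ℝ) (hδ0 : 0 ≤ δ) (hδ : δ < 1 / 2) :
    {e : ℤ × ℤ | Violates C δ e ∧ e.2 = 0}.Finite := by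
  obtain ⟨m, hm⟩ := exists_nat_ge |C|
  refine ((Set.finite_Icc (-(m : ℤ)) (m : ℤ)).prod (Set.finite_singleton (0 : ℤ))).subset ?_
  rintro ⟨x, y⟩ ⟨h1, h2⟩
  simp only at h2
  subst h2
  have h3 := one_le_of_violates hδ h1
  have h4 := h1.2
  simp only [Int.cast_zero] at h4 h3
  set a := |(x : ℝ)| with ha
  have h5 : a ^ 3 ≤ |C| * a := by
    have h6 : |(0 : ℝ) ^ 2 - (x : ℝ) ^ 3| = a ^ 3 := by
      rw [ha, ← abs_pow]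
      simp
    rw [h6] at h4
    refine h4.trans (mul_le_mul (le_abs_self C) ?_ (Real.rpow_nonneg (by linarith) _)
      (abs_nonneg C))
    calc a ^ (1 / 2 - δ) ≤ a ^ (1 : ℝ) := Real.rpow_le_rpow_of_exponent_le h3 (by linarith)
      _ = a := Real.rpow_one a
  have h7 : a ≤ |C| := by
    have h8 : a ^ 2 ≤ |C| := by nlinarith
    nlinarith
  have h9 : |x| ≤ (m : ℤ) := by
    have : (|x| : ℝ) ≤ (m : ℝ) := h7.trans hm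
    exact_mod_cast this
  exact ⟨Set.mem_Icc.2 (abs_le.1 h9), rfl⟩

section prob

variable {Ω : Type} [MeasurableSpace Ω] {P : Measure Ω} {A A' : Ω → Set ℤ} {γ γ' C₀ : ℝ}

theorem one (hA : Sparse2 P A A' γ γ' C₀) (hγ' : 0 ≤ γ') (C : ℝ) {δ η : ℝ} (hδ0 : 0 ≤ δ)
    (hδ : δ < 1 / 2) (hη : 0 ≤ η) (h : 1 / 3 - δ / 6 + η < γ + 3 / 2 * γ') :
    (∀ᵐ ω ∂P, {e : ℤ × ℤ | (Violates C δ e ∧ e.2 ≠ 0) ∧ (e.1 ∈ A ω ∧ e.2 ∈ A' ω)}.Finite) ∧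
    ∃ B : ℝ, ∀ y : ℝ, 1 ≤ y →
      P {ω | ∃ e : ℤ × ℤ, (Violates C δ e ∧ e.2 ≠ 0) ∧ y ≤ |(e.1 : ℝ)| ∧
        (e.1 ∈ A ω ∧ e.2 ∈ A' ω)} ≤ ENNReal.ofReal (B * y ^ (-η)) := by
  obtain ⟨K, hK, hK2⟩ := y_ge C
  refine Pool.Agent.R909.RS.main_subtype (H := fun e : ℤ × ℤ => |(e.1 : ℝ)|)
    (Q := fun e => Violates C δ e ∧ e.2 ≠ 0) (E := fun e => {ω | e.1 ∈ A ω ∧ e.2 ∈ A' ω})
    (C := |C₀| * K ^ γ') (q := γ + 3 / 2 * γ') (p := γ + 3 / 2 * γ' - η)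
    (fun e he => one_le_of_violates hδ he.1) (fun e he => ?_) hη (by linarith)
    (summable_viol hδ0 hδ (by linarith))
  have ha := one_le_of_violates hδ he.1
  have hx : e.1 ≠ 0 := by
    intro h0
    rw [h0] at ha
    simp at ha
    linarith
  have ha0 : 0 < |(e.1 : ℝ)| := by linarith
  refine (hA e.1 e.2 hx he.2).trans (ENNReal.ofReal_le_ofReal ?_)
  have h1 := hK2 δ hδ0 hδ e he.1 he.2
  have h2 : |(e.2 : ℝ)| ^ (-γ') ≤ (|(e.1 : ℝ)| ^ (3 / 2 : ℝ) / K) ^ (-γ') := by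
    refine Real.rpow_le_rpow_of_nonpos (div_pos (Real.rpow_pos_of_pos ha0 _) hK) ?_ (by linarith)
    rw [div_le_iff₀ hK]
    linarith
  have h3 : (|(e.1 : ℝ)| ^ (3 / 2 : ℝ) / K) ^ (-γ') =
      K ^ γ' * |(e.1 : ℝ)| ^ (-(3 / 2 * γ')) := by
    rw [Real.div_rpow (Real.rpow_nonneg ha0.le _) hK.le, Real.rpow_neg hK.le, div_inv_eq_mul,
      ← Real.rpow_mul ha0.le, mul_comm]
    congr 2
    ring
  have h4 : |(e.1 : ℝ)| ^ (-(γ + 3 / 2 * γ')) =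
      |(e.1 : ℝ)| ^ (-γ) * |(e.1 : ℝ)| ^ (-(3 / 2 * γ')) := by
    rw [← Real.rpow_add ha0]
    congr 1
    ring
  have h5 : 0 ≤ |(e.1 : ℝ)| ^ (-γ) := Real.rpow_nonneg ha0.le _
  have h6 : 0 ≤ |(e.2 : ℝ)| ^ (-γ') := Real.rpow_nonneg (abs_nonneg _) _
  calc C₀ * |(e.1 : ℝ)| ^ (-γ) * |(e.2 : ℝ)| ^ (-γ')
      ≤ |C₀| * |(e.1 : ℝ)| ^ (-γ) * |(e.2 : ℝ)| ^ (-γ') := by
        refine mul_le_mul_of_nonneg_right ?_ h6
        exact mul_le_mul_of_nonneg_right (le_abs_self C₀) h5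
    _ ≤ |C₀| * |(e.1 : ℝ)| ^ (-γ) * (K ^ γ' * |(e.1 : ℝ)| ^ (-(3 / 2 * γ'))) := by
        rw [← h3]
        exact mul_le_mul_of_nonneg_left h2 (by positivity)
    _ = |C₀| * K ^ γ' * |(e.1 : ℝ)| ^ (-(γ + 3 / 2 * γ')) := by
        rw [h4]
        ring

/-- all exponents and constants at once -/
theorem fin_all (hA : Sparse2 P A A' γ γ' C₀) (hγ' : 0 ≤ γ') :
    ∀ᵐ ω ∂P, ∀ C δ : ℝ, 0 ≤ δ → δ < 1 / 2 → 1 / 3 - δ / 6 < γ + 3 / 2 * γ' →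
      {e : ℤ × ℤ | e.1 ∈ A ω ∧ e.2 ∈ A' ω ∧ Violates C δ e}.Finite := by
  have key : ∀ᵐ ω ∂P, ∀ (n : ℕ) (a : ℚ), (0 : ℝ) ≤ a → (a : ℝ) < 1 / 2 →
      1 / 3 - (a : ℝ) / 6 < γ + 3 / 2 * γ' →
      {e : ℤ × ℤ | (Violates n a e ∧ e.2 ≠ 0) ∧ (e.1 ∈ A ω ∧ e.2 ∈ A' ω)}.Finite := by
    rw [ae_all_iff]
    intro n
    rw [ae_all_iff]
    intro a
    by_cases hab : (0 : ℝ) ≤ a ∧ (a : ℝ) < 1 / 2 ∧ 1 / 3 - (a : ℝ) / 6 < γ + 3 / 2 * γ'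
    · filter_upwards [(one hA hγ' (n : ℝ) hab.1 hab.2.1 le_rfl (by linarith [hab.2.2])).1]
        with ω hω _ _ _
      exact hω
    · filter_upwards with ω h1 h2 h3
      exact absurd ⟨h1, h2, h3⟩ hab
  filter_upwards [key] with ω hω C δ hδ0 hδ h
  obtain ⟨n, hn⟩ := exists_nat_ge C
  obtain ⟨a, ha0, ha1, ha2⟩ : ∃ a : ℚ, (0 : ℝ) ≤ a ∧ (a : ℝ) ≤ δ ∧
      1 / 3 - (a : ℝ) / 6 < γ + 3 / 2 * γ' := by
    rcases hδ0.eq_or_lt with h0 | h0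
    · refine ⟨0, by simp, by simp [← h0], ?_⟩
      rw [← h0] at h
      simpa using h
    · have h2 : max 0 (6 * (1 / 3 - (γ + 3 / 2 * γ'))) < δ := max_lt h0 (by linarith)
      obtain ⟨a, ha1, ha2⟩ := exists_rat_btwn h2
      refine ⟨a, (le_max_left _ _).trans ha1.le, ha2.le, ?_⟩
      have := (le_max_right 0 (6 * (1 / 3 - (γ + 3 / 2 * γ')))).trans_lt ha1
      linarith
  refine ((hω n a ha0 (by linarith) ha2).union (finite_zero n a ha0 (by linarith))).subset ?_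
  rintro e ⟨h1, h2, h3⟩
  have h4 : Violates n a e := h3.mono hδ hn (Nat.cast_nonneg n) ha1
  by_cases h5 : e.2 = 0
  · exact Or.inr ⟨h4, h5⟩
  · exact Or.inl ⟨⟨h4, h5⟩, h1, h2⟩

/-- the inequality with a constant for all pairs in the random sets -/
theorem const_all (hA : Sparse2 P A A' γ γ' C₀) (hγ' : 0 ≤ γ') :
    ∀ᵐ ω ∂P, ∀ δ : ℝ, 0 ≤ δ → δ < 1 / 2 → 1 / 3 - δ / 6 < γ + 3 / 2 * γ' →
      ∃ c : ℝ, 0 < c ∧ ∀ x ∈ A ω, ∀ y ∈ A' ω, y ^ 2 ≠ x ^ 3 →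
        c * |(x : ℝ)| ^ (1 / 2 - δ) < |(y : ℝ) ^ 2 - (x : ℝ) ^ 3| := by
  filter_upwards [fin_all hA hγ'] with ω hω δ hδ0 hδ h
  have hfin := hω 1 δ hδ0 hδ h
  obtain ⟨B, hB⟩ := (hfin.image fun e : ℤ × ℤ => |(e.1 : ℝ)| ^ (1 / 2 - δ)).bddAbove
  refine ⟨1 / (|B| + 2), by positivity, fun x hx y hy hxy => ?_⟩
  have h3 : 0 < |B| + 2 := by positivity
  by_cases hv : Violates 1 δ (x, y)
  · have h1 := hB ⟨(x, y), ⟨hx, hy, hv⟩, rfl⟩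
    simp only at h1
    have h2 := one_le_abs_sub (e := (x, y)) hxy
    simp only at h2
    refine lt_of_lt_of_le ?_ h2
    rw [div_mul_eq_mul_div, div_lt_one h3, one_mul]
    linarith [le_abs_self B]
  · unfold Violates at hv
    simp only [not_and, not_le, one_mul] at hv
    refine lt_of_le_of_lt ?_ (hv hxy)
    have h4 : 0 ≤ |(x : ℝ)| ^ (1 / 2 - δ) := by positivity
    have h5 : 1 / (|B| + 2) ≤ 1 := by
      rw [div_le_one h3]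
      linarith [abs_nonneg B]
    exact mul_le_of_le_one_left h4 h5

end prob

end Pool.Agent.R909.RSHall
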