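import Pool.Agent.R909.RandSets
import Pool.Agent.R479.DA.Lim

/-!
# Increasing families of sets and random sets

`D Y` is an increasing family of sets with `O (Y ^ ε)` elements and `lst D t` the least `Y` with
`t ∈ D Y`. If `A` is a random set of positive integers which contains `n` with probability
`O (n ^ (-γ))`, `γ > ε`, there are almost surely only finitely many `t` with `lst D t ∈ A`.
-/

set_option autoImplicit false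

namespace Pool.Agent.R909.RSL

open Filter Topology MeasureTheory

variable {T : Type} {D : ℕ → Set T}

/-- the least index -/
noncomputable def lst (D : ℕ → Set T) (t : T) : ℕ := sInf {Y : ℕ | t ∈ D Y}

lemma lst_mem {t : T} (h : ∃ Y, t ∈ D Y) : t ∈ D (lst D t) :=
  Nat.sInf_mem (s := {Y : ℕ | t ∈ D Y}) h

/-- the sum over the objects with a count `O(Y ^ ε)` -/
lemma summable_lst (h0 : ∀ t, t ∉ D 0) (hmono : ∀ Y Y' : ℕ, Y ≤ Y' → D Y ⊆ D Y') {ε C p : ℝ}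
    (hε : 0 ≤ ε) (hp : ε < p)
    (hc : ∀ Y : ℕ, 1 ≤ Y → (D Y).Finite ∧ ((D Y).ncard : ℝ) ≤ C * (Y : ℝ) ^ ε) :
    Summable fun t : {t : T // ∃ Y, t ∈ D Y} => ((lst D t.1 : ℕ) : ℝ) ^ (-p) := by
  have h1 : ∀ t : {t : T // ∃ Y, t ∈ D Y}, (1 : ℝ) ≤ ((lst D t.1 : ℕ) : ℝ) := by
    intro t
    have h2 := lst_mem t.2
    have h3 : lst D t.1 ≠ 0 := by
      intro h4
      rw [h4] at h2
      exact h0 _ h2
    exact_mod_cast Nat.one_le_iff_ne_zero.2 h3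
  refine Pool.Agent.R479.DA.summable_heights
    (fun t : {t : T // ∃ Y, t ∈ D Y} => ((lst D t.1 : ℕ) : ℝ)) h1 (s := ε) (p := p) (C := |C|)
    hp (by linarith) (fun X hX => ?_)
  have hfl : 1 ≤ ⌊X⌋₊ := Nat.one_le_floor_iff X |>.2 hX
  obtain ⟨h2, h3⟩ := hc ⌊X⌋₊ hfl
  have hmaps : Set.MapsTo Subtype.val
      {t : {t : T // ∃ Y, t ∈ D Y} | ((lst D t.1 : ℕ) : ℝ) ≤ X} (D ⌊X⌋₊) := by
    intro t ht
    have h4 : lst D t.1 ≤ ⌊X⌋₊ := Nat.le_floor ht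
    exact hmono _ _ h4 (lst_mem t.2)
  have hinj : Set.InjOn Subtype.val
      {t : {t : T // ∃ Y, t ∈ D Y} | ((lst D t.1 : ℕ) : ℝ) ≤ X} := Subtype.val_injective.injOn
  refine ⟨h2.of_injOn hmaps hinj, ?_⟩
  have h4 := Set.ncard_le_ncard_of_injOn _ hmaps hinj h2
  have h5 : ((⌊X⌋₊ : ℕ) : ℝ) ^ ε ≤ X ^ ε :=
    Real.rpow_le_rpow (Nat.cast_nonneg _) (Nat.floor_le (by linarith)) hε
  calc _ ≤ ((D ⌊X⌋₊).ncard : ℝ) := by exact_mod_cast h4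
    _ ≤ C * ((⌊X⌋₊ : ℕ) : ℝ) ^ ε := h3
    _ ≤ |C| * ((⌊X⌋₊ : ℕ) : ℝ) ^ ε :=
        mul_le_mul_of_nonneg_right (le_abs_self C) (Real.rpow_nonneg (Nat.cast_nonneg _) _)
    _ ≤ |C| * X ^ ε := mul_le_mul_of_nonneg_left h5 (abs_nonneg C)

theorem finite_lst {Ω : Type} [MeasurableSpace Ω] {P : Measure Ω} {A : Ω → Set ℕ} {γ C₀ : ℝ}
    (hA : ∀ n : ℕ, 0 < n → P {ω | n ∈ A ω} ≤ ENNReal.ofReal (C₀ * (n : ℝ) ^ (-γ))) (hγ : 0 < γ)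
    (h0 : ∀ t, t ∉ D 0) (hmono : ∀ Y Y' : ℕ, Y ≤ Y' → D Y ⊆ D Y') {C : ℝ}
    (hc : ∀ Y : ℕ, 1 ≤ Y → (D Y).Finite ∧ ((D Y).ncard : ℝ) ≤ C * (Y : ℝ) ^ (γ / 4)) :
    (∀ᵐ ω ∂P, {t : T | (∃ Y, t ∈ D Y) ∧ lst D t ∈ A ω}.Finite) ∧ ∃ B : ℝ, ∀ y : ℝ, 1 ≤ y →
      P {ω | ∃ t : T, (∃ Y, t ∈ D Y) ∧ y ≤ ((lst D t : ℕ) : ℝ) ∧ lst D t ∈ A ω} ≤
        ENNReal.ofReal (B * y ^ (-(γ / 2))) := by
  refine Pool.Agent.R909.RS.single (nm := fun n : ℕ => (n : ℝ)) (A := A) (γ := γ) (C := C₀)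
    (fun n hn => hA n (Nat.cast_pos.1 hn)) (Q := fun t => ∃ Y, t ∈ D Y)
    (H := fun t => ((lst D t : ℕ) : ℝ)) (fun t ht => ?_) (u := fun t => lst D t) (K := 1) one_pos
    (fun t _ => by rw [one_mul]) hγ.le (p := γ / 2) (η := γ / 2) (by linarith) (by linarith)
    (summable_lst h0 hmono (ε := γ / 4) (by linarith) (by linarith) hc)
  have h2 := lst_mem ht
  have h3 : lst D t ≠ 0 := by
    intro h4
    rw [h4] at h2
    exact h0 _ h2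
  exact_mod_cast Nat.one_le_iff_ne_zero.2 h3

end Pool.Agent.R909.RSL
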