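import Mathlib

/-!
# Thin sets and random residues

`T` is a set of objects with heights `H t ≥ 1` and a convergent sum of the `H t ^ (-p)`, and `N j`
are the norms of moduli with a convergent sum of the `N j ^ (-s)`. If `X j` are random residues, each
value of which has probability at most `C * N j ^ (-d)`, and `φ j` any maps from `T` to the residues,
the expected number of the pairs `(j, t)` with `H t ^ τ ≤ N j`, `φ j t = X j` and `H t ≥ y` is
`O (y ^ (-η))` when `p + η ≤ (d - s) τ`.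
-/

set_option autoImplicit false

namespace Pool.Agent.R909.RC

open Filter Topology MeasureTheory

variable {J T Ω : Type} [MeasurableSpace Ω] {P : Measure Ω} {Rs : J → Type}

/-- the event of the pair `(j, t)` -/
def ev (N : J → ℝ) (H : T → ℝ) (X : ∀ j : J, Ω → Rs j) (φ : ∀ j : J, T → Rs j) (τ y : ℝ)
    (i : J × T) : Set Ω :=
  {ω | y ≤ H i.2 ∧ H i.2 ^ τ ≤ N i.1 ∧ X i.1 ω = φ i.1 i.2}

variable {N : J → ℝ} {H : T → ℝ} {X : ∀ j : J, Ω → Rs j} {φ : ∀ j : J, T → Rs j}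

lemma ev_le (h1 : ∀ t, 1 ≤ H t) (h0 : ∀ j, 1 ≤ N j) {s d C : ℝ} (hs : s ≤ d)
    (hX : ∀ j, ∀ r : Rs j, P {ω | X j ω = r} ≤ ENNReal.ofReal (C * N j ^ (-d)))
    {τ p η y : ℝ} (hη : 0 ≤ η) (hp : p + η ≤ (d - s) * τ) (hy : 1 ≤ y) (i : J × T) :
    P (ev N H X φ τ y i) ≤ ENNReal.ofReal (|C| * y ^ (-η) * (N i.1 ^ (-s) * H i.2 ^ (-p))) := by
  by_cases hi : y ≤ H i.2 ∧ H i.2 ^ τ ≤ N i.1
  · have hm : 0 < N i.1 := by linarith [h0 i.1]
    have hc := h1 i.2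
    have hc0 : 0 < H i.2 := by linarith
    refine (measure_mono (fun ω hω => hω.2.2)).trans ((hX _ _).trans ?_)
    apply ENNReal.ofReal_le_ofReal
    have h3 : N i.1 ^ (-d) ≤ y ^ (-η) * (N i.1 ^ (-s) * H i.2 ^ (-p)) := by
      have e1 : N i.1 ^ (-d) = N i.1 ^ (-s) * N i.1 ^ (-(d - s)) := by
        rw [← Real.rpow_add hm]
        congr 1
        ring
      rw [e1, mul_left_comm]
      refine mul_le_mul_of_nonneg_left ?_ (by positivity)
      calc N i.1 ^ (-(d - s)) ≤ (H i.2 ^ τ) ^ (-(d - s)) :=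
            Real.rpow_le_rpow_of_nonpos (by positivity) hi.2 (by linarith)
        _ = H i.2 ^ (-((d - s) * τ)) := by
            rw [← Real.rpow_mul hc0.le]
            congr 1
            ring
        _ ≤ H i.2 ^ (-η + -p) := Real.rpow_le_rpow_of_exponent_le hc (by linarith)
        _ = H i.2 ^ (-η) * H i.2 ^ (-p) := Real.rpow_add hc0 _ _
        _ ≤ y ^ (-η) * H i.2 ^ (-p) := by
            refine mul_le_mul_of_nonneg_right ?_ (by positivity)
            exact Real.rpow_le_rpow_of_nonpos (by linarith) hi.1 (by linarith)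
    calc C * N i.1 ^ (-d) ≤ |C| * N i.1 ^ (-d) :=
          mul_le_mul_of_nonneg_right (le_abs_self C) (by positivity)
      _ ≤ |C| * (y ^ (-η) * (N i.1 ^ (-s) * H i.2 ^ (-p))) :=
          mul_le_mul_of_nonneg_left h3 (abs_nonneg C)
      _ = _ := by ring
  · have : ev N H X φ τ y i = ∅ := by
      ext ω
      simp only [ev, Set.mem_ofPred_eq, Set.mem_empty_iff_false, iff_false]
      exact fun h => hi ⟨h.1, h.2.1⟩
    rw [this, measure_empty]
    exact bot_le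

/-- **The expected number of pairs beyond `y`.** -/
theorem expected (h1 : ∀ t, 1 ≤ H t) (h0 : ∀ j, 1 ≤ N j) {s d C : ℝ} (hs : s ≤ d)
    (hX : ∀ j, ∀ r : Rs j, P {ω | X j ω = r} ≤ ENNReal.ofReal (C * N j ^ (-d)))
    (hN : Summable fun j => N j ^ (-s)) {τ p η : ℝ} (hη : 0 ≤ η) (hp : p + η ≤ (d - s) * τ)
    (hH : Summable fun t => H t ^ (-p)) :
    ∃ B : ℝ, ∀ y : ℝ, 1 ≤ y →
      ∑' i : J × T, P (ev N H X φ τ y i) ≤ ENNReal.ofReal (B * y ^ (-η)) := by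
  have hnn : ∀ j, 0 ≤ N j := fun j => by linarith [h0 j]
  have hhn : ∀ t, 0 ≤ H t := fun t => by linarith [h1 t]
  have hprod : Summable fun i : J × T => N i.1 ^ (-s) * H i.2 ^ (-p) :=
    hN.mul_of_nonneg hH (fun j => Real.rpow_nonneg (hnn j) _) (fun t => Real.rpow_nonneg (hhn t) _)
  refine ⟨|C| * ∑' i : J × T, N i.1 ^ (-s) * H i.2 ^ (-p), fun y hy => ?_⟩
  refine (ENNReal.tsum_le_tsum fun i => ev_le h1 h0 hs hX hη hp hy i).trans ?_
  have hy0 : 0 ≤ y := by linarith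
  rw [← ENNReal.ofReal_tsum_of_nonneg (fun i => mul_nonneg (mul_nonneg (abs_nonneg C)
    (Real.rpow_nonneg hy0 _)) (mul_nonneg (Real.rpow_nonneg (hnn _) _)
      (Real.rpow_nonneg (hhn _) _))) (hprod.mul_left _), tsum_mul_left]
  apply ENNReal.ofReal_le_ofReal
  exact le_of_eq (by ring)

/-- **Almost surely finitely many pairs, and none beyond `y` up to a small probability.** -/
theorem main (h1 : ∀ t, 1 ≤ H t) (h0 : ∀ j, 1 ≤ N j) {s d C : ℝ} (hs : s ≤ d)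
    (hX : ∀ j, ∀ r : Rs j, P {ω | X j ω = r} ≤ ENNReal.ofReal (C * N j ^ (-d)))
    (hN : Summable fun j => N j ^ (-s)) {τ p η : ℝ} (hη : 0 ≤ η) (hp : p + η ≤ (d - s) * τ)
    (hH : Summable fun t => H t ^ (-p)) :
    (∀ᵐ ω ∂P, {i : J × T | H i.2 ^ τ ≤ N i.1 ∧ φ i.1 i.2 = X i.1 ω}.Finite) ∧
    ∃ B : ℝ, ∀ y : ℝ, 1 ≤ y →
      P {ω | ∃ i : J × T, y ≤ H i.2 ∧ H i.2 ^ τ ≤ N i.1 ∧ φ i.1 i.2 = X i.1 ω} ≤
        ENNReal.ofReal (B * y ^ (-η)) := by
  classical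
  have hcT : Countable T := by
    have h3 : (Function.support fun t => H t ^ (-p)) = Set.univ := by
      ext t
      have : 0 < H t := by linarith [h1 t]
      simp only [Function.mem_support, Set.mem_univ, iff_true]
      positivity
    have h4 := hH.countable_support
    rw [h3] at h4
    exact Set.countable_univ_iff.1 h4
  have hcJ : Countable J := by
    have h3 : (Function.support fun j => N j ^ (-s)) = Set.univ := by
      ext j
      have : 0 < N j := by linarith [h0 j]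
      simp only [Function.mem_support, Set.mem_univ, iff_true]
      positivity
    have h4 := hN.countable_support
    rw [h3] at h4
    exact Set.countable_univ_iff.1 h4
  obtain ⟨B, hB⟩ := expected (φ := φ) h1 h0 hs hX hN hη hp hH
  constructor
  · have hfin : ∑' i : J × T, P (ev N H X φ τ 1 i) ≠ ⊤ :=
      ne_top_of_le_ne_top ENNReal.ofReal_ne_top (hB 1 le_rfl)
    filter_upwards [ae_finite_setOfPred_mem hfin] with ω hω
    refine hω.subset ?_
    rintro ⟨j, t⟩ ⟨h3, h4⟩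
    exact ⟨h1 t, h3, h4.symm⟩
  · refine ⟨B, fun y hy => ?_⟩
    refine le_trans ?_ (hB y hy)
    refine le_trans (measure_mono ?_) (measure_iUnion_le _)
    rintro ω ⟨i, h3, h4, h5⟩
    rw [Set.mem_iUnion]
    exact ⟨i, h3, h4, h5.symm⟩

/-- The same for the objects which violate a property `G`, given through a subtype. -/
theorem main_subtype {Q : T → Prop} (h1 : ∀ t, Q t → 1 ≤ H t) (h0 : ∀ j, 1 ≤ N j) {s d C : ℝ}
    (hs : s ≤ d)
    (hX : ∀ j, ∀ r : Rs j, P {ω | X j ω = r} ≤ ENNReal.ofReal (C * N j ^ (-d)))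
    (hN : Summable fun j => N j ^ (-s)) {τ p η : ℝ} (hη : 0 ≤ η) (hp : p + η ≤ (d - s) * τ)
    (hH : Summable fun t : {t // Q t} => H t.1 ^ (-p)) :
    (∀ᵐ ω ∂P, {i : J × T | Q i.2 ∧ H i.2 ^ τ ≤ N i.1 ∧ φ i.1 i.2 = X i.1 ω}.Finite) ∧
    ∃ B : ℝ, ∀ y : ℝ, 1 ≤ y →
      P {ω | ∃ i : J × T, Q i.2 ∧ y ≤ H i.2 ∧ H i.2 ^ τ ≤ N i.1 ∧ φ i.1 i.2 = X i.1 ω} ≤
        ENNReal.ofReal (B * y ^ (-η)) := by
  obtain ⟨h3, B, hB⟩ := main (T := {t // Q t}) (H := fun t => H t.1)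
    (φ := fun j t => φ j t.1) (fun t => h1 t.1 t.2) h0 hs hX hN hη hp hH
  refine ⟨?_, B, fun y hy => ?_⟩
  · filter_upwards [h3] with ω hω
    refine (hω.image fun i => (i.1, i.2.1)).subset ?_
    rintro ⟨j, t⟩ ⟨h4, h5, h6⟩
    exact ⟨(j, ⟨t, h4⟩), ⟨h5, h6⟩, rfl⟩
  · refine le_trans (measure_mono ?_) (hB y hy)
    rintro ω ⟨⟨j, t⟩, h4, h5, h6, h7⟩
    exact ⟨(j, ⟨t, h4⟩), h5, h6, h7⟩

/-- **No exceptions for a suitable exponent.** `G M t` is an inequality with the exponent `M`, weaker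
for larger `M` and true for finite sets of objects with a suitable `M`. -/
theorem all_tau {Q : T → Prop} {G : ℝ → T → Prop} (h1 : ∀ t, Q t → 1 ≤ H t)
    (hG : ∀ t, Q t → ∀ M M' : ℝ, M ≤ M' → G M t → G M' t)
    (hfin : ∀ S : Set T, S.Finite → (∀ t ∈ S, Q t) → ∃ M : ℝ, ∀ t ∈ S, G M t)
    (h : ∀ k : ℕ, ∃ M : ℝ, ∀ᵐ ω ∂P, {i : J × T | (Q i.2 ∧ ¬ G M i.2) ∧
      H i.2 ^ (1 / ((k : ℝ) + 1)) ≤ N i.1 ∧ φ i.1 i.2 = X i.1 ω}.Finite) :
    ∀ᵐ ω ∂P, ∀ τ : ℝ, 0 < τ → ∃ M : ℝ, ∀ j t, Q t → H t ^ τ ≤ N j → φ j t = X j ω → G M t := by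
  choose Mk hMk using h
  filter_upwards [ae_all_iff.2 hMk] with ω hω τ hτ
  obtain ⟨k, hk⟩ := exists_nat_ge (1 / τ)
  have hk' : 1 / ((k : ℝ) + 1) ≤ τ := by
    rw [div_le_iff₀ (by positivity)]
    rw [div_le_iff₀ hτ] at hk
    nlinarith
  obtain ⟨M', hM'⟩ := hfin _ ((hω k).image Prod.snd) (by
    rintro t ⟨x, hx, rfl⟩
    exact hx.1.1)
  refine ⟨max (Mk k) M', fun j t ht hle hφ => ?_⟩
  by_cases hgood : G (Mk k) t
  · exact hG t ht _ _ (le_max_left _ _) hgood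
  · refine hG t ht _ _ (le_max_right _ _) (hM' t ⟨(j, t), ⟨⟨ht, hgood⟩, ?_, hφ⟩, rfl⟩)
    exact le_trans (Real.rpow_le_rpow_of_exponent_le (h1 t ht) hk') hle

end Pool.Agent.R909.RC
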