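import Pool.Agent.R909.RegDefs

/-!
# Retracts and parts of regulators
-/

set_option autoImplicit false

open Pool.Agent.H914 Pool.Agent.H914.VarClass Pool.Agent.H914.VarClass.Obj
open Pool.Agent.R904.RW
open scoped TensorProduct

universe u v w

namespace Pool.Agent.R909.Reg

section Gen

variable {K : Type*} [Field K] [CharZero K] {V : Type*} [AddCommGroup V] [Module K V]

omit [CharZero K] in
lemma mem_eig {t : V →ₗ[K] V} {ε : ℤ} {x : V} : x ∈ eig t ε ↔ t x = ε • x := Iff.rfl

lemma exists_equiv (t : V →ₗ[K] V) (ht : ∀ x, t (t x) = x) :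
    ∃ f : (eig t 1 × ∀ _ : Unit,
      eig t (-1)) ≃ₗ[K] V,
      ∀ x y, f (x, y) = x.1 + (y ()).1 := by
  have hp : ∀ x : V, x ∈ eig t 1 ↔ t x = x := fun x => by
    rw [mem_eig, one_smul]
  have hm : ∀ x : V, x ∈ eig t (-1) ↔ t x = - x := fun x => by
    rw [mem_eig, neg_smul, one_smul]
  have h2 : (2 : K) ≠ 0 := two_ne_zero
  let F : (eig t 1 × ∀ _ : Unit,
      eig t (-1)) →ₗ[K] V :=
    (Submodule.subtype _) ∘ₗ LinearMap.fst K _ _ +
      (Submodule.subtype _) ∘ₗ LinearMap.proj () ∘ₗ LinearMap.snd K _ _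
  have hF : ∀ x y, F (x, y) = x.1 + (y ()).1 := fun x y => rfl
  refine ⟨LinearEquiv.ofBijective F ⟨?_, ?_⟩, hF⟩
  · rw [injective_iff_map_eq_zero]
    rintro ⟨x, y⟩ h
    rw [hF] at h
    have h3 : t (x.1 + (y ()).1) = 0 := by rw [h, map_zero]
    rw [map_add, (hp _).1 x.2, (hm _).1 (y ()).2] at h3
    have h4 : (2 : K) • x.1 = 0 := by
      rw [two_smul]
      calc x.1 + x.1 = (x.1 + (y ()).1) + (x.1 + -(y ()).1) := by abel
        _ = 0 := by rw [h, h3, add_zero]
    have h5 : x.1 = 0 := (smul_eq_zero.1 h4).resolve_left h2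
    have h6 : (y ()).1 = 0 := by rw [h5, zero_add] at h; exact h
    exact Prod.ext (Subtype.ext h5) (funext fun _ => Subtype.ext h6)
  · intro v
    refine ⟨(⟨(1 / 2 : K) • (v + t v), ?_⟩, fun _ => ⟨(1 / 2 : K) • (v - t v), ?_⟩), ?_⟩
    · rw [hp, map_smul, map_add, ht, add_comm]
    · rw [hm, map_smul, map_sub, ht, ← smul_neg, neg_sub]
    · rw [hF]
      change (1 / 2 : K) • (v + t v) + (1 / 2 : K) • (v - t v) = v
      rw [← smul_add]
      have : v + t v + (v - t v) = (2 : K) • v := by rw [two_smul]; abel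
      rw [this, smul_smul]
      norm_num

end Gen

section Alg

variable {M : Type v} [AddCommGroup M] [Module ℚ M] {D : Type w} [AddCommGroup D] [Module ℝ D]
  {M' : Type v} [AddCommGroup M'] [Module ℚ M'] {D' : Type w} [AddCommGroup D'] [Module ℝ D']
  {M'' : Type v} [AddCommGroup M''] [Module ℚ M''] {D'' : Type w} [AddCommGroup D'']
  [Module ℝ D''] {r : M →+ D} {r' : M' →+ D'} {r'' : M'' →+ D''}

/-- the map on `ℝ ⊗ M` -/
noncomputable def RMap.x (f : RMap r r') : (ℝ ⊗[ℚ] M) →ₗ[ℝ] (ℝ ⊗[ℚ] M') := f.m.baseChange ℝ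

lemma RMap.ext_x (f : RMap r r') (z : ℝ ⊗[ℚ] M) : Pool.Agent.R904.RW.ext r' (f.x z) = f.d (Pool.Agent.R904.RW.ext r z) := by
  induction z using TensorProduct.induction_on with
  | zero => simp
  | add a b ha hb => rw [map_add, map_add, ha, hb, map_add, map_add]
  | tmul a m =>
    rw [RMap.x, LinearMap.baseChange_tmul, ext_tmul, ext_tmul, map_smul, f.comm]

lemma RMap.comp_x (g : RMap r' r'') (f : RMap r r') (z : ℝ ⊗[ℚ] M) :
    (g.comp f).x z = g.x (f.x z) := by
  change (g.m ∘ₗ f.m).baseChange ℝ z = _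
  rw [LinearMap.baseChange_comp]
  rfl

lemma RMap.one_x (z : ℝ ⊗[ℚ] M) : (RMap.one r).x z = z := by
  change (LinearMap.id : M →ₗ[ℚ] M).baseChange ℝ z = z
  rw [LinearMap.baseChange_id]
  rfl

lemma RMap.comp_d (g : RMap r' r'') (f : RMap r r') (z : D) :
    (g.comp f).d z = g.d (f.d z) := rfl

lemma RMap.comp_m (g : RMap r' r'') (f : RMap r r') (z : M) :
    (g.comp f).m z = g.m (f.m z) := rfl

lemma RMap.one_d (z : D) : (RMap.one r).d z = z := rfl

lemma RMap.one_m (z : M) : (RMap.one r).m z = z := rfl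

/-- A retract of a regulator which is an isomorphism is an isomorphism. -/
lemma iso_of_retract {i : RMap r r'} {j : RMap r' r} (h : j.comp i = RMap.one r) (h' : Iso r') :
    Iso r := by
  constructor
  · rw [injective_iff_map_eq_zero]
    intro z hz
    have h1 : Pool.Agent.R904.RW.ext r' (i.x z) = 0 := by rw [i.ext_x, hz, map_zero]
    have h2 := (injective_iff_map_eq_zero _).1 h'.1 _ h1
    have h3 : (j.comp i).x z = z := by rw [h, RMap.one_x]
    rw [← h3, RMap.comp_x, h2, map_zero]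
  · intro y
    obtain ⟨w, hw⟩ := h'.2 (i.d y)
    refine ⟨j.x w, ?_⟩
    rw [j.ext_x, hw]
    have h3 : (j.comp i).d y = y := by rw [h]; rfl
    exact h3

/-- If `r` is a retract of `r'`, both have the same cokernel of dimension one. -/
lemma exact_of_retract {i : RMap r r'} {j : RMap r' r} (h : j.comp i = RMap.one r)
    (h' : ExactSeq r') (h0 : ∃ y, ∀ z, Pool.Agent.R904.RW.ext r z ≠ y) : ExactSeq r := by
  obtain ⟨hinj, φ, hφ, hs⟩ := h'
  have key : Function.Exact (Pool.Agent.R904.RW.ext r) (φ ∘ₗ i.d) := by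
    intro y
    change φ (i.d y) = 0 ↔ _
    rw [hφ]
    constructor
    · rintro ⟨w, hw⟩
      refine ⟨j.x w, ?_⟩
      rw [j.ext_x, hw]
      have h3 : (j.comp i).d y = y := by rw [h]; rfl
      exact h3
    · rintro ⟨z, rfl⟩
      exact ⟨i.x z, i.ext_x z⟩
  refine ⟨?_, φ ∘ₗ i.d, key, ?_⟩
  · rw [injective_iff_map_eq_zero]
    intro z hz
    have h1 : Pool.Agent.R904.RW.ext r' (i.x z) = 0 := by rw [i.ext_x, hz, map_zero]
    have h2 := (injective_iff_map_eq_zero _).1 hinj _ h1
    have h3 : (j.comp i).x z = z := by rw [h, RMap.one_x]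
    rw [← h3, RMap.comp_x, h2, map_zero]
  · obtain ⟨y, hy⟩ := h0
    have h1 : (φ ∘ₗ i.d) y ≠ 0 := by
      intro h2
      obtain ⟨z, hz⟩ := (key y).1 h2
      exact hy z hz
    intro a
    refine ⟨(a / (φ ∘ₗ i.d) y) • y, ?_⟩
    rw [map_smul, smul_eq_mul, div_mul_cancel₀ _ h1]

section Invol

variable {t : RMap r r} (ht : t.comp t = RMap.one r)

include ht

lemma tt_m (x : M) : t.m (t.m x) = x := by
  have := congrArg (fun f => f.m x) ht
  exact this

lemma tt_d (x : D) : t.d (t.d x) = x := by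
  have := congrArg (fun f => f.d x) ht
  exact this

/-- The symmetrisation of a map. -/
noncomputable def symm (f : RMap r' r) : RMap r' (t.part 1) where
  m := (f.m + t.m ∘ₗ f.m).codRestrict _ fun x => by
    rw [mem_eig]
    simp only [LinearMap.add_apply, LinearMap.comp_apply, map_add, tt_m ht, one_smul]
    abel
  d := (f.d + t.d ∘ₗ f.d).codRestrict _ fun x => by
    rw [mem_eig]
    simp only [LinearMap.add_apply, LinearMap.comp_apply, map_add, tt_d ht, one_smul]
    abel
  comm x := by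
    apply Subtype.ext
    change r (f.m x + t.m (f.m x)) = f.d (r' x) + t.d (f.d (r' x))
    rw [map_add, f.comm, t.comm, f.comm]

omit ht in
/-- The restriction of a map to a part. -/
noncomputable def res (t : RMap r r) (ε : ℤ) (f : RMap r r') : RMap (t.part ε) r' where
  m := f.m ∘ₗ (eig t.m ε).subtype
  d := f.d ∘ₗ (eig t.d ε).subtype
  comm x := f.comm x.1

/-- the decomposition into the symmetric and the antisymmetric part -/
lemma isSum_parts : IsSum r (t.part 1) fun _ : Unit => t.part (-1) := by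
  obtain ⟨f, hf⟩ := exists_equiv t.m (tt_m ht)
  obtain ⟨g, hg⟩ := exists_equiv t.d (tt_d ht)
  refine ⟨f, g, fun x y => ?_⟩
  refine (congrArg r (hf x y)).trans ?_
  rw [map_add]
  exact (hg ((t.part 1) x) (fun a => (t.part (-1)) (y a))).symm

end Invol

end Alg

end Pool.Agent.R909.Reg
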