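import Pool.Agent.R909.RegA

/-!
# Regulators for Hilbert squares
-/

set_option autoImplicit false

open Pool.Agent.H914 Pool.Agent.H914.VarClass Pool.Agent.H914.VarClass.Obj
open Pool.Agent.R904.RW
open scoped TensorProduct

universe u v w

namespace Pool.Agent.R909.Reg

section Alg

variable {M : Type v} [AddCommGroup M] [Module ℚ M] {D : Type w} [AddCommGroup D] [Module ℝ D]
  {M' : Type v} [AddCommGroup M'] [Module ℚ M'] {D' : Type w} [AddCommGroup D'] [Module ℝ D']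
  {r : M →+ D} {r' : M' →+ D'}

lemma exists_retract {t : RMap r' r'} (ht : t.comp t = RMap.one r') {f : RMap r r'}
    {g : RMap r' r} {e : RMap r r} (h1 : g.comp f = RMap.one r) (h2 : g.comp (t.comp f) = e)
    (he : e.comp e = e) :
    ∃ (i : RMap r (t.part 1)) (j : RMap (t.part 1) r), j.comp i = RMap.one r := by
  have m1 : ∀ x, g.m (f.m x) = x := fun x => congrArg (fun a => a.m x) h1
  have d1 : ∀ x, g.d (f.d x) = x := fun x => congrArg (fun a => a.d x) h1
  have m2 : ∀ x, g.m (t.m (f.m x)) = e.m x := fun x => congrArg (fun a => a.m x) h2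
  have d2 : ∀ x, g.d (t.d (f.d x)) = e.d x := fun x => congrArg (fun a => a.d x) h2
  have m3 : ∀ x, e.m (e.m x) = e.m x := fun x => congrArg (fun a => a.m x) he
  have d3 : ∀ x, e.d (e.d x) = e.d x := fun x => congrArg (fun a => a.d x) he
  let a : RMap r r :=
    { m := LinearMap.id - (1 / 2 : ℚ) • e.m
      d := LinearMap.id - (1 / 2 : ℝ) • e.d
      comm := fun x => by
        change r (x - (1 / 2 : ℚ) • e.m x) = r x - (1 / 2 : ℝ) • e.d (r x)
        rw [map_sub]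
        congr 1
        rw [← e.comm]
        have h5 : (2 : ℝ) • r ((1 / 2 : ℚ) • e.m x) = r (e.m x) := by
          rw [two_smul, ← map_add, ← two_smul ℚ, smul_smul]
          norm_num
        rw [← h5, smul_smul]
        norm_num }
  refine ⟨symm ht f, res t 1 (a.comp g), ?_⟩
  apply RMap.ext
  · refine LinearMap.ext fun x => ?_
    change g.m (f.m x + t.m (f.m x)) - (1 / 2 : ℚ) • e.m (g.m (f.m x + t.m (f.m x))) = x
    rw [map_add, m1, m2, map_add, m3, ← two_smul ℚ (e.m x), smul_smul]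
    norm_num
  · refine LinearMap.ext fun x => ?_
    change g.d (f.d x + t.d (f.d x)) - (1 / 2 : ℝ) • e.d (g.d (f.d x + t.d (f.d x))) = x
    rw [map_add, d1, d2, map_add, d3, ← two_smul ℝ (e.d x), smul_smul]
    norm_num

/-- A regulator with a surjection onto one with cokernel of dimension one is not surjective. -/
lemma not_surj {u : RMap r r'} {s : RMap r' r} (h : u.comp s = RMap.one r')
    (h' : ExactSeq r') : ∃ y, ∀ z, Pool.Agent.R904.RW.ext r z ≠ y := by
  obtain ⟨_, φ, hφ, hs⟩ := h'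
  obtain ⟨y, hy⟩ := hs 1
  refine ⟨s.d y, fun z hz => ?_⟩
  have h1 : Pool.Agent.R904.RW.ext r' (u.x z) = y := by
    rw [u.ext_x, hz]
    exact congrArg (fun a => a.d y) h
  have h2 := (hφ y).2 ⟨_, h1⟩
  rw [hy] at h2
  exact one_ne_zero h2

end Alg

variable {k : Type u} [Field k] {𝒱 : VarClass k} {R : RegData.{u, v, w} 𝒱} {X Y P H : 𝒱.Obj}

section One

variable (A : SquareData R X Y P)

include A

omit A in
lemma mcomp_assoc {a b c d : 𝒱.Obj × ℤ × ℤ} (f : Mor R c d) (g : Mor R b c) (h : Mor R a b) :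
    (f.comp g).comp h = f.comp (g.comp h) := rfl

/-- the exchange of the factors -/
def sw (p q : ℤ) : RMap (R.reg Y p q) (R.reg Y p q) := A.swap (p, q)

lemma isoOn_iff (ε p q : ℤ) : A.IsoOn ε p q ↔ Iso ((sw A p q).part ε) := Iff.rfl

lemma exactOn_iff (ε p q : ℤ) : A.ExactOn ε p q ↔ ExactSeq ((sw A p q).part ε) := Iff.rfl

lemma sw_sw (p q : ℤ) : (sw A p q).comp (sw A p q) = RMap.one _ := A.swap_swap (p, q)

lemma retract (p q : ℤ) :
    ∃ (i : RMap (R.reg X p q) ((sw A (p + 2 * X.dim) (q + X.dim)).part 1))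
      (j : RMap ((sw A (p + 2 * X.dim) (q + X.dim)).part 1) (R.reg X p q)),
      j.comp i = RMap.one _ := by
  refine exists_retract (r := R.reg X p q) (r' := R.reg Y (p + 2 * X.dim) (q + X.dim))
    (f := A.mul p q) (g := A.push p q) (e := (A.pt p q).comp (A.deg p q)) (sw_sw A _ _)
    (A.push_mul p q) (A.push_swap_mul p q) ?_
  have h := A.deg_pt p q
  change ((A.pt p q).comp ((A.deg p q).comp ((A.pt p q).comp (A.deg p q)))) = _
  have h1 : (A.deg p q).comp ((A.pt p q).comp (A.deg p q)) = A.deg p q := by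
    change ((A.deg p q).comp (A.pt p q)).comp (A.deg p q) = _
    rw [h]
    rfl
  rw [h1]

lemma iso_of_sym {p q : ℤ} (h : A.IsoOn 1 (p + 2 * X.dim) (q + X.dim)) :
    Iso (R.reg X p q) := by
  obtain ⟨i, j, hij⟩ := retract A p q
  exact iso_of_retract hij h

lemma exact_of_sym {p q : ℤ} (hp : p = 2 * X.dim + 1) (hq : q = X.dim + 1)
    (h : A.ExactOn 1 (p + 2 * X.dim) (q + X.dim)) :
    ExactSeq (R.reg X p q) := by
  obtain ⟨i, j, hij⟩ := retract A p q
  have hp' : p - 2 * (X.dim : ℤ) = 1 := by rw [hp]; ring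
  have hq' : q - (X.dim : ℤ) = 1 := by rw [hq]; ring
  have hu : ExactSeq (R.reg P (p - 2 * X.dim) (q - X.dim)) := by
    rw [hp', hq']
    exact A.unit
  exact exact_of_retract hij h (not_surj (r := R.reg X p q)
    (r' := R.reg P (p - 2 * X.dim) (q - X.dim)) (A.deg_pt p q) hu)

lemma q1_square : Q1 R Y ↔ SymQ1 A ∧ AntiQ1 A := by
  have hdim : (Y.dim : ℤ) = 2 * X.dim := by exact_mod_cast A.dim
  rw [q1_iff, hdim]
  have e1 : 2 * (2 * (X.dim : ℤ)) + 1 = 4 * X.dim + 1 := by ring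
  rw [e1]
  have hs : ∀ p, IsSum (R.reg Y p (2 * X.dim + 1)) ((sw A p (2 * X.dim + 1)).part 1)
      fun _ : Unit => (sw A p (2 * X.dim + 1)).part (-1) := fun p => isSum_parts (sw_sw A _ _)
  have h0 : ∀ _ : Unit, Subsingleton (eig (sw A (4 * X.dim + 1) (2 * X.dim + 1)).d (-1)) := by
    intro _
    refine ⟨fun x y => ?_⟩
    have key : ∀ z : eig (sw A (4 * X.dim + 1) (2 * X.dim + 1)).d (-1), z.1 = 0 := by
      intro z
      have h1 := mem_eig.1 z.2
      rw [show (sw A (4 * X.dim + 1) (2 * X.dim + 1)).d z.1 = z.1 from A.top z.1, neg_smul,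
        one_smul] at h1
      have h2 : (2 : ℝ) • z.1 = 0 := by
        rw [two_smul]
        nth_rw 2 [h1]
        exact add_neg_cancel _
      exact (smul_eq_zero.1 h2).resolve_left two_ne_zero
    exact Subtype.ext ((key x).trans (key y).symm)
  rw [(hs _).exact_iff h0]
  constructor
  · rintro ⟨h1, h2, h3⟩
    refine ⟨⟨fun p hp => ((hs p).iso_iff.1 (h1 p hp)).1, h2⟩, fun p hp => ?_⟩
    rcases hp.lt_or_eq with hp | rfl
    · exact ((hs p).iso_iff.1 (h1 p hp)).2 ()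
    · exact h3 ()
  · rintro ⟨⟨h1, h2⟩, h3⟩
    exact ⟨fun p hp => (hs p).iso_iff.2 ⟨h1 p hp, fun _ => h3 p hp.le⟩, h2, fun _ => h3 _ le_rfl⟩

end One

section Hilb

variable {A : SquareData R X Y P} (hH : IsHilb A H)

include hH

lemma hi_hilb_blow {q : ℤ} (h : Hi R H q) {a : ℕ} (ha : a + 1 < X.dim) :
    Hi R X (q - (a + 1)) := by
  intro p hp
  have h1 : Iso (R.reg X (p + 2 * ((a : ℤ) + 1) - 2 * (a + 1)) (q - (a + 1))) :=
    ((hH.sum (p + 2 * (a + 1)) q).iso_iff.1 (h _ (by omega))).2 ⟨a, by omega⟩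
  have e : p + 2 * ((a : ℤ) + 1) - 2 * (a + 1) = p := by ring
  rwa [e] at h1

lemma hi_hilb_point {q : ℤ} (h : Hi R H q) : Hi R X (q - X.dim) := by
  intro p hp
  have h1 := ((hH.sum (p + 2 * X.dim) q).iso_iff.1 (h _ (by omega))).1
  refine iso_of_sym A ?_
  have e : q - (X.dim : ℤ) + X.dim = q := by ring
  rw [e]
  exact h1

lemma hi_hilb {q : ℤ} (h : Hi R H q) {a : ℕ} (h1 : 1 ≤ a) (h2 : a ≤ X.dim) :
    Hi R X (q - a) := by
  rcases h2.lt_or_eq with h2 | rfl
  · obtain ⟨b, rfl⟩ : ∃ b, a = b + 1 := ⟨a - 1, by omega⟩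
    have := hi_hilb_blow hH h (a := b) h2
    push_cast
    exact this
  · exact hi_hilb_point hH h

variable (hX : 1 ≤ X.dim) (hD : ∀ p q, 2 * (X.dim : ℤ) + 1 < p → Subsingleton (R.D X p q))

include hX hD

lemma q1_hilb : Q1 R H ↔ SymQ1 A ∧ ∀ q : ℤ, (X.dim : ℤ) + 1 < q → q ≤ 2 * X.dim → Hi R X q := by
  have hdim : (H.dim : ℤ) = 2 * X.dim := by exact_mod_cast hH.dim
  rw [q1_iff, hdim]
  have e1 : 2 * (2 * (X.dim : ℤ)) + 1 = 4 * X.dim + 1 := by ring
  rw [e1]
  have h0 : ∀ a : Fin (X.dim - 1), Subsingleton (R.D X (4 * (X.dim : ℤ) + 1 - 2 * (a + 1))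
      (2 * (X.dim : ℤ) + 1 - (a + 1))) := by
    intro a
    apply hD
    have := a.2
    omega
  rw [(hH.sum _ _).exact_iff h0]
  constructor
  · rintro ⟨h1, h2, h3⟩
    refine ⟨⟨fun p hp => ((hH.sum p _).iso_iff.1 (h1 p hp)).1, h2⟩, fun q hq hq' p hp => ?_⟩
    obtain ⟨a, ha⟩ : ∃ a : ℕ, (a : ℤ) = 2 * X.dim - q := ⟨(2 * X.dim - q).toNat, by omega⟩
    have hlt : a < X.dim - 1 := by omega
    have e2 : 2 * (X.dim : ℤ) + 1 - (a + 1) = q := by omega
    by_cases hp' : p = 4 * (X.dim : ℤ) + 1 - 2 * (a + 1)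
    · have h4 : Iso (R.reg X (4 * (X.dim : ℤ) + 1 - 2 * (a + 1)) (2 * (X.dim : ℤ) + 1 - (a + 1))) :=
        h3 ⟨a, hlt⟩
      rwa [e2, ← hp'] at h4
    · have h4 : Iso (R.reg X (p + 2 * ((a : ℤ) + 1) - 2 * (a + 1))
          (2 * (X.dim : ℤ) + 1 - (a + 1))) :=
        ((hH.sum (p + 2 * (a + 1)) _).iso_iff.1 (h1 (p + 2 * (a + 1)) (by omega))).2 ⟨a, hlt⟩
      have e : p + 2 * ((a : ℤ) + 1) - 2 * (a + 1) = p := by ring
      rwa [e, e2] at h4
  · rintro ⟨⟨h1, h2⟩, h3⟩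
    refine ⟨fun p hp => (hH.sum p _).iso_iff.2 ⟨h1 p hp, fun a => ?_⟩, h2, fun a => ?_⟩
    · have := a.2
      exact h3 (2 * (X.dim : ℤ) + 1 - (a + 1)) (by omega) (by omega) (p - 2 * (a + 1)) (by omega)
    · have := a.2
      exact h3 (2 * (X.dim : ℤ) + 1 - (a + 1)) (by omega) (by omega)
        (4 * (X.dim : ℤ) + 1 - 2 * (a + 1)) (by omega)

omit hX hD hH in
lemma symQ1_point (h : SymQ1 A) : Q1 R X := by
  rw [q1_iff]
  refine ⟨fun p hp => ?_, ?_⟩
  · have h1 := h.1 (p + 2 * X.dim) (by omega)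
    refine iso_of_sym A ?_
    have e : (X.dim : ℤ) + 1 + X.dim = 2 * X.dim + 1 := by ring
    rw [e]
    exact h1
  · refine exact_of_sym A rfl rfl ?_
    have h1 := h.2
    have e : (X.dim : ℤ) + 1 + X.dim = 2 * X.dim + 1 := by ring
    have e' : 2 * (X.dim : ℤ) + 1 + 2 * X.dim = 4 * X.dim + 1 := by ring
    rw [e, e']
    exact h1

end Hilb

section All

variable {S : Set 𝒱.Obj} {hil Y P : 𝒱.Obj → 𝒱.Obj} {A : ∀ X ∈ S, SquareData R X (Y X) (P X)}
  (hdim : ∀ X ∈ S, 1 ≤ X.dim)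
  (hD : ∀ X ∈ S, ∀ p q : ℤ, 2 * (X.dim : ℤ) + 1 < p → Subsingleton (R.D X p q))
  (hH : ∀ X (hX : X ∈ S), hil X ∈ S ∧ IsHilb (A X hX) (hil X))

include hH

lemma iter_mem {X : 𝒱.Obj} (hX : X ∈ S) (m : ℕ) : hil^[m] X ∈ S := by
  induction m with
  | zero => exact hX
  | succ m ih =>
    rw [Function.iterate_succ_apply']
    exact (hH _ ih).1

lemma iter_dim {X : 𝒱.Obj} (hX : X ∈ S) (m : ℕ) : (hil^[m] X).dim = 2 ^ m * X.dim := by
  induction m with
  | zero => simp
  | succ m ih =>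
    rw [Function.iterate_succ_apply', (hH _ (iter_mem hH hX m)).2.dim, ih]
    ring

include hdim hD

/-- The weights obtained from `Q1` for the iterated Hilbert squares. -/
lemma weights {X : 𝒱.Obj} (hX : X ∈ S) (m : ℕ) (h : Q1 R (hil^[m + 1] X)) (j : ℕ) (hj : j ≤ m) :
    ∀ q : ℤ, ((hil^[m - j] X).dim : ℤ) + 1 < q → q ≤ 2 * (hil^[m] X).dim - j →
      Hi R (hil^[m - j] X) q := by
  induction j with
  | zero =>
    intro q h1 h2
    have hm := iter_mem hH hX m
    rw [Function.iterate_succ_apply'] at h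
    have := (q1_hilb (hH _ hm).2 (hdim _ hm) (hD _ hm)).1 h
    refine this.2 q ?_ ?_
    · simpa using h1
    · simpa using h2
  | succ j ih =>
    intro q h1 h2
    have hm := iter_mem hH hX (m - (j + 1))
    have e : m - j = (m - (j + 1)) + 1 := by omega
    have e' : hil^[m - j] X = hil (hil^[m - (j + 1)] X) := by
      rw [e, Function.iterate_succ_apply']
    set Z := hil^[m - (j + 1)] X with hZ
    have ih' := ih (by omega)
    rw [e', (hH Z hm).2.dim] at ih'
    have hZ1 := hdim Z hm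
    have hbig : 2 * Z.dim ≤ (hil^[m] X).dim := by
      rw [iter_dim hH hX m, hZ, iter_dim hH hX, ← mul_assoc, ← pow_succ']
      exact Nat.mul_le_mul_right _ (Nat.pow_le_pow_right (by norm_num) (by omega))
    -- choose the twist
    by_cases hq : q + 1 ≤ 2 * (Z.dim : ℤ) + 1
    · -- `a` with `q + a = 2 dim Z + 2`
      obtain ⟨a, ha⟩ : ∃ a : ℕ, (a : ℤ) = 2 * Z.dim + 2 - q := ⟨(2 * Z.dim + 2 - q).toNat, by omega⟩
      have hw : Hi R (hil Z) (q + a) := ih' _ (by push_cast; omega) (by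
        push_cast at h2 ⊢
        have hj2 : (j : ℤ) + 2 ≤ (hil^[m] X).dim := by
          have : j + 1 ≤ m := hj
          have h3 : m < 2 ^ m := Nat.lt_two_pow_self
          have h4 : 2 ^ m ≤ (hil^[m] X).dim := by
            rw [iter_dim hH hX m]
            exact Nat.le_mul_of_pos_right _ (hdim X hX)
          omega
        omega)
      have := hi_hilb (hH Z hm).2 hw (a := a) (by omega) (by omega)
      rwa [add_sub_cancel_right] at this
    · have hw : Hi R (hil Z) (q + 1) := ih' _ (by push_cast; omega) (by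
        push_cast at h2 ⊢
        omega)
      have := hi_hilb (hH Z hm).2 hw (a := 1) le_rfl hZ1
      rwa [Nat.cast_one, add_sub_cancel_right] at this

theorem highWeights_of_iter {X : 𝒱.Obj} (hX : X ∈ S) (h : ∀ m, Q1 R (hil^[m] X)) :
    HighWeights R X := by
  rw [highWeights_iff]
  intro q hq
  have h1 := weights hdim hD hH hX q.toNat (h _) q.toNat le_rfl
  rw [Nat.sub_self] at h1
  refine h1 q hq ?_
  have h2 := iter_dim hH hX q.toNat
  have h3 : q.toNat < 2 ^ q.toNat := Nat.lt_two_pow_self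
  have h4 : 2 ^ q.toNat ≤ (hil^[q.toNat] X).dim := by
    rw [h2]
    exact Nat.le_mul_of_pos_right _ (hdim X hX)
  omega

theorem q1_of_hilb {X : 𝒱.Obj} (hX : X ∈ S) (h : Q1 R (hil X)) : Q1 R X :=
  symQ1_point ((q1_hilb (hH X hX).2 (hdim X hX) (hD X hX)).1 h).1

theorem all_iff_hilb : (∀ X ∈ S, Q1 R X) ↔ ∀ X ∈ S, Q1 R (hil X) :=
  ⟨fun h X hX => h _ (hH X hX).1, fun h X hX => q1_of_hilb hdim hD hH hX (h X hX)⟩

theorem all_iff_sym : (∀ X ∈ S, Q1 R X) ↔ ∀ X (hX : X ∈ S), SymQ1 (A X hX) ∧ HighWeights R X := by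
  constructor
  · intro h X hX
    refine ⟨((q1_hilb (hH X hX).2 (hdim X hX) (hD X hX)).1 (h _ (hH X hX).1)).1, ?_⟩
    exact highWeights_of_iter hdim hD hH hX fun m => h _ (iter_mem hH hX m)
  · intro h X hX
    exact symQ1_point (h X hX).1

end All

end Pool.Agent.R909.Reg
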