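import Pool.Agent.R904.RW.Main

/-!
# Regulators for Hilbert squares: definitions
-/

set_option autoImplicit false

open Pool.Agent.H914 Pool.Agent.H914.VarClass Pool.Agent.H914.VarClass.Obj
open Pool.Agent.R904.RW
open scoped TensorProduct

universe u v w

namespace Pool.Agent.R909.Reg

/-- the elements on which the endomorphism `t` acts as the integer `ε` -/
def eig {K V : Type*} [Field K] [AddCommGroup V] [Module K V] (t : V →ₗ[K] V) (ε : ℤ) :
    Submodule K V :=
  LinearMap.eqLocus t (ε • LinearMap.id)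

section Alg

variable {M : Type v} [AddCommGroup M] [Module ℚ M] {D : Type w} [AddCommGroup D] [Module ℝ D]
  {M' : Type v} [AddCommGroup M'] [Module ℚ M'] {D' : Type w} [AddCommGroup D'] [Module ℝ D']
  {M'' : Type v} [AddCommGroup M''] [Module ℚ M''] {D'' : Type w} [AddCommGroup D'']
  [Module ℝ D'']

/-- A morphism between two regulators `r : M → D` and `r' : M' → D'`: linear maps `M → M'` and
`D → D'` compatible with `r`, `r'`. -/
@[ext]
structure RMap (r : M →+ D) (r' : M' →+ D') where
  m : M →ₗ[ℚ] M'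
  d : D →ₗ[ℝ] D'
  comm : ∀ x, r' (m x) = d (r x)

/-- the identity -/
def RMap.one (r : M →+ D) : RMap r r := ⟨LinearMap.id, LinearMap.id, fun _ => rfl⟩

/-- the composition `g ∘ f` -/
def RMap.comp {r : M →+ D} {r' : M' →+ D'} {r'' : M'' →+ D''} (g : RMap r' r'') (f : RMap r r') :
    RMap r r'' :=
  ⟨g.m ∘ₗ f.m, g.d ∘ₗ f.d, fun x => (g.comm (f.m x)).trans (congrArg g.d (f.comm x))⟩

variable {r : M →+ D}

lemma RMap.maps (t : RMap r r) {ε : ℤ} {x : M} (h : x ∈ eig t.m ε) : r x ∈ eig t.d ε := by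
  have h1 : t.m x = ε • x := h
  change t.d (r x) = ε • r x
  rw [← t.comm, h1, map_zsmul]

/-- the regulator on the part on which the endomorphism `t` acts as the integer `ε` -/
noncomputable def RMap.part (t : RMap r r) (ε : ℤ) : eig t.m ε →+ eig t.d ε :=
  AddMonoidHom.mk' (fun x => ⟨r x.1, t.maps x.2⟩) fun x y => Subtype.ext (map_add r x.1 y.1)

/-- `t` acts trivially on the Deligne cohomology -/
def RMap.FixesD (t : RMap r r) : Prop := ∀ y, t.d y = y

/-- the regulator is an isomorphism on the part on which `t` acts as `ε` -/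
def RMap.IsoOn (t : RMap r r) (ε : ℤ) : Prop := Iso (t.part ε)

/-- exactness of `0 → ℝ ⊗ M → D → ℝ → 0` for the parts on which `t` acts as `ε` -/
def RMap.ExactOn (t : RMap r r) (ε : ℤ) : Prop := ExactSeq (t.part ε)

/-- `s` is the direct sum of the part of `r` on which `t` acts as `1` and of the maps `r' a` -/
def RMap.IsPlusSum (t : RMap r r) {N : Type v} [AddCommGroup N] [Module ℚ N] {E : Type w}
    [AddCommGroup E] [Module ℝ E] (s : N →+ E) {ι : Type} {N' : ι → Type v} {E' : ι → Type w}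
    [∀ a, AddCommGroup (N' a)] [∀ a, Module ℚ (N' a)] [∀ a, AddCommGroup (E' a)]
    [∀ a, Module ℝ (E' a)] (r' : ∀ a, N' a →+ E' a) : Prop :=
  IsSum s (t.part 1) r'

end Alg

variable {k : Type u} [Field k] {𝒱 : VarClass k} (R : RegData.{u, v, w} 𝒱)

/-- Morphisms from `H^p(X, q)` to `H^p'(X', q')`, for integral motivic cohomology and Deligne
cohomology, compatible with the regulators; `a = (X, p, q)` and `b = (X', p', q')`. -/
def Mor (a b : 𝒱.Obj × ℤ × ℤ) : Type (max v w) :=
  RMap (R.reg a.1 a.2.1 a.2.2) (R.reg b.1 b.2.1 b.2.2)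

variable {R}

/-- the identity -/
def Mor.one (a : 𝒱.Obj × ℤ × ℤ) : Mor R a a := RMap.one _

/-- the composition `g ∘ f` -/
def Mor.comp {a b c : 𝒱.Obj × ℤ × ℤ} (g : Mor R b c) (f : Mor R a b) : Mor R a c := RMap.comp g f

/-- `f` acts trivially on the Deligne cohomology -/
def Mor.FixesD {a : 𝒱.Obj × ℤ × ℤ} (f : Mor R a a) : Prop := RMap.FixesD f

/-- `(Y, p + 2 dim X, q + dim X)` -/
def up (Y X : 𝒱.Obj) (p q : ℤ) : 𝒱.Obj × ℤ × ℤ := (Y, p + 2 * X.dim, q + X.dim)

/-- `(P, p - 2 dim X, q - dim X)` -/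
def down (P X : 𝒱.Obj) (p q : ℤ) : 𝒱.Obj × ℤ × ℤ := (P, p - 2 * X.dim, q - X.dim)

variable (R)

/-- The square `Y = X × X` of `X` of dimension `n` over the field of constants `E` of `X`, where
`P` is the spectrum of `E`: the exchange `swap` of the factors; `mul`, `x ↦ x × pt` for the class
`pt` of a closed point (divided by its degree), and the direct image `push` under the first
projection; the direct image `deg` from `X` to `P`, and `pt`, `z ↦ z pt`. The exact sequence for `P`
in weight one is the unit theorem of Dirichlet, and the exchange of the factors acts trivially on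
the Deligne cohomology in degree `4 n + 1` and weight `2 n + 1`. -/
structure SquareData (X Y P : 𝒱.Obj) where
  dim : Y.dim = 2 * X.dim
  swap : ∀ a : ℤ × ℤ, Mor R (Y, a) (Y, a)
  mul : ∀ p q, Mor R (X, p, q) (up Y X p q)
  push : ∀ p q, Mor R (up Y X p q) (X, p, q)
  deg : ∀ p q, Mor R (X, p, q) (down P X p q)
  pt : ∀ p q, Mor R (down P X p q) (X, p, q)
  swap_swap : ∀ a, (swap a).comp (swap a) = Mor.one _
  push_mul : ∀ p q, (push p q).comp (mul p q) = Mor.one _
  push_swap_mul : ∀ p q, (push p q).comp (Mor.comp (b := up Y X p q) (swap (up Y X p q).2)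
    (mul p q)) = (pt p q).comp (deg p q)
  deg_pt : ∀ p q, (deg p q).comp (pt p q) = Mor.one _
  unit : ExactSeq (R.reg P 1 1)
  top : (swap (4 * X.dim + 1, 2 * X.dim + 1)).FixesD

variable {R} {X Y P : 𝒱.Obj}

/-- The regulator `H^p(X × X, q) → H^p_D(X × X, q)` is an isomorphism on the part on which the
exchange of the factors acts as `ε`. -/
def SquareData.IsoOn (A : SquareData R X Y P) (ε p q : ℤ) : Prop :=
  RMap.IsoOn (A.swap (p, q)) ε

/-- Exactness of `0 → H^p(X × X, q)_ℝ → H^p_D(X × X, q) → ℝ → 0` for the part on which the exchange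
of the factors acts as `ε`. -/
def SquareData.ExactOn (A : SquareData R X Y P) (ε p q : ℤ) : Prop :=
  RMap.ExactOn (A.swap (p, q)) ε

/-- Q1 for the symmetric part of the cohomology of `X × X`: with `n = dim X`, the regulator in
weight `2 n + 1` is an isomorphism in all degrees less than `4 n + 1`, and there is an exact sequence
in degree `4 n + 1`. -/
def SymQ1 (A : SquareData R X Y P) : Prop :=
  (∀ p < 4 * (X.dim : ℤ) + 1, A.IsoOn 1 p (2 * X.dim + 1)) ∧
    A.ExactOn 1 (4 * X.dim + 1) (2 * X.dim + 1)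

/-- The regulator in weight `2 n + 1` is an isomorphism on the antisymmetric part of the cohomology
of `X × X` in all degrees `≤ 4 n + 1`. -/
def AntiQ1 (A : SquareData R X Y P) : Prop :=
  ∀ p ≤ 4 * (X.dim : ℤ) + 1, A.IsoOn (-1) p (2 * X.dim + 1)

/-- `H^p(H, q)` is the direct sum of the symmetric part of `H^p(X × X, q)` and of the
`H^p'(X', q')`, where `(X', p', q') = b a`. -/
def IsPlusSum (A : SquareData R X Y P) (H : 𝒱.Obj) {ι : Type} (b : ι → 𝒱.Obj × ℤ × ℤ)
    (p q : ℤ) : Prop :=
  RMap.IsPlusSum (A.swap (p, q)) (R.reg H p q) fun a => R.reg (b a).1 (b a).2.1 (b a).2.2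

/-- `H` behaves like the Hilbert scheme `X^[2]` of `X` of dimension `n`:
`H^p(X^[2], q) = H^p(X × X, q)^+ ⊕ ⨁ H^(p-2a)(X, q-a)`, where `0 < a < n`. -/
structure IsHilb (A : SquareData R X Y P) (H : 𝒱.Obj) : Prop where
  dim : H.dim = 2 * X.dim
  sum : ∀ p q, IsPlusSum A H (fun a : Fin (X.dim - 1) => (X, p - 2 * (a + 1), q - (a + 1))) p q

end Pool.Agent.R909.Reg
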