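import Pool.Agent.W537.RangeA
import Pool.Agent.H914R2.HLam

/-!
# Powers of the lowering operator and iterated commutators
-/

open Finset

namespace Pool.Agent.R909

open Pool.Agent.H914 Pool.Agent.H447 Pool.Agent.W537

section Comm

variable {K V U : Type*} [Field K] [AddCommGroup V] [Module K V] [AddCommGroup U] [Module K U]
  {L : Module.End K V} {M : Module.End K U} {s : ℕ} {T : ℕ → (V →ₗ[K] U)} {S : ℕ → (U →ₗ[K] V)}

/-- Iterated commutators of a composition. -/
lemma adL_pow_comp (hT0 : ∀ a, T 0 (L a) = M (T 0 a))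
    (hT : ∀ r < s, ∀ a, T (r + 1) (L a) = M (T (r + 1) a) + T r a)
    (hS0 : ∀ b, L (S 0 b) = S 0 (M b))
    (hS : ∀ r < s, ∀ b, L (S (r + 1) b) = S (r + 1) (M b) + S r b) :
    ∀ N a b, a ≤ s → b ≤ s → a + b = N → (adL K L ^ N) (S a ∘ₗ T b : Module.End K V) =
      (((-1) ^ b * (N.choose a : ℤ) : ℤ) : K) • (S 0 ∘ₗ T 0 : Module.End K V) := by
  intro N
  induction N with
  | zero =>
    intro a b _ _ hab
    obtain rfl : a = 0 := by omega
    obtain rfl : b = 0 := by omega
    simp
  | succ N ih =>
    intro a b ha hb hab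
    rw [pow_succ, Module.End.mul_apply]
    rcases Nat.eq_zero_or_pos a with rfl | ha0
    · obtain ⟨b, rfl⟩ : ∃ b', b = b' + 1 := ⟨b - 1, by omega⟩
      have h1 : adL K L (S 0 ∘ₗ T (b + 1) : Module.End K V) =
          -(S 0 ∘ₗ T b : Module.End K V) := by
        apply LinearMap.ext
        intro x
        rw [adL_apply]
        simp only [LinearMap.sub_apply, Module.End.mul_apply, LinearMap.comp_apply,
          LinearMap.neg_apply, hS0, hT b (by omega), map_add]
        abel
      rw [h1, map_neg, ih 0 b (by omega) (by omega) (by omega), ← neg_smul]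
      congr 1
      push_cast
      simp only [Nat.choose_zero_right, pow_succ]
      push_cast
      ring
    · obtain ⟨a, rfl⟩ : ∃ a', a = a' + 1 := ⟨a - 1, by omega⟩
      rcases Nat.eq_zero_or_pos b with rfl | hb0
      · have h1 : adL K L (S (a + 1) ∘ₗ T 0 : Module.End K V) =
            (S a ∘ₗ T 0 : Module.End K V) := by
          apply LinearMap.ext
          intro x
          rw [adL_apply]
          simp only [LinearMap.sub_apply, Module.End.mul_apply, LinearMap.comp_apply,
            hS a (by omega), hT0]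
          abel
        obtain rfl : a = N := by omega
        rw [h1, ih a 0 (by omega) (by omega) (by omega)]
        simp
      · obtain ⟨b, rfl⟩ : ∃ b', b = b' + 1 := ⟨b - 1, by omega⟩
        have h1 : adL K L (S (a + 1) ∘ₗ T (b + 1) : Module.End K V) =
            (S a ∘ₗ T (b + 1) : Module.End K V) - (S (a + 1) ∘ₗ T b : Module.End K V) := by
          apply LinearMap.ext
          intro x
          rw [adL_apply]
          simp only [LinearMap.sub_apply, Module.End.mul_apply, LinearMap.comp_apply,
            hS a (by omega), hT b (by omega), map_add]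
          abel
        rw [h1, map_sub, ih a (b + 1) (by omega) (by omega) (by omega),
          ih (a + 1) b (by omega) (by omega) (by omega), ← sub_smul]
        congr 1
        rw [Nat.choose_succ_succ]
        push_cast
        ring

end Comm

section Abs

variable {K : Type*} [Field K] [CharZero K] {V U : Type*} [AddCommGroup V] [Module K V]
  [AddCommGroup U] [Module K U]
  {gr : ℕ → Submodule K V} {n : ℕ}
  {L f : Module.End K V} {M : Module.End K U} {s : ℕ} {T : ℕ → (V →ₗ[K] U)} {S : ℕ → (U →ₗ[K] V)}

/-- The power `s` of the lowering operator is a multiple of the composition. -/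
theorem f_pow_eq [Module.Finite K V] (h : DirectSum.IsInternal gr) (t : Sl2 (wt h n) L f)
    (hf : IsHom gr (-2) f) (hT0 : ∀ a, T 0 (L a) = M (T 0 a))
    (hT : ∀ r < s, ∀ a, T (r + 1) (L a) = M (T (r + 1) a) + T r a)
    (hS0 : ∀ b, L (S 0 b) = S 0 (M b))
    (hS : ∀ r < s, ∀ b, L (S (r + 1) b) = S (r + 1) (M b) + S r b)
    (hST : ∀ a, S 0 (T 0 a) = (L ^ s) a)
    (hh : IsHom gr (-(2 * s : ℕ)) (S s ∘ₗ T s : Module.End K V)) :
    f ^ s = ((s.factorial ^ 2 : ℕ) : K) • (S s ∘ₗ T s : Module.End K V) := by
  have hfr : IsHom gr (-(2 * s : ℕ)) (f ^ s) := by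
    have := hf.pow s
    rwa [show (s : ℤ) * -2 = -(2 * s : ℕ) by push_cast; ring] at this
  rw [← sub_eq_zero]
  apply adL_inj h t (hfr.sub (hh.smul _))
  have h0 : (S 0 ∘ₗ T 0 : Module.End K V) = L ^ s := LinearMap.ext hST
  rw [map_sub, map_smul, adL_pow_f_pow t,
    adL_pow_comp hT0 hT hS0 hS (2 * s) s s le_rfl le_rfl (by ring), h0, smul_smul, ← sub_smul]
  have h1 : ((2 * s).factorial : ℤ) = (2 * s).choose s * (s.factorial ^ 2 : ℕ) := by
    have := Nat.choose_mul_factorial_mul_factorial (n := 2 * s) (k := s) (by omega)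
    rw [show 2 * s - s = s by omega] at this
    rw [← this]
    push_cast
    ring
  have h2 : ((((-1) ^ s * (2 * s).factorial : ℤ)) : K) -
      ((s.factorial ^ 2 : ℕ) : K) * (((-1) ^ s * ((2 * s).choose s : ℤ) : ℤ) : K) = 0 := by
    rw [h1]
    push_cast
    ring
  rw [h2, zero_smul]

end Abs

end Pool.Agent.R909
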