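import Pool.Agent.W537.OneCycleB

/-!
# Descent of the coefficients in a range of degrees
-/

open Finset Polynomial

namespace Pool.Agent.R909

open Pool.Agent.H914 Pool.Agent.H447 Pool.Agent.W537

section Density

variable {K : Type*} [Field K] [CharZero K] {V : Type*} [AddCommGroup V] [Module K V]

/-- A combination with coefficients in `K` which is injective can be replaced by one with rational
coefficients. -/
lemma exists_rat_inj [Module.Finite K V] {S : Submodule K V} {r : ℕ} (c : Fin r → K)
    (z : Fin r → Module.End K V) (hz : ∀ k, ∀ a ∈ S, z k a ∈ S)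
    (hinj : ∀ a ∈ S, (∑ k, c k • z k) a = 0 → a = 0) :
    ∃ t : Fin r → ℚ, ∀ a ∈ S, (∑ k, ((t k : ℚ) : K) • z k) a = 0 → a = 0 := by
  classical
  set b := Module.finBasis K S with hb
  set E : Fin r → Module.End K S := fun k => (z k).restrict (hz k) with hE
  set A : Fin r → Matrix (Fin (Module.finrank K S)) (Fin (Module.finrank K S)) K :=
    fun k => LinearMap.toMatrix b b (E k) with hA
  set p : MvPolynomial (Fin r) K :=
    (∑ k, (MvPolynomial.X k : MvPolynomial (Fin r) K) • (A k).map MvPolynomial.C).det with hp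
  have heval : ∀ t : Fin r → K, MvPolynomial.eval t p =
      LinearMap.det (∑ k, t k • E k) := by
    intro t
    rw [hp, RingHom.map_det, ← LinearMap.det_toMatrix b, map_sum, map_sum]
    congr 1
    apply Finset.sum_congr rfl
    intro k _
    have e1 : LinearMap.toMatrix b b (t k • E k) = t k • A k := map_smul _ _ _
    rw [e1]
    ext i j
    simp only [RingHom.mapMatrix_apply, Matrix.map_apply, Matrix.smul_apply, smul_eq_mul, map_mul,
      MvPolynomial.eval_X, MvPolynomial.eval_C]
  have hiff : ∀ t : Fin r → K, LinearMap.det (∑ k, t k • E k) ≠ 0 ↔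
      ∀ a ∈ S, (∑ k, t k • z k) a = 0 → a = 0 := by
    intro t
    have hval : ∀ a : S, (((∑ k, t k • E k) a : S) : V) = (∑ k, t k • z k) (a : V) := by
      intro a
      rw [LinearMap.sum_apply, LinearMap.sum_apply, AddSubmonoidClass.coe_finsetSum]
      apply Finset.sum_congr rfl
      intro k _
      rfl
    constructor
    · intro hdet a ha h0
      have hbij := (LinearMap.isUnit_iff_isUnit_det _).2 (isUnit_iff_ne_zero.2 hdet)
      rw [LinearMap.isUnit_iff_ker_eq_bot, LinearMap.ker_eq_bot'] at hbij
      have := hbij ⟨a, ha⟩ (Subtype.ext (by rw [hval]; exact h0))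
      exact congrArg Subtype.val this
    · intro h
      apply isUnit_iff_ne_zero.1
      rw [← LinearMap.isUnit_iff_isUnit_det, LinearMap.isUnit_iff_ker_eq_bot,
        LinearMap.ker_eq_bot']
      intro a ha
      apply Subtype.ext
      apply h a a.2
      rw [← hval, ha]
      rfl
  have hp0 : p ≠ 0 := by
    intro h0
    have h1 := (hiff c).2 hinj
    rw [← heval, h0, map_zero] at h1
    exact h1 rfl
  by_contra hcon
  push Not at hcon
  apply hp0
  apply MvPolynomial.funext_set (fun _ => Set.range (fun q : ℚ => (q : K)))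
    (fun _ => Set.infinite_range_of_injective Rat.cast_injective)
  intro x hx
  have hx' : ∀ k, ∃ q : ℚ, (q : K) = x k := fun k => hx k (Set.mem_univ k)
  choose q hq using hx'
  obtain rfl : (fun k => ((q k : ℚ) : K)) = x := funext hq
  rw [map_zero, heval]
  by_contra hne
  obtain ⟨a, ha, h0, hane⟩ := hcon q
  exact hane ((hiff _).1 hne a ha h0)

end Density

section Desc

variable {K : Type*} [Field K] {V : Type*} [AddCommGroup V] [Module K V]
  {gr : ℕ → Submodule K V} {n : ℕ} {L : Module.End K V} {R : ℤ → Module.End K V → Prop}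

lemma isInv_mul (h : DirectSum.IsInternal gr) (hL : IsHom gr 2 L) {c : ℕ} (hc : c ≤ n)
    {T : Module.End K V} (hT : IsInv gr n L c T) : T * L ^ c = proj h (n - c) := by
  apply gr_ext h
  intro j a ha
  rw [Module.End.mul_apply]
  by_cases hj : j = n - c
  · subst hj
    rw [hT.1 a ha, proj_same _ ha]
  · rw [proj_ne _ ha hj, hT.2 (j + 2 * c) (by omega) _ (pow_L_mem hL ha c)]

lemma mul_isInv (h : DirectSum.IsInternal gr) (hHL : HardLef gr n L) {c : ℕ}
    (hc : c ≤ n) {T : Module.End K V} (hT : IsInv gr n L c T) : L ^ c * T = proj h (n + c) := by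
  apply gr_ext h
  intro j b hb
  rw [Module.End.mul_apply]
  by_cases hj : j = n + c
  · subst hj
    obtain ⟨a, ha, hab⟩ := (hHL (n - c) (by omega)).2 b
      (by rw [show 2 * n - (n - c) = n + c by omega]; exact hb)
    rw [show n - (n - c) = c by omega] at hab
    rw [← hab, hT.1 a ha, hab, proj_same _ hb]
  · rw [proj_ne _ hb hj, hT.2 j hj b hb, map_zero]

/-- **Descent of the coefficients in a range of degrees.** -/
theorem descent_ge [CharZero K] [Module.Finite K V] (hR : OpAlg gr R) (h : DirectSum.IsInternal gr)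
    (hbd : ∀ i, 2 * n + 1 ≤ i → gr i = ⊥)
    (hstr : ∀ y, R 0 y → ∃ q : ℚ, LinearMap.trace K V (par h * y) = q)
    (hL : R 1 L) (hHL : HardLef gr n L) {s : ℕ}
    (hν : ∀ c, s ≤ c → c ≤ n → ∃ ν ∈ KS R (-c), ∀ a ∈ gr (n + c), ν a = 0 → a = 0) :
    ∀ m c, c + m = n → s ≤ c → ∃ θ, R (-c) θ ∧ IsInv gr n L c θ := by
  have hLh : IsHom gr 2 L := by simpa using hR.hom hL
  intro m
  induction m using Nat.strong_induction_on with
  | _ m ih =>
  intro c hcm hsc
  have hF : ∀ l, ∃ θ, l < m → R (-((n - l : ℕ) : ℤ)) θ ∧ IsInv gr n L (n - l) θ := by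
    intro l
    by_cases hl : l < m
    · obtain ⟨θ, h1, h2⟩ := ih l hl (n - l) (by omega) (by omega)
      exact ⟨θ, fun _ => ⟨h1, h2⟩⟩
    · exact ⟨0, fun h => absurd h hl⟩
  choose F hF using hF
  set A : Module.End K V := 1 - ∑ l ∈ range m, F l * L ^ (n - l) with hA
  set B : Module.End K V := 1 - ∑ l ∈ range m, L ^ (n - l) * F l with hB
  have hAR : R 0 A := by
    apply hR.sub hR.one
    apply hR.sum
    intro l hl
    rw [Finset.mem_range] at hl
    exact hR.cast (hR.mul (hF l hl).1 (hR.pow hL (n - l))) (by ring)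
  have hBR : R 0 B := by
    apply hR.sub hR.one
    apply hR.sum
    intro l hl
    rw [Finset.mem_range] at hl
    exact hR.cast (hR.mul (hR.pow hL (n - l)) (hF l hl).1) (by ring)
  have hA' : A = 1 - ∑ l ∈ range m, proj h l := by
    rw [hA]
    congr 1
    apply Finset.sum_congr rfl
    intro l hl
    rw [Finset.mem_range] at hl
    rw [isInv_mul h hLh (by omega) (hF l hl).2, show n - (n - l) = l by omega]
  have hB' : B = 1 - ∑ l ∈ range m, proj h (2 * n - l) := by
    rw [hB]
    congr 1
    apply Finset.sum_congr rfl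
    intro l hl
    rw [Finset.mem_range] at hl
    rw [mul_isInv h hHL (by omega) (hF l hl).2, show n + (n - l) = 2 * n - l by omega]
  have hAlow : ∀ l < m, ∀ a ∈ gr l, A a = 0 := by
    intro l hl a ha
    rw [hA', LinearMap.sub_apply, Module.End.one_apply, LinearMap.sum_apply,
      Finset.sum_eq_single l, proj_same h ha, sub_self]
    · intro l' _ hl'; exact proj_ne h ha (Ne.symm hl')
    · intro h'; exact absurd (Finset.mem_range.2 hl) h'
  have hAhigh : ∀ l, m ≤ l → ∀ a ∈ gr l, A a = a := by
    intro l hl a ha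
    rw [hA', LinearMap.sub_apply, Module.End.one_apply, LinearMap.sum_apply,
      Finset.sum_eq_zero, sub_zero]
    intro l' hl'
    rw [Finset.mem_range] at hl'
    exact proj_ne h ha (by omega)
  have hBhigh : ∀ l, 2 * n - m < l → ∀ a ∈ gr l, B a = 0 := by
    intro l hl a ha
    by_cases hl2 : 2 * n < l
    · rw [hbd l (by omega)] at ha
      rw [(Submodule.mem_bot _).1 ha, map_zero]
    · rw [hB', LinearMap.sub_apply, Module.End.one_apply, LinearMap.sum_apply,
        Finset.sum_eq_single (2 * n - l), show 2 * n - (2 * n - l) = l by omega,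
        proj_same h ha, sub_self]
      · intro l' hl' hne
        rw [Finset.mem_range] at hl'
        exact proj_ne h ha (by omega)
      · intro h'; exact absurd (Finset.mem_range.2 (by omega)) h'
  have hBlow : ∀ l ≤ 2 * n - m, ∀ a ∈ gr l, B a = a := by
    intro l hl a ha
    rw [hB', LinearMap.sub_apply, Module.End.one_apply, LinearMap.sum_apply,
      Finset.sum_eq_zero, sub_zero]
    intro l' hl'
    rw [Finset.mem_range] at hl'
    exact proj_ne h ha (by omega)
  have hLc : ∀ a ∈ gr (n - c), (L ^ c) a ∈ gr (n + c) := by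
    intro a ha
    have := pow_L_mem hLh ha c
    rwa [show n - c + 2 * c = n + c by omega] at this
  have hdown : ∀ y : Module.End K V, IsHom gr (2 * -(c : ℤ)) y →
      ∀ a ∈ gr (n + c), y a ∈ gr (n - c) := by
    intro y hy a ha
    have h1 := hy (n + c : ℕ) a (by rw [grZ_natCast]; exact ha)
    rwa [show ((n + c : ℕ) : ℤ) + 2 * (-c : ℤ) = ((n - c : ℕ) : ℤ) by omega, grZ_natCast] at h1
  -- the truncation of an operator of degree `-c`
  have hsupp : ∀ y : Module.End K V, IsHom gr (2 * -(c : ℤ)) y →
      ∀ l, l ≠ n + c → ∀ a ∈ gr l, (A * y * B) a = 0 := by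
    intro y hy l hl a ha
    rw [Module.End.mul_apply, Module.End.mul_apply]
    by_cases h1 : 2 * n - m < l
    · rw [hBhigh l h1 a ha, map_zero, map_zero]
    · rw [hBlow l (by omega) a ha]
      have h2 := hy l a (by rw [grZ_natCast]; exact ha)
      by_cases h3 : 2 * c ≤ l
      · rw [show (l : ℤ) + 2 * -(c : ℤ) = ((l - 2 * c : ℕ) : ℤ) by omega, grZ_natCast] at h2
        exact hAlow _ (by omega) _ h2
      · rw [grZ_of_neg (by omega)] at h2
        rw [(Submodule.mem_bot _).1 h2, map_zero]
  have htop : ∀ y : Module.End K V, IsHom gr (2 * -(c : ℤ)) y →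
      ∀ a ∈ gr (n + c), (A * y * B) a = y a := by
    intro y hy a ha
    rw [Module.End.mul_apply, Module.End.mul_apply, hBlow _ (by omega) a ha,
      hAhigh (n - c) (by omega) _ (hdown y hy a ha)]
  -- the choice of a rational operator
  obtain ⟨ν, hνK, hνinj⟩ := hν c hsc (by omega)
  obtain ⟨r, e, z, hz, rfl⟩ := OpAlg.exists_rep hνK
  obtain ⟨t, ht⟩ := exists_rat_inj (S := gr (n - c)) e (fun k => z k * L ^ c)
    (fun k a ha => hdown _ (hR.hom (hz k)) _ (hLc a ha))
    (by
      intro a ha h0
      have h1 : (∑ k, e k • z k) ((L ^ c) a) = 0 := by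
        rw [← h0, LinearMap.sum_apply, LinearMap.sum_apply]
        apply Finset.sum_congr rfl
        intro k _
        rfl
      have h2 := hνinj _ (hLc a ha) h1
      refine (hHL (n - c) (by omega)).1 a ha ?_
      rw [show n - (n - c) = c by omega]
      exact h2)
  set y : Module.End K V := ∑ k, ((t k : ℚ) : K) • z k with hy
  have hyR : R (-c) y := hR.sum (fun k _ => hR.smul _ (hz k))
  have hyh := hR.hom hyR
  set T := A * y * B with hT
  have hTR : R (-c) T := hR.cast (hR.mul (hR.mul hAR hyR) hBR) (by ring)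
  set G := T * L ^ c with hG
  have hGR : R 0 G := hR.cast (hR.mul hTR (hR.pow hL c)) (by ring)
  have hGS : ∀ x ∈ gr (n - c), G x ∈ gr (n - c) := by
    intro x hx
    rw [hG, Module.End.mul_apply, hT, htop y hyh _ (hLc x hx)]
    exact hdown y hyh _ (hLc x hx)
  have hGinj : ∀ x ∈ gr (n - c), G x = 0 → x = 0 := by
    intro x hx h0
    apply ht x hx
    rw [← h0, hG, Module.End.mul_apply, hT, htop y hyh _ (hLc x hx), hy, LinearMap.sum_apply,
      LinearMap.sum_apply]
    apply Finset.sum_congr rfl
    intro k _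
    rfl
  have hGP : proj h (n - c) * G = G := by
    have hG0 : IsHom gr 0 G := by simpa using hR.hom hGR
    have h2 : G * proj h (n - c) = G := by
      apply gr_ext h
      intro j a ha
      rw [Module.End.mul_apply]
      by_cases hj : j = n - c
      · subst hj; rw [proj_same _ ha]
      · rw [proj_ne _ ha hj, map_zero, hG, Module.End.mul_apply, hT,
          hsupp y hyh (j + 2 * c) (by omega) _ (pow_L_mem hLh ha c)]
    rw [hG0.proj_comm, h2]
  have hparP : par h * proj h (n - c) = (-1 : K) ^ (n - c) • proj h (n - c) := by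
    apply LinearMap.ext
    intro a
    rw [Module.End.mul_apply, par, scal_apply h _ (H914.proj_mem h _ a), LinearMap.smul_apply]
  have htr : ∀ r : ℕ, ∃ q : ℚ, LinearMap.trace K V (G ^ r) = q := by
    intro r
    rcases Nat.eq_zero_or_pos r with rfl | hr
    · refine ⟨Module.finrank K V, ?_⟩
      rw [pow_zero, LinearMap.trace_one]
      push_cast; rfl
    · obtain ⟨r, rfl⟩ : ∃ r', r = r' + 1 := ⟨r - 1, by omega⟩
      have h1 : G ^ (r + 1) = proj h (n - c) * G ^ (r + 1) := by
        rw [pow_succ', ← mul_assoc, hGP]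
      have h2 : LinearMap.trace K V (par h * G ^ (r + 1)) =
          (-1 : K) ^ (n - c) * LinearMap.trace K V (G ^ (r + 1)) := by
        conv_lhs => rw [h1]
        rw [← mul_assoc, hparP, smul_mul_assoc, map_smul, smul_eq_mul, ← h1]
      obtain ⟨q, hq⟩ := hstr (G ^ (r + 1)) (hR.cast (hR.pow hGR (r + 1)) (by ring))
      refine ⟨(-1) ^ (n - c) * q, ?_⟩
      have h3 : ((-1 : K) ^ (n - c)) * (-1) ^ (n - c) = 1 := by
        rw [← pow_add, ← two_mul, pow_mul]; simp
      push_cast
      rw [← hq, h2, ← mul_assoc, h3, one_mul]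
  obtain ⟨q, hq⟩ := exists_poly_inverse htr hGS hGinj
  refine ⟨ev G q * T, hR.cast (hR.mul (hR.ev hGR q) hTR) (by ring), ?_, ?_⟩
  · intro a ha
    exact hq a ha
  · intro l hl a ha
    rw [Module.End.mul_apply, hT, hsupp y hyh l hl a ha, map_zero]

end Desc

end Pool.Agent.R909
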