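import Pool.Agent.R909.SecA
import Pool.Agent.R909.SecB
import Pool.Agent.W534.Hyp3

/-!
# The powers of the Lambda operator and the restriction to a section
-/

open Finset

namespace Pool.Agent.R909

open Pool.Agent.H914 Pool.Agent.H447 Pool.Agent.W537 Pool.Agent.W534

section Inj

/-- The coefficient of `f ^ r` on `L ^ j a`, where `a` is primitive of degree `n - N`. -/
def kf (K : Type*) [Field K] (N j : ℕ) : ℕ → K
  | 0 => 1
  | r + 1 => kf K N j r * (((j - r : ℕ) : K) * ((N - (j - r) + 1 : ℕ) : K))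

lemma kf_ne_zero {K : Type*} [Field K] [CharZero K] {N j : ℕ} : ∀ r ≤ j, kf K N j r ≠ 0 := by
  intro r
  induction r with
  | zero => intro _; exact one_ne_zero
  | succ r ih =>
    intro hr
    rw [kf]
    apply mul_ne_zero (ih (by omega))
    apply mul_ne_zero
    · exact Nat.cast_ne_zero.2 (by omega)
    · exact Nat.cast_ne_zero.2 (by omega)

variable {K : Type*} [Field K] {V : Type*} [AddCommGroup V] [Module K V]
  {gr : ℕ → Submodule K V} {n : ℕ} {L f Lam : Module.End K V}

lemma f_pow_apply (hfv : ∀ i ≤ n, ∀ a ∈ gr i, (L ^ (n - i + 1)) a = 0 → ∀ j ≤ n - i,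
      f ((L ^ j) a) = ((j : K) * (((n - i : ℕ) : K) - j + 1)) • (L ^ (j - 1)) a)
    {i : ℕ} (hi : i ≤ n) {a : V} (ha : a ∈ gr i) (hp : (L ^ (n - i + 1)) a = 0) {j : ℕ}
    (hj : j ≤ n - i) :
    ∀ r ≤ j, (f ^ r) ((L ^ j) a) = kf K (n - i) j r • (L ^ (j - r)) a := by
  intro r
  induction r with
  | zero => intro _; simp [kf]
  | succ r ih =>
    intro hr
    rw [pow_succ', Module.End.mul_apply, ih (by omega), map_smul,
      hfv i hi a ha hp (j - r) (by omega), smul_smul, show j - (r + 1) = j - r - 1 by omega, kf]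
    congr 3
    rw [Nat.cast_add, Nat.cast_sub (show j - r ≤ n - i by omega), Nat.cast_one]

/-- The operator which multiplies `L ^ j a` by `κ i j`, for `a` primitive of degree `i`. -/
noncomputable def diagOp (h : DirectSum.IsInternal gr) (L Lam : Module.End K V) (n : ℕ)
    (κ : ℕ → ℕ → K) : Module.End K V :=
  ∑ i ∈ range (n + 1), ∑ j ∈ range (n - i + 1), κ i j • eij h L Lam i j

lemma diagOp_apply (h : DirectSum.IsInternal gr) (hL : IsHom gr 2 L) (hLam : IsLam gr n L Lam)
    {κ : ℕ → ℕ → K} {i : ℕ} (hi : i ≤ n) {a : V} (ha : a ∈ gr i)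
    (hp : (L ^ (n - i + 1)) a = 0) {j : ℕ} (hj : j ≤ n - i) :
    diagOp h L Lam n κ ((L ^ j) a) = κ i j • (L ^ j) a := by
  rw [diagOp, LinearMap.sum_apply, Finset.sum_eq_single i]
  · rw [LinearMap.sum_apply, Finset.sum_eq_single j]
    · rw [LinearMap.smul_apply, eij_apply h hL hLam hi ha hp hj, if_pos ⟨rfl, rfl⟩]
    · intro j' _ hj'
      rw [LinearMap.smul_apply, eij_apply h hL hLam hi ha hp hj, if_neg (by tauto), smul_zero]
    · intro h'; exact absurd (Finset.mem_range.2 (by omega)) h'
  · intro i' _ hi'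
    rw [LinearMap.sum_apply]
    apply Finset.sum_eq_zero
    intro j' _
    rw [LinearMap.smul_apply, eij_apply h hL hLam hi ha hp hj, if_neg (by tauto), smul_zero]
  · intro h'; exact absurd (Finset.mem_range.2 (by omega)) h'

/-- An operator of degree `-c` in the algebra generated by `L` and `f ^ s`, which is injective in
degree `n + c`. -/
theorem exists_left_inv [CharZero K] [Module.Finite K V] (h : DirectSum.IsInternal gr)
    (hL : IsHom gr 2 L) (hbd : ∀ i, 2 * n + 1 ≤ i → gr i = ⊥) (hHL : HardLef gr n L)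
    (hfv : ∀ i ≤ n, ∀ a ∈ gr i, (L ^ (n - i + 1)) a = 0 → ∀ j ≤ n - i,
      f ((L ^ j) a) = ((j : K) * (((n - i : ℕ) : K) - j + 1)) • (L ^ (j - 1)) a)
    {s c : ℕ} (hs : 1 ≤ s) (hsc : s ≤ c) (hc : c ≤ n) :
    ∃ E : Module.End K V, ∀ b ∈ gr (n - c),
      E (((f ^ s) ^ (c / s) * (L ^ (s - c % s) * f ^ s)) ((L ^ c) b)) = b := by
  obtain ⟨Lam, -, hLam⟩ := exists_isLam h hL hbd hHL
  set q := c / s with hq
  set r := c % s with hr
  have hqr : s * q + r = c := Nat.div_add_mod c s
  have hrs : r < s := Nat.mod_lt _ (by omega)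
  refine ⟨diagOp h L Lam n (fun i j =>
    (kf K (n - i) (j + c) s * kf K (n - i) (j + c - r) (s * q))⁻¹), ?_⟩
  intro b hb
  have key := lef_induction hL hbd hHL
    (p := fun i b => i + c = n → (diagOp h L Lam n (fun i j =>
      (kf K (n - i) (j + c) s * kf K (n - i) (j + c - r) (s * q))⁻¹))
      (((f ^ s) ^ q * (L ^ (s - r) * f ^ s)) ((L ^ c) b)) = b)
    (by
      intro i a b ha hb hi
      simp only [map_add]
      rw [ha hi, hb hi])
    (by
      intro i hi a ha hp j hij
      have h1 : (L ^ c) ((L ^ j) a) = (L ^ (j + c)) a := by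
        rw [← Module.End.mul_apply, ← pow_add, add_comm]
      have h2 : (L ^ (s - r)) ((L ^ (j + c - s)) a) = (L ^ (j + c - r)) a := by
        rw [← Module.End.mul_apply, ← pow_add]
        congr 2
        omega
      have hne1 : kf K (n - i) (j + c) s ≠ 0 := kf_ne_zero _ (by omega)
      have hne2 : kf K (n - i) (j + c - r) (s * q) ≠ 0 := kf_ne_zero _ (by omega)
      rw [h1, Module.End.mul_apply, Module.End.mul_apply,
        f_pow_apply hfv hi ha hp (j := j + c) (by omega) s (by omega), map_smul, h2, map_smul,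
        ← pow_mul, f_pow_apply hfv hi ha hp (j := j + c - r) (by omega) (s * q) (by omega),
        map_smul, map_smul, show j + c - r - s * q = j by omega,
        diagOp_apply h hL hLam hi ha hp (j := j) (by omega), smul_smul, smul_smul,
        mul_inv_cancel₀ (mul_ne_zero hne1 hne2), one_smul])
  have := key (n - c) (by omega) b hb 0 (by omega)
  simpa using this

end Inj

section Lam

variable {K : Type*} [Field K] {V : Type*} [AddCommGroup V] [Module K V]
  {gr : ℕ → Submodule K V} {n : ℕ} {L Lam : Module.End K V}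

/-- The powers of the Lambda operator in terms of the inverses of the powers of `L`. -/
theorem lam_pow_eq (h : DirectSum.IsInternal gr) (hL : IsHom gr 2 L)
    (hbd : ∀ i, 2 * n + 1 ≤ i → gr i = ⊥) (hHL : HardLef gr n L) (hLam : IsLam gr n L Lam) {c : ℕ}
    {θ : ℕ → Module.End K V} (hθ : ∀ e, c ≤ e → e ≤ n → IsInv gr n L e (θ e)) :
    Lam ^ c = ∑ e ∈ Finset.Ico c (n + 1), θ e * L ^ (e - c) +
      ∑ e ∈ Finset.Ico (c + 1) (n + 1), L ^ (e - c) * θ e := by
  apply LinearMap.ext
  intro x
  refine lef_induction' h hL hbd hHL (p := fun x => (Lam ^ c) x =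
    (∑ e ∈ Finset.Ico c (n + 1), θ e * L ^ (e - c) +
      ∑ e ∈ Finset.Ico (c + 1) (n + 1), L ^ (e - c) * θ e) x) ?_ ?_ x
  · intro a b ha hb
    rw [map_add, map_add, ha, hb]
  intro i hi a ha hp j
  by_cases hj : j ≤ n - i
  swap
  · rw [L_pow_gt hp (by omega), map_zero, map_zero]
  have hmem : ∀ r, (L ^ r) a ∈ gr (i + 2 * r) := fun r => pow_L_mem hL ha r
  rw [LinearMap.add_apply, LinearMap.sum_apply, LinearMap.sum_apply]
  have t1 : ∀ e ∈ Finset.Ico c (n + 1), (θ e * L ^ (e - c)) ((L ^ j) a) =
      if c ≤ j ∧ e + 2 * j = (n - i) + 2 * c then (L ^ (j - c)) a else 0 := by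
    intro e he
    rw [Finset.mem_Ico] at he
    have hI := hθ e he.1 (by omega)
    rw [Module.End.mul_apply, ← Module.End.mul_apply (L ^ (e - c)), ← pow_add]
    by_cases hdeg : i + 2 * (e - c + j) = n + e
    · by_cases hcj : c ≤ j
      · rw [if_pos ⟨hcj, by omega⟩, show e - c + j = e + (j - c) by omega, pow_add,
          Module.End.mul_apply]
        apply hI.1
        have := hmem (j - c)
        rwa [show i + 2 * (j - c) = n - e by omega] at this
      · rw [if_neg (by omega), L_pow_gt hp (by omega), map_zero]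
    · rw [if_neg (by omega)]
      exact hI.2 _ hdeg _ (hmem _)
  have t2 : ∀ e ∈ Finset.Ico (c + 1) (n + 1), (L ^ (e - c) * θ e) ((L ^ j) a) =
      if e + (n - i) = 2 * j then (L ^ (j - c)) a else 0 := by
    intro e he
    rw [Finset.mem_Ico] at he
    have hI := hθ e (by omega) (by omega)
    rw [Module.End.mul_apply]
    by_cases hdeg : i + 2 * j = n + e
    · rw [if_pos (by omega)]
      have h1 : (L ^ j) a = (L ^ e) ((L ^ (j - e)) a) := by
        rw [← Module.End.mul_apply, ← pow_add]
        congr 2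
        omega
      rw [h1, hI.1, ← Module.End.mul_apply, ← pow_add]
      · congr 2
        omega
      · have := hmem (j - e)
        rwa [show i + 2 * (j - e) = n - e by omega] at this
    · rw [if_neg (by omega), hI.2 _ hdeg _ (hmem _), map_zero]
  rw [Finset.sum_congr rfl t1, Finset.sum_congr rfl t2]
  by_cases hcj : c ≤ j
  · rw [lam_pow hLam hi ha hp hj c hcj]
    by_cases h2 : 2 * j ≤ (n - i) + c
    · rw [Finset.sum_eq_single ((n - i) + 2 * c - 2 * j), if_pos ⟨hcj, by omega⟩,
        Finset.sum_eq_zero, add_zero]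
      · intro e he
        rw [Finset.mem_Ico] at he
        rw [if_neg (by omega)]
      · intro e _ hne
        rw [if_neg (by omega)]
      · intro hne
        exact absurd (Finset.mem_Ico.2 ⟨by omega, by omega⟩) hne
    · rw [Finset.sum_eq_zero, Finset.sum_eq_single (2 * j - (n - i)), if_pos (by omega), zero_add]
      · intro e _ hne
        rw [if_neg (by omega)]
      · intro hne
        exact absurd (Finset.mem_Ico.2 ⟨by omega, by omega⟩) hne
      · intro e he
        rw [Finset.mem_Ico] at he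
        rw [if_neg (by omega)]
  · rw [lam_pow_gt hLam hi ha hp hj (by omega), Finset.sum_eq_zero, Finset.sum_eq_zero, add_zero]
    · intro e he
      rw [Finset.mem_Ico] at he
      rw [if_neg (by omega)]
    · intro e _
      rw [if_neg (by omega)]

/-- The operator `L ^ j a ↦ (j choose s) L ^ (j - s) a` on the strings. -/
noncomputable def chooseOp (n s : ℕ) (L Lam : Module.End K V) : Module.End K V :=
  ∑ c ∈ Finset.Ico s (n + 1), (((c - 1).choose (s - 1) : ℚ) : K) • (L ^ (c - s) * Lam ^ c)

lemma chooseOp_apply (hLam : IsLam gr n L Lam) {s : ℕ} (hs : 1 ≤ s) {i : ℕ} (hi : i ≤ n)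
    {a : V} (ha : a ∈ gr i) (hp : (L ^ (n - i + 1)) a = 0) {j : ℕ} (hj : j ≤ n - i) :
    chooseOp n s L Lam ((L ^ j) a) = ((j.choose s : ℕ) : K) • (L ^ (j - s)) a := by
  rw [chooseOp, LinearMap.sum_apply]
  have t1 : ∀ c ∈ Finset.Ico s (n + 1),
      ((((c - 1).choose (s - 1) : ℚ) : K) • (L ^ (c - s) * Lam ^ c)) ((L ^ j) a) =
      (if c ≤ j then (((c - 1).choose (s - 1) : ℕ) : K) else 0) • (L ^ (j - s)) a := by
    intro c hc
    rw [Finset.mem_Ico] at hc
    rw [LinearMap.smul_apply, Module.End.mul_apply]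
    by_cases hcj : c ≤ j
    · rw [lam_pow hLam hi ha hp hj c hcj, if_pos hcj, ← Module.End.mul_apply, ← pow_add,
        show c - s + (j - c) = j - s by omega, Rat.cast_natCast]
    · rw [lam_pow_gt hLam hi ha hp hj (by omega), map_zero, smul_zero, if_neg hcj, zero_smul]
  rw [Finset.sum_congr rfl t1, ← Finset.sum_smul]
  congr 1
  rw [← Finset.sum_filter]
  have h1 : (Finset.Ico s (n + 1)).filter (fun c => c ≤ j) = Finset.Icc s j := by
    ext c
    simp only [Finset.mem_filter, Finset.mem_Ico, Finset.mem_Icc]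
    omega
  rw [h1]
  rcases Nat.eq_zero_or_pos j with rfl | hj0
  · rw [Finset.Icc_eq_empty (by omega), Finset.sum_empty, Nat.choose_eq_zero_of_lt (by omega),
      Nat.cast_zero]
  · have h2 := Nat.sum_Icc_choose (j - 1) (s - 1)
    rw [show j - 1 + 1 = j by omega, show s - 1 + 1 = s by omega] at h2
    rw [← h2, Nat.cast_sum]
    apply Finset.sum_nbij' (fun c => c - 1) (fun c => c + 1)
    · intro c hc
      simp only [Finset.mem_Icc] at hc ⊢
      omega
    · intro c hc
      simp only [Finset.mem_Icc] at hc ⊢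
      omega
    · intro c hc
      simp only [Finset.mem_Icc] at hc
      omega
    · intro c _
      omega
    · intro c _
      rfl

variable {U : Type*} [AddCommGroup U] [Module K U] {M : Module.End K U} {ι : V →ₗ[K] U}

/-- The iterated commutator of the restriction with the operator `chooseOp`. -/
theorem mixOp_pow_chooseOp (h : DirectSum.IsInternal gr) (hL : IsHom gr 2 L)
    (hbd : ∀ i, 2 * n + 1 ≤ i → gr i = ⊥) (hHL : HardLef gr n L) (hLam : IsLam gr n L Lam)
    {s : ℕ} (hs : 1 ≤ s) (hιL : ∀ a, ι (L a) = M (ι a)) (hker : ∀ j, ∀ a ∈ gr j, (L ^ s) a = 0 → ι a = 0) :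
    (mixOp L M (-1) ^ s) (ι ∘ₗ chooseOp n s L Lam) = ι := by
  have key : ∀ r ≤ s, ∀ i ≤ n, ∀ a ∈ gr i, (L ^ (n - i + 1)) a = 0 → ∀ j,
      ((mixOp L M (-1) ^ r) (ι ∘ₗ chooseOp n s L Lam)) ((L ^ j) a) =
        ((j.choose (s - r) : ℕ) : K) • ι ((L ^ (j - (s - r))) a) := by
    intro r
    induction r with
    | zero =>
      intro _ i hi a ha hp j
      rw [pow_zero, Module.End.one_apply, LinearMap.comp_apply, Nat.sub_zero]
      by_cases hj : j ≤ n - i
      · rw [chooseOp_apply hLam hs hi ha hp hj, map_smul]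
      · rw [L_pow_gt hp (by omega), map_zero, map_zero]
        by_cases hjs : s ≤ j
        · rw [hker _ ((L ^ (j - s)) a) (pow_L_mem hL ha _), smul_zero]
          rw [← Module.End.mul_apply, ← pow_add, show s + (j - s) = j by omega,
            L_pow_gt hp (by omega)]
        · rw [Nat.choose_eq_zero_of_lt (by omega), Nat.cast_zero, zero_smul]
    | succ r ih =>
      intro hr i hi a ha hp j
      obtain ⟨u, hu⟩ : ∃ u, s - r = u + 1 := ⟨s - r - 1, by omega⟩
      rw [pow_succ', Module.End.mul_apply, mixOp_apply, LinearMap.add_apply, LinearMap.comp_apply,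
        LinearMap.smul_apply, LinearMap.comp_apply, ← Module.End.mul_apply L, ← pow_succ',
        ih (by omega) i hi a ha hp (j + 1), ih (by omega) i hi a ha hp j, hu,
        show s - (r + 1) = u by omega, Nat.add_sub_add_right, map_smul]
      by_cases hj : u + 1 ≤ j
      · have h1 : M (ι ((L ^ (j - (u + 1))) a)) = ι ((L ^ (j - u)) a) := by
          rw [← hιL, ← Module.End.mul_apply L, ← pow_succ', show j - (u + 1) + 1 = j - u by omega]
        rw [h1, smul_smul, ← add_smul, Nat.choose_succ_succ]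
        congr 1
        push_cast
        ring
      · rw [Nat.choose_eq_zero_of_lt (show j < u + 1 by omega), Nat.cast_zero, zero_smul,
          smul_zero, add_zero, Nat.choose_succ_succ, Nat.choose_eq_zero_of_lt
          (show j < u + 1 by omega), add_zero]
  apply LinearMap.ext
  intro x
  refine lef_induction' h hL hbd hHL (p := fun x =>
    ((mixOp L M (-1) ^ s) (ι ∘ₗ chooseOp n s L Lam)) x = ι x) ?_ ?_ x
  · intro a b ha hb
    rw [map_add, map_add, ha, hb]
  · intro i hi a ha hp j
    rw [key s le_rfl i hi a ha hp j]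
    simp

end Lam

end Pool.Agent.R909
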