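import Pool.Agent.W534.HDefs
import Pool.Agent.W537.OneCycleDefs

/-!
# Linear sections of smaller dimension: definitions
-/

open CategoryTheory AlgebraicGeometry

universe u v

namespace Pool.Agent.R909

section Alg

variable {K : Type*} [Field K] {V : Type*} [AddCommGroup V] [Module K V]

/-- The operator `T` is the projection of the primitive decomposition `gr j = P j ⊕ L (gr (j - 2))`
to the second summand: it is zero on the primitive elements of `gr j` and sends `L b` to `b` for
`b` in `gr (j - 2)`. -/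
def SplitsOff (gr : ℕ → Submodule K V) (n : ℕ) (L T : V →ₗ[K] V) (j : ℕ) : Prop :=
  (∀ a ∈ gr j, (L ^ (n - j + 1)) a = 0 → T a = 0) ∧
    (2 ≤ j → ∀ b ∈ gr (j - 2), T (L b) = b)

/-- The operator `T` is the power `s` of the Lambda operator attached to `L`: it sends `L ^ j a` to
`L ^ (j - s) a` if `s ≤ j` and to zero if `j < s`, for `a` primitive of degree `i ≤ n` and
`j ≤ n - i`. -/
def IsLamPow (gr : ℕ → Submodule K V) (n : ℕ) (L T : V →ₗ[K] V) (s : ℕ) : Prop :=
  ∀ i ≤ n, ∀ a ∈ gr i, (L ^ (n - i + 1)) a = 0 → ∀ j ≤ n - i,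
    T ((L ^ j) a) = if s ≤ j then (L ^ (j - s)) a else 0

end Alg

open Pool.Agent.H914 Pool.Agent.W534 Pool.Agent.W537 VarClass Obj WeilCohomology

variable {k : Type u} [Field k] {𝒱 : VarClass k} {ops : CycleOps 𝒱}

/-- The cup product with the class of the divisor `D`. -/
noncomputable def lefOp (W : WeilCohomology.{u, v} ops) (X : 𝒱.Obj) (D : X.Cycles) :
    W.H X →ₗ[W.K] W.H X :=
  LinearMap.mulLeft W.K (W.cl X D)

/-- The morphism `i` from `Z` to `X` is like the inclusion of the intersection of `s` divisors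
linearly equivalent to the divisor `D`: `dim X = dim Z + s`, the class of `i_* Z` is the power `s`
of the class of `D`, and the pull-back `H^j(X) → H^j(Z)` is surjective for `j < dim Z` (one half of
the weak Lefschetz theorem). -/
structure IsSection (W : WeilCohomology.{u, v} ops) {X Z : 𝒱.Obj} (i : Z ⟶ X) (D : X.Cycles)
    (s : ℕ) : Prop where
  isDivisor : X.IsCyc 1 D
  dim_eq : X.dim = Z.dim + s
  cl_eq : W.cl X (ops.push i Z.V.fundCycle) = W.cl X D ^ s
  weak : WeakLefschetz W i

/-- Statement (a) in degree `j`: the inverse of the map `ξ ^ (n - j) : H^j(X) → H^(2n - j)(X)`,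
where `n = dim X` and `ξ` is the class of `D`, is induced by an algebraic cycle of codimension `j`
on `X × X` with rational coefficients. -/
def PartA (W : WeilCohomology.{u, v} ops) (X : 𝒱.Obj) (D : X.Cycles) (j : ℕ) : Prop :=
  ∃ z, InvertsLefschetz W X D j z

/-- Statement (b) in degree `j`: the projection `H^j(X) → H^(j - 2)(X)` of the primitive
decomposition `H^j(X) = P^j(X) ⊕ ξ H^(j - 2)(X)` is induced by an algebraic cycle of codimension
`dim X - 1` on `X × X` with rational coefficients. -/
def PartB (W : WeilCohomology.{u, v} ops) (X : 𝒱.Obj) (D : X.Cycles) (j : ℕ) : Prop :=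
  ∃ z, (X.prod X).IsCyc (X.dim - 1) z ∧
    SplitsOff (W.gr X) X.dim (lefOp W X D) (cycOp W X z) j

/-- The power `s` of the operator `Λ` is induced by an algebraic cycle of codimension `dim X - s` on
`X × X` with rational coefficients. -/
def LambdaPowerAlgebraic (W : WeilCohomology.{u, v} ops) (X : 𝒱.Obj) (D : X.Cycles) (s : ℕ) :
    Prop :=
  ∃ z, (X.prod X).IsCyc (X.dim - s) z ∧
    IsLamPow (W.gr X) X.dim (lefOp W X D) (cycOp W X z) s

/-- The class on `X × Z` of the (transposed) graph of `i : Z → X`, the image of `Z` under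
`(i, id)`. -/
noncomputable def graphClass (W : WeilCohomology.{u, v} ops) {X Z : 𝒱.Obj} (i : Z ⟶ X) :
    W.H (X.prod Z) :=
  W.cl (X.prod Z) (ops.push (Obj.lift i (𝟙 Z)) Z.V.fundCycle)

/-- The product of the class of `(D × Z - X × i^* D) ^ s` with `γ`. -/
noncomputable def mixMul (W : WeilCohomology.{u, v} ops) {X Z : 𝒱.Obj} (i : Z ⟶ X)
    (D : X.Cycles) (s : ℕ) (γ : W.H (X.prod Z)) : W.H (X.prod Z) :=
  W.cl (X.prod Z) (mixDiff ops i D) ^ s * γ

/-- The class of the graph of `i : Z → X` on `X × Z` is the product of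
`(D × Z - X × i^* D) ^ s` with an algebraic class of codimension `dim Z`. -/
def GraphDivisibleBy (W : WeilCohomology.{u, v} ops) {X Z : 𝒱.Obj} (i : Z ⟶ X) (D : X.Cycles)
    (s : ℕ) : Prop :=
  ∃ z, (X.prod Z).IsCyc Z.dim z ∧ mixMul W i D s (W.cl (X.prod Z) z) = graphClass W i

/-- The same with coefficients in the coefficient field `K` of the Weil cohomology theory: the
class of the graph of `i : Z → X` is the product of `(D × Z - X × i^* D) ^ s` with a `K`-linear
combination of classes of cycles of codimension `dim Z`. -/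
def GraphDivisibleBySpan (W : WeilCohomology.{u, v} ops) {X Z : 𝒱.Obj} (i : Z ⟶ X)
    (D : X.Cycles) (s : ℕ) : Prop :=
  ∃ γ ∈ spanCycles W (X.prod Z) Z.dim, mixMul W i D s γ = graphClass W i

end Pool.Agent.R909
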