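import Pool.Agent.R909.SecC
import Pool.Agent.R909.SecDefs

/-!
# Linear sections of smaller dimension
-/

open CategoryTheory AlgebraicGeometry Finset

universe u v

namespace Pool.Agent.R909

open Pool.Agent.H914 Pool.Agent.H447 Pool.Agent.W534 Pool.Agent.W537 VarClass Obj WeilCohomology

variable {k : Type u} [Field k] {𝒱 : VarClass k} {ops : CycleOps 𝒱}
  {W : WeilCohomology.{u, v} ops} {X Z : 𝒱.Obj} {i : Z ⟶ X} {D : X.Cycles} {s : ℕ}

/-- Adjoints of the iterated commutators. -/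
lemma adjoint_iter {L : Module.End W.K (W.H X)} {M : Module.End W.K (W.H Z)}
    (hLs : ∀ a b, W.tr X (L a * b) = W.tr X (a * L b))
    (hMs : ∀ a b, W.tr Z (M a * b) = W.tr Z (a * M b))
    {T : W.H X →ₗ[W.K] W.H Z} {S : W.H Z →ₗ[W.K] W.H X}
    (hTS : ∀ a b, W.tr Z (T a * b) = W.tr X (a * S b)) (r : ℕ) :
    ∀ a b, W.tr Z (((mixOp L M (-1) ^ r) T) a * b) =
      W.tr X (a * (((-(mixOp M L (-1))) ^ r) S) b) := by
  induction r with
  | zero => exact hTS
  | succ r ih =>
    intro a b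
    rw [pow_succ', Module.End.mul_apply, mixOp_apply, pow_succ', Module.End.mul_apply,
      LinearMap.neg_apply, mixOp_apply]
    simp only [LinearMap.add_apply, LinearMap.comp_apply, LinearMap.smul_apply, neg_smul, one_smul,
      LinearMap.neg_apply, add_mul, mul_add, map_add, neg_mul, mul_neg, map_neg, neg_add,
      neg_neg]
    rw [ih (L a) b, hMs, ih a (M b), hLs]
    ring

namespace IsSection

variable (h : IsSection W i D s)

include h

lemma push_map (a : W.H X) : W.push i (W.map i a) =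
    (LinearMap.mulLeft W.K (W.cl X D) ^ s) a := by
  have h1 := W.push_mul i 1 a
  rw [one_mul, ← W.cl_fund Z, ← W.cl_push, h.cl_eq] at h1
  rw [h1, LinearMap.pow_mulLeft]
  rfl

omit h in
lemma map_L (a : W.H X) : W.map i (LinearMap.mulLeft W.K (W.cl X D) a) =
    LinearMap.mulLeft W.K (W.cl Z (ops.pull i D)) (W.map i a) := by
  simp only [LinearMap.mulLeft_apply]
  rw [map_mul (W.map i), ← W.cl_pull]

lemma L_push (b : W.H Z) : LinearMap.mulLeft W.K (W.cl X D) (W.push i b) =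
    W.push i (LinearMap.mulLeft W.K (W.cl Z (ops.pull i D)) b) := by
  rw [LinearMap.mulLeft_apply, LinearMap.mulLeft_apply, W.mul_push i (W.cl_mem h.isDivisor),
    ← W.cl_pull]

lemma L_self (a b : W.H X) : W.tr X (LinearMap.mulLeft W.K (W.cl X D) a * b) =
    W.tr X (a * LinearMap.mulLeft W.K (W.cl X D) b) := by
  rw [LinearMap.mulLeft_apply, LinearMap.mulLeft_apply, W.even_comm (W.cl_mem h.isDivisor) a,
    mul_assoc]

lemma M_self (a b : W.H Z) : W.tr Z (LinearMap.mulLeft W.K (W.cl Z (ops.pull i D)) a * b) =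
    W.tr Z (a * LinearMap.mulLeft W.K (W.cl Z (ops.pull i D)) b) := by
  rw [LinearMap.mulLeft_apply, LinearMap.mulLeft_apply,
    W.even_comm (W.cl_mem (pull_mem_one h.isDivisor)) a, mul_assoc]

/-- The kernel of the restriction. -/
lemma map_eq_zero (hHL : HardLefschetz W X D) {j : ℕ} {a : W.H X} (ha : a ∈ W.gr X j)
    (h0 : (LinearMap.mulLeft W.K (W.cl X D) ^ s) a = 0) : W.map i a = 0 := by
  by_cases hj : j ≤ Z.dim
  · have h1 : a = 0 := by
      apply (hHL j (by have := h.dim_eq; omega)).1 a ha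
      rw [show X.dim - j = (Z.dim - j) + s by have := h.dim_eq; omega, pow_add,
        Module.End.mul_apply, h0, map_zero]
    rw [h1, map_zero]
  · apply W.nondeg
    intro c
    refine gr_induction (W.isInternal Z) (p := fun c => W.tr Z (W.map i a * c) = 0) ?_ ?_ c
    · intro r c hc
      by_cases hr : j + r = 2 * Z.dim
      · obtain ⟨a', -, rfl⟩ := h.weak r (by omega) c hc
        rw [← W.tr_push, h.push_map, h0, zero_mul, map_zero]
      · exact W.tr_eq_zero (W.mul_mem (W.map_mem i ha) hc) hr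
    · intro c c' hc hc'
      rw [mul_add, map_add, hc, hc', add_zero]

/-- **The power `s` of the lowering operator from an operator `T` of degree `-s` whose iterated
commutator is the restriction.** -/
theorem f_pow_kop {f : Module.End W.K (W.H X)}
    (t : Sl2 (wt (W.isInternal X) X.dim) (LinearMap.mulLeft W.K (W.cl X D)) f)
    (hf : IsHom (W.gr X) (-2) f) {T : W.H X →ₗ[W.K] W.H Z} (hT : T ∈ KOp W X Z (-s))
    (hTι : (mixOp (LinearMap.mulLeft W.K (W.cl X D))
      (LinearMap.mulLeft W.K (W.cl Z (ops.pull i D))) (-1) ^ s) T = (W.map i).toLinearMap) :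
    f ^ s ∈ KOp W X X (-s) := by
  set L := LinearMap.mulLeft W.K (W.cl X D) with hL
  set M := LinearMap.mulLeft W.K (W.cl Z (ops.pull i D)) with hM
  obtain ⟨S, hS, hTS⟩ := KOp.exists_adjoint hT
  have hS0 : S ∈ KOp W Z X 0 := KOp.cast hS (by rw [h.dim_eq]; push_cast; ring)
  have hadj := adjoint_iter (fun a b => h.L_self a b) (fun a b => h.M_self a b) hTS
  have hSγ : (((-(mixOp M L (-1))) ^ s) S) = W.push i := by
    apply LinearMap.ext
    intro b
    rw [← sub_eq_zero]
    apply nondeg_right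
    intro a
    rw [mul_sub, map_sub, tr_mul_push, ← hadj s a b, hTι, AlgHom.toLinearMap_apply, sub_self]
  set T' : ℕ → (W.H X →ₗ[W.K] W.H Z) := fun r => (mixOp L M (-1) ^ (s - r)) T with hT'
  set S' : ℕ → (W.H Z →ₗ[W.K] W.H X) := fun r => ((-(mixOp M L (-1))) ^ (s - r)) S with hS'
  have hT0 : T' 0 = (W.map i).toLinearMap := by rw [hT', ← hTι]; rfl
  have hS00 : S' 0 = W.push i := by rw [hS', ← hSγ]; rfl
  have hTs : T' s = T := by rw [hT']; simp
  have hSs : S' s = S := by rw [hS']; simp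
  have hmem : S ∘ₗ T ∈ KOp W X X (-s) := KOp.cast (KOp.comp hS0 hT) (by ring)
  have key := f_pow_eq (W.isInternal X) t hf (T := T') (S := S') (s := s) (M := M)
    (by
      intro a
      rw [hT0]
      exact map_L a)
    (by
      intro r hr a
      have e : T' r = mixOp L M (-1) (T' (r + 1)) := by
        rw [hT']
        beta_reduce
        rw [show s - r = (s - (r + 1)) + 1 by omega, pow_succ', Module.End.mul_apply]
      rw [e, mixOp_apply]
      simp only [LinearMap.add_apply, LinearMap.comp_apply, LinearMap.smul_apply, neg_smul,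
        one_smul]
      abel)
    (by
      intro b
      rw [hS00]
      exact h.L_push b)
    (by
      intro r hr b
      have e : S' r = -(mixOp M L (-1) (S' (r + 1))) := by
        rw [hS']
        beta_reduce
        rw [show s - r = (s - (r + 1)) + 1 by omega, pow_succ', Module.End.mul_apply]
        rfl
      rw [e, mixOp_apply]
      simp only [LinearMap.add_apply, LinearMap.comp_apply, LinearMap.smul_apply, neg_smul,
        one_smul, LinearMap.neg_apply]
      abel)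
    (by
      intro a
      rw [hT0, hS00, AlgHom.toLinearMap_apply]
      exact h.push_map a)
    (by
      rw [hTs, hSs]
      have := (rop_opAlg (W := W) (X := X)).kspan.hom (mem_KS_iff.2 hmem)
      rwa [show (2 : ℤ) * -(s : ℤ) = -((2 * s : ℕ) : ℤ) by push_cast; ring] at this)
  rw [key, hTs, hSs]
  exact Submodule.smul_mem _ _ hmem

end IsSection

/-- From one power of the lowering operator to injections in all larger degrees. -/
theorem inj_of_f_pow (hD : X.IsCyc 1 D) (hHL : HardLefschetz W X D)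
    {f : Module.End W.K (W.H X)}
    (hfv : ∀ i ≤ X.dim, ∀ a ∈ W.gr X i,
      (LinearMap.mulLeft W.K (W.cl X D) ^ (X.dim - i + 1)) a = 0 → ∀ j ≤ X.dim - i,
      f ((LinearMap.mulLeft W.K (W.cl X D) ^ j) a) =
        ((j : W.K) * (((X.dim - i : ℕ) : W.K) - j + 1)) •
          (LinearMap.mulLeft W.K (W.cl X D) ^ (j - 1)) a)
    (hs : 1 ≤ s) (hfs : f ^ s ∈ KOp W X X (-s)) :
    ∀ c, s ≤ c → c ≤ X.dim → ∃ ν ∈ KS (ROp W X) (-c), ∀ a ∈ W.gr X (X.dim + c),
      ν a = 0 → a = 0 := by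
  intro c hsc hc
  set L := LinearMap.mulLeft W.K (W.cl X D) with hL
  have hOA := (rop_opAlg (W := W) (X := X)).kspan
  have hLK : L ∈ KS (ROp W X) 1 := Submodule.subset_span (rop_mulLeft hD)
  have hfK : f ^ s ∈ KS (ROp W X) (-s) := mem_KS_iff.2 hfs
  obtain ⟨E, hE⟩ := exists_left_inv (W.isInternal X) (isHom_mulLeft W hD) W_hbd hHL hfv hs hsc hc
  refine ⟨(f ^ s) ^ (c / s) * (L ^ (s - c % s) * f ^ s), ?_, ?_⟩
  · refine hOA.cast (hOA.mul (hOA.pow hfK (c / s)) (hOA.mul (hOA.pow hLK (s - c % s)) hfK)) ?_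
    have h1 : s * (c / s) + c % s = c := Nat.div_add_mod c s
    have h2 : c % s < s := Nat.mod_lt _ (by omega)
    have h3 : ((s - c % s : ℕ) : ℤ) = (s : ℤ) - (c % s : ℕ) := by
      rw [Nat.cast_sub h2.le]
    rw [h3]
    have h4 : (s : ℤ) * ((c / s : ℕ) : ℤ) + ((c % s : ℕ) : ℤ) = c := by exact_mod_cast h1
    rw [← h4]
    ring
  · intro a ha h0
    obtain ⟨b, hb, hba⟩ := (hHL (X.dim - c) (by omega)).2 a
      (by rw [show 2 * X.dim - (X.dim - c) = X.dim + c by omega]; exact ha)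
    rw [show X.dim - (X.dim - c) = c by omega] at hba
    have h1 := hE b hb
    rw [← hL] at hba
    rw [hba, h0, map_zero] at h1
    rw [← hba, ← h1, map_zero]

/-- From injections in the degrees `c ≥ s` to (a) and to the inverses which vanish in the other
degrees. -/
theorem exists_theta_ge (hD : X.IsCyc 1 D) (hHL : HardLefschetz W X D)
    (hν : ∀ c, s ≤ c → c ≤ X.dim → ∃ ν ∈ KS (ROp W X) (-c), ∀ a ∈ W.gr X (X.dim + c),
      ν a = 0 → a = 0) :
    ∀ c, s ≤ c → c ≤ X.dim → ∃ θ, ROp W X (-c) θ ∧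
      IsInv (W.gr X) X.dim (LinearMap.mulLeft W.K (W.cl X D)) c θ := by
  intro c hsc hc
  exact descent_ge rop_opAlg (W.isInternal X) W_hbd rop_str (rop_mulLeft hD) hHL hν
    (X.dim - c) c (by omega) hsc

lemma partA_of_theta (hD : X.IsCyc 1 D) {j : ℕ} (hj : j ≤ X.dim)
    {θ : Module.End W.K (W.H X)} (hθ : ROp W X (-((X.dim - j : ℕ) : ℤ)) θ)
    (hI : IsInv (W.gr X) X.dim (LinearMap.mulLeft W.K (W.cl X D)) (X.dim - j) θ) :
    PartA W X D j := by
  obtain ⟨z, hz, hzθ⟩ := (rop_iff.1 hθ).exists_cyc (p := j) (by omega)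
  refine ⟨z, (inverts_iff hD W hj).2 ⟨hz, ?_⟩⟩
  rw [hzθ]
  exact hI.1

lemma theta_of_partA (hD : X.IsCyc 1 D) {j : ℕ} (hj : j ≤ X.dim) (hA : PartA W X D j) :
    ∃ θ, QOp W X X (-((X.dim - j : ℕ) : ℤ)) θ ∧ ∀ a ∈ W.gr X j,
      θ ((LinearMap.mulLeft W.K (W.cl X D) ^ (X.dim - j)) a) = a := by
  obtain ⟨z, hz⟩ := hA
  obtain ⟨hzc, hz1⟩ := (inverts_iff hD W hj).1 hz
  refine ⟨_, QOp.gen (p := j) (by omega) hzc, ?_⟩
  intro a ha
  exact hz1 a (by rwa [show X.dim - (X.dim - j) = j by omega])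

lemma inj_of_partA (hD : X.IsCyc 1 D) (hHL : HardLefschetz W X D) {m : ℕ}
    (hms : X.dim = m + s) (hA : ∀ j ≤ m, PartA W X D j) :
    ∀ c, s ≤ c → c ≤ X.dim → ∃ ν ∈ KS (ROp W X) (-c), ∀ a ∈ W.gr X (X.dim + c),
      ν a = 0 → a = 0 := by
  intro c hsc hc
  obtain ⟨θ, hθ, hθ'⟩ := theta_of_partA hD (j := X.dim - c) (by omega) (hA _ (by omega))
  refine ⟨θ, mem_KS_iff.2 (KOp.cast hθ.kop (by omega)), ?_⟩
  intro a ha h0
  obtain ⟨b, hb, hba⟩ := (hHL (X.dim - c) (by omega)).2 a
    (by rw [show 2 * X.dim - (X.dim - c) = X.dim + c by omega]; exact ha)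
  have h1 := hθ' b hb
  rw [hba, h0] at h1
  rw [← hba, ← h1, map_zero]

/-- Statement (b) in degree `j + 2` follows from (a) in degree `j`. -/
lemma partB_of_partA (hD : X.IsCyc 1 D) {j : ℕ} (hj : j + 2 ≤ X.dim)
    (hA : PartA W X D j) : PartB W X D (j + 2) := by
  obtain ⟨θ, hθ, hθ'⟩ := theta_of_partA hD (j := j) (by omega) hA
  set L := LinearMap.mulLeft W.K (W.cl X D) with hL
  have hOA := rop_opAlg (W := W) (X := X)
  have h1 : QOp W X X (-1) (θ * L ^ (X.dim - (j + 2) + 1)) := by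
    rw [← rop_iff]
    refine hOA.cast (hOA.mul (rop_iff.2 hθ) (hOA.pow (rop_mulLeft hD) _)) ?_
    omega
  obtain ⟨z, hz, hzθ⟩ := h1.exists_cyc (p := X.dim - 1) (by omega)
  refine ⟨z, hz, ?_, ?_⟩
  · intro a _ h0
    rw [cycOp, hzθ, Module.End.mul_apply]
    have h2 : (L ^ (X.dim - (j + 2) + 1)) a = 0 := h0
    rw [h2, map_zero]
  · intro _ b hb
    rw [Nat.add_sub_cancel] at hb
    have h2 := hθ' b hb
    rw [show X.dim - j = (X.dim - (j + 2) + 1) + 1 by omega, pow_succ, Module.End.mul_apply] at h2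
    rw [cycOp, hzθ, Module.End.mul_apply]
    exact h2

/-- Statement (b) in degrees zero and one. -/
lemma partB_low {j : ℕ} (hj : j < 2) : PartB W X D j := by
  refine ⟨0, SmVar.IsCyc.zero _ _, ?_, ?_⟩
  · intro a _ _
    rw [cycOp, map_zero, corr_zero, LinearMap.zero_apply]
  · intro h2
    omega

lemma isLamPow_lam_pow {Lam : Module.End W.K (W.H X)}
    (hLam : IsLam (W.gr X) X.dim (LinearMap.mulLeft W.K (W.cl X D)) Lam) :
    IsLamPow (W.gr X) X.dim (LinearMap.mulLeft W.K (W.cl X D)) (Lam ^ s) s := by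
  intro i hi a ha hp j hj
  by_cases hsj : s ≤ j
  · rw [if_pos hsj, lam_pow hLam hi ha hp hj s hsj]
  · rw [if_neg hsj, lam_pow_gt hLam hi ha hp hj (by omega)]

/-- An operator acting like the power `s` of `Λ` on the strings is the power `s` of `Λ`. -/
lemma eq_lam_pow (hD : X.IsCyc 1 D) (hHL : HardLefschetz W X D) {Lam : Module.End W.K (W.H X)}
    (hLam : IsLam (W.gr X) X.dim (LinearMap.mulLeft W.K (W.cl X D)) Lam)
    {φ : Module.End W.K (W.H X)}
    (hφ : IsLamPow (W.gr X) X.dim (LinearMap.mulLeft W.K (W.cl X D)) φ s) : φ = Lam ^ s := by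
  apply LinearMap.ext
  intro x
  refine lef_induction' (W.isInternal X) (isHom_mulLeft W hD) W_hbd hHL
    (p := fun x => φ x = (Lam ^ s) x) ?_ ?_ x
  · intro a b ha hb
    rw [map_add, map_add, ha, hb]
  · intro i hi a ha hp j
    by_cases hj : j ≤ X.dim - i
    · rw [hφ i hi a ha hp j hj, isLamPow_lam_pow hLam i hi a ha hp j hj]
    · rw [L_pow_gt hp (by omega), map_zero, map_zero]

/-- From one power of `Λ` to injections in all larger degrees. -/
theorem inj_of_lambdaPower (hD : X.IsCyc 1 D) (hHL : HardLefschetz W X D) (hs : 1 ≤ s)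
    (hΛ : LambdaPowerAlgebraic W X D s) (hsn : s ≤ X.dim) :
    ∀ c, s ≤ c → c ≤ X.dim → ∃ ν ∈ KS (ROp W X) (-c), ∀ a ∈ W.gr X (X.dim + c),
      ν a = 0 → a = 0 := by
  intro c hsc hc
  set L := LinearMap.mulLeft W.K (W.cl X D) with hL
  obtain ⟨Lam, -, hLam⟩ := exists_isLam (W.isInternal X) (isHom_mulLeft W hD) W_hbd hHL
  obtain ⟨z, hz, hzΛ⟩ := hΛ
  have hOA := (rop_opAlg (W := W) (X := X)).kspan
  have hLK : L ∈ KS (ROp W X) 1 := Submodule.subset_span (rop_mulLeft hD)
  have hfK : Lam ^ s ∈ KS (ROp W X) (-s) := by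
    rw [← eq_lam_pow hD hHL hLam hzΛ]
    exact mem_KS_iff.2 (KOp.gen (p := X.dim - s) (by omega) hz)
  have h1 : s * (c / s) + c % s = c := Nat.div_add_mod c s
  have h2 : c % s < s := Nat.mod_lt _ (by omega)
  refine ⟨(Lam ^ s) ^ (c / s) * (L ^ (s - c % s) * Lam ^ s), ?_, ?_⟩
  · refine hOA.cast (hOA.mul (hOA.pow hfK (c / s)) (hOA.mul (hOA.pow hLK (s - c % s)) hfK)) ?_
    have h3 : ((s - c % s : ℕ) : ℤ) = (s : ℤ) - (c % s : ℕ) := by
      rw [Nat.cast_sub h2.le]
    rw [h3]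
    have h4 : (s : ℤ) * ((c / s : ℕ) : ℤ) + ((c % s : ℕ) : ℤ) = c := by exact_mod_cast h1
    rw [← h4]
    ring
  · intro a ha h0
    obtain ⟨b, hb, hba⟩ := (hHL (X.dim - c) (by omega)).2 a
      (by rw [show 2 * X.dim - (X.dim - c) = X.dim + c by omega]; exact ha)
    rw [show X.dim - (X.dim - c) = c by omega, ← hL] at hba
    have key := lef_induction (isHom_mulLeft W hD) W_hbd hHL
      (p := fun i b => i + c = X.dim →
        ((Lam ^ s) ^ (c / s) * (L ^ (s - c % s) * Lam ^ s)) ((L ^ c) b) = b)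
      (by
        intro i a b ha hb hi
        simp only [map_add]
        rw [ha hi, hb hi])
      (by
        intro i hi a ha hp j hij
        have e1 : (L ^ c) ((L ^ j) a) = (L ^ (j + c)) a := by
          rw [← Module.End.mul_apply, ← pow_add, add_comm]
        have e2 : (L ^ (s - c % s)) ((L ^ (j + c - s)) a) = (L ^ (j + c - c % s)) a := by
          rw [← Module.End.mul_apply, ← pow_add]
          congr 2
          omega
        rw [← hL, e1, Module.End.mul_apply, Module.End.mul_apply,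
          lam_pow hLam hi ha hp (j := j + c) (by omega) s (by omega), e2,
          ← pow_mul, lam_pow hLam hi ha hp (j := j + c - c % s) (by omega) (s * (c / s))
            (by omega), show j + c - c % s - s * (c / s) = j by omega])
    have h5 := key (X.dim - c) (by omega) b hb 0 (by omega)
    rw [pow_zero, Module.End.one_apply, hba, h0] at h5
    rw [← hba, ← h5, map_zero]

/-- The powers of `Λ` from the inverses. -/
theorem lam_pow_rop (hD : X.IsCyc 1 D) (hHL : HardLefschetz W X D)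
    (hθ : ∀ c, s ≤ c → c ≤ X.dim → ∃ θ, ROp W X (-c) θ ∧
      IsInv (W.gr X) X.dim (LinearMap.mulLeft W.K (W.cl X D)) c θ)
    {Lam : Module.End W.K (W.H X)}
    (hLam : IsLam (W.gr X) X.dim (LinearMap.mulLeft W.K (W.cl X D)) Lam) {c : ℕ} (hsc : s ≤ c) :
    ROp W X (-c) (Lam ^ c) := by
  have hOA := rop_opAlg (W := W) (X := X)
  have h1 : ∀ e, ∃ θ : Module.End W.K (W.H X), s ≤ e → e ≤ X.dim → ROp W X (-e) θ ∧
      IsInv (W.gr X) X.dim (LinearMap.mulLeft W.K (W.cl X D)) e θ := by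
    intro e
    by_cases he : s ≤ e ∧ e ≤ X.dim
    · obtain ⟨θ, h2, h3⟩ := hθ e he.1 he.2
      exact ⟨θ, fun _ _ => ⟨h2, h3⟩⟩
    · exact ⟨0, fun h1 h2 => absurd ⟨h1, h2⟩ he⟩
  choose θ hθ' using h1
  rw [lam_pow_eq (W.isInternal X) (isHom_mulLeft W hD) W_hbd hHL hLam (c := c) (θ := θ)
    (fun e he he' => (hθ' e (by omega) he').2)]
  apply hOA.add
  · apply hOA.sum
    intro e he
    rw [Finset.mem_Ico] at he
    refine hOA.cast (hOA.mul (hθ' e (by omega) (by omega)).1 (hOA.pow (rop_mulLeft hD) _)) ?_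
    rw [Nat.cast_sub he.1]
    ring
  · apply hOA.sum
    intro e he
    rw [Finset.mem_Ico] at he
    refine hOA.cast (hOA.mul (hOA.pow (rop_mulLeft hD) _) (hθ' e (by omega) (by omega)).1) ?_
    rw [Nat.cast_sub (by omega)]
    ring

lemma mixDiff_pow (hD : X.IsCyc 1 D) (r : ℕ) (c : W.H (X.prod Z)) :
    W.corr (W.cl _ (mixDiff ops i D) ^ r * c) =
      (mixOp (LinearMap.mulLeft W.K (W.cl X D))
        (LinearMap.mulLeft W.K (W.cl Z (ops.pull i D))) (-1) ^ r) (W.corr c) := by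
  induction r with
  | zero => rw [pow_zero, one_mul]; rfl
  | succ r ih =>
    rw [pow_succ', mul_assoc, corr_mixDiff hD, ih, pow_succ', Module.End.mul_apply, mixOp_apply]
    apply LinearMap.ext
    intro a
    simp only [LinearMap.add_apply, LinearMap.comp_apply, LinearMap.neg_apply,
      LinearMap.smul_apply, neg_smul, one_smul, sub_eq_add_neg]

/-- **Sections of smaller dimension and the Lefschetz standard conjecture.** -/
theorem section_tfae (h : IsSection W i D s) (hs : 1 ≤ s) (hHL : HardLefschetz W X D) :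
    List.TFAE [
      ∀ j ≤ Z.dim, PartA W X D j,
      (∀ j ≤ Z.dim, PartA W X D j) ∧ (∀ j ≤ Z.dim + 2, j ≤ X.dim → PartB W X D j),
      LambdaPowerAlgebraic W X D s,
      GraphDivisibleBy W i D s,
      GraphDivisibleBySpan W i D s] := by
  have hD := h.isDivisor
  have hdim := h.dim_eq
  obtain ⟨f, t, hf, hfv⟩ := exists_sl2 (W.isInternal X) (isHom_mulLeft W hD) W_hbd hHL
  obtain ⟨Lam, -, hLam⟩ := exists_isLam (W.isInternal X) (isHom_mulLeft W hD) W_hbd hHL
  have hback : (∀ c, s ≤ c → c ≤ X.dim → ∃ ν ∈ KS (ROp W X) (-c), ∀ a ∈ W.gr X (X.dim + c),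
      ν a = 0 → a = 0) → ∀ j ≤ Z.dim, PartA W X D j := by
    intro hν j hj
    obtain ⟨θ, hθ, hI⟩ := exists_theta_ge hD hHL hν (X.dim - j) (by omega) (by omega)
    exact partA_of_theta hD (by omega) hθ hI
  tfae_have 1 → 2 := by
    intro hA
    refine ⟨hA, ?_⟩
    intro j hj hjn
    by_cases h2 : j < 2
    · exact partB_low h2
    · obtain ⟨j, rfl⟩ : ∃ j', j = j' + 2 := ⟨j - 2, by omega⟩
      exact partB_of_partA hD hjn (hA j (by omega))
  tfae_have 2 → 1 := fun h => h.1
  tfae_have 1 → 3 := by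
    intro hA
    have hθ := exists_theta_ge hD hHL (inj_of_partA hD hHL hdim hA)
    obtain ⟨z, hz, hzΛ⟩ := (rop_iff.1 (lam_pow_rop hD hHL hθ hLam le_rfl)).exists_cyc
      (p := X.dim - s) (by omega)
    refine ⟨z, hz, ?_⟩
    rw [cycOp, hzΛ]
    exact isLamPow_lam_pow hLam
  tfae_have 3 → 1 := fun hΛ => hback (inj_of_lambdaPower hD hHL hs hΛ (by omega))
  tfae_have 1 → 4 := by
    intro hA
    have hθ := exists_theta_ge hD hHL (inj_of_partA hD hHL hdim hA)
    have hOA := rop_opAlg (W := W) (X := X)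
    have hchoose : ROp W X (-s) (chooseOp X.dim s (LinearMap.mulLeft W.K (W.cl X D)) Lam) := by
      apply hOA.sum
      intro c hc
      rw [Finset.mem_Ico] at hc
      apply hOA.smul
      refine hOA.cast (hOA.mul (hOA.pow (rop_mulLeft hD) _) (lam_pow_rop hD hHL hθ hLam hc.1)) ?_
      rw [Nat.cast_sub hc.1]
      ring
    obtain ⟨z, hz, hzT⟩ := ((qop_pull i).comp (rop_iff.1 hchoose)).exists_cyc (p := Z.dim)
      (by omega)
    refine ⟨z, hz, ?_⟩
    rw [← sub_eq_zero]
    apply corr_inj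
    rw [corr_sub'', mixMul, graphClass, mixDiff_pow hD, hzT, corr_graph, sub_eq_zero]
    exact mixOp_pow_chooseOp (W.isInternal X) (isHom_mulLeft W hD) W_hbd hHL hLam hs
      (fun a => IsSection.map_L a) (fun _ a ha h0 => h.map_eq_zero hHL ha h0)
  tfae_have 4 → 5 := by
    rintro ⟨z, hz, hzG⟩
    exact ⟨W.cl _ z, Submodule.subset_span ⟨Z.dim, rfl, z, hz, rfl⟩, hzG⟩
  tfae_have 5 → 1 := by
    rintro ⟨γ, hγ, hγG⟩
    apply hback
    apply inj_of_f_pow hD hHL hfv hs
    have hT : W.corr γ ∈ KOp W X Z (-s) := mem_KOp_iff.2 ⟨γ, by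
      rwa [show (X.dim : ℤ) + -s = Z.dim by rw [hdim]; push_cast; ring], rfl⟩
    apply h.f_pow_kop t hf hT
    rw [mixMul, graphClass] at hγG
    rw [← mixDiff_pow hD, hγG, corr_graph]
  tfae_finish

end Pool.Agent.R909
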