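import Pool.Agent.R909.SecD
import Pool.Agent.H447R3.DegB

/-!
# The conjecture A in one codimension on the product with a linear section
-/

open CategoryTheory AlgebraicGeometry Finset

universe u v

namespace Pool.Agent.R909

open Pool.Agent.H914 Pool.Agent.H447 Pool.Agent.W534 Pool.Agent.W537 VarClass Obj WeilCohomology

section Abs

variable {K V U : Type*} [Field K] [AddCommGroup V] [Module K V] [AddCommGroup U]
  [Module K U]

/-- The triple with the opposite raising and lowering operators. -/
lemma sl2_neg {h e f : Module.End K V} (t : Sl2 h e f) : Sl2 h (-e) (-f) := by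
  constructor
  · rw [neg_mul_neg, neg_mul_neg, t.ef]
  · rw [mul_neg, neg_mul, mul_neg, ← t.he]
    abel
  · rw [mul_neg, neg_mul, mul_neg, neg_neg, sub_neg_eq_add]
    have := t.hf
    have h1 : -(h * f) + f * h = -(h * f - f * h) := by abel
    rw [h1, this, neg_neg]

lemma mixOp_neg (L : Module.End K V) (M : Module.End K U) :
    mixOp L (-M) 1 = mixOp L M (-1) := by
  apply LinearMap.ext
  intro φ
  rw [mixOp_apply, mixOp_apply]
  apply LinearMap.ext
  intro a
  simp

end Abs

variable {k : Type u} [Field k] {𝒱 : VarClass k} {ops : CycleOps 𝒱}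
  {W : WeilCohomology.{u, v} ops} {X Z : 𝒱.Obj} {i : Z ⟶ X} {D : X.Cycles} {s : ℕ}

/-- The weights of the correspondences. -/
lemma weight_mix' (hdim : X.dim = Z.dim + s) {d : ℤ} {φ : W.H X →ₗ[W.K] W.H Z}
    (hφ : φ ∈ KOp W X Z d) :
    mixOp (-(wt (W.isInternal X) X.dim)) (wt (W.isInternal Z) Z.dim) 1 φ =
      ((2 * d + s : ℤ) : W.K) • φ := by
  apply gr_ext (W.isInternal X)
  intro j a ha
  have h1 := KOp.isHom hφ j a (by rw [grZ_natCast]; exact ha)
  simp only [mixOp_apply, LinearMap.add_apply, LinearMap.comp_apply, one_smul,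
    LinearMap.neg_apply, LinearMap.smul_apply, map_neg]
  rw [wt, scal_apply _ _ ha, map_smul]
  by_cases hj : 0 ≤ (j : ℤ) + 2 * d
  · obtain ⟨r, hr⟩ := Int.eq_ofNat_of_zero_le hj
    rw [hr, grZ_natCast] at h1
    rw [wt, scal_apply _ _ h1, ← neg_smul, ← add_smul]
    congr 1
    have h2 : (r : W.K) = (j : W.K) + 2 * (d : W.K) := by
      have := congrArg (fun x : ℤ => (x : W.K)) hr
      push_cast at this
      exact this.symm
    rw [node, node, hdim]
    push_cast
    rw [h2]
    ring
  · rw [grZ_of_neg (by omega)] at h1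
    rw [(Submodule.mem_bot _).1 h1]
    simp

namespace IsSection

variable (h : IsSection W i D s)

include h

lemma push_inj {j : ℕ} (hj : Z.dim < j) {b : W.H Z} (hb : b ∈ W.gr Z j)
    (h0 : W.push i b = 0) : b = 0 := by
  apply W.nondeg
  intro c
  refine gr_induction (W.isInternal Z) (p := fun c => W.tr Z (b * c) = 0) ?_ ?_ c
  · intro r c hc
    by_cases hr : j + r = 2 * Z.dim
    · obtain ⟨a, _, rfl⟩ := h.weak r (by omega) c hc
      rw [← W.tr_push, h0, zero_mul, map_zero]
    · exact W.tr_eq_zero (W.mul_mem hb hc) hr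
  · intro c c' hc hc'
    rw [mul_add, map_add, hc, hc', add_zero]

omit h in
lemma map_L_pow (r : ℕ) (a : W.H X) :
    W.map i ((LinearMap.mulLeft W.K (W.cl X D) ^ r) a) =
      (LinearMap.mulLeft W.K (W.cl Z (ops.pull i D)) ^ r) (W.map i a) := by
  induction r with
  | zero => rfl
  | succ r ih => rw [pow_succ', Module.End.mul_apply, map_L, ih, pow_succ', Module.End.mul_apply]

/-- Hard Lefschetz for the section. -/
lemma hardLefschetz (hHL : HardLefschetz W X D) : HardLefschetz W Z (ops.pull i D) := by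
  have hdim := h.dim_eq
  intro j hj
  rcases hj.lt_or_eq with hj | rfl
  · constructor
    · intro b hb h0
      obtain ⟨a, ha, rfl⟩ := h.weak j hj b hb
      rw [← map_L_pow] at h0
      have h1 : (LinearMap.mulLeft W.K (W.cl X D) ^ (X.dim - j)) a = 0 := by
        rw [show X.dim - j = s + (Z.dim - j) by omega, pow_add, Module.End.mul_apply,
          ← h.push_map, h0, map_zero]
      rw [(hHL j (by omega)).1 a ha h1, map_zero]
    · intro b hb
      have hb' : W.push i b ∈ W.gr X (2 * X.dim - j) := by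
        have := W.push_mem i hb
        rwa [show ((2 * Z.dim - j : ℕ) : ℤ) + 2 * ((X.dim : ℤ) - Z.dim) =
          ((2 * X.dim - j : ℕ) : ℤ) by omega, grZ_natCast] at this
      obtain ⟨a, ha, hab⟩ := (hHL j (by omega)).2 _ hb'
      refine ⟨W.map i a, W.map_mem i ha, ?_⟩
      rw [← sub_eq_zero]
      apply h.push_inj (j := 2 * Z.dim - j) (by omega)
      · apply Submodule.sub_mem _ _ hb
        have := pow_L_mem (isHom_mulLeft W (pull_mem_one (i := i) (ops := ops) h.isDivisor))
          (W.map_mem i ha) (Z.dim - j)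
        rwa [show j + 2 * (Z.dim - j) = 2 * Z.dim - j by omega] at this
      · rw [map_sub, ← map_L_pow, h.push_map, ← Module.End.mul_apply, ← pow_add,
          show s + (Z.dim - j) = X.dim - j by omega, hab, sub_self]
  · constructor
    · intro b _ h0
      simpa using h0
    · intro b hb
      refine ⟨b, ?_, ?_⟩
      · rwa [show 2 * Z.dim - Z.dim = Z.dim by omega] at hb
      · simp

/-- Injectivity of the iterated (anti)commutator. -/
lemma kop_inj' (hHL : HardLefschetz W X D) {ε : W.K} (hε : ε = 1 ∨ ε = -1)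
    {φ : W.H X →ₗ[W.K] W.H Z} (hφ : φ ∈ KOp W X Z (-s))
    (h0 : (mixOp (LinearMap.mulLeft W.K (W.cl X D))
      (LinearMap.mulLeft W.K (W.cl Z (ops.pull i D))) ε ^ s) φ = 0) : φ = 0 := by
  have hE := pull_mem_one (i := i) (ops := ops) h.isDivisor
  obtain ⟨f, t, hf, -⟩ := exists_sl2 (W.isInternal X) (isHom_mulLeft W h.isDivisor) W_hbd hHL
  obtain ⟨f', t', hf', -⟩ := exists_sl2 (W.isInternal Z) (isHom_mulLeft W hE) W_hbd
    (h.hardLefschetz hHL)
  have hw := weight_mix' h.dim_eq hφ
  have hw' : mixOp (-(wt (W.isInternal X) X.dim)) (wt (W.isInternal Z) Z.dim) 1 φ =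
      -((s : ℕ) : W.K) • φ := by
    rw [hw]
    congr 1
    push_cast
    ring
  rcases hε with rfl | rfl
  · exact Pool.Agent.H447.e_pow_inj (sl2_mix t t') hw' h0
  · rw [← mixOp_neg] at h0
    exact Pool.Agent.H447.e_pow_inj (sl2_mix t (sl2_neg t')) hw' h0

end IsSection

lemma mixOp_pow_mem (hD : X.IsCyc 1 D) (ε : W.K) {d : ℤ} {φ : W.H X →ₗ[W.K] W.H Z}
    (hφ : φ ∈ KOp W X Z d) (r : ℕ) :
    (mixOp (LinearMap.mulLeft W.K (W.cl X D)) (LinearMap.mulLeft W.K (W.cl Z (ops.pull i D))) ε
      ^ r) φ ∈ KOp W X Z (d + r) := by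
  induction r with
  | zero => simpa using hφ
  | succ r ih =>
    rw [pow_succ', Module.End.mul_apply]
    exact KOp.cast (mixOp_mem hD ε ih) (by push_cast; ring)

/-- The equality of two ranks implies that the graph is divisible. -/
theorem divisible_of_rank (h : IsSection W i D s) (hHL : HardLefschetz W X D)
    (hr : cycleRank W (X.prod Z) Z.dim = cycleRank W (X.prod Z) X.dim) :
    GraphDivisibleBySpan W i D s := by
  have hdim := h.dim_eq
  obtain ⟨T, hT, hT2⟩ := surj_of_finrank_eq (A := KOp W X Z (-s)) (B := KOp W X Z 0)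
    (T := mixOp (LinearMap.mulLeft W.K (W.cl X D))
      (LinearMap.mulLeft W.K (W.cl Z (ops.pull i D))) (-1) ^ s)
    (fun x hx => KOp.cast (mixOp_pow_mem h.isDivisor _ hx s) (by ring))
    (fun x hx h0 => h.kop_inj' hHL (Or.inr rfl) hx h0)
    (by
      rw [finrank_KOp, finrank_KOp, add_zero, show (X.dim : ℤ) + -s = Z.dim by omega]
      exact hr) _ (qop_pull i).kop
  obtain ⟨γ, hγ, rfl⟩ := mem_KOp_iff.1 hT
  rw [show (X.dim : ℤ) + -s = Z.dim by omega] at hγ
  refine ⟨γ, hγ, ?_⟩
  rw [← sub_eq_zero]
  apply corr_inj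
  rw [corr_sub'', mixMul, graphClass, mixDiff_pow h.isDivisor, corr_graph, hT2, sub_self]

/-- The conjecture A in codimension `dim Z` implies the equality of the two ranks. -/
theorem rank_of_A (h : IsSection W i D s) (hHL : HardLefschetz W X D)
    (hA : LefschetzAIn W (X.prod Z) (mixSum ops i D) Z.dim) :
    cycleRank W (X.prod Z) Z.dim = cycleRank W (X.prod Z) X.dim := by
  have hdim := h.dim_eq
  have h1 := finrank_eq_of_surj (A := KOp W X Z (-s)) (B := KOp W X Z 0)
    (T := mixOp (LinearMap.mulLeft W.K (W.cl X D))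
      (LinearMap.mulLeft W.K (W.cl Z (ops.pull i D))) 1 ^ s)
    (fun x hx => KOp.cast (mixOp_pow_mem h.isDivisor _ hx s) (by ring))
    (fun x hx h0 => h.kop_inj' hHL (Or.inl rfl) hx h0) ?_
  · rw [finrank_KOp, finrank_KOp, add_zero, show (X.dim : ℤ) + -s = Z.dim by omega] at h1
    exact h1
  · intro y hy
    induction hy using Submodule.span_induction with
    | mem x hx =>
      obtain ⟨p, hp, z, hz, rfl⟩ := hx
      obtain rfl : p = X.dim := by omega
      obtain ⟨z', hz', h2⟩ := hA z (by
        rwa [dim_prod, show X.dim + Z.dim - Z.dim = X.dim by omega])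
      refine ⟨_, KOp.gen (p := Z.dim) (by omega) hz', ?_⟩
      rw [← h2, cl_divPow, mixOp_one_pow h.isDivisor, dim_prod,
        show X.dim + Z.dim - 2 * Z.dim = s by omega]
    | zero => exact ⟨0, Submodule.zero_mem _, map_zero _⟩
    | add x y _ _ hx hy =>
      obtain ⟨a, ha, rfl⟩ := hx
      obtain ⟨b, hb, rfl⟩ := hy
      exact ⟨a + b, Submodule.add_mem _ ha hb, map_add _ _ _⟩
    | smul c x _ hx =>
      obtain ⟨a, ha, rfl⟩ := hx
      exact ⟨c • a, Submodule.smul_mem _ _ ha, map_smul _ _ _⟩

/-- Injectivity implies one inequality between the ranks. -/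
theorem rank_le (h : IsSection W i D s) (hHL : HardLefschetz W X D) :
    cycleRank W (X.prod Z) Z.dim ≤ cycleRank W (X.prod Z) X.dim := by
  have hdim := h.dim_eq
  have e1 : cycleRank W (X.prod Z) Z.dim = Module.finrank W.K (KOp W X Z (-s)) := by
    rw [finrank_KOp, show (X.dim : ℤ) + -s = Z.dim by omega]; rfl
  have e2 : cycleRank W (X.prod Z) X.dim = Module.finrank W.K (KOp W X Z 0) := by
    rw [finrank_KOp, add_zero]; rfl
  rw [e1, e2]
  set φ : KOp W X Z (-s) →ₗ[W.K] KOp W X Z 0 :=
    ((mixOp (LinearMap.mulLeft W.K (W.cl X D))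
      (LinearMap.mulLeft W.K (W.cl Z (ops.pull i D))) 1 ^ s).restrict
      (fun x hx => KOp.cast (mixOp_pow_mem h.isDivisor _ hx s) (by ring))) with hφ
  apply LinearMap.finrank_le_finrank_of_injective (f := φ)
  intro x y hxy
  apply Subtype.ext
  rw [← sub_eq_zero]
  apply h.kop_inj' hHL (Or.inl rfl) (Submodule.sub_mem _ x.2 y.2)
  rw [map_sub, sub_eq_zero]
  exact congrArg Subtype.val hxy

/-- The conjecture D for the cycles of dimension `dim Z` implies the equality of the two ranks. -/
theorem rank_of_D (h : IsSection W i D s) (hHL : HardLefschetz W X D)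
    (hN : HomEqNumIn W (X.prod Z) X.dim) :
    cycleRank W (X.prod Z) Z.dim = cycleRank W (X.prod Z) X.dim := by
  refine le_antisymm (rank_le h hHL) ?_
  set A := spanCycles W (X.prod Z) X.dim with hA
  set B := spanCycles W (X.prod Z) Z.dim with hB
  set φ : A →ₗ[W.K] Module.Dual W.K B :=
    { toFun := fun a => W.tr (X.prod Z) ∘ₗ LinearMap.mulRight W.K (a : W.H (X.prod Z)) ∘ₗ B.subtype
      map_add' := by
        intro a b
        ext c
        simp [mul_add]
      map_smul' := by
        intro a b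
        ext c
        simp } with hφ
  have hinj : Function.Injective φ := by
    rw [← LinearMap.ker_eq_bot, LinearMap.ker_eq_bot']
    rintro ⟨a, ha⟩ h0
    apply Subtype.ext
    apply hN.span (p := Z.dim) (by rw [dim_prod]) ha
    intro w hw
    exact congrArg (fun F => F ⟨W.cl _ w, Submodule.subset_span ⟨Z.dim, rfl, w, hw, rfl⟩⟩) h0
  have h1 := LinearMap.finrank_le_finrank_of_injective hinj
  rwa [Subspace.dual_finrank_eq] at h1

/-- The conjecture A in codimension `q` on `Y` for one divisor with hard Lefschetz implies the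
equality of two ranks. -/
theorem rank_of_A' {Y : 𝒱.Obj} {E : Y.Cycles} (hE : Y.IsCyc 1 E) (hHL : HardLefschetz W Y E)
    {q c : ℕ} (hq : 2 * q + c = Y.dim) (hA : LefschetzAIn W Y E q) :
    cycleRank W Y q = cycleRank W Y ((q + c : ℕ) : ℤ) := by
  refine finrank_eq_of_surj (T := LinearMap.mulLeft W.K (W.cl Y E) ^ c) ?_ ?_ ?_
  · intro x hx
    induction hx using Submodule.span_induction with
    | mem x hx =>
      obtain ⟨p, hp, z, hz, rfl⟩ := hx
      obtain rfl : p = q := by exact_mod_cast hp
      rw [← cl_divPow]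
      refine Submodule.subset_span ⟨p + c, rfl, _, ?_, rfl⟩
      clear hq hA
      induction c with
      | zero => exact hz
      | succ c ih =>
        rw [divPow, Function.iterate_succ_apply', show p + (c + 1) = 1 + (p + c) by ring]
        exact ops.mul_mem hE ih
    | zero => rw [map_zero]; exact Submodule.zero_mem _
    | add x y _ _ hx hy => rw [map_add]; exact Submodule.add_mem _ hx hy
    | smul c x _ hx => rw [map_smul]; exact Submodule.smul_mem _ _ hx
  · intro x hx h0
    refine (hHL (2 * q) (by omega)).1 x ?_ ?_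
    · induction hx using Submodule.span_induction with
      | mem x hx =>
        obtain ⟨p, hp, z, hz, rfl⟩ := hx
        obtain rfl : p = q := by exact_mod_cast hp
        exact W.cl_mem hz
      | zero => exact Submodule.zero_mem _
      | add x y _ _ hx hy => exact span_gr (Submodule.add_mem _ ‹_› ‹_›)
      | smul c x _ hx => exact span_gr (Submodule.smul_mem _ _ ‹_›)
    · rw [show Y.dim - 2 * q = c by omega]
      exact h0
  · intro y hy
    induction hy using Submodule.span_induction with
    | mem x hx =>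
      obtain ⟨p, hp, z, hz, rfl⟩ := hx
      obtain rfl : p = q + c := by exact_mod_cast hp
      obtain ⟨z', hz', h2⟩ := hA z (by rwa [show Y.dim - q = q + c by omega])
      refine ⟨W.cl Y z', Submodule.subset_span ⟨q, rfl, z', hz', rfl⟩, ?_⟩
      rw [← h2, cl_divPow, show Y.dim - 2 * q = c by omega]
    | zero => exact ⟨0, Submodule.zero_mem _, map_zero _⟩
    | add x y _ _ hx hy =>
      obtain ⟨a, ha, rfl⟩ := hx
      obtain ⟨b, hb, rfl⟩ := hy
      exact ⟨a + b, Submodule.add_mem _ ha hb, map_add _ _ _⟩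
    | smul c x _ hx =>
      obtain ⟨a, ha, rfl⟩ := hx
      exact ⟨c • a, Submodule.smul_mem _ _ ha, map_smul _ _ _⟩

/-- **The product with a linear section.** -/
theorem product_criterion (h : IsSection W i D s) (hs : 1 ≤ s) (hHL : HardLefschetz W X D)
    (hY : (∃ E, (X.prod Z).IsCyc 1 E ∧ HardLefschetz W (X.prod Z) E ∧
        LefschetzAIn W (X.prod Z) E Z.dim) ∨
      HomEqNumIn W (X.prod Z) X.dim ∨
      cycleRank W (X.prod Z) Z.dim = cycleRank W (X.prod Z) X.dim) :
    LambdaPowerAlgebraic W X D s ∧ ∀ j ≤ Z.dim, PartA W X D j := by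
  have hr : cycleRank W (X.prod Z) Z.dim = cycleRank W (X.prod Z) X.dim := by
    rcases hY with ⟨E, hE, hHLE, hA⟩ | hY | hY
    · have := rank_of_A' hE hHLE (q := Z.dim) (c := s) (by
        rw [dim_prod]; have := h.dim_eq; omega) hA
      rw [this, show Z.dim + s = X.dim from h.dim_eq.symm]
    · exact rank_of_D h hHL hY
    · exact hY
  have hG := divisible_of_rank h hHL hr
  exact ⟨((section_tfae h hs hHL).out 4 2).1 hG, ((section_tfae h hs hHL).out 4 0).1 hG⟩

end Pool.Agent.R909
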