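import Pool.Agent.R909.SsDefs

/-!
# Semisimplicity: linear algebra
-/

open Polynomial

namespace Pool.Agent.R909

variable {K V : Type*} [Field K] [AddCommGroup V] [Module K V]

/-- Semisimple eigenvalues on the whole space. -/
def Diag (T : Module.End K V) : Prop :=
  ∀ (μ : K) (x : V), T (T x - μ • x) - μ • (T x - μ • x) = 0 → T x - μ • x = 0

lemma diag_of_isSemisimple [Module.Finite K V] {T : Module.End K V} (h : T.IsSemisimple) :
    Diag T := by
  intro μ x hx
  have h1 : T.genEigenspace μ 2 = T.eigenspace μ :=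
    h.isFinitelySemisimple.genEigenspace_eq_eigenspace μ (by norm_num)
  have h2 : x ∈ T.genEigenspace μ 2 := by
    have h3 : x ∈ T.genEigenspace μ ((2 : ℕ) : ℕ∞) := by
      rw [Module.End.mem_genEigenspace_nat, LinearMap.mem_ker, pow_two, Module.End.mul_apply]
      simpa [LinearMap.sub_apply] using hx
    exact h3
  rw [h1, Module.End.mem_eigenspace_iff] at h2
  rw [h2, sub_self]

lemma isSemisimple_of_diag [IsAlgClosed K] [Module.Finite K V] {T : Module.End K V}
    (h : Diag T) : T.IsSemisimple := by
  have hne : minpoly K T ≠ 0 := minpoly.ne_zero (Algebra.IsIntegral.isIntegral T)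
  refine Module.End.isSemisimple_of_squarefree_aeval_eq_zero (p := minpoly K T) ?_ (minpoly.aeval K T)
  rw [squarefree_iff_no_irreducibles hne]
  intro p hp hdvd
  obtain ⟨r, hr⟩ := hdvd
  have hdeg : p.degree = 1 := IsAlgClosed.degree_eq_one_of_irreducible K hp
  obtain ⟨a, b, ha, hab⟩ : ∃ a b : K, a ≠ 0 ∧ p = C a * (X - C b) := by
    have h1 := eq_X_add_C_of_degree_le_one (p := p) hdeg.le
    have h2 : p.coeff 1 ≠ 0 := by
      have : p.leadingCoeff ≠ 0 := leadingCoeff_ne_zero.2 hp.ne_zero
      rwa [leadingCoeff, natDegree_eq_of_degree_eq_some hdeg] at this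
    refine ⟨p.coeff 1, -(p.coeff 0) / p.coeff 1, h2, ?_⟩
    rw [mul_sub, ← C_mul, mul_div_cancel₀ _ h2, C_neg, sub_neg_eq_add]
    exact h1
  have hpT : ∀ x, aeval T p x = a • (T x - b • x) := by
    intro x
    rw [hab, map_mul, map_sub, aeval_C, aeval_X, aeval_C, Module.End.mul_apply,
      Module.algebraMap_end_apply, LinearMap.sub_apply, Module.algebraMap_end_apply]
  have hkey : aeval T (p * r) = 0 := by
    apply LinearMap.ext
    intro x
    have h1 : aeval T (minpoly K T) x = 0 := by rw [minpoly.aeval]; rfl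
    rw [hr, map_mul, map_mul, Module.End.mul_apply, Module.End.mul_apply, hpT, hpT] at h1
    rw [map_mul, Module.End.mul_apply, hpT, LinearMap.zero_apply]
    have h2 : T (T (aeval T r x) - b • aeval T r x) - b • (T (aeval T r x) - b • aeval T r x) =
        0 := by
      rw [map_smul, smul_comm b, ← smul_sub] at h1
      exact (smul_eq_zero.1 ((smul_eq_zero.1 h1).resolve_left ha)).resolve_left ha
    rw [h b _ h2, smul_zero]
  have h3 := minpoly.dvd K T hkey
  rw [hr, mul_assoc] at h3
  have hpr : p * r ≠ 0 := by
    intro h0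
    rw [mul_assoc, h0, mul_zero] at hr
    exact hne hr
  obtain ⟨s, hs⟩ := h3
  have h4 : p * s = 1 := by
    have : (p * r) * (p * s) = (p * r) * 1 := by
      rw [mul_one]
      conv_rhs => rw [hs]
      ring
    exact mul_left_cancel₀ hpr this
  exact hp.not_isUnit (IsUnit.of_mul_eq_one _ h4)

lemma diag_iff [IsAlgClosed K] [Module.Finite K V] {T : Module.End K V} :
    T.IsSemisimple ↔ Diag T := ⟨diag_of_isSemisimple, isSemisimple_of_diag⟩

/-- Generalised eigenvectors of the adjoint. -/
lemma exists_dual {V' : Type*} [AddCommGroup V'] [Module K V'] [Module.Finite K V']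
    {B : V →ₗ[K] V' →ₗ[K] K} (hB : ∀ y, (∀ z, B y z = 0) → y = 0) {T : Module.End K V}
    {T' : Module.End K V'} {c l m : K} (hT : ∀ a b, B (T a) (T' b) = c * B a b) (hlm : l * m = c)
    (hc : c ≠ 0) {x : V} (h0 : T (T x - l • x) - l • (T x - l • x) = 0)
    (h1 : T x - l • x ≠ 0) :
    ∃ x', T' (T' x' - m • x') - m • (T' x' - m • x') = 0 ∧ T' x' - m • x' ≠ 0 := by
  have hl : l ≠ 0 := by rintro rfl; rw [zero_mul] at hlm; exact hc hlm.symm
  have hm : m ≠ 0 := by rintro rfl; rw [mul_zero] at hlm; exact hc hlm.symm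
  by_contra hcon
  push Not at hcon
  set y := T x - l • x with hy
  have hTx : T x = l • x + y := by rw [hy]; abel
  have hTy : T y = l • y := sub_eq_zero.1 h0
  clear_value y
  set S : Module.End K V' := T' - m • 1 with hS
  have hSa : ∀ z, S z = T' z - m • z := fun z => rfl
  -- `ker S` and the range of `S` are complementary
  have hdis : Disjoint (LinearMap.ker S) (LinearMap.range S) := by
    rw [Submodule.disjoint_def]
    rintro z hz ⟨w, rfl⟩
    rw [LinearMap.mem_ker, hSa, hSa] at hz
    rw [hSa]
    exact hcon w hz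
  have hsup : LinearMap.ker S ⊔ LinearMap.range S = ⊤ :=
    Submodule.eq_top_of_disjoint _ _ (by
      rw [add_comm, LinearMap.finrank_range_add_finrank_ker]) hdis
  apply h1
  apply hB
  intro z
  have hz : z ∈ LinearMap.ker S ⊔ LinearMap.range S := by rw [hsup]; trivial
  obtain ⟨z₁, hz₁, z₂, ⟨w, rfl⟩, rfl⟩ := Submodule.mem_sup.1 hz
  rw [LinearMap.mem_ker, hSa, sub_eq_zero] at hz₁
  rw [map_add, hSa, map_sub, map_smul, smul_eq_mul]
  -- the first part
  have e1 : B y z₁ = 0 := by
    have e2 := hT x z₁
    simp only [hTx, hz₁, map_add, map_smul, LinearMap.add_apply, LinearMap.smul_apply,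
      smul_eq_mul] at e2
    have e3 : m * B y z₁ = 0 := by linear_combination e2 - B x z₁ * hlm
    exact (mul_eq_zero.1 e3).resolve_left hm
  have e4 : B y (T' w) - m * B y w = 0 := by
    have e5 := hT y w
    rw [hTy, map_smul, LinearMap.smul_apply, smul_eq_mul, ← hlm] at e5
    have e6 : l * (B y (T' w) - m * B y w) = 0 := by linear_combination e5
    exact (mul_eq_zero.1 e6).resolve_left hl
  rw [e1, e4, add_zero]

/-- Linearly independent vectors and symmetric tensors. -/
lemma tmul_add_ne {y z : V} {s : K} (hz : z ≠ 0) (hyz : ∀ c : K, y ≠ c • z) :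
    TensorProduct.tmul K y z + s • TensorProduct.tmul K z y ≠ 0 := by
  intro h0
  have hy : y ∉ Submodule.span K {z} := by
    intro hy
    obtain ⟨c, hc⟩ := Submodule.mem_span_singleton.1 hy
    exact hyz c hc.symm
  obtain ⟨f, hf, hf0⟩ := Submodule.exists_dual_map_eq_bot_of_notMem hy inferInstance
  have hfz : f z = 0 := by
    have : f z ∈ (Submodule.span K {z}).map f :=
      Submodule.mem_map_of_mem (Submodule.mem_span_singleton_self z)
    rw [hf0] at this
    exact (Submodule.mem_bot _).1 this
  have h1 := congrArg ((TensorProduct.lid K V).toLinearMap ∘ₗ LinearMap.rTensor V f) h0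
  simp [hfz] at h1
  rcases h1 with h1 | h1
  · exact hf h1
  · exact hz h1

/-- A single Jordan block of size two. -/
lemma mult_two {T : Module.End K V} {U : Submodule K V} (hU : ∀ a ∈ U, T a ∈ U) {l : K} {x y : V}
    (hx : x ∈ U) (hTx : T x = l • x + y) (hTy : T y = l • y) (hy : y ≠ 0)
    (hker : ∀ z ∈ U, T z = l • z → ∃ c : K, z = c • y) (hx' : ∀ w ∈ U, T w ≠ l • w + x) :
    algMultiplicity T U l = 2 := by
  have hyU : y ∈ U := by
    have h1 : y = T x - l • x := by rw [hTx]; abel
    rw [h1]
    exact Submodule.sub_mem _ (hU x hx) (Submodule.smul_mem _ _ hx)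
  have hli : LinearIndependent K ![x, y] := by
    rw [LinearIndependent.pair_iff]
    intro a b hab
    have h1 := congrArg T hab
    rw [map_add, map_smul, map_smul, hTx, hTy, map_zero] at h1
    have h2 : a • y = 0 := by
      have h3 : a • y = (a • (l • x + y) + b • l • y) - l • (a • x + b • y) := by
        simp only [smul_add, smul_smul, mul_comm l]
        abel
      rw [h3, h1, hab, smul_zero, sub_zero]
    have ha := (smul_eq_zero.1 h2).resolve_right hy
    rw [ha, zero_smul, zero_add] at hab
    exact ⟨ha, (smul_eq_zero.1 hab).resolve_right hy⟩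
  have heq : (T.maxGenEigenspace l ⊓ U : Submodule K V) = Submodule.span K (Set.range ![x, y]) := by
    apply le_antisymm
    · rintro g ⟨hg, hgU⟩
      rw [SetLike.mem_coe, Module.End.mem_maxGenEigenspace] at hg
      obtain ⟨r, hr⟩ := hg
      suffices h : ∃ a b : K, g = a • x + b • y by
        obtain ⟨a, b, rfl⟩ := h
        exact Submodule.add_mem _ (Submodule.smul_mem _ _ (Submodule.subset_span ⟨0, rfl⟩))
          (Submodule.smul_mem _ _ (Submodule.subset_span ⟨1, rfl⟩))
      induction r generalizing g with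
      | zero =>
        refine ⟨0, 0, ?_⟩
        rw [pow_zero, Module.End.one_apply] at hr
        rw [hr, zero_smul, zero_smul, add_zero]
      | succ r ih =>
        have h1 : (T - l • (1 : Module.End K V)) g = T g - l • g := rfl
        rw [pow_succ, Module.End.mul_apply, h1] at hr
        obtain ⟨a, b, hab⟩ := ih
          (Submodule.sub_mem _ (hU g hgU) (Submodule.smul_mem _ _ hgU)) hr
        by_cases ha : a = 0
        · rw [ha, zero_smul, zero_add] at hab
          have h2 : T (g - b • x) = l • (g - b • x) := by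
            rw [map_sub, map_smul, hTx, smul_sub, smul_add, smul_comm l b]
            have : T g = l • g + b • y := by rw [← hab]; abel
            rw [this]
            abel
          obtain ⟨c, hc⟩ := hker _ (Submodule.sub_mem _ hgU (Submodule.smul_mem _ _ hx)) h2
          exact ⟨b, c, by rw [← hc]; abel⟩
        · exfalso
          refine hx' (a⁻¹ • (g - b • x)) (Submodule.smul_mem _ _
            (Submodule.sub_mem _ hgU (Submodule.smul_mem _ _ hx))) ?_
          have h2 : T g = l • g + (a • x + b • y) := by rw [← hab]; abel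
          rw [map_smul, map_sub, map_smul, hTx, h2]
          have h3 : l • g + (a • x + b • y) - b • (l • x + y) = l • (g - b • x) + a • x := by
            rw [smul_sub, smul_add, smul_comm l b]; abel
          rw [h3, smul_add, smul_smul a⁻¹ a, inv_mul_cancel₀ ha, one_smul, smul_comm]
    · rw [Submodule.span_le]
      rintro _ ⟨i, rfl⟩
      have h1 : ∀ g, (T - l • (1 : Module.End K V)) g = T g - l • g := fun g => rfl
      fin_cases i
      · refine ⟨Module.End.mem_maxGenEigenspace _ _ _ |>.2 ⟨2, ?_⟩, hx⟩
        change ((T - l • (1 : Module.End K V)) ^ 2 : Module.End K V) x = 0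
        rw [pow_two, Module.End.mul_apply, h1 x, hTx, add_sub_cancel_left, h1, hTy, sub_self]
      · refine ⟨Module.End.mem_maxGenEigenspace _ _ _ |>.2 ⟨1, ?_⟩, hyU⟩
        change ((T - l • (1 : Module.End K V)) ^ 1 : Module.End K V) y = 0
        rw [pow_one, h1, hTy, sub_self]
  rw [algMultiplicity, heq, finrank_span_eq_card hli, Fintype.card_fin]

end Pool.Agent.R909
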