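import Pool.Agent.R909.SsA
import Pool.Agent.R909.DsqD

/-!
# Frobenius on the cohomology of a square
-/

open CategoryTheory AlgebraicGeometry Finset

universe u v

namespace Pool.Agent.R909

open Pool.Agent.H914 Pool.Agent.H447 Pool.Agent.W534 Pool.Agent.W537 VarClass Obj WeilCohomology

variable {k : Type u} [Field k] {𝒱 : VarClass k} {ops : CycleOps 𝒱}
  {W : WeilCohomology.{u, v} ops} {q : ℕ} {F : Frobenius W q} {X Y Z V P B : 𝒱.Obj}

lemma q_ne (F : Frobenius W q) : (q : W.K) ≠ 0 := by
  have := F.pos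
  exact_mod_cast this.ne'

lemma frob_apply (a : W.H X) : frob F X a = W.map (F.Fr X) a := rfl

lemma frob_mem {i : ℕ} {a : W.H X} (ha : a ∈ W.gr X i) : frob F X a ∈ W.gr X i :=
  W.map_mem _ ha

lemma frob_mul (a b : W.H X) : frob F X (a * b) = frob F X a * frob F X b :=
  map_mul (W.map (F.Fr X)) a b

lemma frob_map (f : X ⟶ Y) (a : W.H Y) : frob F X (W.map f a) = W.map f (frob F Y a) := by
  rw [frob_apply, frob_apply, ← W.map_comp, ← W.map_comp, F.comm]

lemma frob_tr (a : W.H X) : W.tr X (frob F X a) = (q : W.K) ^ X.dim * W.tr X a := by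
  refine gr_induction (W.isInternal X)
    (p := fun a => W.tr X (frob F X a) = (q : W.K) ^ X.dim * W.tr X a) ?_ ?_ a
  · intro i a ha
    by_cases hi : i = 2 * X.dim
    · subst hi
      rw [frob_apply, F.deg ha, map_smul, smul_eq_mul]
    · rw [W.tr_eq_zero (frob_mem ha) hi, W.tr_eq_zero ha hi, mul_zero]
  · intro a b ha hb
    rw [map_add, map_add, map_add, ha, hb, mul_add]

lemma frob_pair (a b : W.H X) :
    W.tr X (frob F X a * frob F X b) = (q : W.K) ^ X.dim * W.tr X (a * b) := by
  rw [← frob_mul, frob_tr]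

lemma frob_surj (F : Frobenius W q) (X : 𝒱.Obj) : Function.Surjective (frob F X) := by
  apply LinearMap.surjective_of_injective
  rw [← LinearMap.ker_eq_bot, LinearMap.ker_eq_bot']
  intro a ha
  apply W.nondeg
  intro b
  have h1 := frob_pair (F := F) a b
  rw [ha, zero_mul, map_zero] at h1
  exact (mul_eq_zero.1 h1.symm).resolve_left (pow_ne_zero _ (q_ne F))

lemma frob_push (f : X ⟶ Y) (a : W.H X) :
    (q : W.K) ^ X.dim • frob F Y (W.push f a) = (q : W.K) ^ Y.dim • W.push f (frob F X a) := by
  rw [← sub_eq_zero]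
  apply W.nondeg
  intro b'
  obtain ⟨b, rfl⟩ := frob_surj F Y b'
  rw [sub_mul, map_sub, smul_mul_assoc, smul_mul_assoc, map_smul, map_smul, frob_pair, W.tr_push,
    W.tr_push, ← frob_map, frob_pair, smul_eq_mul, smul_eq_mul]
  ring

lemma frob_prod (a : W.H X) (b : W.H Y) :
    frob F (X.prod Y) (W.map (fst X Y) a * W.map (snd X Y) b) =
      W.map (fst X Y) (frob F X a) * W.map (snd X Y) (frob F Y b) := by
  rw [frob_mul, frob_map, frob_map]

/-- Correspondences commute with Frobenius up to a power of `q`. -/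
lemma frob_kop {d : ℤ} {φ : W.H X →ₗ[W.K] W.H Y} (hφ : φ ∈ KOp W X Y d) (a : W.H X) :
    frob F Y (φ a) = (q : W.K) ^ d • φ (frob F X a) := by
  have hq := q_ne F
  induction hφ using Submodule.span_induction with
  | mem x hx =>
    obtain ⟨p, hp, z, hz, rfl⟩ := hx
    rw [corr_apply, corr_apply]
    have h1 := frob_push (F := F) (snd X Y) (W.cl _ z * W.map (fst X Y) a)
    rw [frob_mul, frob_map, frob_apply (W.cl _ z), F.cyc hz, smul_mul_assoc, map_smul, smul_smul,
      dim_prod] at h1
    have h2 : ∀ (c : W.K) (x y : W.H Y), c ≠ 0 → c • x = c • y → x = y := fun c x y hc h =>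
      smul_right_injective _ hc h
    refine h2 ((q : W.K) ^ (X.dim + Y.dim)) _ _ (pow_ne_zero _ hq) ?_
    rw [h1, smul_smul]
    congr 1
    rw [← zpow_natCast, ← zpow_natCast, ← zpow_natCast, ← zpow_add₀ hq, ← zpow_add₀ hq]
    congr 1
    push_cast
    linarith
  | zero => rw [LinearMap.zero_apply, LinearMap.zero_apply, map_zero, smul_zero]
  | add x y _ _ hx hy =>
    rw [LinearMap.add_apply, LinearMap.add_apply, map_add, hx, hy, smul_add]
  | smul c x _ hx =>
    rw [LinearMap.smul_apply, LinearMap.smul_apply, map_smul, hx, smul_comm]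

/-- The eigenvalue `q ^ n` on the invariant classes of degree `2 n` on `X × X` is semisimple. -/
def SymSemisimple (F : Frobenius W q) (X : 𝒱.Obj) : Prop :=
  ∀ c ∈ W.gr (X.prod X) (2 * X.dim), W.map (swap X X) c = c →
    frob F _ (frob F _ c - (q : W.K) ^ X.dim • c) -
      (q : W.K) ^ X.dim • (frob F _ c - (q : W.K) ^ X.dim • c) = 0 →
    frob F _ c - (q : W.K) ^ X.dim • c = 0

lemma symSemisimple_of_hilbert (hY : IsHilbertSquare W Y X P) (h : SemisimpleAt F Y X.dim) :
    SymSemisimple F X := by
  obtain ⟨α, β, γ, δ, hα, hβ, hγ, hδ, hs⟩ := hY.maps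
  intro c hc hcs h0
  have hαF : ∀ c, frob F Y (α c) = α (frob F _ c) := by
    intro c
    rw [frob_kop hα, zpow_zero, one_smul]
  have h1 : α c ∈ W.gr Y (2 * X.dim) := by
    have := KOp.isHom hα (2 * X.dim : ℕ) c (by rw [grZ_natCast]; exact hc)
    rwa [mul_zero, add_zero, grZ_natCast] at this
  have h2 := h (α c) h1 (by
    rw [hαF, ← map_smul, ← map_sub, hαF, ← map_smul, ← map_sub, h0, map_zero])
  rw [hαF, ← map_smul, ← map_sub] at h2
  have h3 := hs.inv (u := frob F _ c - (q : W.K) ^ X.dim • c) (by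
    rw [map_sub, map_smul, ← frob_map, hcs])
  rw [← h3, h2, map_zero]

/-- Eigenvectors and the invariants. -/
lemma sym_key (h : SymSemisimple F X) {i : ℕ} (hi : i ≤ 2 * X.dim) {x y z : W.H X}
    (hx : x ∈ W.gr X i) (hz : z ∈ W.gr X (2 * X.dim - i)) {l m : W.K}
    (hFx : frob F X x = l • x + y) (hFy : frob F X y = l • y) (hFz : frob F X z = m • z)
    (hlm : l * m = (q : W.K) ^ X.dim) :
    W.map (fst X X) y * W.map (snd X X) z +
      W.map (swap X X) (W.map (fst X X) y * W.map (snd X X) z) = 0 := by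
  have hq := q_ne F
  have hm : m ≠ 0 := by rintro rfl; rw [mul_zero] at hlm; exact pow_ne_zero _ hq hlm.symm
  set c₀ := W.map (fst X X) x * W.map (snd X X) z with hc₀
  set e := W.map (fst X X) y * W.map (snd X X) z with he
  have h1 : frob F _ c₀ = (q : W.K) ^ X.dim • c₀ + m • e := by
    rw [hc₀, he, frob_prod, hFx, hFz, map_add, map_smul, map_smul, add_mul, smul_mul_assoc,
      mul_smul_comm, mul_smul_comm, smul_smul, hlm]
  have h2 : frob F _ e = (q : W.K) ^ X.dim • e := by
    rw [he, frob_prod, hFy, hFz, map_smul, map_smul, smul_mul_assoc, mul_smul_comm, smul_smul, hlm]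
  have hmem : c₀ ∈ W.gr (X.prod X) (2 * X.dim) := by
    have := W.mul_mem (W.map_mem (fst X X) hx) (W.map_mem (snd X X) hz)
    rwa [show i + (2 * X.dim - i) = 2 * X.dim by omega] at this
  clear_value c₀ e
  have h3 := h (c₀ + W.map (swap X X) c₀)
    (Submodule.add_mem _ hmem (W.map_mem _ hmem))
    (by rw [map_add, map_swap_swap, add_comm])
  have h4 : frob F _ (c₀ + W.map (swap X X) c₀) - (q : W.K) ^ X.dim • (c₀ + W.map (swap X X) c₀) =
      m • (e + W.map (swap X X) e) := by
    rw [map_add, frob_map, h1, map_add, map_smul, map_smul, smul_add, smul_add]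
    abel
  rw [h4, map_smul, map_add, frob_map, h2, map_smul] at h3
  have h5 := h3 (by rw [← smul_add, smul_comm, sub_self])
  exact (smul_eq_zero.1 h5).resolve_left hm

/-- Linear independence. -/
lemma kappa_ne {i j : ℕ} {y z : W.H X} (hy : y ∈ W.gr X i) (hz : z ∈ W.gr X j) (hz0 : z ≠ 0)
    (hyz : ∀ c : W.K, y ≠ c • z) :
    W.map (fst X X) y * W.map (snd X X) z +
      W.map (swap X X) (W.map (fst X X) y * W.map (snd X X) z) ≠ 0 := by
  intro h0
  apply tmul_add_ne (s := (-1 : W.K) ^ (i * j)) hz0 hyz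
  apply (kappa W X X).injective
  rw [map_add, map_smul, map_zero, kappa_tmul, kappa_tmul]
  rw [map_mul (W.map (swap X X)), ← W.map_comp, ← W.map_comp, swap_fst, swap_snd,
    W.comm (W.map_mem (snd X X) hy) (W.map_mem (fst X X) hz)] at h0
  exact h0

/-- The multiplicity is two if there is a nontrivial Jordan block. -/
lemma sym_middle (h : SymSemisimple F X) {i : ℕ} (hi : i ≤ 2 * X.dim) {x : W.H X}
    (hx : x ∈ W.gr X i) {l : W.K}
    (h0 : frob F X (frob F X x - l • x) - l • (frob F X x - l • x) = 0)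
    (h1 : frob F X x - l • x ≠ 0) :
    i = X.dim ∧ Odd X.dim ∧ l ^ 2 = (q : W.K) ^ X.dim ∧
      algMultiplicity (frob F X) (W.gr X X.dim) l = 2 := by
  have hq := q_ne F
  set y := frob F X x - l • x with hyd
  have hFx : frob F X x = l • x + y := by rw [hyd]; abel
  have hFy : frob F X y = l • y := sub_eq_zero.1 h0
  have hy : y ∈ W.gr X i := Submodule.sub_mem _ (frob_mem hx) (Submodule.smul_mem _ _ hx)
  clear_value y
  have hl : l ≠ 0 := by
    rintro rfl
    rw [zero_smul] at hFy
    have h2 := frob_pair (F := F) y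
    refine h1 (W.nondeg _ fun b => ?_)
    have h3 := h2 b
    rw [hFy, zero_mul, map_zero] at h3
    exact (mul_eq_zero.1 h3.symm).resolve_left (pow_ne_zero _ hq)
  obtain ⟨m, hlm⟩ : ∃ m, l * m = (q : W.K) ^ X.dim := ⟨l⁻¹ * (q : W.K) ^ X.dim, by
    rw [← mul_assoc, mul_inv_cancel₀ hl, one_mul]⟩
  -- an eigenvector in the dual degree
  obtain ⟨y', hy', hFy', hy'0⟩ : ∃ y' ∈ W.gr X (2 * X.dim - i), frob F X y' = m • y' ∧
      y' ≠ 0 := by
    have hst : ∀ j, ∀ a ∈ W.gr X j, frob F X a ∈ W.gr X j := fun j a ha => frob_mem ha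
    obtain ⟨x', h2, h3⟩ := exists_dual (V := W.gr X i) (V' := W.gr X (2 * X.dim - i))
      (B := (bil W X).domRestrict₁₂ _ _) (T := (frob F X).restrict (hst i))
      (T' := (frob F X).restrict (hst (2 * X.dim - i))) (c := (q : W.K) ^ X.dim) (l := l) (m := m)
      (by
        rintro ⟨a, ha⟩ hab
        apply Subtype.ext
        change a = 0
        apply W.nondeg
        intro b
        refine gr_induction (W.isInternal X) (p := fun b => W.tr X (a * b) = 0) ?_ ?_ b
        · intro j b hb
          by_cases hj : j = 2 * X.dim - i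
          · subst hj
            exact hab ⟨b, hb⟩
          · exact W.tr_eq_zero (W.mul_mem ha hb) (by omega)
        · intro b b' hb hb'
          rw [mul_add, map_add, hb, hb', add_zero])
      (fun a b => frob_pair (a : W.H X) (b : W.H X)) hlm (pow_ne_zero _ hq) (x := ⟨x, hx⟩)
      (by
        apply Subtype.ext
        change frob F X (frob F X x - l • x) - l • (frob F X x - l • x) = 0
        rw [hFx, add_sub_cancel_left, hFy, sub_self])
      (by
        intro h4
        have h5 := congrArg Subtype.val h4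
        change frob F X x - l • x = 0 at h5
        rw [hFx, add_sub_cancel_left] at h5
        exact h1 h5)
    refine ⟨frob F X x' - m • x', Submodule.sub_mem _ (frob_mem x'.2)
      (Submodule.smul_mem _ _ x'.2), ?_, ?_⟩
    · have h5 := congrArg Subtype.val h2
      change frob F X (frob F X x' - m • x') - m • (frob F X x' - m • x') = 0 at h5
      exact sub_eq_zero.1 h5
    · intro h4
      exact h3 (Subtype.ext h4)
  -- all eigenvectors in the dual degree are multiples of `y`
  have key : ∀ z ∈ W.gr X (2 * X.dim - i), frob F X z = m • z → z ≠ 0 →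
      ∃ c : W.K, y = c • z := by
    intro z hz hFz hz0
    by_contra hcon
    push Not at hcon
    exact kappa_ne hy hz hz0 hcon (sym_key h hi hx hz hFx hFy hFz hlm)
  have hi' : i = X.dim := by
    obtain ⟨c, hc⟩ := key y' hy' hFy' hy'0
    by_contra hne
    have h2 : y ∈ W.gr X (2 * X.dim - i) := by
      rw [hc]; exact Submodule.smul_mem _ _ hy'
    have h3 := proj_ne (W.isInternal X) hy (j := 2 * X.dim - i) (by omega)
    rw [proj_same _ h2] at h3
    exact h1 h3
  subst hi'
  rw [show 2 * X.dim - X.dim = X.dim by omega] at hy' key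
  have hml : m = l := by
    obtain ⟨c, hc⟩ := key y' hy' hFy' hy'0
    have h2 : frob F X y = m • y := by rw [hc, map_smul, hFy', smul_comm]
    rw [hFy] at h2
    have h3 : (l - m) • y = 0 := by rw [sub_smul, h2, sub_self]
    exact (sub_eq_zero.1 ((smul_eq_zero.1 h3).resolve_right h1)).symm
  subst hml
  have hdeg : X.dim ≤ 2 * X.dim := by omega
  have hsub : 2 * X.dim - X.dim = X.dim := by omega
  have hx0 : x ≠ 0 := by
    rintro rfl
    rw [map_zero, smul_zero, zero_add] at hFx
    exact h1 hFx.symm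
  have hyx : ∀ c : W.K, y ≠ c • x := by
    intro c hc
    have h2 := hFy
    rw [hc, map_smul, hFx, smul_add, smul_comm m c] at h2
    have h3 : c • y = 0 := by simpa using h2
    rcases smul_eq_zero.1 h3 with h4 | h4
    · rw [h4, zero_smul] at hc
      exact h1 hc
    · exact h1 h4
  -- the sign of the exchange
  have hyy : W.map (swap X X) (W.map (fst X X) y * W.map (snd X X) y) =
      (-1 : W.K) ^ (X.dim * X.dim) • (W.map (fst X X) y * W.map (snd X X) y) := by
    rw [map_mul (W.map (swap X X)), ← W.map_comp, ← W.map_comp, swap_fst, swap_snd,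
      W.comm (W.map_mem (snd X X) hy) (W.map_mem (fst X X) hy)]
  have hodd : Odd X.dim := by
    by_contra hev
    rw [Nat.not_odd_iff_even] at hev
    have h2 := sym_key h hdeg hx (z := y) (by rw [hsub]; exact hy) hFx hFy hFy hlm
    rw [hyy, (hev.mul_right X.dim).neg_one_pow, one_smul, ← two_smul W.K] at h2
    have h3 := (smul_eq_zero.1 h2).resolve_left two_ne_zero
    have h4 : kappa W X X (TensorProduct.tmul W.K y y) = 0 := by rw [kappa_tmul]; exact h3
    have h5 := (kappa W X X).injective (h4.trans (map_zero _).symm)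
    -- `y ⊗ y = 0` implies `y = 0`
    obtain ⟨b, hb⟩ : ∃ b, W.tr X (y * b) ≠ 0 := by
      by_contra hcon
      push Not at hcon
      exact h1 (W.nondeg _ hcon)
    have h6 := congrArg ((TensorProduct.lid W.K (W.H X)).toLinearMap ∘ₗ
      LinearMap.rTensor (W.H X) (W.tr X ∘ₗ LinearMap.mulRight W.K b)) h5
    simp [hb] at h6
    exact h1 h6
  refine ⟨rfl, hodd, by rw [pow_two]; exact hlm, mult_two (fun a ha => frob_mem ha) hx hFx hFy h1
    (fun z hz hFz => ?_) (fun w hw hFw => ?_)⟩
  · by_cases hz0 : z = 0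
    · exact ⟨0, by rw [hz0, zero_smul]⟩
    · obtain ⟨c, hc⟩ := key z hz hFz hz0
      have hc0 : c ≠ 0 := by
        rintro rfl
        rw [zero_smul] at hc
        exact h1 hc
      exact ⟨c⁻¹, by rw [hc, smul_smul, inv_mul_cancel₀ hc0, one_smul]⟩
  · -- a chain of length three
    set Q := (q : W.K) ^ X.dim with hQ
    set c₀ := W.map (fst X X) y * W.map (snd X X) w with hc₀
    set e := W.map (fst X X) y * W.map (snd X X) x with he
    set e₂ := W.map (fst X X) y * W.map (snd X X) y with he₂
    have f1 : frob F _ c₀ = Q • c₀ + m • e := by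
      rw [hc₀, he, frob_prod, hFy, hFw, map_add, map_smul, map_smul, mul_add, smul_mul_assoc,
        smul_mul_assoc, mul_smul_comm, smul_smul, hlm]
    have f2 : frob F _ e = Q • e + m • e₂ := by
      rw [he, he₂, frob_prod, hFy, hFx, map_add, map_smul, map_smul, mul_add, smul_mul_assoc,
        smul_mul_assoc, mul_smul_comm, smul_smul, hlm]
    have hsw : W.map (swap X X) e₂ = -e₂ := by
      rw [he₂, hyy, (hodd.mul hodd).neg_one_pow, neg_one_smul]
    have hmem : c₀ ∈ W.gr (X.prod X) (2 * X.dim) := by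
      have := W.mul_mem (W.map_mem (fst X X) hy) (W.map_mem (snd X X) hw)
      rwa [← two_mul] at this
    have hne := kappa_ne hy hx hx0 hyx
    rw [← he] at hne
    clear_value c₀ e e₂ Q
    have h3 := h (c₀ + W.map (swap X X) c₀)
      (Submodule.add_mem _ hmem (W.map_mem _ hmem))
      (by rw [map_add, map_swap_swap, add_comm])
    rw [← hQ] at h3
    have h4 : frob F _ (c₀ + W.map (swap X X) c₀) - Q • (c₀ + W.map (swap X X) c₀) =
        m • (e + W.map (swap X X) e) := by
      rw [map_add, frob_map, f1, map_add, map_smul, map_smul, smul_add, smul_add]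
      abel
    have h5 : frob F _ (e + W.map (swap X X) e) - Q • (e + W.map (swap X X) e) = 0 := by
      rw [map_add, frob_map, f2, map_add, map_smul, map_smul, hsw, smul_add, smul_neg]
      abel
    rw [h4, map_smul, smul_comm Q m, ← smul_sub, h5, smul_zero] at h3
    exact hne ((smul_eq_zero.1 (h3 rfl)).resolve_left hl)

end Pool.Agent.R909
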