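import Pool.Agent.R909.SsB

/-!
# Semisimplicity of Frobenius and Hilbert squares
-/

open CategoryTheory AlgebraicGeometry Finset Polynomial

universe u v

namespace Pool.Agent.R909

open Pool.Agent.H914 Pool.Agent.H447 Pool.Agent.W534 Pool.Agent.W537 VarClass Obj WeilCohomology

variable {k : Type u} [Field k] {𝒱 : VarClass k} {ops : CycleOps 𝒱}
  {W : WeilCohomology.{u, v} ops} {q : ℕ} {F : Frobenius W q} {X Y Z V P B : 𝒱.Obj}

/-- Semisimplicity on the graded pieces. -/
lemma diag_of_graded (h : ∀ i, ∀ l : W.K, SemisimpleEigenvalue (frob F X) (W.gr X i) l) :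
    Diag (frob F X) := by
  intro l x hx
  have hhom : IsHom (W.gr X) 0 (frob F X) := by
    intro i a ha
    rw [add_zero]
    by_cases hi : 0 ≤ i
    · lift i to ℕ using hi
      rw [grZ_natCast] at ha ⊢
      exact frob_mem ha
    · rw [grZ_of_neg (by omega)] at ha ⊢
      rw [(Submodule.mem_bot _).1 ha, map_zero]
      exact Submodule.zero_mem _
  have hc : ∀ i a, proj (W.isInternal X) i (frob F X a) =
      frob F X (proj (W.isInternal X) i a) := by
    intro i a
    have := congrArg (fun T => T a) (hhom.proj_comm (W.isInternal X) i)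
    exact this
  have h1 : ∀ i, proj (W.isInternal X) i (frob F X x - l • x) = 0 := by
    intro i
    have h2 := h i l (proj (W.isInternal X) i x) (proj_mem _ i x) (by
      have h3 := congrArg (proj (W.isInternal X) i) hx
      rw [map_sub, hc, map_smul, map_sub, hc, map_smul, map_zero] at h3
      exact h3)
    rw [map_sub, hc, map_smul]
    exact h2
  have hsum := sum_proj (W.isInternal X) (N := 2 * X.dim + 1)
    (fun i hi => W.gr_eq_bot X i (by omega))
  have h2 := congrArg (fun T => T (frob F X x - l • x)) hsum
  simp only [LinearMap.sum_apply, h1, Finset.sum_const_zero, Module.End.one_apply] at h2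
  exact h2.symm

lemma semisimple_sub {T : Module.End W.K (W.H X)} (hT : Diag T) (U : Submodule W.K (W.H X))
    (l : W.K) : SemisimpleEigenvalue T U l := fun x _ hx => hT l x hx

/-- The extension of operators as a homomorphism of algebras. -/
lemma aeval_extL (φ : Module.End W.K (W.H X)) (p : W.K[X]) :
    aeval (extL W X Y φ) p = extL W X Y (aeval φ p) := by
  induction p using Polynomial.induction_on' with
  | add p r hp hr => rw [map_add, map_add, map_add, hp, hr]
  | monomial r d =>
    rw [aeval_monomial, aeval_monomial, map_mul, map_pow]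
    congr 1
    rw [Algebra.algebraMap_eq_smul_one, Algebra.algebraMap_eq_smul_one, extL_apply,
      extOp_smul_left, extOp_one]

lemma aeval_extR (φ : Module.End W.K (W.H Y)) (p : W.K[X]) :
    aeval (extR W X Y φ) p = extR W X Y (aeval φ p) := by
  induction p using Polynomial.induction_on' with
  | add p r hp hr => rw [map_add, map_add, map_add, hp, hr]
  | monomial r d =>
    rw [aeval_monomial, aeval_monomial, map_mul, map_pow]
    congr 1
    rw [Algebra.algebraMap_eq_smul_one, Algebra.algebraMap_eq_smul_one, extR_apply,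
      extOp_smul_right, extOp_one]

/-- Frobenius on a product. -/
lemma frob_prod_eq (F : Frobenius W q) (X Y : 𝒱.Obj) :
    frob F (X.prod Y) = extL W X Y (frob F X) * extR W X Y (frob F Y) := by
  rw [extLR]
  apply ext_kunneth_lin
  intro a b
  rw [extOp_tmul, frob_prod]

/-- The product of two varieties with semisimple Frobenius. -/
lemma semisimple_prod (hX : FrobSemisimple F X) (hY : FrobSemisimple F Y) :
    FrobSemisimple F (X.prod Y) := by
  unfold FrobSemisimple at *
  rw [frob_prod_eq]
  apply Module.End.IsSemisimple.mul_of_commute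
  · exact ext_commute _ _
  · apply Module.End.isSemisimple_of_squarefree_aeval_eq_zero hX.minpoly_squarefree
    rw [aeval_extL, minpoly.aeval, map_zero]
  · apply Module.End.isSemisimple_of_squarefree_aeval_eq_zero hY.minpoly_squarefree
    rw [aeval_extR, minpoly.aeval, map_zero]

/-- Varieties all of whose cohomology is algebraic. -/
lemma semisimple_algebraic (hP : AllAlgebraic W P) : FrobSemisimple F P := by
  classical
  set s : Finset W.K := (Finset.range (P.dim + 1)).image (fun r => (q : W.K) ^ r) with hs
  have hsq : Squarefree (∏ a ∈ s, (X - C a) : W.K[X]) :=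
    (separable_prod_X_sub_C_iff'.2 (fun x _ y _ h => h)).squarefree
  refine Module.End.isSemisimple_of_squarefree_aeval_eq_zero hsq ?_
  apply LinearMap.ext
  intro a
  rw [LinearMap.zero_apply]
  refine Submodule.span_induction (p := fun a _ => aeval (frob F P) (∏ a ∈ s, (X - C a)) a = 0)
    ?_ ?_ ?_ ?_ (hP a)
  · rintro _ ⟨p, z, hz, rfl⟩
    by_cases hp : p ≤ P.dim
    · have hmem : (q : W.K) ^ p ∈ s := Finset.mem_image.2 ⟨p, Finset.mem_range.2 (by omega), rfl⟩
      rw [← Finset.prod_erase_mul _ _ hmem, map_mul, Module.End.mul_apply]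
      have h1 : aeval (frob F P) (X - C ((q : W.K) ^ p)) (W.cl P z) = 0 := by
        rw [map_sub, aeval_X, aeval_C, LinearMap.sub_apply, Module.algebraMap_end_apply,
          frob_apply, F.cyc hz, sub_self]
      rw [h1, map_zero]
    · have h1 := W.cl_mem hz
      rw [W.gr_eq_bot _ _ (by omega)] at h1
      rw [(Submodule.mem_bot _).1 h1, map_zero]
  · rw [map_zero]
  · intro x y _ _ hx hy
    rw [map_add, hx, hy, add_zero]
  · intro c x _ hx
    rw [map_smul, hx, smul_zero]

/-- The Hilbert square. -/
lemma semisimple_hilbert [IsAlgClosed W.K] (hY : IsHilb W Y X) (hX : FrobSemisimple F X) :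
    FrobSemisimple F Y := by
  obtain ⟨P, hP, hY⟩ := hY
  have h1 := diag_of_isSemisimple (semisimple_prod hX hX)
  have h2 := diag_of_isSemisimple (semisimple_prod hX (semisimple_algebraic (F := F) hP))
  obtain ⟨α, β, γ, δ, hα, hβ, hγ, hδ, hs⟩ := hY.maps
  have hq := q_ne F
  apply isSemisimple_of_diag
  intro l y hy
  have hβF : ∀ y, β (frob F Y y) = frob F _ (β y) := fun y => by
    rw [frob_kop hβ, zpow_zero, one_smul]
  have hδF : ∀ y, δ (frob F Y y) = (q : W.K) • frob F _ (δ y) := fun y => by
    rw [frob_kop hδ, zpow_neg_one, smul_smul, mul_inv_cancel₀ hq, one_smul]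
  have hb : ∀ v, β (frob F Y v - l • v) = frob F _ (β v) - l • β v := fun v => by
    rw [map_sub, hβF, map_smul]
  have e1 : β (frob F Y y - l • y) = 0 := by
    rw [hb]
    apply h1
    have := congrArg β hy
    rwa [hb, hb, map_zero] at this
  have hd : ∀ v, δ (frob F Y v - l • v) =
      (q : W.K) • (frob F _ (δ v) - (l / q) • δ v) := fun v => by
    rw [map_sub, hδF, map_smul, smul_sub, smul_smul, mul_div_cancel₀ _ hq]
  have e2 : δ (frob F Y y - l • y) = 0 := by
    rw [hd]
    have h3 := congrArg δ hy
    rw [hd, hd, map_zero, map_smul, smul_comm (l / (q : W.K)), ← smul_sub, smul_smul] at h3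
    rw [h2 _ _ ((smul_eq_zero.1 h3).resolve_left (mul_ne_zero hq hq)), smul_zero]
  rw [← hs.eq (frob F Y y - l • y), e1, e2, map_zero, map_zero, add_zero]

end Pool.Agent.R909
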