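import Pool.Agent.R909.SsC

/-!
# Semisimplicity of Frobenius and Hilbert squares: conclusion
-/

open CategoryTheory AlgebraicGeometry Finset Polynomial

universe u v

namespace Pool.Agent.R909

open Pool.Agent.H914 Pool.Agent.H447 Pool.Agent.W534 Pool.Agent.W537 VarClass Obj WeilCohomology

variable {k : Type u} [Field k] {𝒱 : VarClass k} {ops : CycleOps 𝒱}
  {W : WeilCohomology.{u, v} ops} {q : ℕ} {F : Frobenius W q} {X Y Z V P B : 𝒱.Obj}

lemma sym_all (h : SymSemisimple F X) (i : ℕ) (l : W.K) :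
    SemisimpleOnDegree F X i l ∨ IsExceptional F X i l := by
  by_contra hcon
  push Not at hcon
  obtain ⟨h1, h2⟩ := hcon
  apply h1
  intro x hx hx0
  by_contra hne
  by_cases hi : i ≤ 2 * X.dim
  · obtain ⟨h3, h4, h5, h6⟩ := sym_middle h hi hx hx0 hne
    subst h3
    exact h2 ⟨rfl, h4, h5, h6⟩
  · rw [W.gr_eq_bot _ _ (by omega)] at hx
    rw [(Submodule.mem_bot _).1 hx, map_zero, smul_zero, sub_zero] at hne
    exact hne rfl

/-- One eigenvalue on the Hilbert square. -/
lemma hilbert_all (hY : IsHilb W Y X) (h : SemisimpleAt F Y X.dim) (i : ℕ) (l : W.K) :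
    SemisimpleOnDegree F X i l ∨ IsExceptional F X i l := by
  obtain ⟨P, -, hY⟩ := hY
  exact sym_all (symSemisimple_of_hilbert hY h) i l

lemma hilbert_ss_tfae [IsAlgClosed W.K] (hY : IsHilb W Y X)
    (hX : ∀ i l, ¬ IsExceptional F X i l) :
    List.TFAE [FrobSemisimple F X, FrobSemisimple F Y, SemisimpleAt F Y X.dim] := by
  tfae_have 1 → 2 := semisimple_hilbert hY
  tfae_have 2 → 3 := fun h => semisimple_sub (diag_of_isSemisimple h) _ _
  tfae_have 3 → 1 := fun h => isSemisimple_of_diag (diag_of_graded fun i l =>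
    (hilbert_all hY h i l).resolve_right (hX i l))
  tfae_finish

/-- The Hilbert square of a product. -/
lemma semisimple_of_product [IsAlgClosed W.K] (h0 : 0 < B.dim) (hB : HasPoint B)
    (hZ : IsHilb W Z (X.prod B)) (h : SemisimpleAt F Z (X.prod B).dim) : FrobSemisimple F X := by
  obtain ⟨b, hb, hb0⟩ := hB
  have htr : W.tr B (W.cl B b) ≠ 0 := by
    rw [W.tr_cl hb]
    exact_mod_cast hb0
  apply isSemisimple_of_diag
  apply diag_of_graded
  intro i l x hx hx0
  by_contra hne
  set y := frob F X x - l • x with hyd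
  have hFx : frob F X x = l • x + y := by rw [hyd]; abel
  have hFy : frob F X y = l • y := sub_eq_zero.1 hx0
  clear_value y
  obtain ⟨a, ha⟩ : ∃ a, W.tr X (y * a) ≠ 0 := by
    by_contra hcon
    push Not at hcon
    exact hne (W.nondeg _ hcon)
  have hyb : W.map (fst X B) y * W.map (snd X B) (W.cl B b) ≠ 0 := by
    intro h1
    have h2 := W.tr_prod (X := X) (Y := B) (y * a) (W.cl B b)
    rw [map_mul (W.map (fst X B)), mul_assoc, ← W.even_comm (W.map_mem _ (W.cl_mem hb)),
      ← mul_assoc, h1, zero_mul, map_zero] at h2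
    exact mul_ne_zero ha htr h2.symm
  have hy1 : W.map (fst X B) y ≠ 0 := by
    intro h1
    rw [h1, zero_mul] at hyb
    exact hyb rfl
  have hsym := hilbert_all hZ h
  -- the class `x × 1`
  have c1 : i = (X.prod B).dim := by
    by_contra hi
    have h1 := (hsym i l).resolve_right (fun h => hi h.1)
    have h2 := h1 (W.map (fst X B) x) (W.map_mem _ hx) (by
      rw [frob_map, hFx, map_add, map_smul, add_sub_cancel_left, frob_map, hFy, map_smul,
        sub_self])
    rw [frob_map, hFx, map_add, map_smul, add_sub_cancel_left] at h2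
    exact hy1 h2
  have c2 : i + 2 * B.dim = (X.prod B).dim := by
    by_contra hi
    have h1 := (hsym (i + 2 * B.dim) (l * (q : W.K) ^ B.dim)).resolve_right (fun h => hi h.1)
    have e1 : frob F _ (W.map (fst X B) x * W.map (snd X B) (W.cl B b)) =
        (l * (q : W.K) ^ B.dim) • (W.map (fst X B) x * W.map (snd X B) (W.cl B b)) +
          (q : W.K) ^ B.dim • (W.map (fst X B) y * W.map (snd X B) (W.cl B b)) := by
      rw [frob_prod, hFx, frob_apply (W.cl B b), F.cyc hb, map_add, map_smul, map_smul, add_mul,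
        smul_mul_assoc, mul_smul_comm, mul_smul_comm, smul_smul]
    have e2 : frob F _ (W.map (fst X B) y * W.map (snd X B) (W.cl B b)) =
        (l * (q : W.K) ^ B.dim) • (W.map (fst X B) y * W.map (snd X B) (W.cl B b)) := by
      rw [frob_prod, hFy, frob_apply (W.cl B b), F.cyc hb, map_smul, map_smul,
        smul_mul_assoc, mul_smul_comm, smul_smul]
    have h2 := h1 _ (W.mul_mem (W.map_mem (fst X B) hx) (W.map_mem (snd X B) (W.cl_mem hb))) (by
      rw [e1, add_sub_cancel_left, map_smul, e2, smul_comm, sub_self])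
    rw [e1, add_sub_cancel_left] at h2
    exact hyb ((smul_eq_zero.1 h2).resolve_left (pow_ne_zero _ (q_ne F)))
  omega

lemma product_iff [IsAlgClosed W.K] (h0 : 0 < B.dim) (hB : HasPoint B) (hBF : FrobSemisimple F B)
    (hZ : IsHilb W Z (X.prod B)) :
    FrobSemisimple F X ↔ SemisimpleAt F Z (X.prod B).dim :=
  ⟨fun h => semisimple_sub (diag_of_isSemisimple (semisimple_hilbert hZ (semisimple_prod h hBF)))
    _ _, semisimple_of_product h0 hB hZ⟩

lemma all_semisimple_iff [IsAlgClosed W.K] {Q : 𝒱.Obj} (hQ2 : 2 ≤ Q.dim) (hQ : HasPoint Q)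
    (hH : ∀ V : 𝒱.Obj, 2 ≤ V.dim → ∃ Z, IsHilb W Z V) :
    (∀ V, FrobSemisimple F V) ↔ ∀ V Z, IsHilb W Z V → SemisimpleAt F Z V.dim := by
  constructor
  · intro h V Z _
    exact semisimple_sub (diag_of_isSemisimple (h Z)) _ _
  · intro h V
    obtain ⟨Z, hZ⟩ := hH (V.prod Q) (by rw [dim_prod]; omega)
    exact semisimple_of_product (by omega) hQ hZ (h _ Z hZ)

end Pool.Agent.R909
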