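import Pool.Agent.R909.DsqDefs

/-!
# Semisimplicity of Frobenius and Hilbert squares: definitions
-/

open CategoryTheory AlgebraicGeometry

universe u v

namespace Pool.Agent.R909

open Pool.Agent.H914 Pool.Agent.H447 VarClass Obj WeilCohomology

section Alg

variable {K V : Type*} [Field K] [AddCommGroup V] [Module K V]

/-- The generalised eigenvectors of `T` for `μ` of order two in `U` are eigenvectors: if `μ` is an
eigenvalue of `T` on `U` then it is a semisimple eigenvalue. -/
def SemisimpleEigenvalue (T : Module.End K V) (U : Submodule K V) (μ : K) : Prop :=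
  ∀ x ∈ U, T (T x - μ • x) - μ • (T x - μ • x) = 0 → T x - μ • x = 0

/-- The multiplicity of `μ` as an eigenvalue of `T` on the invariant subspace `U`: the dimension of
the generalised eigenspace. -/
noncomputable def algMultiplicity (T : Module.End K V) (U : Submodule K V) (μ : K) : ℕ :=
  Module.finrank K (T.maxGenEigenspace μ ⊓ U : Submodule K V)

end Alg

variable {k : Type u} [Field k] {𝒱 : VarClass k} {ops : CycleOps 𝒱}

/-- Frobenius endomorphisms of the varieties over a field with `q` elements: natural endomorphisms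
which multiply the classes of cycles of codimension `j` by `q ^ j` and the classes of degree
`2 dim X` by `q ^ dim X`. -/
structure Frobenius (W : WeilCohomology.{u, v} ops) (q : ℕ) where
  Fr : ∀ X : 𝒱.Obj, X ⟶ X
  pos : 0 < q
  comm : ∀ {X Y : 𝒱.Obj} (f : X ⟶ Y), Fr X ≫ f = f ≫ Fr Y
  cyc : ∀ {X : 𝒱.Obj} {j : ℕ} {z : X.Cycles}, X.IsCyc j z →
    W.map (Fr X) (W.cl X z) = ((q : W.K) ^ j) • W.cl X z
  deg : ∀ {X : 𝒱.Obj} {c : W.H X}, c ∈ W.gr X (2 * X.dim) →
    W.map (Fr X) c = ((q : W.K) ^ X.dim) • c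

variable {W : WeilCohomology.{u, v} ops} {q : ℕ}

/-- The Frobenius operator on `H(X)`. -/
noncomputable def frob (F : Frobenius W q) (X : 𝒱.Obj) : Module.End W.K (W.H X) :=
  (W.map (F.Fr X)).toLinearMap

/-- Frobenius acts semisimply on `H(X)`. -/
def FrobSemisimple (F : Frobenius W q) (X : 𝒱.Obj) : Prop := (frob F X).IsSemisimple

/-- The eigenvalue `q ^ j` of Frobenius on `H^(2j)(X)` is semisimple. -/
def SemisimpleAt (F : Frobenius W q) (X : 𝒱.Obj) (j : ℕ) : Prop :=
  SemisimpleEigenvalue (frob F X) (W.gr X (2 * j)) ((q : W.K) ^ j)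

/-- The eigenvalue `l` of Frobenius on `H^i(X)` is exceptional: `i = dim X` is odd,
`l ^ 2 = q ^ dim X`, and the multiplicity of `l` is two. -/
def IsExceptional (F : Frobenius W q) (X : 𝒱.Obj) (i : ℕ) (l : W.K) : Prop :=
  i = X.dim ∧ Odd i ∧ l ^ 2 = (q : W.K) ^ i ∧ algMultiplicity (frob F X) (W.gr X i) l = 2

/-- The eigenvalue `l` of Frobenius on `H^i(X)` is semisimple. -/
def SemisimpleOnDegree (F : Frobenius W q) (X : 𝒱.Obj) (i : ℕ) (l : W.K) : Prop :=
  SemisimpleEigenvalue (frob F X) (W.gr X i) l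

/-- The variety `B` has a zero-cycle of nonzero degree. -/
def HasPoint (B : 𝒱.Obj) : Prop := ∃ b : B.Cycles, B.IsCyc B.dim b ∧ B.V.degCycle b ≠ 0

end Pool.Agent.R909
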